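import Pool.Agent.K4H17.FPP.Meas

/-!
First-passage percolation on `ℤ²`: transfer between the setting of the problem and the
canonical space.
-/

set_option autoImplicit false
open MeasureTheory ProbabilityTheory Filter
open scoped Pointwise

namespace Pool.Agent.K4H17.FPP

variable {Ω : Type} [MeasureSpace Ω] {X : Sym2 V → Ω → ℝ} {T : Ω → V → ℝ} {μ : ℝ × ℝ → ℝ}

theorem Setting.measurable_weights (S : Setting Ω X T μ) :
    Measurable (fun ω e => X e ω) := measurable_pi_iff.2 S.meas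

/-- the law of the weights in the setting of the problem -/
theorem Setting.map_eq (S : Setting Ω X T μ) :
    (volume : Measure Ω).map (fun ω e => X e ω) = PP := by
  have := S.prob
  have h := (iIndepFun_iff_map_fun_eq_infinitePi_map S.meas).1 S.indep
  rw [h]
  unfold PP
  congr 1
  funext e
  exact S.law e

/-- transfer of an event to the canonical space -/
theorem Setting.real_eq (S : Setting Ω X T μ) {A : Set W} (hA : MeasurableSet A) :
    (volume : Measure Ω).real {ω | (fun e => X e ω) ∈ A} = PP.real A := by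
  rw [← S.map_eq, map_measureReal_apply S.measurable_weights hA]
  rfl

theorem Setting.ae_of_ae (S : Setting Ω X T μ) {P : W → Prop} (h : ∀ᵐ x ∂PP, P x) :
    ∀ᵐ ω ∂(volume : Measure Ω), P (fun e => X e ω) := by
  rw [← S.map_eq] at h
  exact ae_of_ae_map S.measurable_weights.aemeasurable h

theorem step_iff (a b : V) : |b.1 - a.1| + |b.2 - a.2| = 1 ↔ nrm (b - a) = 1 := by
  rw [Int.abs_eq_natAbs, Int.abs_eq_natAbs]
  simp only [nrm, Prod.fst_sub, Prod.snd_sub]
  omega

/-- the set of passage times in the problem -/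
theorem time_set_eq (x : W) (v : V) :
    {s : ℝ | ∃ n : ℕ, ∃ p : ℕ → ℤ × ℤ, p 0 = 0 ∧ p n = v ∧
        (∀ i < n, |(p (i + 1)).1 - (p i).1| + |(p (i + 1)).2 - (p i).2| = 1) ∧
        s = ∑ i ∈ Finset.range n, x s(p i, p (i + 1))} =
      {s : ℝ | ∃ n p, IsP Set.univ 0 v n p ∧ s = cst x p n} := by
  ext s
  constructor
  · rintro ⟨n, p, h1, h2, h3, h4⟩
    exact ⟨n, p, ⟨h1, h2, fun i hi => (step_iff _ _).1 (h3 i hi), fun _ _ => Set.mem_univ _⟩, h4⟩
  · rintro ⟨n, p, ⟨h1, h2, h3, _⟩, h5⟩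
    exact ⟨n, p, h1, h2, fun i hi => (step_iff _ _).2 (h3 i hi), h5⟩

theorem cst_nonneg {x : W} (hx : ∀ e, 0 ≤ x e) (p : ℕ → V) (n : ℕ) : 0 ≤ cst x p n :=
  Finset.sum_nonneg (fun _ _ => hx _)

/-- there is a path between any two vertices -/
theorem exists_path (u v : V) : ∃ n p, IsP Set.univ u v n p := by
  have h : Fast (fun _ => 0) Set.univ u v 1 := by
    have := fast_stair (x := fun _ => 0) (u := u) (v := v) (y := 0) (c := 1)
      (fun _ _ _ _ _ => le_rfl) (by simp)
    exact this.mono (Set.subset_univ _) le_rfl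
  obtain ⟨n, p, hp, _⟩ := h
  exact ⟨n, p, hp⟩

/-- the passage time with weights `x` -/
noncomputable def tm (x : W) (v : V) : ℝ := sInf {s : ℝ | ∃ n p, IsP Set.univ 0 v n p ∧ s = cst x p n}

theorem Setting.T_eq (S : Setting Ω X T μ) (ω : Ω) (v : V) :
    T ω v = tm (fun e => X e ω) v := by
  rw [S.hT ω v, tm, ← time_set_eq]

theorem tm_lt_iff {x : W} (hx : ∀ e, 0 ≤ x e) (v : V) (c : ℝ) :
    tm x v < c ↔ Fast x Set.univ 0 v c := by
  obtain ⟨n0, p0, hp0⟩ := exists_path 0 v
  have hne : {s : ℝ | ∃ n p, IsP Set.univ 0 v n p ∧ s = cst x p n}.Nonempty :=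
    ⟨_, n0, p0, hp0, rfl⟩
  have hbd : BddBelow {s : ℝ | ∃ n p, IsP Set.univ 0 v n p ∧ s = cst x p n} := by
    refine ⟨0, ?_⟩
    rintro s ⟨n, p, _, rfl⟩
    exact cst_nonneg hx p n
  unfold tm
  rw [csInf_lt_iff hbd hne]
  constructor
  · rintro ⟨s, ⟨n, p, hp, rfl⟩, hlt⟩
    exact ⟨n, p, hp, hlt⟩
  · rintro ⟨n, p, hp, hlt⟩
    exact ⟨_, ⟨n, p, hp, rfl⟩, hlt⟩

theorem tm_nonneg {x : W} (hx : ∀ e, 0 ≤ x e) (v : V) : 0 ≤ tm x v := by
  unfold tm
  apply Real.sInf_nonneg
  rintro s ⟨n, p, _, rfl⟩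
  exact cst_nonneg hx p n

theorem Setting.T_lt_iff (S : Setting Ω X T μ) :
    ∀ᵐ ω ∂(volume : Measure Ω), ∀ (v : V) (c : ℝ),
      T ω v < c ↔ Fast (fun e => X e ω) Set.univ 0 v c := by
  filter_upwards [S.ae_of_ae nonneg_ae] with ω hω v c
  rw [S.T_eq]
  exact tm_lt_iff hω v c

theorem Setting.T_nonneg (S : Setting Ω X T μ) :
    ∀ᵐ ω ∂(volume : Measure Ω), ∀ v : V, 0 ≤ T ω v := by
  filter_upwards [S.ae_of_ae nonneg_ae] with ω hω v
  rw [S.T_eq]
  exact tm_nonneg hω v

theorem tm_aemeasurable (v : V) : AEMeasurable (fun x : W => tm x v) PP := by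
  classical
  -- a measurable version: `tm` where all weights are nonnegative, `0` elsewhere
  have hA : MeasurableSet {x : W | ∀ e, 0 ≤ x e} := by
    have : {x : W | ∀ e, 0 ≤ x e} = ⋂ e, {x : W | 0 ≤ x e} := by
      ext x
      simp
    rw [this]
    exact MeasurableSet.iInter fun e => measurableSet_le measurable_const (measurable_pi_apply e)
  refine ⟨fun x => if (∀ e, 0 ≤ x e) then tm x v else 0, ?_, ?_⟩
  · refine measurable_of_Iio fun c => ?_
    have : (fun x : W => if (∀ e, 0 ≤ x e) then tm x v else 0) ⁻¹' Set.Iio c =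
        ({x : W | ∀ e, 0 ≤ x e} ∩ {x | Fast x Set.univ 0 v c}) ∪
          ({x : W | ∀ e, 0 ≤ x e}ᶜ ∩ {_x | (0 : ℝ) < c}) := by
      ext x
      simp only [Set.mem_preimage, Set.mem_Iio, Set.mem_union, Set.mem_inter_iff,
        Set.mem_ofPred_eq, Set.mem_compl_iff]
      by_cases h : ∀ e, 0 ≤ x e
      · rw [if_pos h, tm_lt_iff h]
        simp [h]
      · rw [if_neg h]
        simp [h]
    rw [this]
    exact (hA.inter (measurableSet_fast _ _ _ _)).union (hA.compl.inter (MeasurableSet.const _))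
  · filter_upwards [nonneg_ae] with x hx
    rw [if_pos hx]

theorem Setting.T_measurable (S : Setting Ω X T μ) (v : V) :
    AEMeasurable (fun ω => T ω v) (volume : Measure Ω) := by
  have h1 : (fun ω => T ω v) = (fun x : W => tm x v) ∘ (fun ω e => X e ω) := by
    funext ω
    exact S.T_eq ω v
  rw [h1]
  apply AEMeasurable.comp_measurable _ S.measurable_weights
  rw [S.map_eq]
  exact tm_aemeasurable v

/-- `T(0,v) < c` in probability -/
theorem Setting.real_T_lt (S : Setting Ω X T μ) (v : V) (c : ℝ) :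
    (volume : Measure Ω).real {ω | T ω v < c} = PP.real {x | Fast x Set.univ 0 v c} := by
  rw [← S.real_eq (measurableSet_fast _ _ _ _)]
  apply measureReal_congr
  filter_upwards [S.T_lt_iff] with ω hω
  exact propext (hω v c)

theorem Setting.real_T_ge (S : Setting Ω X T μ) (v : V) (c : ℝ) :
    (volume : Measure Ω).real {ω | c ≤ T ω v} = PP.real {x | ¬ Fast x Set.univ 0 v c} := by
  have h0 : MeasurableSet {x : W | ¬ Fast x Set.univ 0 v c} :=
    (measurableSet_fast _ _ _ _).compl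
  rw [← S.real_eq h0]
  apply measureReal_congr
  filter_upwards [S.T_lt_iff] with ω hω
  have := hω v c
  apply propext
  show c ≤ T ω v ↔ ¬ Fast (fun e => X e ω) Set.univ 0 v c
  rw [← this, not_lt]

end Pool.Agent.K4H17.FPP
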