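import Pool.Agent.K4H17.FPP.Api

/-!
First-passage percolation on `ℤ²`: from the events of the problem (shape inclusions) to the
one-point tail bounds and back.
-/

set_option autoImplicit false
open MeasureTheory ProbabilityTheory Filter Asymptotics
open scoped Pointwise

namespace Pool.Agent.K4H17.FPP

variable {Ω : Type} [MeasureSpace Ω] {X : Sym2 V → Ω → ℝ} {T : Ω → V → ℝ} {μ : ℝ × ℝ → ℝ} {Cμ : ℝ}

namespace Ev

theorem mem_smul_shape (hμ : MuOK μ Cμ) {s : ℝ} (hs : 0 < s) (x : ℝ × ℝ) :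
    x ∈ s • {x : ℝ × ℝ | μ x ≤ 1} ↔ μ x ≤ s := by
  rw [Set.mem_smul_set_iff_inv_smul_mem₀ hs.ne']
  simp only [Set.mem_ofPred_eq]
  rw [hμ.hom x s⁻¹ (by positivity), inv_mul_le_iff₀ hs, mul_one]

theorem near_le (hμ : MuOK μ Cμ) {x : ℝ × ℝ} {v : V} (h1 : |x.1 - (v.1 : ℝ)| ≤ 1 / 2)
    (h2 : |x.2 - (v.2 : ℝ)| ≤ 1 / 2) : at' μ v ≤ μ x + Cμ ∧ μ x ≤ at' μ v + Cμ := by
  have h := hμ.one_le
  constructor
  · have e : (((v.1 : ℝ), (v.2 : ℝ)) : ℝ × ℝ) = x + ((v.1 : ℝ) - x.1, (v.2 : ℝ) - x.2) := by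
      ext <;> simp
    have h3 := hμ.sub x ((v.1 : ℝ) - x.1, (v.2 : ℝ) - x.2)
    have h4 := (abs_le.1 (hμ.abs_le ((v.1 : ℝ) - x.1, (v.2 : ℝ) - x.2))).2
    simp only at h4
    rw [abs_sub_comm] at h1 h2
    have h5 : Cμ * (|(v.1 : ℝ) - x.1| + |(v.2 : ℝ) - x.2|) ≤ Cμ * 1 :=
      mul_le_mul_of_nonneg_left (by linarith) (by linarith)
    rw [← e] at h3
    unfold at'
    linarith
  · have e : x = (((v.1 : ℝ), (v.2 : ℝ)) : ℝ × ℝ) + (x.1 - (v.1 : ℝ), x.2 - (v.2 : ℝ)) := by
      ext <;> simp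
    have h3 := hμ.sub (((v.1 : ℝ), (v.2 : ℝ)) : ℝ × ℝ) (x.1 - (v.1 : ℝ), x.2 - (v.2 : ℝ))
    have h4 := (abs_le.1 (hμ.abs_le (x.1 - (v.1 : ℝ), x.2 - (v.2 : ℝ)))).2
    simp only at h4
    have h5 : Cμ * (|x.1 - (v.1 : ℝ)| + |x.2 - (v.2 : ℝ)|) ≤ Cμ * 1 :=
      mul_le_mul_of_nonneg_left (by linarith) (by linarith)
    rw [← e] at h3
    unfold at'
    linarith

/-- powers: `K t ^ a + K' ≤ t ^ b` for large `t` -/
theorem ev_pow {a b : ℝ} (hab : a < b) (hb : 0 < b) (K K' : ℝ) :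
    ∀ᶠ t : ℝ in atTop, K * t ^ a + K' ≤ t ^ b := by
  have h1 := (tendsto_rpow_atTop (sub_pos.2 hab)).eventually_ge_atTop (2 * K)
  have h2 := (tendsto_rpow_atTop hb).eventually_ge_atTop (2 * K')
  filter_upwards [h1, h2, eventually_gt_atTop 0] with t h1 h2 h3
  have h4 : t ^ b = t ^ (b - a) * t ^ a := by
    rw [← Real.rpow_add h3]
    congr 1
    ring
  have h5 : 0 ≤ t ^ a := Real.rpow_nonneg h3.le a
  have h6 : 2 * K * t ^ a ≤ t ^ (b - a) * t ^ a := mul_le_mul_of_nonneg_right h1 h5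
  rw [← h4] at h6
  linarith

/-- `(K t) ^ 2 exp (- t ^ c) ≤ exp (- t ^ (c / 2)) / 2` for large `t` -/
theorem ev_exp {c : ℝ} (hc : 0 < c) {K : ℝ} (hK : 0 < K) {d : ℝ} (hd : d < c) :
    ∀ᶠ t : ℝ in atTop, (K * t) ^ 2 * Real.exp (-t ^ c) ≤ Real.exp (-t ^ d) / 2 := by
  have h1 : ∀ᶠ t : ℝ in atTop, ‖Real.log t‖ ≤ (1 / 8) * ‖t ^ c‖ :=
    (isLittleO_log_rpow_atTop hc).bound (by norm_num)
  have h2 := (tendsto_rpow_atTop hc).eventually_ge_atTop (4 * (2 * Real.log K + Real.log 2))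
  have h3 := ev_pow hd hc 2 0
  filter_upwards [h1, h2, h3, eventually_gt_atTop 0] with t h1 h2 h3 h4
  rw [Real.norm_eq_abs, Real.norm_eq_abs, abs_of_nonneg (Real.rpow_nonneg h4.le c)] at h1
  have h5 := (abs_le.1 h1).2
  have e1 : (K * t) ^ 2 * Real.exp (-t ^ c) =
      Real.exp (2 * Real.log K + 2 * Real.log t - t ^ c) := by
    rw [Real.exp_sub, Real.exp_add, Real.exp_neg, mul_comm 2 (Real.log K), mul_comm 2 (Real.log t),
      Real.exp_mul, Real.exp_mul, Real.exp_log hK, Real.exp_log h4]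
    rw [Real.rpow_two, Real.rpow_two, mul_pow]
    rfl
  have e2 : Real.exp (-t ^ d) / 2 = Real.exp (-t ^ d - Real.log 2) := by
    rw [Real.exp_sub, Real.exp_log (by norm_num)]
  rw [e1, e2]
  apply Real.exp_le_exp.2
  linarith

theorem rpow_mono {x y b : ℝ} (hx : 0 ≤ x) (hxy : x ≤ y) (hb : 0 ≤ b) : x ^ b ≤ y ^ b :=
  Real.rpow_le_rpow hx hxy hb

end Ev

open Ev

/-- from the inner half of the shape problem to polynomial upper tails -/
theorem hup_of_inner (S : Setting Ω X T μ) (hμ : MuOK μ Cμ) (a : ℝ) (ha0 : 0 < a) (_ha1 : a < 1)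
    (h : ∀ ζ, 0 < ζ → ζ < 1 - a → ∃ q > (0 : ℝ),
      (fun t : ℝ => ((volume : Measure Ω) (innerEv T μ (a - 1 + ζ) t)).toReal) =O[atTop]
        fun t => t ^ (-q)) :
    ∀ β, a < β → β < 1 → ∃ q > (0 : ℝ), HUp μ β q := by
  intro β hβ hβ1
  have hP := S.prob
  obtain ⟨q, hq, hO⟩ := h ((β - a) / 2) (by linarith) (by linarith)
  refine ⟨q, hq, ?_⟩
  set ζ : ℝ := (β - a) / 2 with hζ
  have hC1 := hμ.one_le
  obtain ⟨C0, hC0⟩ := hO.bound
  -- large `n`
  obtain ⟨t0, ht0⟩ := eventually_atTop.1 hC0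
  have hp := ev_pow (show a + ζ < β by rw [hζ]; linarith) (by linarith)
    (2 * (Cμ + 1) ^ (a + ζ)) 0
  obtain ⟨n0, hn0⟩ := eventually_atTop.1 hp
  set N1 : ℝ := max 1 (max n0 (2048 * max t0 1)) with hN1
  have hN11 : 1 ≤ N1 := le_max_left _ _
  refine ⟨max (N1 ^ q) (|C0| * 2048 ^ q), fun v hv => ?_⟩
  set n : ℝ := (nrm v : ℝ) with hn
  have hn1 : 1 ≤ n := by
    have : nrm v ≠ 0 := fun h => hv (nrm_eq_zero.1 h)
    have : 1 ≤ nrm v := by omega
    rw [hn]
    exact_mod_cast this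
  have hnq : 0 < n ^ (-q) := Real.rpow_pos_of_pos (by linarith) _
  by_cases hnN : n < N1
  · have h1 : PP.real {x | ¬ Fast x Set.univ 0 v (at' μ v + n ^ β)} ≤ 1 := measureReal_le_one
    refine h1.trans ?_
    have h2 : n ^ q ≤ N1 ^ q := rpow_mono (by linarith) hnN.le hq.le
    have h3 : n ^ q * n ^ (-q) = 1 := by
      rw [← Real.rpow_add (by linarith)]
      simp
    calc (1 : ℝ) = n ^ q * n ^ (-q) := h3.symm
      _ ≤ max (N1 ^ q) (|C0| * 2048 ^ q) * n ^ (-q) :=
        mul_le_mul_of_nonneg_right (h2.trans (le_max_left _ _)) hnq.le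
  · rw [not_lt] at hnN
    have hnn0 : n0 ≤ n := ((le_max_left _ _).trans (le_max_right _ _)).trans hnN
    have hnt : 2048 * max t0 1 ≤ n := ((le_max_right _ _).trans (le_max_right _ _)).trans hnN
    have hge := hμ.ge v
    have hle := hμ.le v
    rw [← hn] at hge hle
    have hnβ : 0 < n ^ β := Real.rpow_pos_of_pos (by linarith) _
    have hnβ1 : n ^ β ≤ n := by
      have := Real.rpow_le_rpow_of_exponent_le hn1 hβ1.le
      rwa [Real.rpow_one] at this
    set t : ℝ := at' μ v + n ^ β / 2 with ht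
    have htlow : n / 2048 ≤ t := by linarith
    have ht00 : max t0 1 ≤ t := by
      have : max t0 1 ≤ n / 2048 := by
        rw [le_div_iff₀ (by norm_num)]
        linarith
      linarith
    have ht1 : 1 ≤ t := (le_max_right _ _).trans ht00
    have htpos : 0 < t := by linarith
    have htup : t ≤ (Cμ + 1) * n := by nlinarith
    -- the power
    have hpow : t ^ (a + ζ) ≤ n ^ β / 2 := by
      have h1 : t ^ (a + ζ) ≤ ((Cμ + 1) * n) ^ (a + ζ) :=
        rpow_mono htpos.le htup (by linarith)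
      rw [Real.mul_rpow (by linarith) (by linarith)] at h1
      have h2 := hn0 n hnn0
      nlinarith
    have hs : (1 - t ^ (a - 1 + ζ)) * t = t - t ^ (a + ζ) := by
      have : t ^ (a + ζ) = t ^ (a - 1 + ζ) * t := by
        rw [← Real.rpow_add_one htpos.ne']
        congr 1
        ring
      rw [this]
      ring
    have hsub : {ω | at' μ v + n ^ β ≤ T ω v} ⊆ innerEv T μ (a - 1 + ζ) t := by
      intro ω hω hincl
      have hω' : at' μ v + n ^ β ≤ T ω v := hω
      have hmem : (((v.1 : ℝ), (v.2 : ℝ)) : ℝ × ℝ) ∈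
          ((1 - t ^ (a - 1 + ζ)) * t) • {x : ℝ × ℝ | μ x ≤ 1} := by
        have hpos : 0 < (1 - t ^ (a - 1 + ζ)) * t := by
          rw [hs]
          have : 0 < n / 2048 := by positivity
          linarith
        rw [mem_smul_shape hμ hpos, hs]
        have : at' μ v ≤ t - t ^ (a + ζ) := by linarith
        exact this
      obtain ⟨w, hw, h1, h2⟩ := hincl hmem
      have hwv : w = v := by
        simp only at h1 h2
        have e1 : |v.1 - w.1| < 1 := by
          have : ((|v.1 - w.1| : ℤ) : ℝ) < 1 := by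
            push_cast
            linarith
          exact_mod_cast this
        have e2 : |v.2 - w.2| < 1 := by
          have : ((|v.2 - w.2| : ℤ) : ℝ) < 1 := by
            push_cast
            linarith
          exact_mod_cast this
        rw [Int.abs_lt_one_iff] at e1 e2
        ext
        · omega
        · omega
      rw [hwv] at hw
      linarith
    rw [← S.real_T_ge]
    have h1 : (volume : Measure Ω).real {ω | at' μ v + n ^ β ≤ T ω v} ≤
        ((volume : Measure Ω) (innerEv T μ (a - 1 + ζ) t)).toReal :=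
      measureReal_mono hsub
    refine h1.trans ?_
    have h2 := ht0 t ((le_max_left _ _).trans ht00)
    rw [Real.norm_eq_abs, Real.norm_eq_abs, abs_of_nonneg ENNReal.toReal_nonneg,
      abs_of_nonneg (Real.rpow_nonneg htpos.le _)] at h2
    refine h2.trans ?_
    have h3 : t ^ (-q) ≤ 2048 ^ q * n ^ (-q) := by
      have h4 : t ^ (-q) ≤ (n / 2048) ^ (-q) :=
        Real.rpow_le_rpow_of_nonpos (by positivity) htlow (by linarith)
      refine h4.trans (le_of_eq ?_)
      rw [Real.div_rpow (by linarith) (by norm_num), Real.rpow_neg (by norm_num : (0:ℝ) ≤ 2048)]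
      field_simp
    calc C0 * t ^ (-q) ≤ |C0| * t ^ (-q) :=
          mul_le_mul_of_nonneg_right (le_abs_self _) (Real.rpow_nonneg htpos.le _)
      _ ≤ |C0| * (2048 ^ q * n ^ (-q)) := mul_le_mul_of_nonneg_left h3 (abs_nonneg _)
      _ = |C0| * 2048 ^ q * n ^ (-q) := by ring
      _ ≤ max (N1 ^ q) (|C0| * 2048 ^ q) * n ^ (-q) :=
        mul_le_mul_of_nonneg_right (le_max_right _ _) hnq.le

theorem card_ball (N : ℕ) : (((ball_finite 0 N).toFinset.card : ℕ) : ℝ) ≤ (2 * (N : ℝ) + 1) ^ 2 := by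
  have h := ball_ncard_le 0 N
  rw [Set.ncard_eq_toFinset_card _ (ball_finite 0 N)] at h
  exact_mod_cast h

theorem mem_ball_fin {N : ℕ} {v : V} (h : nrm v ≤ N) : v ∈ (ball_finite 0 N).toFinset := by
  rw [Set.Finite.mem_toFinset, mem_Bl, sub_zero]
  exact h

theorem nrm_of_mem {N : ℕ} {v : V} (h : v ∈ (ball_finite 0 N).toFinset) : nrm v ≤ N := by
  rw [Set.Finite.mem_toFinset, mem_Bl, sub_zero] at h
  exact h

/-- union bound over the lattice points of a ball -/
theorem ball_union (hP : IsProbabilityMeasure (volume : Measure Ω)) (N : ℕ) (A : Set Ω)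
    (B : V → Set Ω) {p : ℝ} (hp : 0 ≤ p)
    (hA : A ⊆ ⋃ v ∈ (ball_finite 0 N).toFinset, B v)
    (hB : ∀ v, nrm v ≤ N → (volume : Measure Ω).real (B v) ≤ p) :
    (volume : Measure Ω).real A ≤ (2 * (N : ℝ) + 1) ^ 2 * p := by
  refine (measureReal_mono hA (measure_ne_top _ _)).trans ?_
  refine (measureReal_biUnion_finset_le _ _).trans ?_
  refine (Finset.sum_le_sum (fun v hv => hB v (nrm_of_mem hv))).trans ?_
  rw [Finset.sum_const, nsmul_eq_mul]
  exact mul_le_mul_of_nonneg_right (card_ball N) hp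

/-- uniform upper tails give the inner half of the shape problem with stretched exponential rate -/
theorem inner_of_uup (S : Setting Ω X T μ) (hμ : MuOK μ Cμ) (a : ℝ) (ha0 : 0 < a) (_ha1 : a < 1)
    (h : ∀ β, a < β → β < 1 → UUp μ β) :
    ∀ ζ, 0 < ζ → ζ < 1 - a → ∃ c > (0 : ℝ), ∀ᶠ t : ℝ in atTop,
      ((volume : Measure Ω) (innerEv T μ (a - 1 + ζ) t)).toReal ≤ Real.exp (-t ^ c) := by
  intro ζ hζ hζ1
  have hP := S.prob
  obtain ⟨c0, hc0, N0, hN0⟩ := h (a + ζ / 2) (by linarith) (by linarith)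
  set β : ℝ := a + ζ / 2 with hβ
  have hβ0 : 0 < β := by linarith
  have hC1 := hμ.one_le
  refine ⟨c0 / 2, by positivity, ?_⟩
  have hp := ev_pow (show β < a + ζ by rw [hβ]; linarith) (by linarith) (4097 ^ β) Cμ
  have hq := ev_pow (show a + ζ < 1 by linarith) (by norm_num) 2 0
  filter_upwards [hp, hq, ev_exp hc0 (show (0 : ℝ) < 8195 by norm_num)
    (show c0 / 2 < c0 by linarith), eventually_ge_atTop 1, eventually_ge_atTop (Cμ : ℝ),
    eventually_ge_atTop (N0 : ℝ)] with t h1 h2 h3 h4 h5 h6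
  have htpos : 0 < t := by linarith
  set N : ℕ := ⌈4096 * t⌉₊ with hN
  have hNlow : 4096 * t ≤ N := Nat.le_ceil _
  have hNup : (N : ℝ) < 4096 * t + 1 := Nat.ceil_lt_add_one (by positivity)
  have hNN0 : N0 ≤ N := by
    have : (N0 : ℝ) ≤ N := by linarith
    exact_mod_cast this
  have hNβ : (N : ℝ) ^ β ≤ 4097 ^ β * t ^ β := by
    rw [← Real.mul_rpow (by norm_num) htpos.le]
    exact rpow_mono (by linarith) (by linarith) hβ0.le
  have hs : (1 - t ^ (a - 1 + ζ)) * t = t - t ^ (a + ζ) := by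
    have : t ^ (a + ζ) = t ^ (a - 1 + ζ) * t := by
      rw [← Real.rpow_add_one htpos.ne']
      congr 1
      ring
    rw [this]
    ring
  rw [Real.rpow_one] at h2
  have hspos : 0 < t - t ^ (a + ζ) := by
    linarith
  have hsub : innerEv T μ (a - 1 + ζ) t ⊆
      ⋃ v ∈ (ball_finite 0 N).toFinset, {ω | at' μ v + (N : ℝ) ^ β ≤ T ω v} := by
    intro ω hω
    have hω' : ¬ (((1 - t ^ (a - 1 + ζ)) * t) • {x : ℝ × ℝ | μ x ≤ 1} ⊆
            {x : ℝ × ℝ | ∃ v : ℤ × ℤ, T ω v ≤ t ∧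
            |x.1 - (v.1 : ℝ)| ≤ 1 / 2 ∧ |x.2 - (v.2 : ℝ)| ≤ 1 / 2}) := hω
    rw [Set.not_subset] at hω'
    obtain ⟨x, hx, hx2⟩ := hω'
    rw [mem_smul_shape hμ (by rw [hs]; exact hspos), hs] at hx
    set v : V := (round x.1, round x.2) with hv
    have hr1 : |x.1 - (v.1 : ℝ)| ≤ 1 / 2 := abs_sub_round x.1
    have hr2 : |x.2 - (v.2 : ℝ)| ≤ 1 / 2 := abs_sub_round x.2
    have hTv : t < T ω v := by
      by_contra hc
      rw [not_lt] at hc
      exact hx2 ⟨v, hc, hr1, hr2⟩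
    have hnear := (near_le hμ hr1 hr2).1
    have hge := hμ.ge v
    have hvN : nrm v ≤ N := by
      have h7 : (nrm v : ℝ) ≤ 2048 * (t + Cμ) := by
        have : 0 ≤ t ^ (a + ζ) := Real.rpow_nonneg htpos.le _
        linarith
      have : (nrm v : ℝ) ≤ N := by linarith
      exact_mod_cast this
    refine Set.mem_biUnion (mem_ball_fin hvN) ?_
    show at' μ v + (N : ℝ) ^ β ≤ T ω v
    linarith
  have hfin := ball_union hP N _ _ (Real.exp_pos (-(N : ℝ) ^ c0)).le hsub (fun v hv => by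
    rw [S.real_T_ge]
    exact hN0 N hNN0 v hv)
  refine hfin.trans ?_
  have h8 : Real.exp (-(N : ℝ) ^ c0) ≤ Real.exp (-t ^ c0) := by
    apply Real.exp_le_exp.2
    have := rpow_mono htpos.le (show t ≤ (N : ℝ) by linarith) hc0.le
    linarith
  have h9 : (2 * (N : ℝ) + 1) ^ 2 ≤ (8195 * t) ^ 2 := by
    apply pow_le_pow_left₀ (by positivity)
    linarith
  calc (2 * (N : ℝ) + 1) ^ 2 * Real.exp (-(N : ℝ) ^ c0)
      ≤ (8195 * t) ^ 2 * Real.exp (-t ^ c0) :=
        mul_le_mul h9 h8 (Real.exp_pos _).le (by positivity)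
    _ ≤ Real.exp (-t ^ (c0 / 2)) / 2 := h3
    _ ≤ Real.exp (-t ^ (c0 / 2)) := by
        have := Real.exp_pos (-t ^ (c0 / 2))
        linarith

/-- transfer of an event about many endpoints -/
theorem Setting.real_exists_lt (S : Setting Ω X T μ) (P : V → Prop) (c : V → ℝ) :
    (volume : Measure Ω).real {ω | ∃ v, P v ∧ T ω v < c v} =
      PP.real {x | ∃ v, P v ∧ Fast x Set.univ 0 v (c v)} := by
  have hm : MeasurableSet {x : W | ∃ v, P v ∧ Fast x Set.univ 0 v (c v)} := by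
    have : {x : W | ∃ v, P v ∧ Fast x Set.univ 0 v (c v)} =
        ⋃ v : V, {x : W | P v ∧ Fast x Set.univ 0 v (c v)} := by
      ext x
      simp
    rw [this]
    refine MeasurableSet.iUnion fun v => ?_
    by_cases hv : P v
    · have : {x : W | P v ∧ Fast x Set.univ 0 v (c v)} = {x : W | Fast x Set.univ 0 v (c v)} := by
        ext x
        simp [hv]
      rw [this]
      exact measurableSet_fast _ _ _ _
    · have : {x : W | P v ∧ Fast x Set.univ 0 v (c v)} = ∅ := by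
        ext x
        simp [hv]
      rw [this]
      exact MeasurableSet.empty
  rw [← S.real_eq hm]
  apply measureReal_congr
  filter_upwards [S.T_lt_iff] with ω hω
  apply propext
  show (∃ v, P v ∧ T ω v < c v) ↔ ∃ v, P v ∧ Fast (fun e => X e ω) Set.univ 0 v (c v)
  constructor
  · rintro ⟨v, hv, h⟩
    exact ⟨v, hv, (hω v _).1 h⟩
  · rintro ⟨v, hv, h⟩
    exact ⟨v, hv, (hω v _).2 h⟩

/-- from the outer half of the shape problem to polynomial lower tails -/
theorem hlo_of_outer (S : Setting Ω X T μ) (hμ : MuOK μ Cμ) (a : ℝ) (ha0 : 0 < a) (_ha1 : a < 1)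
    (h : ∀ ζ, 0 < ζ → ζ < 1 - a →
      (fun t : ℝ => ((volume : Measure Ω) (outerEv T μ (a - 1 + ζ) t)).toReal) =O[atTop]
        fun t => t ^ (-(3 - a))) :
    ∀ β, a < β → β < 1 → ∃ κ > (0 : ℝ), HLo μ β (2 + κ) := by
  intro β hβ hβ1
  have hP := S.prob
  have hO := h ((β - a) / 2) (by linarith) (by linarith)
  refine ⟨β - a, by linarith, ?_⟩
  set ζ : ℝ := (β - a) / 2 with hζ
  have hC1 := hμ.one_le
  obtain ⟨C0, hC0⟩ := hO.bound
  obtain ⟨t0, ht0⟩ := eventually_atTop.1 hC0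
  have hp := ev_pow (show a + ζ < β by rw [hζ]; linarith) (by linarith)
    (4 * (Cμ + 1) ^ (a + ζ)) 0
  obtain ⟨n0, hn0⟩ := eventually_atTop.1 hp
  have hp2 := ev_pow hβ1 (by norm_num) 2048 0
  obtain ⟨n1, hn1⟩ := eventually_atTop.1 hp2
  set N1 : ℝ := max 1 (max (max n0 n1) (4096 * max t0 1)) with hN1
  have hN11 : 1 ≤ N1 := le_max_left _ _
  have hκ : 0 < 2 + (β - a) := by linarith
  refine ⟨max (N1 ^ (2 + (β - a))) ((4 * Cμ + 2) * (|C0| * 4096 ^ (3 - a))), fun l hl => ?_⟩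
  set n : ℝ := (l : ℝ) with hn
  have hnone : 1 ≤ n := by
    rw [hn]
    exact_mod_cast hl
  have hnpos : 0 < n := by linarith
  have hnq : 0 < n ^ (-(2 + (β - a))) := Real.rpow_pos_of_pos (by linarith) _
  by_cases hnN : n < N1
  · have h1 : PP.real {x | ∃ v : V, nrm v = l ∧ Fast x Set.univ 0 v (at' μ v - n ^ β)} ≤ 1 :=
      measureReal_le_one
    refine h1.trans ?_
    have h2 : n ^ (2 + (β - a)) ≤ N1 ^ (2 + (β - a)) := rpow_mono (by linarith) hnN.le hκ.le
    have h3 : n ^ (2 + (β - a)) * n ^ (-(2 + (β - a))) = 1 := by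
      rw [← Real.rpow_add (by linarith), add_neg_cancel, Real.rpow_zero]
    calc (1 : ℝ) = n ^ (2 + (β - a)) * n ^ (-(2 + (β - a))) := h3.symm
      _ ≤ _ * n ^ (-(2 + (β - a))) :=
        mul_le_mul_of_nonneg_right (h2.trans (le_max_left _ _)) hnq.le
  · rw [not_lt] at hnN
    have hnn0 : n0 ≤ n :=
      (((le_max_left _ _).trans (le_max_left _ _)).trans (le_max_right _ _)).trans hnN
    have hnn1 : n1 ≤ n :=
      (((le_max_right _ _).trans (le_max_left _ _)).trans (le_max_right _ _)).trans hnN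
    have hnt : 4096 * max t0 1 ≤ n := ((le_max_right _ _).trans (le_max_right _ _)).trans hnN
    have hnβ : 0 < n ^ β := Real.rpow_pos_of_pos (by linarith) _
    have hnβ1 : n ^ β ≤ n := by
      have := Real.rpow_le_rpow_of_exponent_le hnone hβ1.le
      rwa [Real.rpow_one] at this
    have hn0' := hn0 n hnn0
    have hn1' := hn1 n hnn1
    rw [Real.rpow_one] at hn1'
    set g : ℝ := n ^ β / 4 with hg
    have hg0 : 0 < g := by positivity
    set J : ℕ := ⌈4 * Cμ * n ^ (1 - β)⌉₊ with hJ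
    have hpw : 0 < n ^ (1 - β) := Real.rpow_pos_of_pos hnpos _
    have hJlow : 4 * Cμ * n ^ (1 - β) ≤ J := Nat.le_ceil _
    have hJup : (J : ℝ) < 4 * Cμ * n ^ (1 - β) + 1 := Nat.ceil_lt_add_one (by positivity)
    have hmul : n ^ (1 - β) * n ^ β = n := by
      rw [← Real.rpow_add hnpos]
      simp
    have hJg : Cμ * n ≤ J * g := by
      have h1 : 4 * Cμ * n ^ (1 - β) * g ≤ J * g := mul_le_mul_of_nonneg_right hJlow hg0.le
      have h2 : 4 * Cμ * n ^ (1 - β) * g = Cμ * (n ^ (1 - β) * n ^ β) := by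
        rw [hg]
        ring
      rw [h2, hmul] at h1
      exact h1
    have hJg2 : J * g ≤ Cμ * n + g := by
      have h1 : (J : ℝ) * g ≤ (4 * Cμ * n ^ (1 - β) + 1) * g :=
        mul_le_mul_of_nonneg_right hJup.le hg0.le
      have h2 : (4 * Cμ * n ^ (1 - β) + 1) * g = Cμ * (n ^ (1 - β) * n ^ β) + g := by
        rw [hg]
        ring
      rw [h2, hmul] at h1
      exact h1
    set tt : ℕ → ℝ := fun j => n / 4096 + j * g with htt
    have htlow : ∀ j, n / 4096 ≤ tt j := by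
      intro j
      have : (0 : ℝ) ≤ j * g := by positivity
      rw [htt]
      linarith
    have htup : ∀ j, j ≤ J → tt j ≤ (Cμ + 1) * n := by
      intro j hj
      have h1 : (j : ℝ) * g ≤ J * g := mul_le_mul_of_nonneg_right (by exact_mod_cast hj) hg0.le
      rw [htt]
      simp only
      nlinarith
    have htpow : ∀ j, j ≤ J → (tt j) ^ (a + ζ) ≤ n ^ β / 4 := by
      intro j hj
      have h0 : 0 ≤ tt j := le_trans (by positivity) (htlow j)
      have h1 : (tt j) ^ (a + ζ) ≤ ((Cμ + 1) * n) ^ (a + ζ) :=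
        rpow_mono h0 (htup j hj) (by linarith)
      rw [Real.mul_rpow (by linarith) (by linarith)] at h1
      nlinarith
    have hbd : ∀ j, (volume : Measure Ω).real (outerEv T μ (a - 1 + ζ) (tt j)) ≤
        |C0| * 4096 ^ (3 - a) * n ^ (-(3 - a)) := by
      intro j
      have h1 := htlow j
      have h2 : 0 < tt j := lt_of_lt_of_le (by positivity) h1
      have h3 : max t0 1 ≤ n / 4096 := by
        rw [le_div_iff₀ (by norm_num)]
        linarith
      have h4 := ht0 (tt j) ((le_max_left _ _).trans (h3.trans h1))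
      rw [Real.norm_eq_abs, Real.norm_eq_abs, abs_of_nonneg ENNReal.toReal_nonneg,
        abs_of_nonneg (Real.rpow_nonneg h2.le _)] at h4
      refine h4.trans ?_
      have h5 : (tt j) ^ (-(3 - a)) ≤ 4096 ^ (3 - a) * n ^ (-(3 - a)) := by
        have h6 : (tt j) ^ (-(3 - a)) ≤ (n / 4096) ^ (-(3 - a)) :=
          Real.rpow_le_rpow_of_nonpos (by positivity) h1 (by linarith)
        refine h6.trans (le_of_eq ?_)
        rw [Real.div_rpow (by linarith) (by norm_num),
          Real.rpow_neg (by norm_num : (0:ℝ) ≤ 4096) (3 - a)]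
        field_simp
      calc C0 * (tt j) ^ (-(3 - a)) ≤ |C0| * (tt j) ^ (-(3 - a)) :=
            mul_le_mul_of_nonneg_right (le_abs_self _) (Real.rpow_nonneg h2.le _)
        _ ≤ |C0| * (4096 ^ (3 - a) * n ^ (-(3 - a))) :=
            mul_le_mul_of_nonneg_left h5 (abs_nonneg _)
        _ = |C0| * 4096 ^ (3 - a) * n ^ (-(3 - a)) := by ring
    have hsub : {ω | ∃ v : V, nrm v = l ∧ T ω v < at' μ v - n ^ β} ⊆
        ⋃ j ∈ Finset.range (J + 1), outerEv T μ (a - 1 + ζ) (tt j) := by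
      rintro ω ⟨v, hvl, hTv⟩
      have hvn : (nrm v : ℝ) = n := by rw [hvl]
      have hge := hμ.ge v
      have hle := hμ.le v
      rw [hvn] at hge hle
      have hex : ∃ j, T ω v ≤ tt j := by
        refine ⟨J, ?_⟩
        have : tt J = n / 4096 + J * g := rfl
        rw [this]
        have : 0 < n / 4096 := by positivity
        linarith
      classical
      set j := Nat.find hex with hj
      have hjT : T ω v ≤ tt j := Nat.find_spec hex
      have hjJ : j ≤ J := by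
        refine Nat.find_min' hex ?_
        have : tt J = n / 4096 + J * g := rfl
        rw [this]
        have : 0 < n / 4096 := by positivity
        linarith
      refine Set.mem_biUnion (Finset.mem_coe.2 (Finset.mem_range.2 (Nat.lt_succ_of_le hjJ))) ?_
      intro hincl
      have hmem := hincl (show (((v.1 : ℝ), (v.2 : ℝ)) : ℝ × ℝ) ∈ {x : ℝ × ℝ | ∃ v : ℤ × ℤ,
        T ω v ≤ tt j ∧ |x.1 - (v.1 : ℝ)| ≤ 1 / 2 ∧ |x.2 - (v.2 : ℝ)| ≤ 1 / 2} from
        ⟨v, hjT, by simp, by simp⟩)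
      have htj : 0 < tt j := lt_of_lt_of_le (by positivity) (htlow j)
      have hs : (1 + (tt j) ^ (a - 1 + ζ)) * tt j = tt j + (tt j) ^ (a + ζ) := by
        have : (tt j) ^ (a + ζ) = (tt j) ^ (a - 1 + ζ) * tt j := by
          rw [← Real.rpow_add_one htj.ne']
          congr 1
          ring
        rw [this]
        ring
      have hpos : 0 < tt j + (tt j) ^ (a + ζ) := by
        have := Real.rpow_nonneg htj.le (a + ζ)
        linarith
      rw [mem_smul_shape hμ (by rw [hs]; exact hpos), hs] at hmem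
      have hmem' : at' μ v ≤ tt j + (tt j) ^ (a + ζ) := hmem
      have hpow := htpow j hjJ
      rcases Nat.eq_zero_or_pos j with h0 | h0
      · have e : tt j = n / 4096 := by
          rw [h0, htt]
          simp
        rw [e] at hmem' hpow
        linarith
      · have h1 : ¬ T ω v ≤ tt (j - 1) := Nat.find_min hex (by omega)
        rw [not_le] at h1
        have e : tt (j - 1) = tt j - g := by
          rw [htt]
          simp only
          rw [Nat.cast_sub h0]
          push_cast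
          ring
        rw [e] at h1
        linarith
    have hfin : PP.real {x | ∃ v : V, nrm v = l ∧ Fast x Set.univ 0 v (at' μ v - n ^ β)} ≤
        ((J : ℝ) + 1) * (|C0| * 4096 ^ (3 - a) * n ^ (-(3 - a))) := by
      rw [← Setting.real_exists_lt S (fun v => nrm v = l) (fun v => at' μ v - n ^ β)]
      refine (measureReal_mono hsub (measure_ne_top _ _)).trans ?_
      refine (measureReal_biUnion_finset_le _ _).trans ?_
      refine (Finset.sum_le_sum (fun j _ => hbd j)).trans ?_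
      rw [Finset.sum_const, nsmul_eq_mul, Finset.card_range]
      push_cast
      exact le_rfl
    refine hfin.trans ?_
    have hnp1 : 1 ≤ n ^ (1 - β) := Real.one_le_rpow hnone (by linarith)
    have hJ1 : (J : ℝ) + 1 ≤ (4 * Cμ + 2) * n ^ (1 - β) := by nlinarith
    have hK0 : 0 ≤ |C0| * 4096 ^ (3 - a) * n ^ (-(3 - a)) := by positivity
    have hexp : n ^ (1 - β) * n ^ (-(3 - a)) = n ^ (-(2 + (β - a))) := by
      rw [← Real.rpow_add hnpos]
      congr 1
      ring
    calc ((J : ℝ) + 1) * (|C0| * 4096 ^ (3 - a) * n ^ (-(3 - a)))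
        ≤ ((4 * Cμ + 2) * n ^ (1 - β)) * (|C0| * 4096 ^ (3 - a) * n ^ (-(3 - a))) :=
          mul_le_mul_of_nonneg_right hJ1 hK0
      _ = ((4 * Cμ + 2) * (|C0| * 4096 ^ (3 - a))) * (n ^ (1 - β) * n ^ (-(3 - a))) := by ring
      _ = ((4 * Cμ + 2) * (|C0| * 4096 ^ (3 - a))) * n ^ (-(2 + (β - a))) := by rw [hexp]
      _ ≤ _ * n ^ (-(2 + (β - a))) :=
          mul_le_mul_of_nonneg_right (le_max_right _ _) hnq.le

/-- uniform lower tails give the outer half of the shape problem with stretched exponential rate -/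
theorem outer_of_slo (S : Setting Ω X T μ) (hμ : MuOK μ Cμ) (hsaw : SawBound) (a : ℝ)
    (ha0 : 0 < a) (_ha1 : a < 1) (h : ∀ β, a < β → β < 1 → SLo μ β) :
    ∀ ζ, 0 < ζ → ζ < 1 - a → ∃ c > (0 : ℝ), ∀ᶠ t : ℝ in atTop,
      ((volume : Measure Ω) (outerEv T μ (a - 1 + ζ) t)).toReal ≤ Real.exp (-t ^ c) := by
  intro ζ hζ hζ1
  have hP := S.prob
  obtain ⟨c0, hc0, N0, hN0⟩ := h (a + ζ / 2) (by linarith) (by linarith)
  set β : ℝ := a + ζ / 2 with hβ
  have hβ0 : 0 < β := by linarith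
  have hC1 := hμ.one_le
  set c : ℝ := min c0 1 / 2 with hc
  have hmin : 0 < min c0 1 := lt_min hc0 one_pos
  have hcc0 : c < c0 := by
    have := min_le_left c0 1
    rw [hc]
    linarith
  have hc1 : c < 1 := by
    have := min_le_right c0 1
    rw [hc]
    linarith
  refine ⟨c, by rw [hc]; positivity, ?_⟩
  have hp := ev_pow (show β < a + ζ by rw [hβ]; linarith) (by linarith) (2049 ^ β) Cμ
  filter_upwards [hp, ev_exp hc0 (show (0 : ℝ) < 4099 by norm_num) hcc0,
    ev_exp one_pos (show (0 : ℝ) < 1 by norm_num) hc1, eventually_ge_atTop 1,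
    eventually_ge_atTop (N0 : ℝ)] with t h1 h3 h3' h4 h6
  have htpos : 0 < t := by linarith
  set N : ℕ := ⌊2048 * t⌋₊ + 1 with hN
  have hNlow : 2048 * t < N := by
    rw [hN]
    push_cast
    exact Nat.lt_floor_add_one _
  have hNup : (N : ℝ) ≤ 2048 * t + 1 := by
    rw [hN]
    push_cast
    have := Nat.floor_le (show 0 ≤ 2048 * t by positivity)
    linarith
  have hNN0 : N0 ≤ N := by
    have : (N0 : ℝ) ≤ N := by linarith
    exact_mod_cast this
  have hNβ : (N : ℝ) ^ β ≤ 2049 ^ β * t ^ β := by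
    rw [← Real.mul_rpow (by norm_num) htpos.le]
    exact rpow_mono (by linarith) (by linarith) hβ0.le
  have hs : (1 + t ^ (a - 1 + ζ)) * t = t + t ^ (a + ζ) := by
    have : t ^ (a + ζ) = t ^ (a - 1 + ζ) * t := by
      rw [← Real.rpow_add_one htpos.ne']
      congr 1
      ring
    rw [this]
    ring
  have hspos : 0 < t + t ^ (a + ζ) := by
    have := Real.rpow_nonneg htpos.le (a + ζ)
    linarith
  have hsub : outerEv T μ (a - 1 + ζ) t ⊆
      {ω | ∃ v : V, N ≤ nrm v ∧ T ω v < (N : ℝ) / 2048} ∪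
      ⋃ v ∈ (ball_finite 0 N).toFinset, {ω | T ω v < at' μ v - (N : ℝ) ^ β} := by
    intro ω hω
    have hω' : ¬ ({x : ℝ × ℝ | ∃ v : ℤ × ℤ, T ω v ≤ t ∧
            |x.1 - (v.1 : ℝ)| ≤ 1 / 2 ∧ |x.2 - (v.2 : ℝ)| ≤ 1 / 2} ⊆
            ((1 + t ^ (a - 1 + ζ)) * t) • {x : ℝ × ℝ | μ x ≤ 1}) := hω
    rw [Set.not_subset] at hω'
    obtain ⟨x, ⟨v, hTv, hr1, hr2⟩, hx2⟩ := hω'
    rw [mem_smul_shape hμ (by rw [hs]; exact hspos), hs, not_le] at hx2
    have hnear := (near_le hμ hr1 hr2).2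
    rcases le_total N (nrm v) with hv | hv
    · left
      refine ⟨v, hv, ?_⟩
      rw [lt_div_iff₀ (by norm_num)]
      linarith
    · right
      refine Set.mem_biUnion (mem_ball_fin hv) ?_
      show T ω v < at' μ v - (N : ℝ) ^ β
      linarith
  have hA : (volume : Measure Ω).real {ω | ∃ v : V, N ≤ nrm v ∧ T ω v < (N : ℝ) / 2048} ≤
      (1 / 4 : ℝ) ^ N := by
    rw [Setting.real_exists_lt S (fun v => N ≤ nrm v) (fun _ => (N : ℝ) / 2048)]
    exact hsaw N
  have hB := ball_union hP N (⋃ v ∈ (ball_finite 0 N).toFinset, {ω | T ω v < at' μ v - (N : ℝ) ^ β})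
    _ (Real.exp_pos (-(N : ℝ) ^ c0)).le subset_rfl (fun v hv => by
      rw [S.real_T_lt]
      exact hN0 N hNN0 v hv)
  have hU := (measureReal_mono hsub (measure_ne_top (volume : Measure Ω) _)).trans
    (measureReal_union_le _ _)
  refine (show ((volume : Measure Ω) (outerEv T μ (a - 1 + ζ) t)).toReal ≤ _ from hU).trans ?_
  have hA2 : (1 / 4 : ℝ) ^ N ≤ Real.exp (-t) := by
    have e1 : (1 / 4 : ℝ) ≤ Real.exp (-1) := by
      rw [Real.exp_neg, one_div]
      apply inv_anti₀ (Real.exp_pos 1)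
      have := Real.exp_one_lt_d9
      linarith
    calc (1 / 4 : ℝ) ^ N ≤ (Real.exp (-1)) ^ N := pow_le_pow_left₀ (by norm_num) e1 N
      _ = Real.exp (-(N : ℝ)) := by
          rw [← Real.exp_nat_mul]
          congr 1
          ring
      _ ≤ Real.exp (-t) := by
          apply Real.exp_le_exp.2
          linarith
  have h8 : Real.exp (-(N : ℝ) ^ c0) ≤ Real.exp (-t ^ c0) := by
    apply Real.exp_le_exp.2
    have := rpow_mono htpos.le (show t ≤ (N : ℝ) by linarith) hc0.le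
    linarith
  have h9 : (2 * (N : ℝ) + 1) ^ 2 ≤ (4099 * t) ^ 2 := by
    apply pow_le_pow_left₀ (by positivity)
    linarith
  have h10 : (2 * (N : ℝ) + 1) ^ 2 * Real.exp (-(N : ℝ) ^ c0) ≤
      (4099 * t) ^ 2 * Real.exp (-t ^ c0) :=
    mul_le_mul h9 h8 (Real.exp_pos _).le (by positivity)
  have h11 : Real.exp (-t) ≤ (1 * t) ^ 2 * Real.exp (-t ^ (1 : ℝ)) := by
    rw [Real.rpow_one, one_mul]
    have : 1 ≤ t ^ 2 := one_le_pow₀ h4
    nlinarith [Real.exp_pos (-t)]
  linarith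

end Pool.Agent.K4H17.FPP
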