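import Pool.Agent.K4H17.FPP.Api

/-!
First-passage percolation on `ℤ²`: integrability of the passage times, `μ(v) ≤ E T(0,v)`, and
the `L¹` consequences of the upper-tail bounds.
-/

set_option autoImplicit false
open MeasureTheory ProbabilityTheory Filter
open scoped Pointwise Topology ENNReal

namespace Pool.Agent.K4H17.FPP

variable {Ω : Type} [MeasureSpace Ω] {X : Sym2 V → Ω → ℝ} {T : Ω → V → ℝ} {μ : ℝ × ℝ → ℝ}

/-! ### moments of one weight -/

theorem edge_gt' (e : Sym2 V) {y : ℝ} (hy : 0 ≤ y) :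
    PP {x | y < x e} = ENNReal.ofReal (Real.exp (-y)) := by
  rw [← edge_gt e hy, measureReal_def, ENNReal.ofReal_toReal (measure_ne_top _ _)]

theorem edge_lintegral (e : Sym2 V) {p : ℝ} (hp : 0 < p) :
    ∫⁻ x, ENNReal.ofReal ((x e) ^ p) ∂PP = ENNReal.ofReal (p * Real.Gamma p) := by
  rw [lintegral_rpow_eq_lintegral_meas_lt_mul PP (f := fun x : W => x e)
    (by filter_upwards [nonneg_ae] with x hx using hx e)
    (measurable_pi_apply e).aemeasurable hp]
  rw [ENNReal.ofReal_mul hp.le, Real.Gamma_eq_integral hp,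
    ofReal_integral_eq_lintegral_ofReal (Real.GammaIntegral_convergent hp)]
  · congr 1
    apply setLIntegral_congr_fun measurableSet_Ioi
    intro t ht
    have ht' : (0 : ℝ) < t := ht
    dsimp only
    rw [edge_gt' e ht'.le, ← ENNReal.ofReal_mul (Real.exp_pos _).le]
  · filter_upwards [ae_restrict_mem measurableSet_Ioi] with t ht
    have ht' : (0 : ℝ) < t := ht
    have : 0 ≤ Real.exp (-t) * t ^ (p - 1) := by positivity
    exact this

theorem edge_integrable_rpow (e : Sym2 V) {p : ℝ} (hp : 0 < p) :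
    Integrable (fun x : W => (x e) ^ p) PP := by
  refine ⟨((measurable_pi_apply e).pow_const p).aestronglyMeasurable, ?_⟩
  rw [hasFiniteIntegral_iff_ofReal]
  · rw [edge_lintegral e hp]
    exact ENNReal.ofReal_lt_top
  · filter_upwards [nonneg_ae] with x hx
    exact Real.rpow_nonneg (hx e) _

theorem edge_integral_rpow (e : Sym2 V) {p : ℝ} (hp : 0 < p) :
    ∫ x, (x e) ^ p ∂PP = p * Real.Gamma p := by
  rw [integral_eq_lintegral_of_nonneg_ae, edge_lintegral e hp, ENNReal.toReal_ofReal]
  · have := Real.Gamma_pos_of_pos hp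
    positivity
  · filter_upwards [nonneg_ae] with x hx
    exact Real.rpow_nonneg (hx e) _
  · exact ((measurable_pi_apply e).pow_const p).aestronglyMeasurable

theorem edge_integrable (e : Sym2 V) : Integrable (fun x : W => x e) PP := by
  have := edge_integrable_rpow e (p := 1) one_pos
  simpa using this

theorem edge_integral (e : Sym2 V) : ∫ x, x e ∂PP = 1 := by
  have := edge_integral_rpow e (p := 1) one_pos
  simpa using this

theorem edge_sq_integrable (e : Sym2 V) : Integrable (fun x : W => (x e) ^ 2) PP := by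
  have := edge_integrable_rpow e (p := 2) two_pos
  simpa using this

theorem edge_sq_integral (e : Sym2 V) : ∫ x, (x e) ^ 2 ∂PP = 2 := by
  have := edge_integral_rpow e (p := 2) two_pos
  simpa [Real.Gamma_two] using this

/-! ### a straight path -/

theorem exists_path_nrm_aux (v : V) : ∀ (k : ℕ) (u : V), nrm (v - u) = k →
    ∃ p, IsP Set.univ u v k p := by
  intro k
  induction k with
  | zero =>
    intro u hk
    have : v = u := sub_eq_zero.1 (nrm_eq_zero.1 hk)
    subst this
    exact ⟨fun _ => v, rfl, rfl, fun i hi => by omega, fun _ _ => Set.mem_univ _⟩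
  | succ k ih =>
    intro u hk
    have hne : u ≠ v := by
      rintro rfl
      simp [nrm_zero] at hk
    obtain ⟨w, hw1, hw2⟩ := exists_step hne
    obtain ⟨q, hq⟩ := ih w (by omega)
    have h1 : IsP Set.univ u w 1 (fun i => if i = 0 then u else w) := by
      refine ⟨by simp, by simp, ?_, fun _ _ => Set.mem_univ _⟩
      intro i hi
      have : i = 0 := by omega
      subst this
      simpa using hw1
    exact ⟨_, by rw [Nat.add_comm k 1]; exact cat_isP h1 hq⟩

theorem exists_path_nrm (v : V) : ∃ p, IsP Set.univ 0 v (nrm v) p :=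
  exists_path_nrm_aux v (nrm v) 0 (by simp)

theorem tm_le_cst {x : W} (hx : ∀ e, 0 ≤ x e) {v : V} {n : ℕ} {p : ℕ → V}
    (hp : IsP Set.univ 0 v n p) : tm x v ≤ cst x p n := by
  unfold tm
  apply csInf_le
  · refine ⟨0, ?_⟩
    rintro s ⟨n, p, _, rfl⟩
    exact cst_nonneg hx p n
  · exact ⟨n, p, hp, rfl⟩

theorem cst_integrable (p : ℕ → V) (n : ℕ) : Integrable (fun x : W => cst x p n) PP := by
  unfold cst
  exact integrable_finsetSum _ fun i _ => edge_integrable _

theorem cst_integral (p : ℕ → V) (n : ℕ) : ∫ x, cst x p n ∂PP = n := by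
  unfold cst
  rw [integral_finsetSum _ fun i _ => edge_integrable _]
  simp [edge_integral]

theorem cst_sq_le (x : W) (p : ℕ → V) (n : ℕ) :
    (cst x p n) ^ 2 ≤ n * ∑ i ∈ Finset.range n, (x s(p i, p (i + 1))) ^ 2 := by
  unfold cst
  have := sq_sum_le_card_mul_sum_sq (s := Finset.range n) (f := fun i => x s(p i, p (i + 1)))
  simpa using this

theorem tm_integrable (v : V) : Integrable (fun x : W => tm x v) PP := by
  obtain ⟨p, hp⟩ := exists_path_nrm v
  refine Integrable.mono' (cst_integrable p (nrm v)) (tm_aemeasurable v).aestronglyMeasurable ?_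
  filter_upwards [nonneg_ae] with x hx
  rw [Real.norm_of_nonneg (tm_nonneg hx v)]
  exact tm_le_cst hx hp

theorem tm_integral_le (v : V) : ∫ x, tm x v ∂PP ≤ nrm v := by
  obtain ⟨p, hp⟩ := exists_path_nrm v
  rw [← cst_integral p (nrm v)]
  apply integral_mono_ae (tm_integrable v) (cst_integrable p (nrm v))
  filter_upwards [nonneg_ae] with x hx
  exact tm_le_cst hx hp

theorem tm_sq_integrable (v : V) : Integrable (fun x : W => (tm x v) ^ 2) PP := by
  obtain ⟨p, hp⟩ := exists_path_nrm v
  refine Integrable.mono' (g := fun x : W =>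
    (nrm v : ℝ) * ∑ i ∈ Finset.range (nrm v), (x s(p i, p (i + 1))) ^ 2) ?_
    ((tm_aemeasurable v).pow_const 2).aestronglyMeasurable ?_
  · exact (integrable_finsetSum _ fun i _ => edge_sq_integrable _).const_mul _
  · filter_upwards [nonneg_ae] with x hx
    rw [Real.norm_of_nonneg (by positivity)]
    refine le_trans ?_ (cst_sq_le x p (nrm v))
    exact pow_le_pow_left₀ (tm_nonneg hx v) (tm_le_cst hx hp) 2

theorem tm_sq_integral_le (v : V) : ∫ x, (tm x v) ^ 2 ∂PP ≤ 2 * (nrm v : ℝ) ^ 2 := by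
  obtain ⟨p, hp⟩ := exists_path_nrm v
  have h1 : ∫ x, (nrm v : ℝ) * ∑ i ∈ Finset.range (nrm v), (x s(p i, p (i + 1))) ^ 2 ∂PP =
      2 * (nrm v : ℝ) ^ 2 := by
    rw [integral_const_mul, integral_finsetSum _ fun i _ => edge_sq_integrable _]
    simp only [edge_sq_integral]
    simp
    ring
  rw [← h1]
  apply integral_mono_ae (tm_sq_integrable v)
    ((integrable_finsetSum _ fun i _ => edge_sq_integrable _).const_mul _)
  filter_upwards [nonneg_ae] with x hx
  refine le_trans ?_ (cst_sq_le x p (nrm v))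
  exact pow_le_pow_left₀ (tm_nonneg hx v) (tm_le_cst hx hp) 2

/-! ### transfer -/

theorem Setting.integrable_comp (S : Setting Ω X T μ) (v : V) {f : ℝ → ℝ}
    (h : Integrable (fun x : W => f (tm x v)) PP) :
    Integrable (fun ω => f (T ω v)) (volume : Measure Ω) := by
  have e1 : (fun ω => f (T ω v)) = (fun x : W => f (tm x v)) ∘ (fun ω e => X e ω) := by
    funext ω
    simp only [Function.comp, S.T_eq ω v]
  rw [e1, ← integrable_map_measure _ S.measurable_weights.aemeasurable, S.map_eq]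
  · exact h
  · rw [S.map_eq]
    exact h.aestronglyMeasurable

theorem Setting.integral_comp (S : Setting Ω X T μ) (v : V) {f : ℝ → ℝ} (hf : Measurable f) :
    ∫ ω, f (T ω v) = ∫ x, f (tm x v) ∂PP := by
  rw [← S.map_eq, integral_map S.measurable_weights.aemeasurable]
  · apply integral_congr_ae
    filter_upwards with ω
    rw [S.T_eq ω v]
  · rw [S.map_eq]
    exact (hf.comp_aemeasurable (tm_aemeasurable v)).aestronglyMeasurable

theorem integrable_T (S : Setting Ω X T μ) :
    ∀ v, Integrable (fun ω => T ω v) (volume : Measure Ω) := fun v =>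
  S.integrable_comp v (f := fun t => t) (tm_integrable v)

/-! ### subadditivity in the mean -/

theorem tm_zero {x : W} (hx : ∀ e, 0 ≤ x e) : tm x 0 = 0 := by
  apply le_antisymm _ (tm_nonneg hx 0)
  have h : IsP Set.univ (0 : V) 0 0 (fun _ => 0) :=
    ⟨rfl, rfl, fun i hi => by omega, fun _ _ => Set.mem_univ _⟩
  have := tm_le_cst hx h
  simpa [cst] using this

theorem tm_add_le {x : W} (hx : ∀ e, 0 ≤ x e) (u w : V) :
    tm x (w + u) ≤ tm x u + tm (shift u x) w := by
  have hx' : ∀ e, 0 ≤ shift u x e := fun e => hx _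
  apply le_of_forall_pos_lt_add
  intro ε hε
  have h1 : Fast x Set.univ 0 u (tm x u + ε / 2) := (tm_lt_iff hx u _).1 (by linarith)
  have h2 : Fast (shift u x) Set.univ 0 w (tm (shift u x) w + ε / 2) :=
    (tm_lt_iff hx' w _).1 (by linarith)
  rw [fast_shift, image_univ_add, zero_add] at h2
  have h3 := (tm_lt_iff hx (w + u) _).2 (h1.trans h2)
  linarith

theorem tm_shift_aemeasurable (u w : V) : AEMeasurable (fun x : W => tm (shift u x) w) PP := by
  have h := tm_aemeasurable w
  rw [← (shift_mp u).map_eq] at h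
  exact h.comp_measurable (shift_mp u).measurable

theorem tm_shift_integrable (u w : V) : Integrable (fun x : W => tm (shift u x) w) PP := by
  have h := tm_integrable w
  have h2 := h
  rw [← (shift_mp u).map_eq] at h2
  exact h2.comp_measurable (shift_mp u).measurable

theorem tm_shift_integral (u w : V) : ∫ x, tm (shift u x) w ∂PP = ∫ x, tm x w ∂PP := by
  conv_rhs => rw [← (shift_mp u).map_eq]
  rw [integral_map (shift_mp u).measurable.aemeasurable]
  rw [(shift_mp u).map_eq]
  exact (tm_aemeasurable w).aestronglyMeasurable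

theorem mean_add_le (u w : V) :
    ∫ x, tm x (w + u) ∂PP ≤ ∫ x, tm x u ∂PP + ∫ x, tm x w ∂PP := by
  rw [← tm_shift_integral u w, ← integral_add (tm_integrable u) (tm_shift_integrable u w)]
  apply integral_mono_ae (tm_integrable _) ((tm_integrable u).add (tm_shift_integrable u w))
  filter_upwards [nonneg_ae] with x hx
  exact tm_add_le hx u w

theorem mean_nsmul_le (v : V) (n : ℕ) :
    ∫ x, tm x (n • v) ∂PP ≤ n * ∫ x, tm x v ∂PP := by
  induction n with
  | zero =>
    have : ∫ x, tm x ((0 : ℕ) • v) ∂PP = 0 := by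
      rw [zero_smul]
      have h : ∫ x, tm x (0 : V) ∂PP = ∫ _x : W, (0 : ℝ) ∂PP := by
        apply integral_congr_ae
        filter_upwards [nonneg_ae] with x hx
        exact tm_zero hx
      rw [h]
      simp
    rw [this]
    simp
  | succ n ih =>
    have h := mean_add_le (n • v) v
    rw [succ_nsmul, add_comm]
    push_cast
    linarith

theorem le_expect (S : Setting Ω X T μ) : ∀ v, at' μ v ≤ ∫ ω, T ω v := by
  have := S.prob
  intro v
  have hE : ∫ ω, T ω v = ∫ x, tm x v ∂PP := S.integral_comp v measurable_id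
  rw [hE]
  set m : ℝ := ∫ x, tm x v ∂PP with hm
  have hm0 : 0 ≤ m := by
    apply integral_nonneg_of_ae
    filter_upwards [nonneg_ae] with x hx
    exact tm_nonneg hx v
  -- Fatou
  have hF := lintegral_liminf_le' (μ := (volume : Measure Ω)) (u := atTop)
    (f := fun (n : ℕ) ω => ENNReal.ofReal (T ω ((n : ℤ) • v) / (n : ℝ)))
    (fun n => ((S.T_measurable _).div_const _).ennreal_ofReal)
  have h1 : ∫⁻ ω, liminf (fun n : ℕ => ENNReal.ofReal (T ω ((n : ℤ) • v) / (n : ℝ))) atTop
      ∂(volume : Measure Ω) = ENNReal.ofReal (at' μ v) := by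
    have : ∫⁻ ω, liminf (fun n : ℕ => ENNReal.ofReal (T ω ((n : ℤ) • v) / (n : ℝ))) atTop
      ∂(volume : Measure Ω) = ∫⁻ _ω : Ω, ENNReal.ofReal (at' μ v) ∂(volume : Measure Ω) := by
      apply lintegral_congr_ae
      filter_upwards [S.lim v] with ω hω
      apply Tendsto.liminf_eq
      exact (ENNReal.continuous_ofReal.tendsto _).comp hω
    rw [this]
    simp
  have h2 : liminf (fun n : ℕ => ∫⁻ ω, ENNReal.ofReal (T ω ((n : ℤ) • v) / (n : ℝ))
      ∂(volume : Measure Ω)) atTop ≤ ENNReal.ofReal m := by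
    apply liminf_le_of_frequently_le'
    apply Eventually.frequently
    filter_upwards [eventually_ge_atTop 1] with n hn
    have hn' : (0 : ℝ) < n := by exact_mod_cast hn
    have hint : Integrable (fun ω => T ω ((n : ℤ) • v) / (n : ℝ)) (volume : Measure Ω) :=
      (integrable_T S _).div_const _
    rw [← ofReal_integral_eq_lintegral_ofReal hint]
    · apply ENNReal.ofReal_le_ofReal
      rw [integral_div, div_le_iff₀ hn']
      have h3 : ∫ ω, T ω ((n : ℤ) • v) = ∫ x, tm x ((n : ℤ) • v) ∂PP :=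
        S.integral_comp _ measurable_id
      rw [h3, natCast_zsmul, mul_comm]
      exact mean_nsmul_le v n
    · filter_upwards [S.T_nonneg] with ω hω
      exact div_nonneg (hω _) hn'.le
  rw [h1] at hF
  have h4 := hF.trans h2
  exact (ENNReal.ofReal_le_ofReal_iff hm0).1 h4

/-! ### from stretched exponential upper tails to `L¹` -/

theorem sq_mul_exp_bound {c : ℝ} (hc : 0 < c) :
    ∃ M : ℝ, 0 ≤ M ∧ ∀ n : ℕ, 1 ≤ n → (n : ℝ) ^ 2 * Real.exp (-(n : ℝ) ^ c) ≤ M := by
  obtain ⟨k, hk⟩ := exists_nat_ge (2 / c)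
  refine ⟨(k.factorial : ℝ), by positivity, fun n hn => ?_⟩
  have hn' : (1 : ℝ) ≤ n := by exact_mod_cast hn
  have h1 := Real.pow_div_factorial_le_exp (x := (n : ℝ) ^ c) (by positivity) k
  have h2 : (n : ℝ) ^ 2 ≤ ((n : ℝ) ^ c) ^ k := by
    rw [← Real.rpow_natCast, ← Real.rpow_natCast, ← Real.rpow_mul (by positivity)]
    apply Real.rpow_le_rpow_of_exponent_le hn'
    rw [div_le_iff₀ hc] at hk
    push_cast
    linarith
  rw [div_le_iff₀ (by positivity)] at h1
  rw [Real.exp_neg, ← div_eq_mul_inv, div_le_iff₀ (Real.exp_pos _)]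
  linarith

theorem pos_part_le {t m r K : ℝ} (hm : 0 ≤ m) (hr : 0 ≤ r) (hK : 0 < K) :
    max (t - m) 0 ≤ r + K * Set.indicator {s : ℝ | m + r ≤ s} (fun _ => (1 : ℝ)) t + t ^ 2 / K := by
  have h0 : 0 ≤ t ^ 2 / K := by positivity
  by_cases h : m + r ≤ t
  · rw [Set.indicator_of_mem (by exact h)]
    by_cases h2 : t ≤ K
    · rw [max_eq_left (by linarith)]
      linarith
    · push Not at h2
      have h3 : t ≤ t ^ 2 / K := by
        rw [le_div_iff₀ hK]
        nlinarith
      rw [max_eq_left (by linarith)]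
      linarith
  · rw [Set.indicator_of_notMem (by exact h)]
    push Not at h
    rw [mul_zero, add_zero]
    apply max_le
    · linarith
    · linarith

theorem tm_pos_part_le {v : V} {m r K : ℝ} (hm : 0 ≤ m) (hr : 0 ≤ r) (hK : 0 < K) :
    ∫ x, max (tm x v - m) 0 ∂PP ≤
      r + K * PP.real {x | ¬ Fast x Set.univ 0 v (m + r)} + 2 * (nrm v : ℝ) ^ 2 / K := by
  have hset : MeasurableSet {s : ℝ | m + r ≤ s} := measurableSet_Ici
  have hind : Integrable (fun x : W => Set.indicator {s : ℝ | m + r ≤ s} (fun _ => (1 : ℝ)) (tm x v))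
      PP := by
    refine Integrable.mono' (integrable_const (1 : ℝ))
      ((measurable_const.indicator hset).comp_aemeasurable (tm_aemeasurable v)).aestronglyMeasurable
      ?_
    filter_upwards with x
    rw [Real.norm_of_nonneg (Set.indicator_nonneg (fun _ _ => zero_le_one) _)]
    exact Set.indicator_le_self' (fun _ _ => zero_le_one) _
  have hindv : ∫ x, Set.indicator {s : ℝ | m + r ≤ s} (fun _ => (1 : ℝ)) (tm x v) ∂PP =
      PP.real {x | ¬ Fast x Set.univ 0 v (m + r)} := by
    have hms : MeasurableSet {x : W | ¬ Fast x Set.univ 0 v (m + r)} :=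
      (measurableSet_fast _ _ _ _).compl
    rw [← integral_indicator_one hms]
    apply integral_congr_ae
    filter_upwards [nonneg_ae] with x hx
    have := tm_lt_iff hx v (m + r)
    by_cases h : Fast x Set.univ 0 v (m + r)
    · rw [Set.indicator_of_notMem, Set.indicator_of_notMem]
      · exact fun h' => h' h
      · intro h'
        have h'' : m + r ≤ tm x v := h'
        linarith [this.2 h]
    · rw [Set.indicator_of_mem, Set.indicator_of_mem]
      · rfl
      · exact h
      · show m + r ≤ tm x v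
        by_contra hcon
        push Not at hcon
        exact h (this.1 hcon)
  have h1 : Integrable (fun x : W => max (tm x v - m) 0) PP :=
    ((tm_integrable v).sub (integrable_const m)).pos_part
  have h2 : Integrable (fun x : W => r + K * Set.indicator {s : ℝ | m + r ≤ s} (fun _ => (1 : ℝ))
      (tm x v) + (tm x v) ^ 2 / K) PP :=
    ((integrable_const r).add (hind.const_mul K)).add ((tm_sq_integrable v).div_const K)
  refine (integral_mono h1 h2 (fun x => pos_part_le hm hr hK)).trans ?_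
  have e2 : Integrable (fun x : W => r + K * Set.indicator {s : ℝ | m + r ≤ s} (fun _ => (1 : ℝ))
      (tm x v)) PP := (integrable_const r).add (hind.const_mul K)
  rw [integral_add e2 ((tm_sq_integrable v).div_const K),
    integral_add (integrable_const r) (hind.const_mul K), integral_const_mul, integral_div, hindv]
  have h3 := tm_sq_integral_le v
  have h4 : (∫ x, (tm x v) ^ 2 ∂PP) / K ≤ 2 * (nrm v : ℝ) ^ 2 / K := by
    gcongr
  simp only [integral_const, probReal_univ, one_smul]
  linarith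

theorem abs_le_pos_part (S : Setting Ω X T μ) (v : V) :
    ∫ ω, |T ω v - at' μ v| ≤ 2 * ∫ x, max (tm x v - at' μ v) 0 ∂PP := by
  have := S.prob
  have h1 : ∫ ω, |T ω v - at' μ v| = ∫ x, |tm x v - at' μ v| ∂PP :=
    S.integral_comp v (f := fun t => |t - at' μ v|) (by fun_prop)
  have h2 : ∫ x, (tm x v - at' μ v) ∂PP ≥ 0 := by
    rw [integral_sub (tm_integrable v) (integrable_const _)]
    have h3 := le_expect S v
    have h4 : ∫ ω, T ω v = ∫ x, tm x v ∂PP := S.integral_comp v measurable_id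
    rw [h4] at h3
    simp only [integral_const, probReal_univ, one_smul]
    linarith
  have hi : Integrable (fun x : W => tm x v - at' μ v) PP :=
    (tm_integrable v).sub (integrable_const _)
  have h5 : ∫ x, |tm x v - at' μ v| ∂PP =
      2 * ∫ x, max (tm x v - at' μ v) 0 ∂PP - ∫ x, (tm x v - at' μ v) ∂PP := by
    rw [← integral_const_mul, ← integral_sub (hi.pos_part.const_mul 2) hi]
    apply integral_congr_ae
    filter_upwards with x
    rcases le_total 0 (tm x v - at' μ v) with h | h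
    · rw [abs_of_nonneg h, max_eq_left h]
      ring
    · rw [abs_of_nonpos h, max_eq_right h]
      ring
  rw [h1, h5]
  linarith

theorem pos_part_le_mean (v : V) {m : ℝ} (hm : 0 ≤ m) :
    ∫ x, max (tm x v - m) 0 ∂PP ≤ nrm v := by
  have h1 : Integrable (fun x : W => max (tm x v - m) 0) PP :=
    ((tm_integrable v).sub (integrable_const _)).pos_part
  refine le_trans (integral_mono_ae h1 (tm_integrable v) ?_) (tm_integral_le v)
  filter_upwards [nonneg_ae] with x hx
  exact max_le (by linarith) (tm_nonneg hx v)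

theorem l1_of_sup (S : Setting Ω X T μ) {Cμ : ℝ} (hμ : MuOK μ Cμ) (a : ℝ) (ha0 : 0 < a)
    (ha1 : a < 1) (h : ∀ β, a < β → β < 1 → SUp μ β) :
    ∀ ε > 0, ∃ C, ∀ v, ∫ ω, |T ω v - at' μ v| ≤ C * (1 + (nrm v : ℝ)) ^ (a + ε) := by
  intro ε hε
  set β : ℝ := min (a + ε) ((1 + a) / 2) with hβ
  have hβ1 : a < β := lt_min (by linarith) (by linarith)
  have hβ2 : β < 1 := lt_of_le_of_lt (min_le_right _ _) (by linarith)
  have hβ3 : β ≤ a + ε := min_le_left _ _
  obtain ⟨c, hc, N0, hN0⟩ := h β hβ1 hβ2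
  obtain ⟨M, hM0, hM⟩ := sq_mul_exp_bound hc
  refine ⟨2 * (1 + M + 2 + N0), fun v => ?_⟩
  have hmu0 : 0 ≤ at' μ v := le_trans (by positivity) (hμ.ge v)
  have hone : (1 : ℝ) ≤ (1 + (nrm v : ℝ)) ^ (a + ε) := by
    apply Real.one_le_rpow
    · have : (0 : ℝ) ≤ nrm v := by positivity
      linarith
    · linarith
  refine (abs_le_pos_part S v).trans ?_
  rw [mul_assoc]
  apply mul_le_mul_of_nonneg_left _ (by norm_num : (0 : ℝ) ≤ 2)
  rcases lt_or_ge (nrm v) N0 with hlt | hge
  · -- short vectors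
    have h1 := pos_part_le_mean v hmu0
    have h3 : (nrm v : ℝ) ≤ N0 := by exact_mod_cast hlt.le
    have h4 : (N0 : ℝ) ≤ (1 + M + 2 + N0) * (1 + (nrm v : ℝ)) ^ (a + ε) := by
      have h5 : (1 + M + 2 + N0 : ℝ) * 1 ≤ (1 + M + 2 + N0) * (1 + (nrm v : ℝ)) ^ (a + ε) :=
        mul_le_mul_of_nonneg_left hone (by positivity)
      linarith
    linarith
  · rcases Nat.eq_zero_or_pos (nrm v) with h0 | hpos
    · have h2 := pos_part_le_mean v hmu0
      have h00 : (nrm v : ℝ) = 0 := by exact_mod_cast h0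
      have h5 : (1 + M + 2 + N0 : ℝ) * 1 ≤ (1 + M + 2 + N0) * (1 + (nrm v : ℝ)) ^ (a + ε) :=
        mul_le_mul_of_nonneg_left hone (by positivity)
      have h6 : (0 : ℝ) ≤ 1 + M + 2 + N0 := by positivity
      linarith
    · have hn : (1 : ℝ) ≤ nrm v := by exact_mod_cast hpos
      have h1 := tm_pos_part_le (v := v) (m := at' μ v) (r := (nrm v : ℝ) ^ β)
        (K := (nrm v : ℝ) ^ 2) hmu0 (by positivity) (by positivity)
      have h2 := hN0 v hge
      have h3 : (nrm v : ℝ) ^ 2 * PP.real {x | ¬ Fast x Set.univ 0 v (at' μ v + (nrm v : ℝ) ^ β)} ≤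
          M := (mul_le_mul_of_nonneg_left h2 (by positivity)).trans (hM _ hpos)
      have h4 : 2 * (nrm v : ℝ) ^ 2 / (nrm v : ℝ) ^ 2 = 2 := by
        field_simp
      have h5 : (nrm v : ℝ) ^ β ≤ (1 + (nrm v : ℝ)) ^ (a + ε) := by
        calc (nrm v : ℝ) ^ β ≤ (nrm v : ℝ) ^ (a + ε) :=
              Real.rpow_le_rpow_of_exponent_le hn hβ3
          _ ≤ (1 + (nrm v : ℝ)) ^ (a + ε) :=
              Real.rpow_le_rpow (by positivity) (by linarith) (by linarith)
      have h6 : (M + 2 + N0 : ℝ) * 1 ≤ (M + 2 + N0) * (1 + (nrm v : ℝ)) ^ (a + ε) :=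
        mul_le_mul_of_nonneg_left hone (by positivity)
      have h7 : (0 : ℝ) ≤ N0 := by positivity
      rw [h4] at h1
      have h8 : (1 + M + 2 + N0 : ℝ) * (1 + (nrm v : ℝ)) ^ (a + ε) =
          (1 + (nrm v : ℝ)) ^ (a + ε) + (M + 2 + N0) * (1 + (nrm v : ℝ)) ^ (a + ε) := by ring
      rw [h8]
      linarith

/-! ### from `L¹` to a polynomial upper tail -/

theorem hup_of_l1 (S : Setting Ω X T μ) (a : ℝ) (ha0 : 0 < a) (_ha1 : a < 1)
    (h : ∀ ε > 0, ∃ C, ∀ v, ∫ ω, |T ω v - at' μ v| ≤ C * (1 + (nrm v : ℝ)) ^ (a + ε)) :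
    ∀ β, a < β → β < 1 → ∃ q > 0, HUp μ β q := by
  have := S.prob
  intro β hβ1 hβ2
  set ε : ℝ := (β - a) / 2 with hε
  have hε0 : 0 < ε := by rw [hε]; linarith
  obtain ⟨C, hC⟩ := h ε hε0
  have hC0 : 0 ≤ C := by
    have h1 := hC 0
    have h2 : 0 ≤ ∫ ω, |T ω 0 - at' μ 0| := integral_nonneg fun _ => abs_nonneg _
    have h3 : ((1 : ℝ) + (nrm 0 : ℝ)) ^ (a + ε) = 1 := by
      rw [nrm_zero]
      simp
    rw [h3, mul_one] at h1
    linarith
  refine ⟨ε, hε0, C * 2 ^ (a + ε), fun v hv => ?_⟩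
  have hpos : 1 ≤ nrm v := by
    rcases Nat.eq_zero_or_pos (nrm v) with h | h
    · exact absurd (nrm_eq_zero.1 h) hv
    · exact h
  have hn : (1 : ℝ) ≤ nrm v := by exact_mod_cast hpos
  have hn0 : (0 : ℝ) < nrm v := by linarith
  have hint : Integrable (fun ω => |T ω v - at' μ v|) (volume : Measure Ω) :=
    ((integrable_T S v).sub (integrable_const _)).abs
  have hmk := mul_meas_ge_le_integral_of_nonneg
    (ae_of_all _ fun ω => abs_nonneg (T ω v - at' μ v)) hint ((nrm v : ℝ) ^ β)
  rw [← S.real_T_ge]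
  have hsub : (volume : Measure Ω).real {ω | at' μ v + (nrm v : ℝ) ^ β ≤ T ω v} ≤
      (volume : Measure Ω).real {ω | (nrm v : ℝ) ^ β ≤ |T ω v - at' μ v|} := by
    refine measureReal_mono ?_ (measure_ne_top _ _)
    intro ω hω
    have hω' : at' μ v + (nrm v : ℝ) ^ β ≤ T ω v := hω
    show (nrm v : ℝ) ^ β ≤ |T ω v - at' μ v|
    have := le_abs_self (T ω v - at' μ v)
    linarith
  have hpw : 0 < (nrm v : ℝ) ^ β := by positivity
  have h1 : (nrm v : ℝ) ^ β *
      (volume : Measure Ω).real {ω | at' μ v + (nrm v : ℝ) ^ β ≤ T ω v} ≤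
      C * (1 + (nrm v : ℝ)) ^ (a + ε) :=
    (mul_le_mul_of_nonneg_left hsub hpw.le).trans (hmk.trans (hC v))
  have h2 : (1 + (nrm v : ℝ)) ^ (a + ε) ≤ 2 ^ (a + ε) * (nrm v : ℝ) ^ (a + ε) := by
    rw [← Real.mul_rpow (by norm_num) hn0.le]
    exact Real.rpow_le_rpow (by positivity) (by linarith) (by linarith)
  have h3 : (nrm v : ℝ) ^ β * (nrm v : ℝ) ^ (-ε) = (nrm v : ℝ) ^ (a + ε) := by
    rw [← Real.rpow_add hn0]
    congr 1
    rw [hε]
    ring
  refine le_of_mul_le_mul_left ?_ hpw
  refine h1.trans ((mul_le_mul_of_nonneg_left h2 hC0).trans (le_of_eq ?_))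
  rw [← h3]
  ring

end Pool.Agent.K4H17.FPP
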