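import Pool.Agent.K4H17.FPP.Api

/-!
First-passage percolation on `ℤ²`: the time constant of the problem is a norm-like function
(subadditive, bounded below by `nrm / 2048`).
-/

set_option autoImplicit false
open MeasureTheory ProbabilityTheory Filter
open scoped Pointwise Topology

namespace Pool.Agent.K4H17.FPP

variable {Ω : Type} [MeasureSpace Ω] {X : Sym2 V → Ω → ℝ} {T : Ω → V → ℝ} {μ : ℝ × ℝ → ℝ}

theorem Setting.inMeasure (S : Setting Ω X T μ) (z : V) {ε : ℝ} (hε : 0 < ε) :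
    Tendsto (fun n : ℕ => (volume : Measure Ω).real
      {ω | ε ≤ dist (T ω ((n : ℤ) • z) / (n : ℝ)) (at' μ z)}) atTop (𝓝 0) := by
  have := S.prob
  have h : TendstoInMeasure (volume : Measure Ω)
      (fun (n : ℕ) ω => T ω ((n : ℤ) • z) / (n : ℝ)) atTop (fun _ => at' μ z) := by
    apply tendstoInMeasure_of_tendsto_ae
    · intro n
      exact ((S.T_measurable _).div_const _).aestronglyMeasurable
    · exact S.lim z
  exact tendstoInMeasure_iff_measureReal_dist.1 h ε hε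

/-- passage times much smaller than the time constant are unlikely -/
theorem Setting.low (S : Setting Ω X T μ) (z : V) {c : ℝ} (hc : c < at' μ z) :
    Tendsto (fun n : ℕ => PP.real {x | Fast x Set.univ 0 ((n : ℤ) • z) ((n : ℝ) * c)})
      atTop (𝓝 0) := by
  have := S.prob
  have h := S.inMeasure z (ε := at' μ z - c) (by linarith)
  refine squeeze_zero' (Eventually.of_forall fun n => measureReal_nonneg) ?_ h
  filter_upwards [eventually_ge_atTop 1] with n hn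
  rw [← S.real_T_lt]
  refine measureReal_mono ?_ (measure_ne_top _ _)
  intro ω hω
  have hω' : T ω ((n : ℤ) • z) < (n : ℝ) * c := hω
  have hn' : (0 : ℝ) < n := by exact_mod_cast hn
  have h1 : T ω ((n : ℤ) • z) / (n : ℝ) < c := by
    rw [div_lt_iff₀ hn']
    linarith
  show at' μ z - c ≤ dist (T ω ((n : ℤ) • z) / (n : ℝ)) (at' μ z)
  rw [Real.dist_eq, abs_sub_comm]
  have := le_abs_self (at' μ z - T ω ((n : ℤ) • z) / (n : ℝ))
  linarith

/-- passage times much larger than the time constant are unlikely -/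
theorem Setting.high (S : Setting Ω X T μ) (z : V) {c : ℝ} (hc : at' μ z < c) :
    Tendsto (fun n : ℕ => PP.real {x | ¬ Fast x Set.univ 0 ((n : ℤ) • z) ((n : ℝ) * c)})
      atTop (𝓝 0) := by
  have := S.prob
  have h := S.inMeasure z (ε := c - at' μ z) (by linarith)
  refine squeeze_zero' (Eventually.of_forall fun n => measureReal_nonneg) ?_ h
  filter_upwards [eventually_ge_atTop 1] with n hn
  rw [← S.real_T_ge]
  refine measureReal_mono ?_ (measure_ne_top _ _)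
  intro ω hω
  have hω' : (n : ℝ) * c ≤ T ω ((n : ℤ) • z) := hω
  have hn' : (0 : ℝ) < n := by exact_mod_cast hn
  have h1 : c ≤ T ω ((n : ℤ) • z) / (n : ℝ) := by
    rw [le_div_iff₀ hn']
    linarith
  show c - at' μ z ≤ dist (T ω ((n : ℤ) • z) / (n : ℝ)) (at' μ z)
  rw [Real.dist_eq]
  have := le_abs_self (T ω ((n : ℤ) • z) / (n : ℝ) - at' μ z)
  linarith

theorem at'_zero (S : Setting Ω X T μ) : at' μ 0 = 0 := by
  have h := S.hom 0 0 le_rfl
  have e : at' μ 0 = μ 0 := by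
    unfold at'
    congr 1
    ext <;> simp
  rw [e]
  simpa using h

theorem ge_aux (S : Setting Ω X T μ) (hsaw : SawBound) (v : V) :
    (nrm v : ℝ) / 2048 ≤ at' μ v := by
  by_contra hlt
  push Not at hlt
  have hv : v ≠ 0 := by
    rintro rfl
    rw [at'_zero S] at hlt
    simp [nrm_zero] at hlt
  have hnv : 1 ≤ nrm v := by
    rcases Nat.eq_zero_or_pos (nrm v) with h | h
    · exact absurd (nrm_eq_zero.1 h) hv
    · exact h
  have h := S.high v hlt
  have h2 := (h.eventually (gt_mem_nhds (show (0 : ℝ) < 1 / 2 by norm_num))).and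
    (eventually_ge_atTop 1)
  obtain ⟨n, hn1, hn2⟩ := h2.exists
  have hsub : PP.real {x | Fast x Set.univ 0 ((n : ℤ) • v) ((n : ℝ) * ((nrm v : ℝ) / 2048))} ≤
      (1 / 4 : ℝ) ^ (n * nrm v) := by
    refine le_trans (measureReal_mono ?_ (measure_ne_top _ _)) (hsaw (n * nrm v))
    intro x hx
    refine ⟨(n : ℤ) • v, ?_, ?_⟩
    · rw [natCast_zsmul, nrm_nsmul]
    · have hx' : Fast x Set.univ 0 ((n : ℤ) • v) ((n : ℝ) * ((nrm v : ℝ) / 2048)) := hx
      have e : (((n * nrm v : ℕ) : ℝ) / 2048) = (n : ℝ) * ((nrm v : ℝ) / 2048) := by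
        push_cast
        ring
      rw [e]
      exact hx'
  have hpow : (1 / 4 : ℝ) ^ (n * nrm v) ≤ 1 / 4 := by
    have : (1 / 4 : ℝ) ^ (n * nrm v) ≤ (1 / 4 : ℝ) ^ 1 :=
      pow_le_pow_of_le_one (by norm_num) (by norm_num) (Nat.mul_pos hn2 hnv)
    simpa using this
  have hnot := real_not _ (measurableSet_fast Set.univ 0 ((n : ℤ) • v)
    ((n : ℝ) * ((nrm v : ℝ) / 2048)))
  have e1 : ({x : W | Fast x Set.univ 0 ((n : ℤ) • v) ((n : ℝ) * ((nrm v : ℝ) / 2048))})ᶜ =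
    {x | ¬ Fast x Set.univ 0 ((n : ℤ) • v) ((n : ℝ) * ((nrm v : ℝ) / 2048))} := rfl
  rw [e1] at hnot
  linarith

theorem sub_int (S : Setting Ω X T μ) (u w : V) : at' μ (u + w) ≤ at' μ u + at' μ w := by
  by_contra hlt
  push Not at hlt
  set δ : ℝ := (at' μ (u + w) - at' μ u - at' μ w) / 3 with hδ
  have hδ0 : 0 < δ := by rw [hδ]; linarith
  have h1 := S.high u (c := at' μ u + δ) (by linarith)
  have h2 := S.high w (c := at' μ w + δ) (by linarith)
  have h3 := S.low (u + w) (c := at' μ u + δ + (at' μ w + δ)) (by rw [hδ]; linarith)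
  have hs := (h1.add h2).add h3
  simp only [add_zero] at hs
  obtain ⟨n, hn⟩ := (hs.eventually (gt_mem_nhds (show (0 : ℝ) < 1 by norm_num))).exists
  have htr := real_not_fast_translate 0 ((n : ℤ) • w) ((n : ℤ) • u) ((n : ℝ) * (at' μ w + δ))
  rw [← htr] at hn
  have hcover : (Set.univ : Set W) ⊆
      ({x | ¬ Fast x Set.univ 0 ((n : ℤ) • u) ((n : ℝ) * (at' μ u + δ))} ∪
        {x | ¬ Fast x Set.univ (0 + (n : ℤ) • u) ((n : ℤ) • w + (n : ℤ) • u)
          ((n : ℝ) * (at' μ w + δ))}) ∪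
        {x | Fast x Set.univ 0 ((n : ℤ) • (u + w))
          ((n : ℝ) * (at' μ u + δ + (at' μ w + δ)))} := by
    intro x _
    by_cases ha : Fast x Set.univ 0 ((n : ℤ) • u) ((n : ℝ) * (at' μ u + δ))
    · by_cases hb : Fast x Set.univ (0 + (n : ℤ) • u) ((n : ℤ) • w + (n : ℤ) • u)
          ((n : ℝ) * (at' μ w + δ))
      · right
        rw [zero_add] at hb
        have hc := ha.trans hb
        show Fast x Set.univ 0 ((n : ℤ) • (u + w)) ((n : ℝ) * (at' μ u + δ + (at' μ w + δ)))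
        have e1 : (n : ℤ) • (u + w) = (n : ℤ) • w + (n : ℤ) • u := by
          rw [smul_add, add_comm]
        have e2 : (n : ℝ) * (at' μ u + δ + (at' μ w + δ)) =
            (n : ℝ) * (at' μ u + δ) + (n : ℝ) * (at' μ w + δ) := by ring
        rw [e1, e2]
        exact hc
      · left
        right
        exact hb
    · left
      left
      exact ha
  have hle := measureReal_mono (μ := PP) hcover (measure_ne_top _ _)
  have hu1 := measureReal_union_le (μ := PP)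
    ({x | ¬ Fast x Set.univ 0 ((n : ℤ) • u) ((n : ℝ) * (at' μ u + δ))} ∪
        {x | ¬ Fast x Set.univ (0 + (n : ℤ) • u) ((n : ℤ) • w + (n : ℤ) • u)
          ((n : ℝ) * (at' μ w + δ))})
    {x | Fast x Set.univ 0 ((n : ℤ) • (u + w))
          ((n : ℝ) * (at' μ u + δ + (at' μ w + δ)))}
  have hu2 := measureReal_union_le (μ := PP)
    {x | ¬ Fast x Set.univ 0 ((n : ℤ) • u) ((n : ℝ) * (at' μ u + δ))}
    {x | ¬ Fast x Set.univ (0 + (n : ℤ) • u) ((n : ℤ) • w + (n : ℤ) • u)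
          ((n : ℝ) * (at' μ w + δ))}
  have huniv : PP.real (Set.univ : Set W) = 1 := by simp
  rw [huniv] at hle
  linarith

theorem floor_tendsto (a : ℝ) : Tendsto (fun n : ℕ => (⌊(n : ℝ) * a⌋ : ℝ) / (n : ℝ)) atTop (𝓝 a) := by
  have h1 : Tendsto (fun n : ℕ => a - 1 / (n : ℝ)) atTop (𝓝 (a - 0)) :=
    tendsto_const_nhds.sub tendsto_one_div_atTop_nhds_zero_nat
  rw [sub_zero] at h1
  refine tendsto_of_tendsto_of_tendsto_of_le_of_le' h1 tendsto_const_nhds ?_ ?_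
  · filter_upwards [eventually_ge_atTop 1] with n hn
    have hn' : (0 : ℝ) < n := by exact_mod_cast hn
    have h2 := Int.sub_one_lt_floor ((n : ℝ) * a)
    rw [le_div_iff₀ hn', sub_mul, one_div, inv_mul_cancel₀ hn'.ne']
    linarith
  · filter_upwards [eventually_ge_atTop 1] with n hn
    have hn' : (0 : ℝ) < n := by exact_mod_cast hn
    have h2 := Int.floor_le ((n : ℝ) * a)
    rw [div_le_iff₀ hn']
    linarith

theorem sub_real (S : Setting Ω X T μ) (x y : ℝ × ℝ) : μ (x + y) ≤ μ x + μ y := by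
  have key : ∀ n : ℕ, 1 ≤ n →
      μ (((⌊(n : ℝ) * x.1⌋ : ℝ) / n, (⌊(n : ℝ) * x.2⌋ : ℝ) / n) +
        ((⌊(n : ℝ) * y.1⌋ : ℝ) / n, (⌊(n : ℝ) * y.2⌋ : ℝ) / n)) ≤
      μ ((⌊(n : ℝ) * x.1⌋ : ℝ) / n, (⌊(n : ℝ) * x.2⌋ : ℝ) / n) +
        μ ((⌊(n : ℝ) * y.1⌋ : ℝ) / n, (⌊(n : ℝ) * y.2⌋ : ℝ) / n) := by
    intro n hn
    have hn' : (0 : ℝ) < n := by exact_mod_cast hn
    have hs : ∀ v : V, μ ((v.1 : ℝ) / n, (v.2 : ℝ) / n) = (1 / (n : ℝ)) * at' μ v := by
      intro v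
      unfold at'
      rw [← S.hom _ _ (by positivity)]
      congr 1
      ext
      · simp [div_eq_inv_mul]
      · simp [div_eq_inv_mul]
    have h1 := hs (⌊(n : ℝ) * x.1⌋, ⌊(n : ℝ) * x.2⌋)
    have h2 := hs (⌊(n : ℝ) * y.1⌋, ⌊(n : ℝ) * y.2⌋)
    have h3 := hs ((⌊(n : ℝ) * x.1⌋, ⌊(n : ℝ) * x.2⌋) + (⌊(n : ℝ) * y.1⌋, ⌊(n : ℝ) * y.2⌋))
    have e3 : (((⌊(n : ℝ) * x.1⌋ : ℝ) / n, (⌊(n : ℝ) * x.2⌋ : ℝ) / n) +
        ((⌊(n : ℝ) * y.1⌋ : ℝ) / n, (⌊(n : ℝ) * y.2⌋ : ℝ) / n) : ℝ × ℝ) =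
        (((((⌊(n : ℝ) * x.1⌋, ⌊(n : ℝ) * x.2⌋) + (⌊(n : ℝ) * y.1⌋, ⌊(n : ℝ) * y.2⌋) : V)).1 : ℝ) / n,
          ((((⌊(n : ℝ) * x.1⌋, ⌊(n : ℝ) * x.2⌋) + (⌊(n : ℝ) * y.1⌋, ⌊(n : ℝ) * y.2⌋) : V)).2 : ℝ) / n) := by
      ext
      · simp [add_div]
      · simp [add_div]
    rw [e3, h3]
    simp only at h1 h2
    rw [h1, h2, ← mul_add]
    exact mul_le_mul_of_nonneg_left (sub_int S _ _) (by positivity)
  have hx : Tendsto (fun n : ℕ => (((⌊(n : ℝ) * x.1⌋ : ℝ) / n, (⌊(n : ℝ) * x.2⌋ : ℝ) / n) : ℝ × ℝ))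
      atTop (𝓝 x) := (floor_tendsto x.1).prodMk_nhds (floor_tendsto x.2)
  have hy : Tendsto (fun n : ℕ => (((⌊(n : ℝ) * y.1⌋ : ℝ) / n, (⌊(n : ℝ) * y.2⌋ : ℝ) / n) : ℝ × ℝ))
      atTop (𝓝 y) := (floor_tendsto y.1).prodMk_nhds (floor_tendsto y.2)
  refine le_of_tendsto_of_tendsto ((S.cont.tendsto _).comp (hx.add hy))
    (((S.cont.tendsto _).comp hx).add ((S.cont.tendsto _).comp hy)) ?_
  filter_upwards [eventually_ge_atTop 1] with n hn
  exact key n hn

theorem abs_le_aux (S : Setting Ω X T μ) :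
    ∃ M : ℝ, 0 ≤ M ∧ ∀ x : ℝ × ℝ, |μ x| ≤ M * (|x.1| + |x.2|) := by
  have hK : IsCompact (Set.Icc ((-1 : ℝ), (-1 : ℝ)) ((1 : ℝ), (1 : ℝ))) := isCompact_Icc
  obtain ⟨M, hM⟩ := hK.exists_bound_of_continuousOn (f := μ) S.cont.continuousOn
  have hM0 : 0 ≤ M := le_trans (norm_nonneg _) (hM (0, 0) ⟨⟨by norm_num, by norm_num⟩,
    ⟨by norm_num, by norm_num⟩⟩)
  refine ⟨M, hM0, fun x => ?_⟩
  rcases eq_or_lt_of_le (show (0 : ℝ) ≤ |x.1| + |x.2| by positivity) with h | h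
  · have h1 : |x.1| = 0 := by
      have := abs_nonneg x.1
      have := abs_nonneg x.2
      linarith
    have h2 : |x.2| = 0 := by
      have := abs_nonneg x.1
      have := abs_nonneg x.2
      linarith
    have hx : x = (0, 0) := by
      ext
      · exact abs_eq_zero.1 h1
      · exact abs_eq_zero.1 h2
    have h0 : μ (0, 0) = 0 := by
      have := S.hom 0 0 le_rfl
      rw [zero_smul, zero_mul] at this
      exact this
    rw [hx, h0]
    simp
  · set r : ℝ := |x.1| + |x.2| with hr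
    have hx : x = r • ((1 / r) • x) := by
      rw [smul_smul, mul_one_div_cancel h.ne', one_smul]
    have hmem : (1 / r) • x ∈ Set.Icc ((-1 : ℝ), (-1 : ℝ)) ((1 : ℝ), (1 : ℝ)) := by
      have b1 : |x.1| ≤ r := by
        have := abs_nonneg x.2
        linarith
      have b2 : |x.2| ≤ r := by
        have := abs_nonneg x.1
        linarith
      have c1 : |(1 / r) * x.1| ≤ 1 := by
        rw [abs_mul, abs_of_pos (show 0 < 1 / r by positivity), one_div, inv_mul_le_iff₀ h]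
        linarith
      have c2 : |(1 / r) * x.2| ≤ 1 := by
        rw [abs_mul, abs_of_pos (show 0 < 1 / r by positivity), one_div, inv_mul_le_iff₀ h]
        linarith
      rw [abs_le] at c1 c2
      exact ⟨⟨c1.1, c2.1⟩, ⟨c1.2, c2.2⟩⟩
    have h1 := hM _ hmem
    calc |μ x| = |μ (r • ((1 / r) • x))| := by rw [← hx]
      _ = r * |μ ((1 / r) • x)| := by
        rw [S.hom _ _ h.le, abs_mul, abs_of_pos h]
      _ ≤ r * M := mul_le_mul_of_nonneg_left h1 h.le
      _ = M * r := mul_comm _ _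

/-- what the proofs use of the time constant -/
theorem muOK (S : Setting Ω X T μ) (hsaw : SawBound) : ∃ Cμ, MuOK μ Cμ := by
  obtain ⟨M, hM0, hM⟩ := abs_le_aux S
  have hab : ∀ x : ℝ × ℝ, |μ x| ≤ max 1 M * (|x.1| + |x.2|) := fun x =>
    (hM x).trans (mul_le_mul_of_nonneg_right (le_max_right _ _) (by positivity))
  refine ⟨max 1 M, le_max_left _ _, S.hom, sub_real S, fun v => ?_, ge_aux S hsaw, hab⟩
  have h := (le_abs_self _).trans (hab ((v.1 : ℝ), (v.2 : ℝ)))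
  have e : (nrm v : ℝ) = |(v.1 : ℝ)| + |(v.2 : ℝ)| := by
    unfold nrm
    push_cast
    rw [Nat.cast_natAbs, Nat.cast_natAbs]
    push_cast
    rfl
  unfold at'
  rw [e]
  exact h

end Pool.Agent.K4H17.FPP
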