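import Pool.Agent.K4H17.FPP.Api

/-!
First-passage percolation on `ℤ²`: the linear lower bound on passage times, by counting
self-avoiding paths.
-/

set_option autoImplicit false
open MeasureTheory ProbabilityTheory Filter
open scoped Pointwise

namespace Pool.Agent.K4H17.FPP

/-! ### removing a loop -/

/-- the path without the steps `i, …, i + d - 1` -/
def cut (p : ℕ → V) (i d : ℕ) : ℕ → V := fun k => if k ≤ i then p k else p (k + d)

theorem cut_add {p : ℕ → V} {i d : ℕ} (he : p i = p (i + d)) (k : ℕ) :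
    cut p i d (i + k) = p (i + d + k) := by
  unfold cut
  by_cases h : k = 0
  · subst h
    rw [if_pos (by omega), Nat.add_zero, Nat.add_zero]
    exact he
  · rw [if_neg (by omega)]
    congr 1
    omega

theorem cut_isP {u v : V} {i d m : ℕ} {p : ℕ → V} (h : IsP Set.univ u v (i + d + m) p)
    (he : p i = p (i + d)) : IsP Set.univ u v (i + m) (cut p i d) := by
  obtain ⟨h1, h2, h3, h4⟩ := h
  refine ⟨?_, ?_, ?_, fun _ _ => Set.mem_univ _⟩
  · unfold cut
    rw [if_pos (Nat.zero_le _)]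
    exact h1
  · rw [cut_add he]
    exact h2
  · intro k hk
    by_cases hki : k + 1 ≤ i
    · unfold cut
      rw [if_pos hki, if_pos (by omega)]
      exact h3 k (by omega)
    · obtain ⟨l, rfl⟩ : ∃ l, k = i + l := ⟨k - i, by omega⟩
      rw [cut_add he, show i + l + 1 = i + (l + 1) by omega, cut_add he]
      have := h3 (i + d + l) (by omega)
      rwa [show i + d + l + 1 = i + d + (l + 1) by omega] at this

theorem cut_cst {i d m : ℕ} {p : ℕ → V} {x : W} (hx : ∀ e, 0 ≤ x e) (he : p i = p (i + d)) :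
    cst x (cut p i d) (i + m) ≤ cst x p (i + d + m) := by
  unfold cst
  rw [Finset.sum_range_add, Finset.sum_range_add, Finset.sum_range_add]
  have e1 : ∑ k ∈ Finset.range i, x s(cut p i d k, cut p i d (k + 1)) =
      ∑ k ∈ Finset.range i, x s(p k, p (k + 1)) := by
    apply Finset.sum_congr rfl
    intro k hk
    have hk' := Finset.mem_range.1 hk
    unfold cut
    rw [if_pos (by omega), if_pos (by omega)]
  have e2 : ∑ k ∈ Finset.range m, x s(cut p i d (i + k), cut p i d (i + k + 1)) =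
      ∑ k ∈ Finset.range m, x s(p (i + d + k), p (i + d + k + 1)) := by
    apply Finset.sum_congr rfl
    intro k _
    rw [cut_add he, show i + k + 1 = i + (k + 1) by omega, cut_add he,
      show i + d + (k + 1) = i + d + k + 1 by omega]
  have e3 : 0 ≤ ∑ k ∈ Finset.range d, x s(p (i + k), p (i + k + 1)) :=
    Finset.sum_nonneg (fun _ _ => hx _)
  rw [e1, e2]
  linarith

/-- the beginning of a cheap path to a distant point can be taken injective -/
theorem exists_inj {x : W} (hx : ∀ e, 0 ≤ x e) {R : ℕ} {v : V} {c : ℝ} (hR : R ≤ nrm v)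
    (h : Fast x Set.univ 0 v c) :
    ∃ p : ℕ → V, p 0 = 0 ∧ (∀ i < R, nrm (p (i + 1) - p i) = 1) ∧
      (∀ i j : ℕ, i < j → j ≤ R → p i ≠ p j) ∧ cst x p R < c := by
  classical
  have hex : ∃ n, ∃ p, IsP Set.univ 0 v n p ∧ cst x p n < c := h
  obtain ⟨p, hp, hc⟩ := Nat.find_spec hex
  set n := Nat.find hex with hn
  have hmin : ∀ m, m < n → ¬ ∃ p, IsP Set.univ 0 v m p ∧ cst x p m < c :=
    fun m hm => Nat.find_min hex hm
  have hnR : R ≤ n := by
    have h1 := hp.nrm_le 0 n (Nat.zero_le _) le_rfl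
    rw [hp.1, hp.2.1, sub_zero] at h1
    omega
  refine ⟨p, hp.1, fun i hi => hp.2.2.1 i (by omega), ?_, ?_⟩
  · intro i j hij hj he
    obtain ⟨d, rfl⟩ : ∃ d, j = i + d := ⟨j - i, by omega⟩
    obtain ⟨m, hm⟩ : ∃ m, n = i + d + m := ⟨n - (i + d), by omega⟩
    rw [hm] at hp hc
    apply hmin (i + m) (by omega)
    exact ⟨cut p i d, cut_isP hp he, lt_of_le_of_lt (cut_cst hx he) hc⟩
  · refine lt_of_le_of_lt ?_ hc
    obtain ⟨m, hm⟩ : ∃ m, n = R + m := ⟨n - R, by omega⟩
    rw [hm]
    unfold cst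
    rw [Finset.sum_range_add]
    have e3 : 0 ≤ ∑ k ∈ Finset.range m, x s(p (R + k), p (R + k + 1)) :=
      Finset.sum_nonneg (fun _ _ => hx _)
    linarith

/-! ### many edges with small weights -/

theorem all_le (F : Finset (Sym2 V)) {y : ℝ} (hy : 0 ≤ y) :
    PP.real {x | ∀ e ∈ F, x e ≤ y} ≤ y ^ F.card := by
  have h := Measure.infinitePi_pi (μ := fun _ : Sym2 V => expMeasure 1) (s := F)
    (t := fun _ => Set.Iic y) (by intro i _; exact measurableSet_Iic)
  have h2 : (Set.pi ((F : Finset (Sym2 V)) : Set (Sym2 V)) (fun _ => Set.Iic y) : Set W) =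
      {x | ∀ e ∈ F, x e ≤ y} := by
    ext x
    simp [Set.mem_pi]
  rw [h2, Finset.prod_const] at h
  have h3 : PP.real {x | ∀ e ∈ F, x e ≤ y} = ((expMeasure 1).real (Set.Iic y)) ^ F.card := by
    rw [measureReal_def]
    have : PP {x | ∀ e ∈ F, x e ≤ y} = (expMeasure 1 (Set.Iic y)) ^ F.card := h
    rw [this, ENNReal.toReal_pow, measureReal_def]
  rw [h3]
  apply pow_le_pow_left₀ measureReal_nonneg
  rw [exp_real_Iic y hy]
  have := Real.add_one_le_exp (-y)
  linarith

/-- the path with given steps -/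
def dpath {R : ℕ} (d : Fin R → V) : ℕ → V :=
  fun i => ∑ j ∈ Finset.range i, if h : j < R then d ⟨j, h⟩ else 0

theorem dpath_eq {R : ℕ} {p : ℕ → V} (h0 : p 0 = 0) :
    ∀ i ≤ R, dpath (fun j : Fin R => p ((j : ℕ) + 1) - p j) i = p i := by
  intro i hi
  unfold dpath
  have : ∑ j ∈ Finset.range i, (if h : j < R then
      (fun j : Fin R => p ((j : ℕ) + 1) - p j) ⟨j, h⟩ else 0) =
      ∑ j ∈ Finset.range i, (p (j + 1) - p j) := by
    apply Finset.sum_congr rfl
    intro j hj
    have hj' := Finset.mem_range.1 hj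
    rw [dif_pos (by omega)]
  rw [this, Finset.sum_range_sub, h0, sub_zero]

/-- the edges of an injective path are distinct -/
theorem edges_inj {R : ℕ} {p : ℕ → V} (h : ∀ i j : ℕ, i < j → j ≤ R → p i ≠ p j) {S : Finset ℕ}
    (hS : S ⊆ Finset.range R) : (S.image (fun i => s(p i, p (i + 1)))).card = S.card := by
  apply Finset.card_image_of_injOn
  intro i hi j hj hij
  have hi' := Finset.mem_range.1 (hS hi)
  have hj' := Finset.mem_range.1 (hS hj)
  have hij' : s(p i, p (i + 1)) = s(p j, p (j + 1)) := hij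
  rw [Sym2.eq_iff] at hij'
  by_contra hne
  rcases hij' with ⟨h1, _⟩ | ⟨h1, h2⟩
  · rcases Nat.lt_or_gt_of_ne hne with hlt | hlt
    · exact h i j hlt (by omega) h1
    · exact h j i hlt (by omega) h1.symm
  · rcases Nat.lt_or_gt_of_ne hne with hlt | hlt
    · exact h i (j + 1) (by omega) (by omega) h1
    · exact h j (i + 1) (by omega) (by omega) h2.symm

/-- a cheap path has many cheap edges -/
theorem many_small {R : ℕ} {p : ℕ → V} {x : W} (hx : ∀ e, 0 ≤ x e)
    (h : cst x p R < (R : ℝ) / 2048) :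
    R ≤ 2 * ((Finset.range R).filter (fun i => x s(p i, p (i + 1)) ≤ 1 / 1024)).card := by
  classical
  set S := (Finset.range R).filter (fun i => x s(p i, p (i + 1)) ≤ 1 / 1024) with hS
  set S' := (Finset.range R).filter (fun i => ¬ (x s(p i, p (i + 1)) ≤ 1 / 1024)) with hS'
  have h1 : S.card + S'.card = R := by
    rw [hS, hS', Finset.card_filter_add_card_filter_not, Finset.card_range]
  have h2 : (S'.card : ℝ) * (1 / 1024) ≤ cst x p R := by
    unfold cst
    calc (S'.card : ℝ) * (1 / 1024) = ∑ _i ∈ S', (1 / 1024 : ℝ) := by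
          rw [Finset.sum_const, nsmul_eq_mul]
      _ ≤ ∑ i ∈ S', x s(p i, p (i + 1)) := by
          apply Finset.sum_le_sum
          intro i hi
          exact (not_le.1 (Finset.mem_filter.1 hi).2).le
      _ ≤ ∑ i ∈ Finset.range R, x s(p i, p (i + 1)) := by
          apply Finset.sum_le_sum_of_subset_of_nonneg (Finset.filter_subset _ _)
          intro i _ _
          exact hx _
  have h3 : (S.card : ℝ) + S'.card = R := by exact_mod_cast h1
  have h4 : (R : ℝ) ≤ 2 * S.card := by nlinarith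
  exact_mod_cast h4

theorem sawBound : SawBound := by
  classical
  intro R
  set I : Finset ((Fin R → V) × Finset ℕ) :=
    ((Fintype.piFinset (fun _ : Fin R => dirs)) ×ˢ (Finset.range R).powerset).filter
      (fun z => (∀ i j : ℕ, i < j → j ≤ R → dpath z.1 i ≠ dpath z.1 j) ∧ R ≤ 2 * z.2.card) with hI
  set E : (Fin R → V) × Finset ℕ → Set W := fun z =>
    {x | ∀ e ∈ z.2.image (fun i => s(dpath z.1 i, dpath z.1 (i + 1))), x e ≤ 1 / 1024} with hE
  have hcard : (I.card : ℝ) ≤ 4 ^ R * 2 ^ R := by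
    have h1 : I.card ≤ 4 ^ R * 2 ^ R := by
      refine (Finset.card_filter_le _ _).trans ?_
      rw [Finset.card_product, Fintype.card_piFinset, Finset.card_powerset, Finset.card_range]
      apply le_of_eq
      congr 1
      rw [Finset.prod_const, Finset.card_univ, Fintype.card_fin]
      rfl
    exact_mod_cast h1
  have hprob : ∀ z ∈ I, PP.real (E z) ≤ (1 / 32 : ℝ) ^ R := by
    intro z hz
    rw [hI, Finset.mem_filter, Finset.mem_product, Finset.mem_powerset] at hz
    obtain ⟨⟨_, hz1⟩, hz2, hz3⟩ := hz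
    refine (all_le _ (by norm_num)).trans ?_
    rw [edges_inj hz2 hz1]
    have : (1 / 1024 : ℝ) ^ z.2.card = (1 / 32 : ℝ) ^ (2 * z.2.card) := by
      rw [pow_mul]
      norm_num
    rw [this]
    exact pow_le_pow_of_le_one (by norm_num) (by norm_num) hz3
  have hsub : PP {x | ∃ v : V, R ≤ nrm v ∧ Fast x Set.univ 0 v ((R : ℝ) / 2048)} ≤
      PP (⋃ z ∈ I, E z) := by
    apply measure_mono_ae
    filter_upwards [nonneg_ae] with x hx hbad
    obtain ⟨v, hv, hf⟩ := hbad
    obtain ⟨p, hp0, hp1, hp2, hp3⟩ := exists_inj hx hv hf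
    set d : Fin R → V := fun j : Fin R => p ((j : ℕ) + 1) - p j with hd
    have hdp : ∀ i ≤ R, dpath d i = p i := dpath_eq hp0
    set S := (Finset.range R).filter (fun i => x s(p i, p (i + 1)) ≤ 1 / 1024) with hS
    show x ∈ ⋃ z ∈ I, E z
    simp only [Set.mem_iUnion]
    refine ⟨(d, S), ?_, ?_⟩
    · rw [hI, Finset.mem_filter, Finset.mem_product, Finset.mem_powerset, Fintype.mem_piFinset]
      refine ⟨⟨fun i => mem_dirs (hp1 i i.2), Finset.filter_subset _ _⟩, ?_, many_small hx hp3⟩
      intro i j hij hj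
      show dpath d i ≠ dpath d j
      rw [hdp i (by omega), hdp j hj]
      exact hp2 i j hij hj
    · show ∀ e ∈ S.image (fun i => s(dpath d i, dpath d (i + 1))), x e ≤ 1 / 1024
      intro e he
      obtain ⟨i, hi, rfl⟩ := Finset.mem_image.1 he
      rw [hS, Finset.mem_filter, Finset.mem_range] at hi
      rw [hdp i (by omega), hdp (i + 1) (by omega)]
      exact hi.2
  have h1 : PP.real {x | ∃ v : V, R ≤ nrm v ∧ Fast x Set.univ 0 v ((R : ℝ) / 2048)} ≤
      PP.real (⋃ z ∈ I, E z) := ENNReal.toReal_mono (measure_ne_top _ _) hsub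
  refine h1.trans ((measureReal_biUnion_finset_le _ _).trans ?_)
  calc ∑ z ∈ I, PP.real (E z) ≤ ∑ _z ∈ I, (1 / 32 : ℝ) ^ R := Finset.sum_le_sum hprob
    _ = I.card * (1 / 32 : ℝ) ^ R := by rw [Finset.sum_const, nsmul_eq_mul]
    _ ≤ (4 ^ R * 2 ^ R) * (1 / 32 : ℝ) ^ R := by
        apply mul_le_mul_of_nonneg_right hcard (by positivity)
    _ = (1 / 4 : ℝ) ^ R := by
        rw [← mul_pow, ← mul_pow]
        norm_num

end Pool.Agent.K4H17.FPP
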