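import Pool.Agent.K4H17.FPP.UUni
import Pool.Agent.K4H17.FPP.Saw
import Pool.Agent.K4H17.FPP.Mu
import Pool.Agent.K4H17.FPP.L1
import Pool.Agent.K4H17.FPP.Ev

/-!
First-passage percolation on `ℤ²`: the equivalences for the inner half.
-/

set_option autoImplicit false
open MeasureTheory ProbabilityTheory Filter
open scoped Pointwise Topology

namespace Pool.Agent.K4H17.FPP

variable {Ω : Type} [MeasureSpace Ω] {X : Sym2 V → Ω → ℝ} {T : Ω → V → ℝ} {μ : ℝ × ℝ → ℝ}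

theorem nrm_cast (v : V) : (nrm v : ℝ) = |(v.1 : ℝ)| + |(v.2 : ℝ)| := by
  unfold nrm
  push_cast [Nat.cast_natAbs]
  rfl

/-- stretched exponential decay beats every power -/
theorem isBigO_of_exp {f : ℝ → ℝ} (hf : ∀ t, 0 ≤ f t) {c : ℝ} (hc : 0 < c)
    (h : ∀ᶠ t in atTop, f t ≤ Real.exp (-t ^ c)) (q : ℝ) :
    f =O[atTop] fun t => t ^ (-q) := by
  have h1 : Tendsto (fun x : ℝ => x ^ (q / c) * Real.exp (-x)) atTop (nhds 0) := by
    have := (isLittleO_rpow_exp_atTop (q / c)).tendsto_div_nhds_zero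
    refine this.congr fun x => ?_
    rw [Real.exp_neg, div_eq_mul_inv]
  have h2 := (h1.comp (tendsto_rpow_atTop hc)).eventually (gt_mem_nhds (zero_lt_one' ℝ))
  refine Asymptotics.IsBigO.of_bound 1 ?_
  filter_upwards [h, h2, eventually_gt_atTop 0] with t f1 f2 ht
  rw [Real.norm_of_nonneg (hf t), Real.norm_of_nonneg (by positivity), one_mul]
  simp only [Function.comp] at f2
  rw [← Real.rpow_mul ht.le, mul_div_cancel₀ _ hc.ne'] at f2
  refine f1.trans ?_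
  rw [Real.rpow_neg ht.le]
  have hpos : 0 < t ^ q := by positivity
  rw [le_inv_comm₀ (Real.exp_pos _) hpos, ← Real.exp_neg, neg_neg]
  rw [Real.exp_neg] at f2
  have h3 := Real.exp_pos (t ^ c)
  rw [← div_eq_mul_inv, div_lt_one h3] at f2
  exact f2.le

theorem inner_tfae (S : Setting Ω X T μ) (a : ℝ) (ha : 0 < a) (ha1 : a < 1) :
    List.TFAE [
      ∀ ζ, 0 < ζ → ζ < 1 - a → ∀ q > (0 : ℝ),
        (fun t : ℝ => ((volume : Measure Ω) (innerEv T μ (a - 1 + ζ) t)).toReal) =O[atTop]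
          fun t => t ^ (-q),
      ∀ ζ, 0 < ζ → ζ < 1 - a → ∃ q > (0 : ℝ),
        (fun t : ℝ => ((volume : Measure Ω) (innerEv T μ (a - 1 + ζ) t)).toReal) =O[atTop]
          fun t => t ^ (-q),
      ∀ ε > (0 : ℝ), ∃ q > (0 : ℝ), ∃ C : ℝ, ∀ v : V, v ≠ 0 →
        ((volume : Measure Ω) {ω | at' μ v + (nrm v : ℝ) ^ (a + ε) ≤ T ω v}).toReal ≤
          C * (nrm v : ℝ) ^ (-q),
      ∀ ε > (0 : ℝ), ∃ C : ℝ, ∀ v : V,
        Integrable (fun ω => T ω v) (volume : Measure Ω) ∧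
          ∫ ω, |T ω v - at' μ v| ≤ C * (1 + (nrm v : ℝ)) ^ (a + ε),
      ∀ ζ, 0 < ζ → ζ < 1 - a → ∃ c > (0 : ℝ), ∀ᶠ t : ℝ in atTop,
        ((volume : Measure Ω) (innerEv T μ (a - 1 + ζ) t)).toReal ≤ Real.exp (-t ^ c)] := by
  have hP := S.prob
  have hsaw := sawBound
  obtain ⟨Cμ, hμ⟩ := muOK S hsaw
  tfae_have 1 → 2 := fun h ζ h1 h2 => ⟨1, one_pos, h ζ h1 h2 1 one_pos⟩
  tfae_have 2 → 3 := by
    intro h ε hε
    -- use the exponent `min (a + ε) ((1 + a) / 2)`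
    obtain ⟨β, hβ⟩ : ∃ β : ℝ, β = min (a + ε) ((1 + a) / 2) := ⟨_, rfl⟩
    have h1 : a < β := by rw [hβ]; exact lt_min (by linarith) (by linarith)
    have h2 : β < 1 := by rw [hβ]; exact lt_of_le_of_lt (min_le_right _ _) (by linarith)
    have h3 : β ≤ a + ε := by rw [hβ]; exact min_le_left _ _
    obtain ⟨q, hq, C, hC⟩ := hup_of_inner S hμ a ha ha1 h β h1 h2
    refine ⟨q, hq, C, fun v hv => ?_⟩
    have hv1 : (1 : ℝ) ≤ nrm v := by
      have : nrm v ≠ 0 := fun h0 => hv (nrm_eq_zero.1 h0)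
      exact_mod_cast Nat.one_le_iff_ne_zero.2 this
    refine le_trans (b := (volume : Measure Ω).real {ω | at' μ v + (nrm v : ℝ) ^ β ≤ T ω v})
      (measureReal_mono ?_ (measure_ne_top _ _)) ?_
    · intro ω hω
      have h4 := Real.rpow_le_rpow_of_exponent_le hv1 h3
      have h5 : at' μ v + (nrm v : ℝ) ^ (a + ε) ≤ T ω v := hω
      show at' μ v + (nrm v : ℝ) ^ β ≤ T ω v
      linarith
    · rw [S.real_T_ge]
      exact hC v hv
  have key : (∀ ε > (0 : ℝ), ∃ q > (0 : ℝ), ∃ C : ℝ, ∀ v : V, v ≠ 0 →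
        ((volume : Measure Ω) {ω | at' μ v + (nrm v : ℝ) ^ (a + ε) ≤ T ω v}).toReal ≤
          C * (nrm v : ℝ) ^ (-q)) → ∀ β, a < β → β < 1 → ∃ q > 0, HUp μ β q := by
    intro h β h1 h2
    obtain ⟨q, hq, C, hC⟩ := h (β - a) (by linarith)
    refine ⟨q, hq, C, fun v hv => ?_⟩
    have := hC v hv
    rw [add_sub_cancel] at this
    rw [← S.real_T_ge]
    exact this
  tfae_have 3 → 5 := by
    intro h
    have h1 := up_all hμ hsaw ha ha1 (key h)
    have h2 := uup_of_sup hμ ha h1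
    exact inner_of_uup S hμ a ha ha1 (fun β hβ _ => h2 β hβ)
  tfae_have 5 → 1 := by
    intro h ζ h1 h2 q _
    obtain ⟨c, hc, hev⟩ := h ζ h1 h2
    exact isBigO_of_exp (fun t => ENNReal.toReal_nonneg) hc hev q
  tfae_have 3 → 4 := by
    intro h
    have h1 := up_all hμ hsaw ha ha1 (key h)
    have h2 := l1_of_sup S hμ a ha ha1 (fun β hβ _ => h1 β hβ)
    intro ε hε
    obtain ⟨C, hC⟩ := h2 ε hε
    exact ⟨C, fun v => ⟨integrable_T S v, hC v⟩⟩
  tfae_have 4 → 3 := by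
    intro h
    have h1 := hup_of_l1 S a ha ha1 (fun ε hε => by
      obtain ⟨C, hC⟩ := h ε hε
      exact ⟨C, fun v => (hC v).2⟩)
    intro ε hε
    obtain ⟨β, hβ⟩ : ∃ β : ℝ, β = min (a + ε) ((1 + a) / 2) := ⟨_, rfl⟩
    have g1 : a < β := by rw [hβ]; exact lt_min (by linarith) (by linarith)
    have g2 : β < 1 := by rw [hβ]; exact lt_of_le_of_lt (min_le_right _ _) (by linarith)
    have g3 : β ≤ a + ε := by rw [hβ]; exact min_le_left _ _
    obtain ⟨q, hq, C, hC⟩ := h1 β g1 g2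
    refine ⟨q, hq, C, fun v hv => ?_⟩
    have hv1 : (1 : ℝ) ≤ nrm v := by
      have : nrm v ≠ 0 := fun h0 => hv (nrm_eq_zero.1 h0)
      exact_mod_cast Nat.one_le_iff_ne_zero.2 this
    refine le_trans (b := (volume : Measure Ω).real {ω | at' μ v + (nrm v : ℝ) ^ β ≤ T ω v})
      (measureReal_mono ?_ (measure_ne_top _ _)) ?_
    · intro ω hω
      have h4 := Real.rpow_le_rpow_of_exponent_le hv1 g3
      have h5 : at' μ v + (nrm v : ℝ) ^ (a + ε) ≤ T ω v := hω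
      show at' μ v + (nrm v : ℝ) ^ β ≤ T ω v
      linarith
    · rw [S.real_T_ge]
      exact hC v hv
  tfae_finish

end Pool.Agent.K4H17.FPP
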