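import Pool.Agent.K4H17.FPP.Rep

/-!
First-passage percolation on `ℤ²`: composition of representations by vectors of fixed lengths;
representations at scale `l` with cost close to the time constant.
-/

set_option autoImplicit false
open MeasureTheory ProbabilityTheory Filter
open scoped Pointwise

namespace Pool.Agent.K4H17.FPP

theorem Rep.mono {h : V → ℝ} {l : ℕ} {v : V} {s t : ℝ} (h1 : Rep h l v s) (hst : s ≤ t) :
    Rep h l v t := by
  obtain ⟨F, ν, a, b, c, d⟩ := h1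
  exact ⟨F, ν, a, b, c, d.trans hst⟩

theorem Rep.nonneg {h : V → ℝ} (hge : ∀ v, (nrm v : ℝ) / 2048 ≤ h v) {l : ℕ} {v : V} {s : ℝ}
    (h1 : Rep h l v s) : 0 ≤ s := by
  obtain ⟨F, ν, a, b, c, d⟩ := h1
  refine le_trans (Finset.sum_nonneg fun w hw => ?_) d
  have := hge w
  exact mul_nonneg (a w hw).2 (le_trans (by positivity) this)

theorem Rep.comp {h : V → ℝ} (hge : ∀ v, (nrm v : ℝ) / 2048 ≤ h v) {l M : ℕ}
    {v : V} {s e : ℝ} (he : 0 ≤ e) (h1 : Rep h M v s)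
    (h2 : ∀ w, nrm w = M → Rep h l w (h w + M * e)) : Rep h l v (s * (1 + 2048 * e)) := by
  classical
  obtain ⟨F, ν, a, b, c, d⟩ := h1
  have h3 : ∀ w : V, ∃ (G : Finset V) (η : V → ℝ), w ∈ F → ((∀ z ∈ G, nrm z = l ∧ 0 ≤ η z) ∧
      (∑ z ∈ G, η z * (z.1 : ℝ)) = w.1 ∧ (∑ z ∈ G, η z * (z.2 : ℝ)) = w.2 ∧
      ∑ z ∈ G, η z * h z ≤ h w + M * e) := by
    intro w
    by_cases hw : w ∈ F
    · obtain ⟨G, η, a', b', c', d'⟩ := h2 w (a w hw).1
      exact ⟨G, η, fun _ => ⟨a', b', c', d'⟩⟩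
    · exact ⟨∅, 0, fun h => absurd h hw⟩
  choose G η hG using h3
  have hcomb : ∀ f : V → ℝ, ∑ z ∈ F.biUnion G, (∑ w ∈ F, ν w * if z ∈ G w then η w z else 0) * f z =
      ∑ w ∈ F, ν w * ∑ z ∈ G w, η w z * f z := by
    intro f
    simp only [Finset.sum_mul]
    rw [Finset.sum_comm]
    apply Finset.sum_congr rfl
    intro w hw
    rw [Finset.mul_sum]
    have hsub : G w ⊆ F.biUnion G := Finset.subset_biUnion_of_mem G hw
    rw [← Finset.sum_subset hsub]
    · apply Finset.sum_congr rfl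
      intro z hz
      rw [if_pos hz]
      ring
    · intro z _ hz
      rw [if_neg hz]
      ring
  refine ⟨F.biUnion G, fun z => ∑ w ∈ F, ν w * if z ∈ G w then η w z else 0, ?_, ?_, ?_, ?_⟩
  · intro z hz
    obtain ⟨w, hw, hzw⟩ := Finset.mem_biUnion.1 hz
    refine ⟨((hG w hw).1 z hzw).1, Finset.sum_nonneg fun w' hw' => ?_⟩
    apply mul_nonneg (a w' hw').2
    split_ifs with h4
    · exact ((hG w' hw').1 z h4).2
    · exact le_rfl
  · rw [hcomb fun z => (z.1 : ℝ)]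
    rw [← b]
    apply Finset.sum_congr rfl
    intro w hw
    rw [(hG w hw).2.1]
  · rw [hcomb fun z => (z.2 : ℝ)]
    rw [← c]
    apply Finset.sum_congr rfl
    intro w hw
    rw [(hG w hw).2.2.1]
  · rw [hcomb h]
    have h4 : ∑ w ∈ F, ν w * ∑ z ∈ G w, η w z * h z ≤ ∑ w ∈ F, ν w * (h w + 2048 * e * h w) := by
      apply Finset.sum_le_sum
      intro w hw
      apply mul_le_mul_of_nonneg_left _ (a w hw).2
      refine (hG w hw).2.2.2.trans ?_
      have h5 := hge w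
      rw [(a w hw).1] at h5
      have h6 : (M : ℝ) * e ≤ 2048 * e * h w := by nlinarith
      linarith
    refine h4.trans ?_
    have h5 : ∑ w ∈ F, ν w * (h w + 2048 * e * h w) = (∑ w ∈ F, ν w * h w) * (1 + 2048 * e) := by
      rw [Finset.sum_mul]
      apply Finset.sum_congr rfl
      intro w _
      ring
    rw [h5]
    exact mul_le_mul_of_nonneg_right d (by positivity)

theorem Rep.start {h : V → ℝ} (v : V) (k : ℕ) (hk : 1 ≤ k) :
    Rep h (k * nrm v) v (h (k • v) / k) := by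
  have hk0 : (k : ℝ) ≠ 0 := by positivity
  refine ⟨{k • v}, fun _ => 1 / k, ?_, ?_, ?_, ?_⟩
  · intro w hw
    rw [Finset.mem_singleton] at hw
    rw [hw, nrm_nsmul]
    exact ⟨rfl, by positivity⟩
  · have e : (((k • v).1 : ℤ) : ℝ) = (k : ℝ) * v.1 := by simp
    rw [Finset.sum_singleton, e]
    field_simp
  · have e : (((k • v).2 : ℤ) : ℝ) = (k : ℝ) * v.2 := by simp
    rw [Finset.sum_singleton, e]
    field_simp
  · rw [Finset.sum_singleton]
    apply le_of_eq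
    ring

theorem rpow_tower (l : ℕ) (c : ℝ) (j : ℕ) :
    (((l ^ 2 ^ j : ℕ) : ℝ)) ^ c = ((l : ℝ) ^ c) ^ 2 ^ j := by
  rw [Nat.cast_pow, ← Real.rpow_natCast, ← Real.rpow_natCast, ← Real.rpow_mul (Nat.cast_nonneg l),
    ← Real.rpow_mul (Nat.cast_nonneg l), mul_comm]

theorem prod_tower {κ q : ℝ} (hκ : 0 ≤ κ) (hq0 : 0 ≤ q) (hq : q ≤ 1 / 2) (J : ℕ) :
    ∏ j ∈ Finset.range J, (1 + κ * q ^ 2 ^ j) ≤ 1 + 2 * κ * Real.exp (2 * κ) * q := by
  have h1 : ∏ j ∈ Finset.range J, (1 + κ * q ^ 2 ^ j) ≤ Real.exp (2 * κ * q) := by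
    have h2 : ∏ j ∈ Finset.range J, (1 + κ * q ^ 2 ^ j) ≤
        ∏ j ∈ Finset.range J, Real.exp (κ * q ^ 2 ^ j) := by
      apply Finset.prod_le_prod
      · intro j _; positivity
      · intro j _
        have := Real.add_one_le_exp (κ * q ^ 2 ^ j)
        linarith
    refine h2.trans ?_
    rw [← Real.exp_sum, Real.exp_le_exp]
    have h3 : ∑ j ∈ Finset.range J, κ * q ^ 2 ^ j ≤
        ∑ j ∈ Finset.range J, κ * q * (1 / 2) ^ j := by
      apply Finset.sum_le_sum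
      intro j _
      have h4 : q ^ 2 ^ j ≤ q ^ (j + 1) := by
        apply pow_le_pow_of_le_one hq0 (by linarith)
        have := Nat.lt_pow_self (n := j) (a := 2) (by norm_num)
        omega
      have h5 : q ^ (j + 1) ≤ q * (1 / 2) ^ j := by
        rw [pow_succ, mul_comm]
        exact mul_le_mul_of_nonneg_left (pow_le_pow_left₀ hq0 hq j) hq0
      calc κ * q ^ 2 ^ j ≤ κ * (q * (1 / 2) ^ j) :=
            mul_le_mul_of_nonneg_left (h4.trans h5) hκ
        _ = κ * q * (1 / 2) ^ j := by ring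
    refine h3.trans ?_
    rw [← Finset.mul_sum]
    have h6 : ∑ j ∈ Finset.range J, (1 / 2 : ℝ) ^ j ≤ 2 := by
      have := geom_sum_eq (x := (1 / 2 : ℝ)) (by norm_num) J
      rw [this]
      have h7 : (0 : ℝ) ≤ (1 / 2) ^ J := by positivity
      have h8 : ((1 / 2 : ℝ) ^ J - 1) / (1 / 2 - 1) = 2 - 2 * (1 / 2) ^ J := by ring
      rw [h8]
      linarith
    calc κ * q * ∑ j ∈ Finset.range J, (1 / 2 : ℝ) ^ j ≤ κ * q * 2 :=
          mul_le_mul_of_nonneg_left h6 (by positivity)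
      _ = 2 * κ * q := by ring
  refine h1.trans ?_
  -- exp x ≤ 1 + x exp x
  set x := 2 * κ * q with hx
  have hx0 : 0 ≤ x := by positivity
  have h2 : Real.exp x ≤ 1 + x * Real.exp x := by
    have h3 := Real.add_one_le_exp (-x)
    have h4 : Real.exp (-x) * Real.exp x = 1 := by rw [← Real.exp_add]; simp
    have h5 := Real.exp_pos x
    nlinarith
  have h3 : Real.exp x ≤ Real.exp (2 * κ) := by
    rw [Real.exp_le_exp, hx]
    nlinarith
  have h4 : x * Real.exp x ≤ x * Real.exp (2 * κ) := mul_le_mul_of_nonneg_left h3 hx0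
  calc Real.exp x ≤ 1 + x * Real.exp (2 * κ) := by linarith
    _ = 1 + 2 * κ * Real.exp (2 * κ) * q := by rw [hx]; ring

theorem exists_scale {l M : ℕ} (hl : 2 ≤ l) (hM : l ^ 2 ≤ M) :
    ∃ J : ℕ, (l ^ 2 ^ J) ^ 2 ≤ M ∧ M ≤ (l ^ 2 ^ J) ^ 4 := by
  classical
  have hex : ∃ j : ℕ, M < l ^ 2 ^ (j + 2) := by
    refine ⟨M, ?_⟩
    have h1 : M + 2 < 2 ^ (M + 2) := Nat.lt_pow_self (by norm_num)
    have h2 : 2 ^ (M + 2) < l ^ 2 ^ (M + 2) := Nat.lt_pow_self (by omega)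
    omega
  obtain ⟨hJ1, hJ2⟩ := And.intro (Nat.find_spec hex) (fun m => Nat.find_min hex (m := m))
  set J := Nat.find hex with hJ
  refine ⟨J, ?_, ?_⟩
  · rw [← pow_mul, ← pow_succ]
    rcases Nat.eq_zero_or_pos J with h0 | h0
    · rw [h0]
      simpa using hM
    · have h1 := hJ2 (J - 1) (by omega)
      have h2 : J - 1 + 2 = J + 1 := by omega
      rw [h2] at h1
      exact not_lt.1 h1
  · rw [← pow_mul]
    have h1 : 2 ^ J * 4 = 2 ^ (J + 2) := by rw [pow_add]; norm_num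
    rw [h1]
    exact hJ1.le

theorem rep_chain {h : V → ℝ} {C : ℝ} {μ : ℝ × ℝ → ℝ} {Cμ b : ℝ} (_hS : SubOK h C)
    (hge : ∀ v, (nrm v : ℝ) / 2048 ≤ h v)
    (hlim : ∀ v, Tendsto (fun n : ℕ => h (n • v) / n) atTop (nhds (at' μ v)))
    (hμ : MuOK μ Cμ) (_hb0 : 0 < b) (hb1 : b < 1)
    (hstep : ∃ K : ℝ, ∃ l0 : ℕ, ∀ l ≥ l0, ∀ M : ℕ, l ^ 2 ≤ M → M ≤ l ^ 4 → ∀ w, nrm w = M →
      Rep h l w (h w + K * M * (l : ℝ) ^ (b - 1))) :
    ∃ K : ℝ, ∃ l0 : ℕ, ∀ l ≥ l0, ∀ v, l ≤ nrm v →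
      Rep h l v (at' μ v + K * nrm v * (l : ℝ) ^ (b - 1)) := by
  obtain ⟨K0, l0, hstep⟩ := hstep
  set K := max K0 0 with hK
  have hK0 : 0 ≤ K := le_max_right _ _
  have hstep' : ∀ l ≥ l0, ∀ M : ℕ, l ^ 2 ≤ M → M ≤ l ^ 4 → ∀ w, nrm w = M →
      Rep h l w (h w + M * (K * (l : ℝ) ^ (b - 1))) := by
    intro l hl M h1 h2 w hw
    refine (hstep l hl M h1 h2 w hw).mono ?_
    have h3 : K0 ≤ K := le_max_left _ _
    have h4 : (0 : ℝ) ≤ M * (l : ℝ) ^ (b - 1) := by positivity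
    nlinarith
  -- the scale at which `q ≤ 1 / 2`
  obtain ⟨l1, hl1⟩ : ∃ l1 : ℕ, ∀ l ≥ l1, (l : ℝ) ^ (b - 1) ≤ 1 / 2 := by
    have h1 : Tendsto (fun l : ℕ => (l : ℝ) ^ (-(1 - b))) atTop (nhds 0) :=
      (tendsto_rpow_neg_atTop (by linarith : (0 : ℝ) < 1 - b)).comp tendsto_natCast_atTop_atTop
    have h2 := h1.eventually (ge_mem_nhds (show (0 : ℝ) < 1 / 2 by norm_num))
    obtain ⟨l1, h3⟩ := eventually_atTop.1 h2
    refine ⟨l1, fun l hl => ?_⟩
    have := h3 l hl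
    rwa [neg_sub] at this
  set κ := 2048 * K with hκ
  have hκ0 : 0 ≤ κ := by positivity
  set C' := 2 * κ * Real.exp (2 * κ) with hC'
  have hC0 : 0 ≤ C' := by positivity
  have hCμ : 1 ≤ Cμ := hμ.one_le
  refine ⟨1 + C' * Cμ + C', max l0 (max l1 2), ?_⟩
  intro l hl v hv
  have hll0 : l0 ≤ l := le_trans (le_max_left _ _) hl
  have hll1 : l1 ≤ l := le_trans (le_trans (le_max_left _ _) (le_max_right _ _)) hl
  have hl2 : 2 ≤ l := le_trans (le_trans (le_max_right _ _) (le_max_right _ _)) hl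
  set q := (l : ℝ) ^ (b - 1) with hq
  have hq0 : 0 < q := by
    have : (0 : ℝ) < l := by exact_mod_cast (by omega : 0 < l)
    positivity
  have hq2 : q ≤ 1 / 2 := hl1 l hll1
  have hlj : ∀ j : ℕ, l ≤ l ^ 2 ^ j := fun j => Nat.le_self_pow (by positivity) l
  -- going down
  have hdown : ∀ J : ℕ, ∀ v s, Rep h (l ^ 2 ^ J) v s →
      Rep h l v (s * ∏ j ∈ Finset.range J, (1 + κ * q ^ 2 ^ j)) := by
    intro J
    induction J with
    | zero =>
      intro v s h1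
      simpa using h1
    | succ J ih =>
      intro v s h1
      have h2 : Rep h (l ^ 2 ^ J) v (s * (1 + 2048 * (K * q ^ 2 ^ J))) := by
        refine h1.comp hge (by positivity) ?_
        intro w hw
        have h3 := hstep' (l ^ 2 ^ J) (hll0.trans (hlj J)) (l ^ 2 ^ (J + 1))
          (by rw [← pow_mul, ← pow_succ]) (by
            rw [← pow_mul]
            apply Nat.pow_le_pow_right (by omega)
            rw [pow_succ]
            omega) w hw
        rw [rpow_tower] at h3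
        exact h3
      have h3 := ih v _ h2
      refine h3.mono (le_of_eq ?_)
      rw [Finset.prod_range_succ, hκ]
      ring
  -- the start
  have hn0 : 0 < nrm v := by omega
  have hn0' : (0 : ℝ) < nrm v := by exact_mod_cast hn0
  have hev : ∀ᶠ k : ℕ in atTop, h (k • v) / k ≤ at' μ v + nrm v * q := by
    have := (hlim v).eventually (ge_mem_nhds (show at' μ v < at' μ v + nrm v * q by
      have : 0 < nrm v * q := by positivity
      linarith))
    exact this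
  obtain ⟨k, hk1, hk2⟩ := (hev.and (eventually_ge_atTop (l ^ 2))).exists
  have hk0 : 1 ≤ k := le_trans (Nat.one_le_pow _ _ (by omega)) hk2
  have hM : l ^ 2 ≤ k * nrm v := by nlinarith
  obtain ⟨J, hJ1, hJ2⟩ := exists_scale hl2 hM
  have hst : Rep h (k * nrm v) v (at' μ v + nrm v * q) := (Rep.start v k hk0).mono hk1
  have h1 : Rep h (l ^ 2 ^ J) v ((at' μ v + nrm v * q) * (1 + 2048 * (K * q ^ 2 ^ J))) := by
    refine hst.comp hge (by positivity) ?_
    intro w hw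
    have h3 := hstep' (l ^ 2 ^ J) (hll0.trans (hlj J)) (k * nrm v) hJ1 hJ2 w hw
    rw [rpow_tower] at h3
    exact h3
  have h2 := hdown J v _ h1
  refine h2.mono ?_
  have hprod := prod_tower hκ0 hq0.le hq2 (J + 1)
  rw [Finset.prod_range_succ] at hprod
  have hs0 : 0 ≤ at' μ v + nrm v * q := hst.nonneg hge
  have h3 : (at' μ v + nrm v * q) * (1 + 2048 * (K * q ^ 2 ^ J)) *
      ∏ j ∈ Finset.range J, (1 + κ * q ^ 2 ^ j) ≤ (at' μ v + nrm v * q) * (1 + C' * q) := by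
    have h4 : (at' μ v + nrm v * q) * (1 + 2048 * (K * q ^ 2 ^ J)) *
        ∏ j ∈ Finset.range J, (1 + κ * q ^ 2 ^ j) = (at' μ v + nrm v * q) *
        ((∏ j ∈ Finset.range J, (1 + κ * q ^ 2 ^ j)) * (1 + κ * q ^ 2 ^ J)) := by
      rw [hκ]; ring
    rw [h4]
    exact mul_le_mul_of_nonneg_left hprod hs0
  refine h3.trans ?_
  have h5 := hμ.le v
  have h6 : C' * q * at' μ v ≤ C' * q * (Cμ * nrm v) :=
    mul_le_mul_of_nonneg_left h5 (by positivity)
  have h7 : C' * q * (nrm v * q) ≤ C' * q * (nrm v * 1) := by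
    apply mul_le_mul_of_nonneg_left _ (by positivity)
    apply mul_le_mul_of_nonneg_left _ hn0'.le
    linarith
  calc (at' μ v + nrm v * q) * (1 + C' * q)
      = at' μ v + nrm v * q + C' * q * at' μ v + C' * q * (nrm v * q) := by ring
    _ ≤ at' μ v + nrm v * q + C' * q * (Cμ * nrm v) + C' * q * (nrm v * 1) := by linarith
    _ = at' μ v + (1 + C' * Cμ + C') * nrm v * q := by ring

end Pool.Agent.K4H17.FPP
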