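import Pool.Agent.K4H17.FPP.Rep

/-!
First-passage percolation on `ℤ²`: from representations of `v` by vectors of length `l` (all `l`)
to a bound of `h - μ` (Alexander's argument, the deterministic part).
-/

set_option autoImplicit false
open MeasureTheory ProbabilityTheory Filter
open scoped Pointwise

namespace Pool.Agent.K4H17.FPP

/-- an integer point in the plane -/
def toR (v : V) : ℝ × ℝ := ((v.1 : ℝ), (v.2 : ℝ))

theorem toR_inj : Function.Injective toR := by
  intro u v huv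
  have h1 : (u.1 : ℝ) = v.1 := congrArg Prod.fst huv
  have h2 : (u.2 : ℝ) = v.2 := congrArg Prod.snd huv
  ext
  · exact_mod_cast h1
  · exact_mod_cast h2

/-- Carathéodory: two vectors suffice -/
theorem rep_two {h : V → ℝ} (hn : ∀ v, 0 ≤ h v) (l : ℕ) (v : V) (s : ℝ) : ∀ (n : ℕ) (F : Finset V)
    (ν : V → ℝ), F.card ≤ n → (∀ w ∈ F, nrm w = l ∧ 0 ≤ ν w) →
    (∑ w ∈ F, ν w * (w.1 : ℝ)) = v.1 → (∑ w ∈ F, ν w * (w.2 : ℝ)) = v.2 →
    ∑ w ∈ F, ν w * h w ≤ s →
    ∃ (F : Finset V) (ν : V → ℝ), F.card ≤ 2 ∧ (∀ w ∈ F, nrm w = l ∧ 0 ≤ ν w) ∧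
      (∑ w ∈ F, ν w * (w.1 : ℝ)) = v.1 ∧ (∑ w ∈ F, ν w * (w.2 : ℝ)) = v.2 ∧
      ∑ w ∈ F, ν w * h w ≤ s := by
  intro n
  induction n with
  | zero =>
    intro F ν hF h1 h2 h3 h4
    exact ⟨F, ν, by omega, h1, h2, h3, h4⟩
  | succ n ih =>
    intro F ν hF h1 h2 h3 h4
    by_cases hc : F.card ≤ 2
    · exact ⟨F, ν, hc, h1, h2, h3, h4⟩
    push Not at hc
    -- a linear relation
    have hfin : Module.finrank ℝ (ℝ × ℝ) < (F.image toR).card := by
      rw [Finset.card_image_of_injective _ toR_inj, Module.finrank_prod, Module.finrank_self]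
      omega
    obtain ⟨f, hf, x, hx, hfx⟩ := Module.exists_nontrivial_relation_of_finrank_lt_card hfin
    rw [Finset.sum_image (fun _ _ _ _ e => toR_inj e)] at hf
    obtain ⟨w1, hw1, rfl⟩ := Finset.mem_image.1 hx
    -- direction with nonincreasing cost
    have key : ∃ c : V → ℝ, (∑ w ∈ F, c w * (w.1 : ℝ)) = 0 ∧ (∑ w ∈ F, c w * (w.2 : ℝ)) = 0 ∧
        ∑ w ∈ F, c w * h w ≤ 0 ∧ ∃ w ∈ F, c w < 0 := by
      have e1 : (∑ w ∈ F, f (toR w) * (w.1 : ℝ)) = 0 := by
        have := congrArg Prod.fst hf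
        simpa [Prod.fst_sum, toR] using this
      have e2 : (∑ w ∈ F, f (toR w) * (w.2 : ℝ)) = 0 := by
        have := congrArg Prod.snd hf
        simpa [Prod.snd_sum, toR] using this
      have n1 : (∑ w ∈ F, (-f (toR w)) * (w.1 : ℝ)) = 0 := by
        simp only [neg_mul, Finset.sum_neg_distrib, e1, neg_zero]
      have n2 : (∑ w ∈ F, (-f (toR w)) * (w.2 : ℝ)) = 0 := by
        simp only [neg_mul, Finset.sum_neg_distrib, e2, neg_zero]
      by_cases hneg : ∃ w ∈ F, f (toR w) < 0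
      · by_cases hpos : ∃ w ∈ F, 0 < f (toR w)
        · rcases le_total (∑ w ∈ F, f (toR w) * h w) 0 with hs | hs
          · exact ⟨fun w => f (toR w), e1, e2, hs, hneg⟩
          · refine ⟨fun w => -f (toR w), n1, n2, ?_, ?_⟩
            · simp only [neg_mul, Finset.sum_neg_distrib]
              linarith
            · obtain ⟨w, hw, hw'⟩ := hpos
              exact ⟨w, hw, by linarith⟩
        · push Not at hpos
          refine ⟨fun w => f (toR w), e1, e2, ?_, hneg⟩
          apply Finset.sum_nonpos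
          intro w hw
          exact mul_nonpos_of_nonpos_of_nonneg (hpos w hw) (hn w)
      · push Not at hneg
        refine ⟨fun w => -f (toR w), n1, n2, ?_, ?_⟩
        · apply Finset.sum_nonpos
          intro w hw
          exact mul_nonpos_of_nonpos_of_nonneg (by linarith [hneg w hw]) (hn w)
        · refine ⟨w1, hw1, ?_⟩
          have := lt_of_le_of_ne (hneg w1 hw1) (Ne.symm hfx)
          linarith
    obtain ⟨c, c1, c2, c3, w2, hw2, hc2⟩ := key
    obtain ⟨w0, hw0, hmin⟩ := Finset.exists_min_image (F.filter (fun w => c w < 0))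
      (fun w => ν w / (-c w)) ⟨w2, by simp [hw2, hc2]⟩
    rw [Finset.mem_filter] at hw0
    obtain ⟨hw0F, hw0c⟩ := hw0
    set t : ℝ := ν w0 / (-c w0) with ht
    have ht0 : 0 ≤ t := div_nonneg (h1 w0 hw0F).2 (by linarith)
    have hzero : ν w0 + t * c w0 = 0 := by
      have hne : c w0 ≠ 0 := by linarith
      rw [ht, div_neg, neg_mul, div_mul_cancel₀ _ hne]
      ring
    have hsplit : ∀ g : V → ℝ, ∑ w ∈ F.erase w0, (ν w + t * c w) * g w =
        ∑ w ∈ F, ν w * g w + t * ∑ w ∈ F, c w * g w := by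
      intro g
      have : ∑ w ∈ F, (ν w + t * c w) * g w =
          ∑ w ∈ F, ν w * g w + t * ∑ w ∈ F, c w * g w := by
        rw [Finset.mul_sum, ← Finset.sum_add_distrib]
        apply Finset.sum_congr rfl
        intro w _
        ring
      rw [← this, ← Finset.add_sum_erase F _ hw0F, hzero]
      ring
    apply ih (F.erase w0) (fun w => ν w + t * c w)
    · rw [Finset.card_erase_of_mem hw0F]
      omega
    · intro w hw
      have hwF := Finset.mem_of_mem_erase hw
      refine ⟨(h1 w hwF).1, ?_⟩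
      by_cases hcw : c w < 0
      · have := hmin w (by simp [hwF, hcw])
        have h5 : t ≤ ν w / (-c w) := this
        rw [le_div_iff₀ (by linarith)] at h5
        show 0 ≤ ν w + t * c w
        linarith
      · push Not at hcw
        have := (h1 w hwF).2
        have := mul_nonneg ht0 hcw
        show 0 ≤ ν w + t * c w
        linarith
    · have := hsplit (fun w => (w.1 : ℝ))
      simp only [c1, mul_zero, add_zero, h2] at this
      exact this
    · have := hsplit (fun w => (w.2 : ℝ))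
      simp only [c2, mul_zero, add_zero, h3] at this
      exact this
    · have := hsplit h
      have h6 := mul_nonpos_of_nonneg_of_nonpos ht0 c3
      show ∑ w ∈ F.erase w0, (ν w + t * c w) * h w ≤ s
      linarith

theorem SubOK.nsmul {h : V → ℝ} {C : ℝ} (hh : SubOK h C) (k : ℕ) (w : V) :
    h (k • w) ≤ k * h w := by
  induction k with
  | zero => simp [hh.zero]
  | succ k ih =>
    rw [succ_nsmul]
    have := hh.sub (k • w) w
    push_cast
    linarith

theorem MuOK.zero {μ : ℝ × ℝ → ℝ} {Cμ : ℝ} (hμ : MuOK μ Cμ) : μ 0 = 0 := by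
  have := hμ.hom 0 0 le_rfl
  simpa using this

/-- one step: from the scale `2 l` to `nrm v` -/
theorem gap_step {h : V → ℝ} {C : ℝ} (hh : SubOK h C) {μ : ℝ × ℝ → ℝ} {Cμ : ℝ} (hμ : MuOK μ Cμ)
    (hge : ∀ v, at' μ v ≤ h v) {l : ℕ} {v : V} {s g : ℝ} (hrep : Rep h l v s)
    (hg : ∀ z : V, nrm z ≤ 2 * l → h z ≤ at' μ z + g) : h v ≤ s + g := by
  obtain ⟨F0, ν0, a1, a2, a3, a4⟩ := hrep
  obtain ⟨F, ν, b0, b1, b2, b3, b4⟩ := rep_two hh.nonneg l v s F0.card F0 ν0 le_rfl a1 a2 a3 a4
  set k : V → ℕ := fun w => ⌊ν w⌋₊ with hk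
  set f : V → ℝ := fun w => ν w - k w with hf
  have hf0 : ∀ w ∈ F, 0 ≤ f w := by
    intro w hw
    have := Nat.floor_le (b1 w hw).2
    show 0 ≤ ν w - (⌊ν w⌋₊ : ℝ)
    linarith
  have hf1 : ∀ w ∈ F, f w ≤ 1 := by
    intro w hw
    have := Nat.lt_floor_add_one (ν w)
    show ν w - (⌊ν w⌋₊ : ℝ) ≤ 1
    linarith
  set z : V := v - ∑ w ∈ F, k w • w with hz
  have hz1 : (z.1 : ℝ) = ∑ w ∈ F, f w * (w.1 : ℝ) := by
    have : (z.1 : ℝ) = v.1 - ∑ w ∈ F, (k w : ℝ) * (w.1 : ℝ) := by
      rw [hz]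
      simp [Prod.fst_sum]
    rw [this, ← b2, ← Finset.sum_sub_distrib]
    apply Finset.sum_congr rfl
    intro w _
    rw [hf]
    ring
  have hz2 : (z.2 : ℝ) = ∑ w ∈ F, f w * (w.2 : ℝ) := by
    have : (z.2 : ℝ) = v.2 - ∑ w ∈ F, (k w : ℝ) * (w.2 : ℝ) := by
      rw [hz]
      simp [Prod.snd_sum]
    rw [this, ← b3, ← Finset.sum_sub_distrib]
    apply Finset.sum_congr rfl
    intro w _
    rw [hf]
    ring
  have hzR : ((z.1 : ℝ), (z.2 : ℝ)) = ∑ w ∈ F, f w • ((w.1 : ℝ), (w.2 : ℝ)) := by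
    ext
    · simp [Prod.fst_sum, hz1]
    · simp [Prod.snd_sum, hz2]
  have hnz : nrm z ≤ 2 * l := by
    have e : (nrm z : ℝ) = |(z.1 : ℝ)| + |(z.2 : ℝ)| := by
      simp [nrm, Nat.cast_natAbs]
    have e' : ∀ w : V, (nrm w : ℝ) = |(w.1 : ℝ)| + |(w.2 : ℝ)| := by
      intro w
      simp [nrm, Nat.cast_natAbs]
    have h1 : |(z.1 : ℝ)| ≤ ∑ w ∈ F, |(w.1 : ℝ)| := by
      rw [hz1]
      refine le_trans (Finset.abs_sum_le_sum_abs _ _) ?_
      apply Finset.sum_le_sum
      intro w hw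
      rw [abs_mul, abs_of_nonneg (hf0 w hw)]
      have := mul_le_mul_of_nonneg_right (hf1 w hw) (abs_nonneg (w.1 : ℝ))
      linarith
    have h2 : |(z.2 : ℝ)| ≤ ∑ w ∈ F, |(w.2 : ℝ)| := by
      rw [hz2]
      refine le_trans (Finset.abs_sum_le_sum_abs _ _) ?_
      apply Finset.sum_le_sum
      intro w hw
      rw [abs_mul, abs_of_nonneg (hf0 w hw)]
      have := mul_le_mul_of_nonneg_right (hf1 w hw) (abs_nonneg (w.2 : ℝ))
      linarith
    have h3 : ∑ w ∈ F, |(w.1 : ℝ)| + ∑ w ∈ F, |(w.2 : ℝ)| = F.card * (l : ℝ) := by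
      rw [← Finset.sum_add_distrib, ← nsmul_eq_mul]
      rw [Finset.sum_congr rfl (fun w hw => by rw [← e' w, (b1 w hw).1])]
      simp
    have h4 : (F.card : ℝ) * (l : ℝ) ≤ 2 * l := by
      have : (F.card : ℝ) ≤ 2 := by exact_mod_cast b0
      exact mul_le_mul_of_nonneg_right this (Nat.cast_nonneg _)
    have : (nrm z : ℝ) ≤ 2 * l := by rw [e]; linarith
    exact_mod_cast this
  have hμz : at' μ z ≤ ∑ w ∈ F, f w * at' μ w := by
    unfold at'
    rw [hzR]
    refine le_trans (Finset.le_sum_of_subadditive μ hμ.zero.le hμ.sub F _) ?_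
    apply Finset.sum_le_sum
    intro w hw
    exact le_of_eq (hμ.hom _ _ (hf0 w hw))
  have h5 : h (∑ w ∈ F, k w • w) ≤ ∑ w ∈ F, (k w : ℝ) * h w := by
    refine le_trans (Finset.le_sum_of_subadditive h hh.zero.le hh.sub F _) ?_
    apply Finset.sum_le_sum
    intro w _
    exact hh.nsmul _ _
  have h6 : h v ≤ h (∑ w ∈ F, k w • w) + h z := by
    have := hh.sub (∑ w ∈ F, k w • w) z
    rwa [hz, add_sub_cancel] at this
  have h7 : ∑ w ∈ F, f w * at' μ w ≤ ∑ w ∈ F, f w * h w := by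
    apply Finset.sum_le_sum
    intro w hw
    exact mul_le_mul_of_nonneg_left (hge w) (hf0 w hw)
  have h8 : ∑ w ∈ F, (k w : ℝ) * h w + ∑ w ∈ F, f w * h w = ∑ w ∈ F, ν w * h w := by
    rw [← Finset.sum_add_distrib]
    apply Finset.sum_congr rfl
    intro w _
    rw [hf]
    ring
  have h9 := hg z hnz
  linarith

theorem gap_of_rep {h : V → ℝ} {C : ℝ} (hh : SubOK h C) {μ : ℝ × ℝ → ℝ} {Cμ : ℝ}
    (hμ : MuOK μ Cμ) (hge : ∀ v, at' μ v ≤ h v) {b : ℝ} (hb0 : 0 < b) (hb1 : b < 1)
    (hrep : ∃ K : ℝ, ∃ l0 : ℕ, ∀ l ≥ l0, ∀ v, l ≤ nrm v →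
      Rep h l v (at' μ v + K * nrm v * (l : ℝ) ^ (b - 1))) :
    ∃ K' : ℝ, ∀ v, h v ≤ at' μ v + K' * (1 + (nrm v : ℝ)) ^ b := by
  obtain ⟨K0, l0, hK0⟩ := hrep
  set K : ℝ := max K0 0 with hK
  have hKn : 0 ≤ K := le_max_right _ _
  set θ : ℝ := (3 / 4 : ℝ) ^ b with hθ
  have hθ1 : θ < 1 := Real.rpow_lt_one (by norm_num) (by norm_num) hb0
  set N0 : ℕ := 4 * l0 + 8 with hN0
  set K' : ℝ := max (8 * K / (1 - θ)) (C * N0) with hK'
  have hK'0 : 0 ≤ K' := le_trans (by
    have := hh.one_le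
    positivity) (le_max_right _ _)
  have hK'1 : 8 * K ≤ K' * (1 - θ) := by
    have := le_max_left (8 * K / (1 - θ)) (C * N0)
    rw [← hK'] at this
    rwa [div_le_iff₀ (by linarith)] at this
  refine ⟨K', ?_⟩
  have main : ∀ n : ℕ, ∀ v : V, nrm v = n → h v ≤ at' μ v + K' * (1 + (n : ℝ)) ^ b := by
    intro n
    induction n using Nat.strong_induction_on with
    | _ n ih =>
      intro v hv
      have hone : (1 : ℝ) ≤ (1 + (n : ℝ)) ^ b := by
        apply Real.one_le_rpow
        · have : (0 : ℝ) ≤ n := Nat.cast_nonneg _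
          linarith
        · exact hb0.le
      by_cases hn : n < N0
      · have h1 := hh.le v
        have h2 : C * (nrm v : ℝ) ≤ C * N0 := by
          apply mul_le_mul_of_nonneg_left _ (by linarith [hh.one_le])
          rw [hv]
          exact_mod_cast hn.le
        have h3 : 0 ≤ at' μ v := le_trans (by positivity) (hμ.ge v)
        have h4 : C * N0 ≤ K' := le_max_right _ _
        have h5 : K' * 1 ≤ K' * (1 + (n : ℝ)) ^ b := mul_le_mul_of_nonneg_left hone hK'0
        linarith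
      · push Not at hn
        set l : ℕ := n / 4 with hl
        have hl0 : l0 ≤ l := by omega
        have hln : l ≤ nrm v := by omega
        have hl8 : n ≤ 8 * l := by omega
        have hl2 : 4 * l ≤ n := by omega
        have hlpos : 0 < l := by omega
        have hnpos : (0 : ℝ) < n := by
          have : 0 < n := by omega
          exact_mod_cast this
        have h1 := hK0 l hl0 v hln
        have h2 : ∀ z : V, nrm z ≤ 2 * l → h z ≤ at' μ z + K' * (θ * (1 + (n : ℝ)) ^ b) := by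
          intro z hz
          have h3 := ih (nrm z) (by omega) z rfl
          have h4 : (1 + (nrm z : ℝ)) ^ b ≤ θ * (1 + (n : ℝ)) ^ b := by
            rw [hθ, ← Real.mul_rpow (by norm_num) (by positivity)]
            apply Real.rpow_le_rpow (by positivity) _ hb0.le
            have h5 : (nrm z : ℝ) ≤ 2 * l := by exact_mod_cast hz
            have h6 : 4 * (l : ℝ) ≤ n := by exact_mod_cast hl2
            have h7 : (1 : ℝ) ≤ n := by
              have : 1 ≤ n := by omega
              exact_mod_cast this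
            linarith
          have := mul_le_mul_of_nonneg_left h4 hK'0
          linarith
        have h3 := gap_step hh hμ hge h1 h2
        have h4 : K0 * (nrm v : ℝ) * (l : ℝ) ^ (b - 1) ≤ 8 * K * (1 + (n : ℝ)) ^ b := by
          have hl8' : (n : ℝ) / 8 ≤ l := by
            have : (n : ℝ) ≤ 8 * l := by exact_mod_cast hl8
            linarith
          have h5 : (l : ℝ) ^ (b - 1) ≤ ((n : ℝ) / 8) ^ (b - 1) :=
            Real.rpow_le_rpow_of_nonpos (by positivity) hl8' (by linarith)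
          have h6 : ((n : ℝ) / 8) ^ (b - 1) ≤ 8 * (n : ℝ) ^ (b - 1) := by
            rw [Real.div_rpow hnpos.le (by norm_num), div_eq_mul_inv,
              ← Real.rpow_neg (by norm_num), mul_comm]
            apply mul_le_mul_of_nonneg_right _ (Real.rpow_nonneg hnpos.le _)
            calc (8 : ℝ) ^ (-(b - 1)) ≤ 8 ^ (1 : ℝ) :=
                  Real.rpow_le_rpow_of_exponent_le (by norm_num) (by linarith)
              _ = 8 := Real.rpow_one _
          have h7 : (n : ℝ) * (n : ℝ) ^ (b - 1) = (n : ℝ) ^ b := by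
            rw [← Real.rpow_one_add' hnpos.le (by linarith)]
            congr 1
            ring
          have h8 : (n : ℝ) ^ b ≤ (1 + (n : ℝ)) ^ b :=
            Real.rpow_le_rpow hnpos.le (by linarith) hb0.le
          have hlp : 0 ≤ (l : ℝ) ^ (b - 1) := Real.rpow_nonneg (Nat.cast_nonneg _) _
          calc K0 * (nrm v : ℝ) * (l : ℝ) ^ (b - 1) ≤ K * (n : ℝ) * (l : ℝ) ^ (b - 1) := by
                rw [hv]
                apply mul_le_mul_of_nonneg_right _ hlp
                exact mul_le_mul_of_nonneg_right (le_max_left _ _) hnpos.le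
            _ ≤ K * (n : ℝ) * (8 * (n : ℝ) ^ (b - 1)) := by
                apply mul_le_mul_of_nonneg_left (h5.trans h6) (by positivity)
            _ = 8 * K * (n : ℝ) ^ b := by rw [← h7]; ring
            _ ≤ 8 * K * (1 + (n : ℝ)) ^ b := mul_le_mul_of_nonneg_left h8 (by positivity)
        have h9 : 8 * K * (1 + (n : ℝ)) ^ b ≤ K' * (1 - θ) * (1 + (n : ℝ)) ^ b :=
          mul_le_mul_of_nonneg_right hK'1 (by positivity)
        have h10 : K' * (1 - θ) * (1 + (n : ℝ)) ^ b + K' * (θ * (1 + (n : ℝ)) ^ b) =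
            K' * (1 + (n : ℝ)) ^ b := by ring
        linarith
  intro v
  exact main (nrm v) v rfl

end Pool.Agent.K4H17.FPP
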