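import Pool.Agent.K4H17.FPP.Rep
import Pool.Agent.K4H17.FPP.L1
import Pool.Agent.K4H17.FPP.Mu

/-!
First-passage percolation on `ℤ²`: the mean passage time `hm v = E T(0,v)`.
-/

set_option autoImplicit false
open MeasureTheory ProbabilityTheory Filter
open scoped Pointwise Topology

namespace Pool.Agent.K4H17.FPP

variable {Ω : Type} [MeasureSpace Ω] {X : Sym2 V → Ω → ℝ} {T : Ω → V → ℝ} {μ : ℝ × ℝ → ℝ}

theorem hm_zero : hm 0 = 0 := by
  unfold hm
  have h : ∫ x, tm x (0 : V) ∂PP = ∫ _x : W, (0 : ℝ) ∂PP := by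
    apply integral_congr_ae
    filter_upwards [nonneg_ae] with x hx
    exact tm_zero hx
  rw [h]
  simp

theorem hm_nonneg (v : V) : 0 ≤ hm v := by
  unfold hm
  apply integral_nonneg_of_ae
  filter_upwards [nonneg_ae] with x hx
  exact tm_nonneg hx v

/-- the mean passage time is subadditive, of linear growth -/
theorem hm_sub : SubOK hm 1 where
  one_le := le_rfl
  zero := hm_zero
  nonneg := hm_nonneg
  sub := fun u v => by
    have := mean_add_le v u
    unfold hm
    linarith
  le := fun v => by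
    rw [one_mul]
    exact tm_integral_le v

theorem hm_eq (S : Setting Ω X T μ) (v : V) : hm v = ∫ ω, T ω v :=
  (S.integral_comp v (f := fun t => t) measurable_id).symm

theorem at'_le_hm (S : Setting Ω X T μ) (v : V) : at' μ v ≤ hm v := by
  rw [hm_eq S]
  exact le_expect S v

theorem at'_nsmul (S : Setting Ω X T μ) (n : ℕ) (v : V) : at' μ (n • v) = n * at' μ v := by
  unfold at'
  rw [← S.hom _ _ (Nat.cast_nonneg n)]
  congr 1
  ext
  · simp
  · simp

theorem at'_nonneg (S : Setting Ω X T μ) (v : V) : 0 ≤ at' μ v := by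
  refine ge_of_tendsto' (b := (0 : ℝ)) (f := fun _ : ℕ => at' μ v) (x := atTop)
    tendsto_const_nhds (fun _ => ?_)
  have hP := S.prob
  obtain ⟨ω, h1, h2⟩ := ((S.lim v).and S.T_nonneg).exists
  exact ge_of_tendsto' h1 (fun n => div_nonneg (h2 _) (Nat.cast_nonneg n))

theorem hm_le_add (v : V) (m : ℝ) : hm v ≤ m + ∫ x, max (tm x v - m) 0 ∂PP := by
  have h1 : Integrable (fun x : W => max (tm x v - m) 0) PP :=
    ((tm_integrable v).sub (integrable_const _)).pos_part
  have h2 : m + ∫ x, max (tm x v - m) 0 ∂PP = ∫ x, (m + max (tm x v - m) 0) ∂PP := by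
    rw [integral_add (integrable_const _) h1]
    simp
  rw [h2]
  unfold hm
  have h3 : Integrable (fun x : W => m + max (tm x v - m) 0) PP := (integrable_const _).add h1
  refine integral_mono (tm_integrable v) h3 (fun x => ?_)
  have := le_max_left (tm x v - m) 0
  dsimp only
  linarith

/-- the expectations converge -/
theorem hm_lim (S : Setting Ω X T μ) (v : V) :
    Tendsto (fun n : ℕ => hm (n • v) / n) atTop (𝓝 (at' μ v)) := by
  have hP := S.prob
  rw [tendsto_order]
  constructor
  · intro c hc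
    filter_upwards [eventually_ge_atTop 1] with n hn
    have hn' : (0 : ℝ) < n := by exact_mod_cast hn
    rw [lt_div_iff₀ hn']
    have h1 := at'_le_hm S (n • v)
    rw [at'_nsmul S] at h1
    nlinarith
  · intro c hc
    set ε : ℝ := (c - at' μ v) / 4 with hε
    have hε0 : 0 < ε := by rw [hε]; linarith
    set K : ℝ := 1 + 2 * (nrm v : ℝ) ^ 2 / ε with hK
    have hK0 : 0 < K := by positivity
    have hK1 : 2 * (nrm v : ℝ) ^ 2 / K ≤ ε := by
      rw [div_le_iff₀ hK0, hK]
      have : ε * (1 + 2 * (nrm v : ℝ) ^ 2 / ε) = ε + 2 * (nrm v : ℝ) ^ 2 := by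
        field_simp
      rw [this]
      linarith
    have hhigh := S.high v (c := at' μ v + ε) (by linarith)
    have hev := hhigh.eventually (gt_mem_nhds (show (0 : ℝ) < ε / K by positivity))
    filter_upwards [hev, eventually_ge_atTop 1] with n hPn hn
    have hn' : (0 : ℝ) < n := by exact_mod_cast hn
    have hμ0 := at'_nonneg S v
    have h1 := tm_pos_part_le (v := n • v) (m := n * at' μ v) (r := n * ε) (K := n * K)
      (by positivity) (by positivity) (by positivity)
    have h2 := hm_le_add (n • v) (n * at' μ v)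
    have e1 : (n : ℝ) * at' μ v + n * ε = n * (at' μ v + ε) := by ring
    rw [e1] at h1
    rw [natCast_zsmul] at hPn
    have h3 : (n : ℝ) * K * PP.real {x | ¬ Fast x Set.univ 0 (n • v) ((n : ℝ) * (at' μ v + ε))} ≤
        n * ε := by
      have := mul_le_mul_of_nonneg_left hPn.le (show (0 : ℝ) ≤ n * K by positivity)
      refine this.trans (le_of_eq ?_)
      field_simp
    have h4 : 2 * (nrm (n • v) : ℝ) ^ 2 / (n * K) ≤ n * ε := by
      rw [nrm_nsmul]
      push_cast
      have : 2 * ((n : ℝ) * (nrm v : ℝ)) ^ 2 / (n * K) = n * (2 * (nrm v : ℝ) ^ 2 / K) := by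
        field_simp
      rw [this]
      exact mul_le_mul_of_nonneg_left hK1 hn'.le
    rw [div_lt_iff₀ hn']
    have h5 : c = at' μ v + 4 * ε := by rw [hε]; ring
    rw [h5]
    nlinarith

/-- an `L¹` rate around the mean and a rate for the mean give an `L¹` rate around `μ` -/
theorem sup_mean (S : Setting Ω X T μ) (a : ℝ)
    (h : ∀ ε > 0, ∃ C, ∀ v, hm v ≤ at' μ v + C * (1 + (nrm v : ℝ)) ^ (a + ε))
    (h2 : ∀ ε > 0, ∃ C, ∀ v, ∫ ω, |T ω v - hm v| ≤ C * (1 + (nrm v : ℝ)) ^ (a + ε)) :
    ∀ ε > 0, ∃ C, ∀ v, ∫ ω, |T ω v - at' μ v| ≤ C * (1 + (nrm v : ℝ)) ^ (a + ε) := by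
  have hP := S.prob
  intro ε hε
  obtain ⟨C1, hC1⟩ := h ε hε
  obtain ⟨C2, hC2⟩ := h2 ε hε
  refine ⟨C2 + C1, fun v => ?_⟩
  have hi1 : Integrable (fun ω => |T ω v - hm v|) (volume : Measure Ω) :=
    ((integrable_T S v).sub (integrable_const _)).abs
  have hi2 : Integrable (fun ω => |T ω v - at' μ v|) (volume : Measure Ω) :=
    ((integrable_T S v).sub (integrable_const _)).abs
  have h3 : ∫ ω, |T ω v - at' μ v| ≤ ∫ ω, (|T ω v - hm v| + (hm v - at' μ v)) := by
    apply integral_mono hi2 (hi1.add (integrable_const _))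
    intro ω
    have h4 := abs_add_le (T ω v - hm v) (hm v - at' μ v)
    have h5 : |hm v - at' μ v| = hm v - at' μ v := abs_of_nonneg (by linarith [at'_le_hm S v])
    have h6 : T ω v - hm v + (hm v - at' μ v) = T ω v - at' μ v := by ring
    rw [h6, h5] at h4
    exact h4
  rw [integral_add hi1 (integrable_const _)] at h3
  simp only [integral_const, probReal_univ, one_smul] at h3
  have h7 := hC1 v
  have h8 := hC2 v
  rw [add_mul]
  linarith

end Pool.Agent.K4H17.FPP
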