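import Pool.Agent.K4H17.FPP.Rep
import Pool.Agent.K4H17.FPP.L1

/-!
First-passage percolation on `ℤ²`: a tail bound around the mean gives an `L¹` bound (helper32).
-/

set_option autoImplicit false
open MeasureTheory ProbabilityTheory Filter
open scoped Pointwise Topology

namespace Pool.Agent.K4H17.FPP

theorem l1m_sq_integrable (v : V) : Integrable (fun x : W => (tm x v - hm v) ^ 2) PP := by
  have h1 : Integrable (fun x : W => (tm x v) ^ 2 - 2 * hm v * tm x v + hm v ^ 2) PP :=
    ((tm_sq_integrable v).sub ((tm_integrable v).const_mul _)).add (integrable_const _)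
  refine h1.congr (Filter.Eventually.of_forall fun x => ?_)
  show (tm x v) ^ 2 - 2 * hm v * tm x v + hm v ^ 2 = (tm x v - hm v) ^ 2
  ring

theorem l1m_sq_le (v : V) : ∫ x, (tm x v - hm v) ^ 2 ∂PP ≤ 2 * (nrm v : ℝ) ^ 2 := by
  have h1 : ∫ x, (tm x v - hm v) ^ 2 ∂PP =
      ∫ x, ((tm x v) ^ 2 - 2 * hm v * tm x v + hm v ^ 2) ∂PP := by
    congr 1
    funext x
    ring
  have h2 : ∫ x, ((tm x v) ^ 2 - 2 * hm v * tm x v + hm v ^ 2) ∂PP =
      ∫ x, (tm x v) ^ 2 ∂PP - hm v ^ 2 := by
    have i1 : Integrable (fun x : W => (tm x v) ^ 2 - 2 * hm v * tm x v) PP :=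
      (tm_sq_integrable v).sub ((tm_integrable v).const_mul _)
    rw [integral_add i1 (integrable_const _),
      integral_sub (tm_sq_integrable v) ((tm_integrable v).const_mul _), integral_const_mul]
    have : ∫ x, tm x v ∂PP = hm v := rfl
    rw [this]
    simp
    ring
  rw [h1, h2]
  have := tm_sq_integral_le v
  nlinarith [sq_nonneg (hm v)]

/-- a tail bound around the mean gives an `L¹` bound -/
theorem l1_of_tail {a : ℝ} (ha : 0 < a) (ha1 : a < 1)
    (h : ∀ ε > (0 : ℝ), ∃ C : ℝ, ∀ v : V, v ≠ 0 →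
      PP.real {x | (nrm v : ℝ) ^ (a + ε) ≤ |tm x v - hm v|} ≤ C * (nrm v : ℝ) ^ (-(3 * (1 - a)))) :
    ∀ ε > (0 : ℝ), ∃ C : ℝ, ∀ v : V,
      ∫ x, |tm x v - hm v| ∂PP ≤ C * (1 + (nrm v : ℝ)) ^ (a + ε) := by
  intro ε hε
  obtain ⟨C, hC⟩ := h ε hε
  refine ⟨3 + |C|, fun v => ?_⟩
  have hD : Integrable (fun x : W => |tm x v - hm v|) PP :=
    ((tm_integrable v).sub (integrable_const _)).abs
  by_cases hv : v = 0
  · have h1 : ∫ x, |tm x v - hm v| ∂PP ≤ ∫ x, (tm x v + hm v) ∂PP := by
      apply integral_mono_ae hD ((tm_integrable v).add (integrable_const _))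
      filter_upwards [nonneg_ae] with x hx
      have h2 := tm_nonneg hx v
      have h3 : 0 ≤ hm v := by
        unfold hm
        apply integral_nonneg_of_ae
        filter_upwards [nonneg_ae] with x hx
        exact tm_nonneg hx v
      show |tm x v - hm v| ≤ tm x v + hm v
      rw [abs_le]
      constructor <;> linarith
    rw [integral_add (tm_integrable v) (integrable_const _)] at h1
    have h4 := tm_integral_le v
    have h5 : (nrm v : ℝ) = 0 := by rw [hv, nrm_zero]; simp
    have h6 : hm v ≤ nrm v := h4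
    simp only [integral_const, probReal_univ, one_smul] at h1
    rw [h5] at h4 h6 ⊢
    have h7 : (0 : ℝ) ≤ (3 + |C|) * (1 + 0) ^ (a + ε) := by positivity
    linarith
  · have hn0 : nrm v ≠ 0 := fun hh => hv (nrm_eq_zero.1 hh)
    have hn1 : (1 : ℝ) ≤ nrm v := by exact_mod_cast Nat.one_le_iff_ne_zero.2 hn0
    have hnp : (0 : ℝ) < nrm v := by linarith
    set n : ℝ := (nrm v : ℝ) with hn
    set s : ℝ := n ^ (a + ε) with hs
    set lam : ℝ := n ^ (2 - a) with hlam
    have hlp : 0 < lam := Real.rpow_pos_of_pos hnp _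
    have hs0 : 0 < s := Real.rpow_pos_of_pos hnp _
    set A : Set W := {x | s ≤ |tm x v - hm v|} with hA
    set B : Set W := toMeasurable PP A with hB
    have hAB : A ⊆ B := subset_toMeasurable PP A
    have hBm : MeasurableSet B := measurableSet_toMeasurable PP A
    have hBr : PP.real B = PP.real A := by
      rw [measureReal_def, measureReal_def, measure_toMeasurable]
    have hI1 : Integrable (fun x : W => (1 / lam) * (tm x v - hm v) ^ 2) PP :=
      (l1m_sq_integrable v).const_mul _
    have hI2 : Integrable (fun x : W => B.indicator (fun _ => lam) x) PP :=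
      (integrable_const lam).indicator hBm
    have h1 : ∫ x, |tm x v - hm v| ∂PP ≤
        ∫ x, ((s + (1 / lam) * (tm x v - hm v) ^ 2) + B.indicator (fun _ => lam) x) ∂PP := by
      apply integral_mono hD (((integrable_const s).add hI1).add hI2)
      intro x
      show |tm x v - hm v| ≤ (s + (1 / lam) * (tm x v - hm v) ^ 2) + B.indicator (fun _ => lam) x
      have h2 : 0 ≤ (1 / lam) * (tm x v - hm v) ^ 2 := by positivity
      by_cases hx : x ∈ A
      · rw [Set.indicator_of_mem (hAB hx)]
        have h3 : |tm x v - hm v| ≤ (1 / lam) * (tm x v - hm v) ^ 2 + lam := by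
          rw [← sq_abs]
          set t := |tm x v - hm v| with ht
          have ht0 : 0 ≤ t := abs_nonneg _
          have h4 : (1 / lam) * t ^ 2 + lam - t = ((t - lam / 2) ^ 2 + 3 * lam ^ 2 / 4) / lam := by
            field_simp
            ring
          have h5 : 0 ≤ ((t - lam / 2) ^ 2 + 3 * lam ^ 2 / 4) / lam := by positivity
          linarith
        linarith
      · have h3 : |tm x v - hm v| < s := not_le.1 hx
        have h4 : 0 ≤ B.indicator (fun _ => lam) x := Set.indicator_nonneg (fun _ _ => hlp.le) x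
        linarith
    have h2 : ∫ x, ((s + (1 / lam) * (tm x v - hm v) ^ 2) + B.indicator (fun _ => lam) x) ∂PP =
        s + (1 / lam) * ∫ x, (tm x v - hm v) ^ 2 ∂PP + lam * PP.real A := by
      have i1 : Integrable (fun x : W => s + (1 / lam) * (tm x v - hm v) ^ 2) PP :=
        (integrable_const s).add hI1
      rw [integral_add i1 hI2, integral_add (integrable_const s) hI1,
        integral_const_mul, integral_indicator hBm]
      simp only [integral_const, probReal_univ, measureReal_restrict_apply_univ, hBr,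
        smul_eq_mul]
      ring
    rw [h2] at h1
    have h3 := l1m_sq_le v
    have h4 := hC v hv
    rw [← hn, ← hs] at h4
    have h5 : (1 / lam) * ∫ x, (tm x v - hm v) ^ 2 ∂PP ≤ 2 * n ^ a := by
      have e : n ^ a = (1 / lam) * n ^ 2 := by
        rw [hlam, one_div, ← Real.rpow_neg hnp.le, ← Real.rpow_natCast n 2, ← Real.rpow_add hnp]
        congr 1
        push_cast
        ring
      calc (1 / lam) * ∫ x, (tm x v - hm v) ^ 2 ∂PP ≤ (1 / lam) * (2 * n ^ 2) :=
            mul_le_mul_of_nonneg_left h3 (by positivity)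
        _ = 2 * n ^ a := by rw [e]; ring
    have h6 : lam * PP.real A ≤ |C| * n ^ a := by
      have e : lam * n ^ (-(3 * (1 - a))) = n ^ (2 * a - 1) := by
        rw [hlam, ← Real.rpow_add hnp]
        congr 1
        ring
      have h7 : n ^ (2 * a - 1) ≤ n ^ a := Real.rpow_le_rpow_of_exponent_le hn1 (by linarith)
      calc lam * PP.real A ≤ lam * (C * n ^ (-(3 * (1 - a)))) :=
            mul_le_mul_of_nonneg_left h4 hlp.le
        _ = C * (lam * n ^ (-(3 * (1 - a)))) := by ring
        _ = C * n ^ (2 * a - 1) := by rw [e]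
        _ ≤ |C| * n ^ (2 * a - 1) :=
          mul_le_mul_of_nonneg_right (le_abs_self C) (Real.rpow_nonneg hnp.le _)
        _ ≤ |C| * n ^ a := mul_le_mul_of_nonneg_left h7 (abs_nonneg C)
    have h7 : n ^ a ≤ n ^ (a + ε) := Real.rpow_le_rpow_of_exponent_le hn1 (by linarith)
    have h8 : n ^ (a + ε) ≤ (1 + n) ^ (a + ε) :=
      Real.rpow_le_rpow hnp.le (by linarith) (by linarith)
    have h9 : 0 ≤ |C| := abs_nonneg C
    have h10 : |C| * n ^ a ≤ |C| * (1 + n) ^ (a + ε) :=
      mul_le_mul_of_nonneg_left (h7.trans h8) h9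
    have h11 : s ≤ (1 + n) ^ (a + ε) := h8
    have h12 : (3 + |C|) * (1 + n) ^ (a + ε) = 3 * (1 + n) ^ (a + ε) + |C| * (1 + n) ^ (a + ε) := by
      ring
    rw [h12]
    linarith [h7.trans h8]

end Pool.Agent.K4H17.FPP
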