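import Mathlib

/-!
Elementary asymptotic comparisons.
-/

set_option autoImplicit false
open Filter

namespace Pool.Agent.K4H17.FPP

theorem tendsto_npow {a : ℝ} (ha : 0 < a) :
    Tendsto (fun n : ℕ => (n : ℝ) ^ a) atTop atTop :=
  (tendsto_rpow_atTop ha).comp tendsto_natCast_atTop_atTop

theorem pow_lt {a b : ℝ} (h : a < b) (C : ℝ) :
    ∀ᶠ n : ℕ in atTop, C * (n : ℝ) ^ a ≤ (n : ℝ) ^ b := by
  have h1 := (tendsto_npow (sub_pos.2 h)).eventually_ge_atTop C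
  filter_upwards [h1, eventually_gt_atTop 0] with n hn hn0
  have hn0' : (0 : ℝ) < n := by exact_mod_cast hn0
  calc C * (n : ℝ) ^ a ≤ (n : ℝ) ^ (b - a) * (n : ℝ) ^ a :=
        mul_le_mul_of_nonneg_right hn (by positivity)
    _ = (n : ℝ) ^ b := by rw [← Real.rpow_add hn0']; congr 1; ring

theorem ge_const {a : ℝ} (ha : 0 < a) (C : ℝ) : ∀ᶠ n : ℕ in atTop, C ≤ (n : ℝ) ^ a :=
  (tendsto_npow ha).eventually_ge_atTop C

theorem poly_le_exp {c : ℝ} (hc : 0 < c) (A C : ℝ) :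
    ∀ᶠ n : ℕ in atTop, C * (n : ℝ) ^ A ≤ Real.exp ((n : ℝ) ^ c) := by
  have h1 : Tendsto (fun x : ℝ => x ^ (A / c) / Real.exp x) atTop (nhds 0) :=
    (isLittleO_rpow_exp_atTop (A / c)).tendsto_div_nhds_zero
  have h2 := (h1.comp (tendsto_npow hc)).eventually
    (gt_mem_nhds (show (0 : ℝ) < 1 / (|C| + 1) by positivity))
  filter_upwards [h2, eventually_gt_atTop 0] with n hn hn0
  have hn0' : (0 : ℝ) < n := by exact_mod_cast hn0
  simp only [Function.comp] at hn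
  rw [← Real.rpow_mul hn0'.le, mul_div_cancel₀ _ hc.ne',
    div_lt_div_iff₀ (Real.exp_pos _) (by positivity), one_mul] at hn
  have h3 : C ≤ |C| + 1 := by linarith [le_abs_self C]
  calc C * (n : ℝ) ^ A ≤ (|C| + 1) * (n : ℝ) ^ A :=
        mul_le_mul_of_nonneg_right h3 (by positivity)
    _ ≤ Real.exp ((n : ℝ) ^ c) := by linarith

theorem exp_absorb {c c' : ℝ} (hc : 0 < c') (hcc : c' < c) (A B C : ℝ) (hB : 0 < B) :
    ∀ᶠ n : ℕ in atTop,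
      C * (n : ℝ) ^ A * Real.exp (-(B * (n : ℝ) ^ c)) ≤ Real.exp (-(n : ℝ) ^ c') := by
  filter_upwards [poly_le_exp hc A C, pow_lt hcc (2 / B)] with n h1 h2
  have h3 : 2 * (n : ℝ) ^ c' ≤ B * (n : ℝ) ^ c := by
    have := mul_le_mul_of_nonneg_left h2 hB.le
    rw [← mul_assoc] at this
    rwa [mul_div_cancel₀ _ hB.ne'] at this
  calc C * (n : ℝ) ^ A * Real.exp (-(B * (n : ℝ) ^ c))
      ≤ Real.exp ((n : ℝ) ^ c') * Real.exp (-(B * (n : ℝ) ^ c)) :=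
        mul_le_mul_of_nonneg_right h1 (Real.exp_pos _).le
    _ = Real.exp ((n : ℝ) ^ c' - B * (n : ℝ) ^ c) := by rw [← Real.exp_add]; ring_nf
    _ ≤ Real.exp (-(n : ℝ) ^ c') := Real.exp_le_exp.2 (by linarith)

/-- floor of a power -/
theorem floor_pow {η : ℝ} (hη : 0 < η) :
    ∀ᶠ n : ℕ in atTop, 1 ≤ ⌊(n : ℝ) ^ η⌋₊ ∧ ((⌊(n : ℝ) ^ η⌋₊ : ℕ) : ℝ) ≤ (n : ℝ) ^ η ∧
      (n : ℝ) ^ η / 2 ≤ ((⌊(n : ℝ) ^ η⌋₊ : ℕ) : ℝ) := by
  filter_upwards [ge_const hη 2] with n hn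
  refine ⟨Nat.le_floor (by push_cast; linarith), Nat.floor_le (by linarith), ?_⟩
  have := Nat.lt_floor_add_one ((n : ℝ) ^ η)
  linarith

end Pool.Agent.K4H17.FPP
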