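import Pool.Agent.K4H17.FPP.Hm
import Pool.Agent.K4H17.FPP.Asym

/-!
First-passage percolation on `ℤ²`: moments of the passage times; stretched exponential tails,
moments of every order and superpolynomial tails.
-/

set_option autoImplicit false
open MeasureTheory ProbabilityTheory Filter
open scoped Pointwise Topology ENNReal

namespace Pool.Agent.K4H17.FPP

theorem edge_pow_integrable (e : Sym2 V) (k : ℕ) :
    Integrable (fun x : W => (x e) ^ (k + 1)) PP := by
  have := edge_integrable_rpow e (p := ((k + 1 : ℕ) : ℝ)) (by positivity)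
  simpa only [Real.rpow_natCast] using this

theorem edge_pow_integral (e : Sym2 V) (k : ℕ) :
    ∫ x, (x e) ^ (k + 1) ∂PP = ((k + 1 : ℕ) : ℝ) * Real.Gamma ((k + 1 : ℕ) : ℝ) := by
  have := edge_integral_rpow e (p := ((k + 1 : ℕ) : ℝ)) (by positivity)
  simpa only [Real.rpow_natCast] using this

theorem cst_pow_le {x : W} (hx : ∀ e, 0 ≤ x e) (p : ℕ → V) (n k : ℕ) :
    (cst x p n) ^ (k + 1) ≤
      (n : ℝ) ^ k * ∑ i ∈ Finset.range n, (x s(p i, p (i + 1))) ^ (k + 1) := by
  unfold cst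
  have := pow_sum_le_card_mul_sum_pow (s := Finset.range n)
    (f := fun i => x s(p i, p (i + 1))) (fun i _ => hx _) k
  simpa using this

/-- all moments of the passage times -/
theorem tm_pow : ∀ k : ℕ, ∃ C : ℝ, ∀ v, Integrable (fun x : W => (tm x v) ^ k) PP ∧
    ∫ x, (tm x v) ^ k ∂PP ≤ C * (nrm v : ℝ) ^ k := by
  intro k
  rcases k with _ | k
  · refine ⟨1, fun v => ⟨?_, ?_⟩⟩
    · simp
    · simp
  · refine ⟨((k + 1 : ℕ) : ℝ) * Real.Gamma ((k + 1 : ℕ) : ℝ), fun v => ?_⟩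
    obtain ⟨p, hp⟩ := exists_path_nrm v
    have hi : Integrable (fun x : W => (nrm v : ℝ) ^ k *
        ∑ i ∈ Finset.range (nrm v), (x s(p i, p (i + 1))) ^ (k + 1)) PP :=
      (integrable_finsetSum _ fun i _ => edge_pow_integrable _ k).const_mul _
    have hle : ∀ᵐ x ∂PP, (tm x v) ^ (k + 1) ≤ (nrm v : ℝ) ^ k *
        ∑ i ∈ Finset.range (nrm v), (x s(p i, p (i + 1))) ^ (k + 1) := by
      filter_upwards [nonneg_ae] with x hx
      refine le_trans ?_ (cst_pow_le hx p (nrm v) k)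
      exact pow_le_pow_left₀ (tm_nonneg hx v) (tm_le_cst hx hp) _
    have h1 : Integrable (fun x : W => (tm x v) ^ (k + 1)) PP := by
      refine Integrable.mono' hi ((tm_aemeasurable v).pow_const _).aestronglyMeasurable ?_
      filter_upwards [nonneg_ae, hle] with x hx h
      rw [Real.norm_of_nonneg (pow_nonneg (tm_nonneg hx v) _)]
      exact h
    refine ⟨h1, (integral_mono_ae h1 hi hle).trans (le_of_eq ?_)⟩
    rw [integral_const_mul, integral_finsetSum _ fun i _ => edge_pow_integrable _ k]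
    simp only [edge_pow_integral]
    rw [Finset.sum_const, Finset.card_range, nsmul_eq_mul]
    ring

theorem abs_sub_pow_le {t h : ℝ} (ht : 0 ≤ t) (hh : 0 ≤ h) (k : ℕ) :
    |t - h| ^ k ≤ t ^ k + h ^ k := by
  have ht' : 0 ≤ t ^ k := pow_nonneg ht k
  have hh' : 0 ≤ h ^ k := pow_nonneg hh k
  rcases le_total t h with h1 | h1
  · rw [abs_of_nonpos (by linarith)]
    have : (-(t - h)) ^ k ≤ h ^ k := pow_le_pow_left₀ (by linarith) (by linarith) k
    linarith
  · rw [abs_of_nonneg (by linarith)]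
    have : (t - h) ^ k ≤ t ^ k := pow_le_pow_left₀ (by linarith) (by linarith) k
    linarith

/-- all central moments, trivial bound -/
theorem tm_central (k : ℕ) : ∃ C : ℝ, 0 ≤ C ∧ ∀ v,
    Integrable (fun x : W => |tm x v - hm v| ^ k) PP ∧
    ∫ x, |tm x v - hm v| ^ k ∂PP ≤ C * (nrm v : ℝ) ^ k := by
  obtain ⟨C, hC⟩ := tm_pow k
  refine ⟨|C| + 1, by positivity, fun v => ?_⟩
  obtain ⟨h1, h2⟩ := hC v
  have hi : Integrable (fun x : W => (tm x v) ^ k + (hm v) ^ k) PP :=
    h1.add (integrable_const _)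
  have hle : ∀ᵐ x ∂PP, |tm x v - hm v| ^ k ≤ (tm x v) ^ k + (hm v) ^ k := by
    filter_upwards [nonneg_ae] with x hx
    exact abs_sub_pow_le (tm_nonneg hx v) (hm_nonneg v) k
  have hm1 : AEMeasurable (fun x : W => |tm x v - hm v| ^ k) PP := by
    have h0 : AEMeasurable (fun x : W => tm x v - hm v) PP :=
      (tm_aemeasurable v).sub aemeasurable_const
    have h00 : AEMeasurable (fun x : W => |tm x v - hm v|) PP :=
      measurable_abs.comp_aemeasurable h0
    exact h00.pow_const k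
  have h3 : Integrable (fun x : W => |tm x v - hm v| ^ k) PP := by
    refine Integrable.mono' hi hm1.aestronglyMeasurable ?_
    filter_upwards [hle] with x h
    rw [Real.norm_of_nonneg (by positivity)]
    exact h
  refine ⟨h3, (integral_mono_ae h3 hi hle).trans ?_⟩
  rw [integral_add h1 (integrable_const _)]
  simp only [integral_const, probReal_univ, one_smul]
  have h4 : (hm v) ^ k ≤ (nrm v : ℝ) ^ k := by
    apply pow_le_pow_left₀ (hm_nonneg v)
    have := hm_sub.le v
    rwa [one_mul] at this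
  have h5 : C * (nrm v : ℝ) ^ k ≤ |C| * (nrm v : ℝ) ^ k :=
    mul_le_mul_of_nonneg_right (le_abs_self C) (by positivity)
  linarith

/-- stretched exponential tails give all the moments -/
theorem moments_of_tail {a : ℝ} (ha : 0 < a)
    (h : ∀ ε > (0 : ℝ), ∃ c > (0 : ℝ), ∃ N0 : ℕ, ∀ v : V, N0 ≤ nrm v →
      PP.real {x | (nrm v : ℝ) ^ (a + ε) ≤ |tm x v - hm v|} ≤ Real.exp (-(nrm v : ℝ) ^ c)) :
    ∀ k : ℕ, ∀ ε > (0 : ℝ), ∃ C : ℝ, ∀ v,
      Integrable (fun x : W => |tm x v - hm v| ^ k) PP ∧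
      ∫ x, |tm x v - hm v| ^ k ∂PP ≤ C * (1 + (nrm v : ℝ)) ^ ((k : ℝ) * (a + ε)) := by
  intro k ε hε
  obtain ⟨c, hc, N0, hN0⟩ := h ε hε
  obtain ⟨C1, hC1, h1⟩ := tm_central k
  obtain ⟨C2, hC2, h2⟩ := tm_central (2 * k)
  obtain ⟨N1, hN1⟩ := eventually_atTop.1 (poly_le_exp hc ((2 * k : ℕ) : ℝ) 1)
  set N : ℕ := max (max N0 N1) 1 with hN
  have he0 : 0 ≤ (k : ℝ) * (a + ε) := by positivity
  refine ⟨C1 * (N : ℝ) ^ k + (1 + C2 + 1), fun v => ⟨(h1 v).1, ?_⟩⟩
  have hbase : 1 ≤ (1 + (nrm v : ℝ)) ^ ((k : ℝ) * (a + ε)) :=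
    Real.one_le_rpow (by linarith [Nat.cast_nonneg (α := ℝ) (nrm v)]) he0
  rcases lt_or_ge (nrm v) N with hv | hv
  · have h3 : (nrm v : ℝ) ^ k ≤ (N : ℝ) ^ k :=
      pow_le_pow_left₀ (Nat.cast_nonneg _) (by exact_mod_cast hv.le) k
    have h4 := mul_le_mul_of_nonneg_left h3 hC1
    have h5 : 0 ≤ C1 * (N : ℝ) ^ k + (1 + C2 + 1) := by positivity
    have h6 := mul_le_mul_of_nonneg_left hbase h5
    have h7 := (h1 v).2
    linarith
  · have hvN0 : N0 ≤ nrm v := le_trans ((le_max_left _ _).trans (le_max_left _ _)) hv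
    have hvN1 : N1 ≤ nrm v := le_trans ((le_max_right _ _).trans (le_max_left _ _)) hv
    have hv1 : 1 ≤ nrm v := le_trans (le_max_right _ _) hv
    set n : ℝ := (nrm v : ℝ) with hn
    have hn1 : (1 : ℝ) ≤ n := by rw [hn]; exact_mod_cast hv1
    have hn0 : 0 < n := by linarith
    set s : ℝ := n ^ (a + ε) with hs
    have hs0 : 0 < s := by positivity
    set A : Set W := {x | s ≤ |tm x v - hm v|} with hA
    have hAm : NullMeasurableSet A PP := by
      have h0 : AEMeasurable (fun x : W => tm x v - hm v) PP :=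
        (tm_aemeasurable v).sub aemeasurable_const
      have h00 : AEMeasurable (fun x : W => |tm x v - hm v|) PP :=
        measurable_abs.comp_aemeasurable h0
      exact nullMeasurableSet_le aemeasurable_const h00
    have hPA := hN0 v hvN0
    have hlam : 0 < n ^ (2 * k) := by positivity
    have hind : Integrable (A.indicator (fun _ : W => (1 : ℝ))) PP :=
      (integrable_const (1 : ℝ)).indicator₀ hAm
    have hindv : ∫ x, A.indicator (fun _ : W => (1 : ℝ)) x ∂PP = PP.real A := by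
      rw [integral_indicator₀ hAm]
      simp
    have hpt : ∀ x : W, |tm x v - hm v| ^ k ≤ s ^ k + |tm x v - hm v| ^ (2 * k) / n ^ (2 * k) +
        n ^ (2 * k) * A.indicator (fun _ : W => (1 : ℝ)) x := by
      intro x
      have hu : 0 ≤ |tm x v - hm v| := abs_nonneg _
      have hu2 : 0 ≤ |tm x v - hm v| ^ (2 * k) / n ^ (2 * k) := by positivity
      have hsk : 0 ≤ s ^ k := by positivity
      by_cases hx : x ∈ A
      · rw [Set.indicator_of_mem hx, mul_one]
        rcases le_total (|tm x v - hm v| ^ k) (n ^ (2 * k)) with h3 | h3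
        · linarith
        · have h4 : |tm x v - hm v| ^ k ≤ |tm x v - hm v| ^ (2 * k) / n ^ (2 * k) := by
            have h5 : |tm x v - hm v| ^ (2 * k) = |tm x v - hm v| ^ k * |tm x v - hm v| ^ k := by
              rw [two_mul, pow_add]
            rw [le_div_iff₀ hlam, h5]
            exact mul_le_mul_of_nonneg_left h3 (by positivity)
          linarith
      · rw [Set.indicator_of_notMem hx, mul_zero, add_zero]
        have h3 : |tm x v - hm v| ≤ s := by
          by_contra hcon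
          push Not at hcon
          exact hx hcon.le
        have h4 := pow_le_pow_left₀ hu h3 k
        linarith
    have hi2 : Integrable (fun x : W => s ^ k + |tm x v - hm v| ^ (2 * k) / n ^ (2 * k)) PP :=
      (integrable_const _).add ((h2 v).1.div_const _)
    have hi3 : Integrable (fun x : W => n ^ (2 * k) * A.indicator (fun _ : W => (1 : ℝ)) x) PP :=
      hind.const_mul _
    have h3 := integral_mono (h1 v).1 (hi2.add hi3) hpt
    have h4 : ∫ x, (s ^ k + |tm x v - hm v| ^ (2 * k) / n ^ (2 * k) +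
        n ^ (2 * k) * A.indicator (fun _ : W => (1 : ℝ)) x) ∂PP =
        s ^ k + (∫ x, |tm x v - hm v| ^ (2 * k) ∂PP) / n ^ (2 * k) + n ^ (2 * k) * PP.real A := by
      rw [integral_add hi2 hi3, integral_add (integrable_const _) ((h2 v).1.div_const _),
        integral_div, integral_const_mul, hindv]
      simp
    have h5 : (∫ x, |tm x v - hm v| ^ (2 * k) ∂PP) / n ^ (2 * k) ≤ C2 := by
      rw [div_le_iff₀ hlam]
      exact (h2 v).2
    have h6 : n ^ (2 * k) * PP.real A ≤ 1 := by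
      have h7 := hN1 (nrm v) hvN1
      rw [one_mul, Real.rpow_natCast] at h7
      calc n ^ (2 * k) * PP.real A ≤ Real.exp (n ^ c) * Real.exp (-n ^ c) :=
            mul_le_mul h7 hPA measureReal_nonneg (Real.exp_pos _).le
        _ = 1 := by rw [← Real.exp_add]; simp
    have h8 : s ^ k ≤ (1 + n) ^ ((k : ℝ) * (a + ε)) := by
      have : s ^ k = n ^ ((k : ℝ) * (a + ε)) := by
        rw [hs, ← Real.rpow_natCast, ← Real.rpow_mul hn0.le, mul_comm]
      rw [this]
      exact Real.rpow_le_rpow hn0.le (by linarith) he0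
    have h9 : 0 ≤ C1 * (N : ℝ) ^ k := by positivity
    have h3' : ∫ x, |tm x v - hm v| ^ k ∂PP ≤ s ^ k + C2 + 1 := by
      refine h3.trans ?_
      have : ∫ x, ((fun x : W => s ^ k + |tm x v - hm v| ^ (2 * k) / n ^ (2 * k)) +
          fun x : W => n ^ (2 * k) * A.indicator (fun _ : W => (1 : ℝ)) x) x ∂PP =
          ∫ x, (s ^ k + |tm x v - hm v| ^ (2 * k) / n ^ (2 * k) +
        n ^ (2 * k) * A.indicator (fun _ : W => (1 : ℝ)) x) ∂PP := rfl
      rw [this, h4]
      linarith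
    calc ∫ x, |tm x v - hm v| ^ k ∂PP ≤ s ^ k + (C2 + 1) * 1 := by linarith
      _ ≤ (1 + n) ^ ((k : ℝ) * (a + ε)) + (C2 + 1) * (1 + n) ^ ((k : ℝ) * (a + ε)) :=
          add_le_add h8 (mul_le_mul_of_nonneg_left hbase (by linarith))
      _ = (1 + C2 + 1) * (1 + n) ^ ((k : ℝ) * (a + ε)) := by ring
      _ ≤ (C1 * (N : ℝ) ^ k + (1 + C2 + 1)) * (1 + n) ^ ((k : ℝ) * (a + ε)) := by
          apply mul_le_mul_of_nonneg_right _ (by linarith)
          linarith

/-- moments of every order give superpolynomial tails -/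
theorem tail_of_moments {a : ℝ} (ha : 0 < a)
    (h : ∀ k : ℕ, ∀ ε > (0 : ℝ), ∃ C : ℝ, ∀ v,
      Integrable (fun x : W => |tm x v - hm v| ^ k) PP ∧
      ∫ x, |tm x v - hm v| ^ k ∂PP ≤ C * (1 + (nrm v : ℝ)) ^ ((k : ℝ) * (a + ε))) :
    ∀ ε > (0 : ℝ), ∀ q > (0 : ℝ), ∃ C : ℝ, ∀ v : V, v ≠ 0 →
      PP.real {x | (nrm v : ℝ) ^ (a + ε) ≤ |tm x v - hm v|} ≤ C * (nrm v : ℝ) ^ (-q) := by
  intro ε hε q hq
  obtain ⟨k, hk⟩ := exists_nat_ge (2 * q / ε)
  rw [div_le_iff₀ hε] at hk
  obtain ⟨C, hC⟩ := h k (ε / 2) (by linarith)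
  set e : ℝ := (k : ℝ) * (a + ε / 2) with he
  have he0 : 0 ≤ e := by positivity
  refine ⟨|C| * 2 ^ e, fun v hv => ?_⟩
  obtain ⟨hi, hle⟩ := hC v
  have hv1 : 1 ≤ nrm v := by
    rw [Nat.one_le_iff_ne_zero]
    intro h0
    exact hv (nrm_eq_zero.1 h0)
  set n : ℝ := (nrm v : ℝ) with hn
  have hn1 : (1 : ℝ) ≤ n := by rw [hn]; exact_mod_cast hv1
  have hn0 : 0 < n := by linarith
  set s : ℝ := n ^ (a + ε) with hs
  have hs0 : 0 < s := by positivity
  have h1 := mul_meas_ge_le_integral_of_nonneg (μ := PP)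
    (f := fun x : W => |tm x v - hm v| ^ k)
    (by filter_upwards with x; exact pow_nonneg (abs_nonneg _) _) hi (s ^ k)
  have h2 : PP.real {x | s ≤ |tm x v - hm v|} ≤ PP.real {x | s ^ k ≤ |tm x v - hm v| ^ k} := by
    apply measureReal_mono _ (measure_ne_top _ _)
    intro x hx
    exact pow_le_pow_left₀ hs0.le hx k
  have h3 : (1 + n) ^ e ≤ 2 ^ e * n ^ e := by
    rw [← Real.mul_rpow (by norm_num) hn0.le]
    exact Real.rpow_le_rpow (by linarith) (by linarith) he0
  have h4 : s ^ k * PP.real {x | s ≤ |tm x v - hm v|} ≤ |C| * (2 ^ e * n ^ e) := by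
    have h5 := mul_le_mul_of_nonneg_left h2 (show 0 ≤ s ^ k by positivity)
    have h6 : C * (1 + n) ^ e ≤ |C| * (1 + n) ^ e :=
      mul_le_mul_of_nonneg_right (le_abs_self C) (by positivity)
    have h7 := mul_le_mul_of_nonneg_left h3 (abs_nonneg C)
    linarith
  have h5 : s ^ k = n ^ e * n ^ ((k : ℝ) * (ε / 2)) := by
    rw [hs, ← Real.rpow_natCast, ← Real.rpow_mul hn0.le, ← Real.rpow_add hn0]
    congr 1
    rw [he]
    ring
  have h6 : n ^ ((k : ℝ) * (ε / 2)) * PP.real {x | s ≤ |tm x v - hm v|} ≤ |C| * 2 ^ e := by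
    have hpos : 0 < n ^ e := by positivity
    rw [h5] at h4
    have h7 : n ^ e * (n ^ ((k : ℝ) * (ε / 2)) * PP.real {x | s ≤ |tm x v - hm v|}) ≤
        n ^ e * (|C| * 2 ^ e) := by linarith
    exact le_of_mul_le_mul_left h7 hpos
  have h7 : n ^ q ≤ n ^ ((k : ℝ) * (ε / 2)) :=
    Real.rpow_le_rpow_of_exponent_le hn1 (by linarith)
  have h8 : n ^ q * PP.real {x | s ≤ |tm x v - hm v|} ≤ |C| * 2 ^ e :=
    (mul_le_mul_of_nonneg_right h7 measureReal_nonneg).trans h6
  rw [Real.rpow_neg hn0.le, ← div_eq_mul_inv, le_div_iff₀ (by positivity), mul_comm]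
  exact h8

end Pool.Agent.K4H17.FPP
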