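import Pool.Agent.K4H17.FPP.UpStep

/-!
First-passage percolation on `ℤ²`: iteration of the upper step.
-/

set_option autoImplicit false
open MeasureTheory ProbabilityTheory Filter
open scoped Pointwise

namespace Pool.Agent.K4H17.FPP

theorem inf_iter {P : ℝ → Prop} (a b0 : ℝ) (hb0 : a < b0) (h0 : P b0)
    (mono : ∀ β β', a < β → β ≤ β' → P β → P β')
    (step : ∀ b > a, (∀ β > b, P β) → ∃ β' < b, a < β' ∧ P β') : ∀ β > a, P β := by
  by_contra hcon
  push Not at hcon
  obtain ⟨β0, hβ0, hP⟩ := hcon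
  set S : Set ℝ := {β | a < β ∧ P β} with hS
  have hne : S.Nonempty := ⟨b0, hb0, h0⟩
  have hbd : BddBelow S := ⟨a, fun β hβ => hβ.1.le⟩
  have hall : ∀ β > sInf S, P β := by
    intro β hβ
    obtain ⟨β', hβ', hlt⟩ := exists_lt_of_csInf_lt hne hβ
    exact mono β' β hβ'.1 hlt.le hβ'.2
  have hge : β0 ≤ sInf S := by
    by_contra hlt
    push Not at hlt
    exact hP (hall β0 hlt)
  obtain ⟨β', hlt, ha', hP'⟩ := step (sInf S) (lt_of_lt_of_le hβ0 hge) hall
  have : sInf S ≤ β' := csInf_le hbd ⟨ha', hP'⟩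
  linarith

theorem SUp.mono {μ : ℝ × ℝ → ℝ} {β β' : ℝ} (h : SUp μ β) (hb : β ≤ β') : SUp μ β' := by
  obtain ⟨c, hc, N0, hN0⟩ := h
  refine ⟨c, hc, max N0 1, fun v hv => ?_⟩
  have h1 : 1 ≤ nrm v := le_trans (le_max_right _ _) hv
  have h1' : (1 : ℝ) ≤ nrm v := by exact_mod_cast h1
  refine le_trans (measureReal_mono ?_ (measure_ne_top _ _))
    (hN0 v (le_trans (le_max_left _ _) hv))
  intro x hx hx2
  apply hx
  exact hx2.mono le_rfl (by
    have := Real.rpow_le_rpow_of_exponent_le h1' hb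
    linarith)

theorem up_base {μ : ℝ × ℝ → ℝ} {Cμ : ℝ} (hμ : MuOK μ Cμ) : SUp μ 2 := by
  have e1 := exp_absorb (c := 1 / 2) (c' := 1 / 4) (by norm_num) (by norm_num) 2 1 36 one_pos
  have e2 := ge_const (show (0 : ℝ) < 1 / 2 by norm_num) 2
  obtain ⟨N1, hN1⟩ := eventually_atTop.1 (e1.and e2)
  refine ⟨1 / 4, by norm_num, max N1 1, fun v hv => ?_⟩
  obtain ⟨f1, f2⟩ := hN1 (nrm v) (le_trans (le_max_left _ _) hv)
  have hn1 : 1 ≤ nrm v := le_trans (le_max_right _ _) hv
  set n := nrm v with hn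
  have hn1' : (1 : ℝ) ≤ n := by exact_mod_cast hn1
  have hn0 : (0 : ℝ) < n := by linarith
  have hE := edges_gt 0 n (y := (n : ℝ) ^ (1 / 2 : ℝ)) (by positivity)
  refine le_trans (measureReal_mono ?_ (measure_ne_top _ _)) (hE.trans ?_)
  · intro x hx
    by_contra hcon
    apply hx
    have h0 : nrm (v - 0) = n := by rw [sub_zero]
    have := fast_stair (x := x) (u := 0) (v := v) (y := (n : ℝ) ^ (1 / 2 : ℝ))
      (c := at' μ v + (n : ℝ) ^ (2 : ℝ))
      (by
        intro a b ha _ hab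
        rw [h0] at ha
        by_contra hlt
        push Not at hlt
        exact hcon ⟨a, b, ha, hab, hlt⟩) (by
        rw [h0]
        have h1 := mu_nonneg hμ v
        have h2 : (n : ℝ) = (n : ℝ) ^ (1 / 2 : ℝ) * (n : ℝ) ^ (1 / 2 : ℝ) := by
          rw [← Real.rpow_add hn0]
          norm_num
        have h3 : (n : ℝ) ^ (2 : ℝ) = n * n := by rw [Real.rpow_two, pow_two]
        have h4 : (n : ℝ) ^ (1 / 2 : ℝ) < n := by nlinarith
        rw [h3]
        nlinarith)
    exact this.mono (Set.subset_univ _) le_rfl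
  · have h2 : 4 * (2 * (n : ℝ) + 1) ^ 2 ≤ 36 * (n : ℝ) ^ (2 : ℝ) := by
      rw [Real.rpow_two]
      nlinarith
    have h3 := mul_le_mul_of_nonneg_right h2 (Real.exp_pos (-(n : ℝ) ^ (1 / 2 : ℝ))).le
    rw [one_mul] at f1
    linarith

/-- from polynomial bounds at all scales `β > a` to stretched exponential bounds -/
theorem up_all {μ : ℝ × ℝ → ℝ} {Cμ : ℝ} (hμ : MuOK μ Cμ) (hsaw : SawBound) {a : ℝ}
    (ha : 0 < a) (ha1 : a < 1) (H : ∀ β, a < β → β < 1 → ∃ q > 0, HUp μ β q) :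
    ∀ β > a, SUp μ β := by
  apply inf_iter a 2 (by linarith) (up_base hμ) (fun β β' _ hb h => h.mono hb)
  intro b hb hall
  have hb0 : 0 < b := by linarith
  set a' : ℝ := (a + min b 1) / 2 with ha'
  have hm1 : a < min b 1 := lt_min hb ha1
  have h1 : a < a' := by rw [ha']; linarith
  have h2 : a' < 1 := by rw [ha']; linarith [min_le_right b 1]
  have h3 : a' < b := by rw [ha']; linarith [min_le_left b 1]
  obtain ⟨q, hq, hH⟩ := H a' h1 h2
  set d := b - a' with hd
  have hd0 : 0 < d := by rw [hd]; linarith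
  set η : ℝ := min (min (1 / 2) (q / 4)) (d / 4) with hη
  have hη0 : 0 < η := by
    rw [hη]
    exact lt_min (lt_min (by norm_num) (by linarith)) (by linarith)
  have hη1 : η ≤ 1 / 2 := (min_le_left _ _).trans (min_le_left _ _)
  have hη2 : η ≤ q / 4 := (min_le_left _ _).trans (min_le_right _ _)
  have hη3 : η ≤ d / 4 := min_le_right _ _
  have hηb : 0 < η * b := mul_pos hη0 hb0
  set c' : ℝ := min a' (η * b / 4) with hc'
  have ha'0 : 0 < a' := by linarith
  have hc'0 : 0 < c' := lt_min ha'0 (by linarith)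
  have hc'1 : c' ≤ a' := min_le_left _ _
  have hc'2 : c' ≤ η * b / 4 := min_le_right _ _
  set β' : ℝ := max (b - η * b / 4) (a' + d / 2) with hβ'
  have hβ'1 : b - η * b / 4 ≤ β' := le_max_left _ _
  have hβ'2 : a' + d / 2 ≤ β' := le_max_right _ _
  refine ⟨β', ?_, by linarith, ?_⟩
  · rw [hβ']
    apply max_lt
    · linarith
    · rw [hd]
      linarith
  · apply up_step hμ hsaw ha'0 h2 hq hH (β := b + η * b / 4) (by linarith)
      (hall _ (by linarith)) hη0 (by linarith) hc'0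
    · have : (1 - η) * a' ≤ a' := by nlinarith
      linarith
    · have : (1 - η) * (b + η * b / 4) ≤ b - η * b + η * b / 4 := by nlinarith
      linarith
    · linarith
    · nlinarith

end Pool.Agent.K4H17.FPP
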