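import Pool.Agent.K4H17.FPP.LoCore
import Pool.Agent.K4H17.FPP.UpAll

/-!
First-passage percolation on `ℤ²`: the lower-tail multiscale step, asymptotic form, and its
iteration.
-/

set_option autoImplicit false
open MeasureTheory ProbabilityTheory Filter
open scoped Pointwise

namespace Pool.Agent.K4H17.FPP

/-- the total error of the lower step is at most `N ^ β'` -/
theorem lo_error {Cμ a' β β' η c' : ℝ} (hC : 0 ≤ Cμ) (ha : 0 < a') (hβ : 0 < β)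
    (hη1 : η < 1) (hc' : 0 < c')
    (h1 : η + (1 - η) * a' < β') (h2 : (1 - η) * β + 2 * c' < β') :
    ∀ᶠ n : ℕ in atTop, ∀ mv l J : ℝ, 0 ≤ mv → mv ≤ Cμ * n → (n : ℝ) ^ (1 - η) / 2 ≤ l →
      l ≤ (n : ℝ) ^ (1 - η) → 0 ≤ J → J ≤ 2 * (n : ℝ) ^ c' →
      2048 * (mv / l) * l ^ a' + 49 * J * (8192 * (n : ℝ) ^ c' + 1) * l ^ β + l ^ β ≤
        (n : ℝ) ^ β' := by
  have e1 := pow_lt h1 (2 * (2048 * (Cμ * 2)))
  have e2 := pow_lt h2 (2 * (49 * 2 * 8193 + 1))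
  have e3 := ge_const hc' 1
  filter_upwards [e1, e2, e3, eventually_gt_atTop 0] with n f1 f2 f3 hn
  intro mv l J hmv0 hmv hl1 hl2 hJ0 hJ
  have hn0 : (0 : ℝ) < n := by exact_mod_cast hn
  have hp : 0 < (n : ℝ) ^ (1 - η) := by positivity
  have hl0 : 0 < l := by linarith
  have pl : ∀ s : ℝ, 0 < s → l ^ s ≤ (n : ℝ) ^ ((1 - η) * s) := by
    intro s hs
    calc l ^ s ≤ ((n : ℝ) ^ (1 - η)) ^ s := Real.rpow_le_rpow hl0.le hl2 hs.le
      _ = (n : ℝ) ^ ((1 - η) * s) := by rw [← Real.rpow_mul hn0.le]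
  have hdiv : mv / l ≤ Cμ * 2 * (n : ℝ) ^ η := by
    rw [div_le_iff₀ hl0]
    have hmul : (n : ℝ) ^ η * (n : ℝ) ^ (1 - η) = n := by
      rw [← Real.rpow_add hn0]
      simp
    calc mv ≤ Cμ * n := hmv
      _ = Cμ * 2 * (n : ℝ) ^ η * ((n : ℝ) ^ (1 - η) / 2) := by
          have hsimp : Cμ * 2 * (n : ℝ) ^ η * ((n : ℝ) ^ (1 - η) / 2) =
              Cμ * ((n : ℝ) ^ η * (n : ℝ) ^ (1 - η)) := by ring
          rw [hsimp, hmul]
      _ ≤ Cμ * 2 * (n : ℝ) ^ η * l := mul_le_mul_of_nonneg_left hl1 (by positivity)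
  have p1 : 2048 * (mv / l) * l ^ a' ≤ 2048 * (Cμ * 2) * (n : ℝ) ^ (η + (1 - η) * a') := by
    calc 2048 * (mv / l) * l ^ a'
        ≤ 2048 * (Cμ * 2 * (n : ℝ) ^ η) * (n : ℝ) ^ ((1 - η) * a') :=
          mul_le_mul (mul_le_mul_of_nonneg_left hdiv (by norm_num)) (pl a' ha) (by positivity)
            (by positivity)
      _ = 2048 * (Cμ * 2) * (n : ℝ) ^ (η + (1 - η) * a') := by rw [Real.rpow_add hn0]; ring
  have hc1 : 8192 * (n : ℝ) ^ c' + 1 ≤ 8193 * (n : ℝ) ^ c' := by linarith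
  have p2 : 49 * J * (8192 * (n : ℝ) ^ c' + 1) * l ^ β + l ^ β ≤
      (49 * 2 * 8193 + 1) * (n : ℝ) ^ ((1 - η) * β + 2 * c') := by
    have hsq : (n : ℝ) ^ ((1 - η) * β + 2 * c') =
        (n : ℝ) ^ c' * (n : ℝ) ^ c' * (n : ℝ) ^ ((1 - η) * β) := by
      rw [← Real.rpow_add hn0, ← Real.rpow_add hn0]
      congr 1
      ring
    have k1 : 49 * J * (8192 * (n : ℝ) ^ c' + 1) ≤
        49 * (2 * (n : ℝ) ^ c') * (8193 * (n : ℝ) ^ c') :=
      mul_le_mul (mul_le_mul_of_nonneg_left hJ (by norm_num)) hc1 (by positivity) (by positivity)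
    have k2 : 1 ≤ (n : ℝ) ^ c' * (n : ℝ) ^ c' := by nlinarith
    have k3 := pl β hβ
    have k4 : 0 ≤ l ^ β := by positivity
    calc 49 * J * (8192 * (n : ℝ) ^ c' + 1) * l ^ β + l ^ β
        = (49 * J * (8192 * (n : ℝ) ^ c' + 1) + 1) * l ^ β := by ring
      _ ≤ (49 * (2 * (n : ℝ) ^ c') * (8193 * (n : ℝ) ^ c') + (n : ℝ) ^ c' * (n : ℝ) ^ c') *
          (n : ℝ) ^ ((1 - η) * β) := by
          apply mul_le_mul (by linarith) k3 k4 (by positivity)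
      _ = (49 * 2 * 8193 + 1) * (n : ℝ) ^ ((1 - η) * β + 2 * c') := by rw [hsq]; ring
  linarith

theorem quarter_pow_le (k : ℕ) : (1 / 4 : ℝ) ^ k ≤ Real.exp (-(k : ℝ)) := by
  have k2 : (1 / 4 : ℝ) ≤ Real.exp (-1) := by
    rw [Real.exp_neg]
    have := Real.exp_one_lt_d9
    rw [le_inv_comm₀ (by norm_num) (Real.exp_pos _)]
    linarith
  calc (1 / 4 : ℝ) ^ k ≤ (Real.exp (-1)) ^ k := pow_le_pow_left₀ (by norm_num) k2 k
    _ = Real.exp (-(k : ℝ)) := by rw [← Real.exp_nat_mul]; congr 1; ring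

/-- the probability of many abnormal cells -/
theorem lo_prob1 {C κ η c' : ℝ} (hC : 0 ≤ C) (K : ℕ) (hK : 1 ≤ K) (hκ : 0 < κ)
    (hη : 0 < η) (h4 : 2 * η < (1 - η) * κ) :
    ∀ᶠ n : ℕ in atTop, ∀ (l J : ℕ), 1 ≤ l → (n : ℝ) ^ (1 - η) / 2 ≤ l →
      (n : ℝ) ^ c' ≤ J →
      49 * ((2 * ((K * n / l + 2 : ℕ) : ℝ) + 1) ^ 2 *
        ((4 * (l : ℝ) + 1) ^ 2 * (C * (l : ℝ) ^ (-(2 + κ))))) ^ J ≤
        49 * Real.exp (-(n : ℝ) ^ c') := by
  have e1 := pow_lt (show 2 * η - (1 - η) * κ < 0 by linarith)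
    (Real.exp 1 * (81 * K ^ 2 * 25 * C * 2 ^ κ))
  have e2 := ge_const hη 1
  filter_upwards [e1, e2, eventually_gt_atTop 0] with n f1 f2 hn
  intro l J hl hl1 hJ
  have hn0 : (0 : ℝ) < n := by exact_mod_cast hn
  have hl0 : (0 : ℝ) < l := by exact_mod_cast hl
  have hlr : (1 : ℝ) ≤ l := by exact_mod_cast hl
  have hK' : (1 : ℝ) ≤ K := by exact_mod_cast hK
  have hmul : (n : ℝ) ^ η * (n : ℝ) ^ (1 - η) = n := by
    rw [← Real.rpow_add hn0]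
    simp
  have hdiv : ((K * n / l : ℕ) : ℝ) ≤ 2 * K * (n : ℝ) ^ η := by
    refine Nat.cast_div_le.trans ?_
    rw [div_le_iff₀ hl0]
    push_cast
    calc (K : ℝ) * n = 2 * K * (n : ℝ) ^ η * ((n : ℝ) ^ (1 - η) / 2) := by
          have hsimp : 2 * K * (n : ℝ) ^ η * ((n : ℝ) ^ (1 - η) / 2) =
              K * ((n : ℝ) ^ η * (n : ℝ) ^ (1 - η)) := by ring
          rw [hsimp, hmul]
      _ ≤ 2 * K * (n : ℝ) ^ η * l := mul_le_mul_of_nonneg_left hl1 (by positivity)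
  have g1 : 2 * ((K * n / l + 2 : ℕ) : ℝ) + 1 ≤ 9 * K * (n : ℝ) ^ η := by
    push_cast
    have h0 : (1 : ℝ) ≤ K * (n : ℝ) ^ η := by nlinarith
    nlinarith
  have g2 : (2 * ((K * n / l + 2 : ℕ) : ℝ) + 1) ^ 2 ≤ 81 * K ^ 2 * (n : ℝ) ^ (2 * η) := by
    calc (2 * ((K * n / l + 2 : ℕ) : ℝ) + 1) ^ 2 ≤ (9 * K * (n : ℝ) ^ η) ^ 2 :=
          pow_le_pow_left₀ (by positivity) g1 2
      _ = 81 * K ^ 2 * (n : ℝ) ^ (2 * η) := by
          rw [two_mul, Real.rpow_add hn0]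
          ring
  have g3 : (4 * (l : ℝ) + 1) ^ 2 * (C * (l : ℝ) ^ (-(2 + κ))) ≤
      25 * C * (2 ^ κ * (n : ℝ) ^ (-((1 - η) * κ))) := by
    have h1 : (4 * (l : ℝ) + 1) ^ 2 ≤ 25 * (l : ℝ) ^ (2 : ℝ) := by
      rw [Real.rpow_two]
      nlinarith
    have h2 : (l : ℝ) ^ (2 : ℝ) * (l : ℝ) ^ (-(2 + κ)) = (l : ℝ) ^ (-κ) := by
      rw [← Real.rpow_add hl0]
      congr 1
      ring
    have h3 : (l : ℝ) ^ (-κ) ≤ 2 ^ κ * (n : ℝ) ^ (-((1 - η) * κ)) := by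
      calc (l : ℝ) ^ (-κ) ≤ ((n : ℝ) ^ (1 - η) / 2) ^ (-κ) :=
            Real.rpow_le_rpow_of_nonpos (by positivity) hl1 (by linarith)
        _ = 2 ^ κ * (n : ℝ) ^ (-((1 - η) * κ)) := by
            rw [Real.div_rpow (by positivity) (by norm_num), ← Real.rpow_mul hn0.le,
              Real.rpow_neg (by norm_num : (0 : ℝ) ≤ 2), div_inv_eq_mul, mul_comm]
            congr 2
            ring
    calc (4 * (l : ℝ) + 1) ^ 2 * (C * (l : ℝ) ^ (-(2 + κ)))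
        ≤ 25 * (l : ℝ) ^ (2 : ℝ) * (C * (l : ℝ) ^ (-(2 + κ))) :=
          mul_le_mul_of_nonneg_right h1 (by positivity)
      _ = 25 * C * ((l : ℝ) ^ (2 : ℝ) * (l : ℝ) ^ (-(2 + κ))) := by ring
      _ = 25 * C * (l : ℝ) ^ (-κ) := by rw [h2]
      _ ≤ 25 * C * (2 ^ κ * (n : ℝ) ^ (-((1 - η) * κ))) :=
          mul_le_mul_of_nonneg_left h3 (by positivity)
  have hbase : (2 * ((K * n / l + 2 : ℕ) : ℝ) + 1) ^ 2 *
      ((4 * (l : ℝ) + 1) ^ 2 * (C * (l : ℝ) ^ (-(2 + κ)))) ≤ Real.exp (-1) := by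
    calc (2 * ((K * n / l + 2 : ℕ) : ℝ) + 1) ^ 2 *
        ((4 * (l : ℝ) + 1) ^ 2 * (C * (l : ℝ) ^ (-(2 + κ))))
        ≤ 81 * K ^ 2 * (n : ℝ) ^ (2 * η) *
          (25 * C * (2 ^ κ * (n : ℝ) ^ (-((1 - η) * κ)))) :=
          mul_le_mul g2 g3 (by positivity) (by positivity)
      _ = 81 * K ^ 2 * 25 * C * 2 ^ κ * (n : ℝ) ^ (2 * η - (1 - η) * κ) := by
          rw [show 2 * η - (1 - η) * κ = 2 * η + -((1 - η) * κ) by ring, Real.rpow_add hn0]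
          ring
      _ ≤ Real.exp (-1) := by
          rw [Real.rpow_zero] at f1
          have hpos := Real.exp_pos 1
          rw [Real.exp_neg 1, inv_eq_one_div, le_div_iff₀ hpos]
          nlinarith
  have hpow : ((2 * ((K * n / l + 2 : ℕ) : ℝ) + 1) ^ 2 *
      ((4 * (l : ℝ) + 1) ^ 2 * (C * (l : ℝ) ^ (-(2 + κ))))) ^ J ≤ Real.exp (-(n : ℝ) ^ c') := by
    calc _ ≤ (Real.exp (-1)) ^ J := pow_le_pow_left₀ (by positivity) hbase J
      _ = Real.exp (-(J : ℝ)) := by rw [← Real.exp_nat_mul]; congr 1; ring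
      _ ≤ Real.exp (-(n : ℝ) ^ c') := Real.exp_le_exp.2 (by linarith)
  linarith

/-- the failure probability of the lower step -/
theorem lo_prob {C κ c η c' c'' : ℝ} (hC : 0 ≤ C) (K : ℕ) (hK : 1 ≤ K) (hκ : 0 < κ)
    (hc : 0 < c) (hη : 0 < η) (hη1 : η < 1) (hc'' : 0 < c'')
    (h4 : 2 * η < (1 - η) * κ) (h5 : c'' < c') (h6 : c'' < (1 - η) * c) (h7 : c'' < 1 - η) :
    ∀ᶠ n : ℕ in atTop, ∀ (l J : ℕ), 1 ≤ l → (n : ℝ) ^ (1 - η) / 2 ≤ l →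
      (l : ℝ) ≤ (n : ℝ) ^ (1 - η) → (n : ℝ) ^ c' ≤ J →
      (1 / 4 : ℝ) ^ (K * n) + 49 * ((2 * ((K * n / l + 2 : ℕ) : ℝ) + 1) ^ 2 *
        ((4 * (l : ℝ) + 1) ^ 2 * (C * (l : ℝ) ^ (-(2 + κ))))) ^ J +
        (2 * ((K * n : ℕ) : ℝ) + 1) ^ 2 * (1 / 4 : ℝ) ^ l +
        (2 * ((K * n : ℕ) : ℝ) + 1) ^ 2 * ((2 * (l : ℝ) + 1) ^ 2 * Real.exp (-(l : ℝ) ^ c)) +
        4 * (2 * ((K * n + 2 * l : ℕ) : ℝ) + 1) ^ 2 * Real.exp (-(n : ℝ) ^ c') ≤
          Real.exp (-(n : ℝ) ^ c'') := by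
  have e0 := exp_absorb hc'' (show c'' < 1 by linarith) 0 1 5 one_pos
  have e1 := lo_prob1 (C := C) (c' := c') hC K hK hκ hη h4
  have e1' := exp_absorb hc'' h5 0 1 (5 * 49) one_pos
  have e2 := exp_absorb hc'' h7 2 (1 / 2) (5 * (9 * K ^ 2)) (by norm_num)
  have e3 := exp_absorb hc'' h6 4 ((1 / 2) ^ c) (5 * (81 * K ^ 2)) (by positivity)
  have e4 := exp_absorb hc'' h5 2 1 (5 * (4 * (2 * K + 5) ^ 2)) one_pos
  filter_upwards [e0, e1, e1', e2, e3, e4, eventually_gt_atTop 0]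
    with n f0 f1 f1' f2 f3 f4 hn
  intro l J hl hl1 hl2 hJ
  have hn0 : (0 : ℝ) < n := by exact_mod_cast hn
  have hn1 : (1 : ℝ) ≤ n := by exact_mod_cast hn
  have hl0 : (0 : ℝ) < l := by exact_mod_cast hl
  have hK' : (1 : ℝ) ≤ K := by exact_mod_cast hK
  have hln : (l : ℝ) ≤ n := by
    calc (l : ℝ) ≤ (n : ℝ) ^ (1 - η) := hl2
      _ ≤ (n : ℝ) ^ (1 : ℝ) := Real.rpow_le_rpow_of_exponent_le hn1 (by linarith)
      _ = n := Real.rpow_one _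
  have hKn : (2 * ((K * n : ℕ) : ℝ) + 1) ^ 2 ≤ 9 * K ^ 2 * (n : ℝ) ^ (2 : ℝ) := by
    push_cast
    rw [Real.rpow_two]
    have : 2 * ((K : ℝ) * n) + 1 ≤ 3 * K * n := by nlinarith
    calc (2 * ((K : ℝ) * n) + 1) ^ 2 ≤ (3 * K * n) ^ 2 := pow_le_pow_left₀ (by positivity) this 2
      _ = 9 * K ^ 2 * (n : ℝ) ^ 2 := by ring
  have t0 : (1 / 4 : ℝ) ^ (K * n) ≤ Real.exp (-(n : ℝ) ^ c'') / 5 := by
    have k1 := quarter_pow_le (K * n)
    have k2 : Real.exp (-((K * n : ℕ) : ℝ)) ≤ Real.exp (-(1 * (n : ℝ) ^ (1 : ℝ))) := by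
      apply Real.exp_le_exp.2
      push_cast
      rw [Real.rpow_one]
      nlinarith
    rw [Real.rpow_zero, mul_one] at f0
    linarith
  have t1 : 49 * ((2 * ((K * n / l + 2 : ℕ) : ℝ) + 1) ^ 2 *
        ((4 * (l : ℝ) + 1) ^ 2 * (C * (l : ℝ) ^ (-(2 + κ))))) ^ J ≤
      Real.exp (-(n : ℝ) ^ c'') / 5 := by
    have k1 := f1 l J hl hl1 hJ
    rw [Real.rpow_zero, mul_one, one_mul] at f1'
    linarith
  have t2 : (2 * ((K * n : ℕ) : ℝ) + 1) ^ 2 * (1 / 4 : ℝ) ^ l ≤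
      Real.exp (-(n : ℝ) ^ c'') / 5 := by
    have k1 : (1 / 4 : ℝ) ^ l ≤ Real.exp (-(1 / 2 * (n : ℝ) ^ (1 - η))) :=
      (quarter_pow_le l).trans (Real.exp_le_exp.2 (by linarith))
    have k2 := mul_le_mul hKn k1 (by positivity) (by positivity)
    linarith
  have t3 : (2 * ((K * n : ℕ) : ℝ) + 1) ^ 2 * ((2 * (l : ℝ) + 1) ^ 2 *
      Real.exp (-(l : ℝ) ^ c)) ≤ Real.exp (-(n : ℝ) ^ c'') / 5 := by
    have k0 : ((n : ℝ) ^ (1 - η) * (1 / 2)) ^ c = (n : ℝ) ^ ((1 - η) * c) * (1 / 2) ^ c := by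
      rw [Real.mul_rpow (by positivity) (by norm_num), ← Real.rpow_mul hn0.le]
    have k1 : (1 / 2) ^ c * (n : ℝ) ^ ((1 - η) * c) ≤ (l : ℝ) ^ c := by
      calc (1 / 2) ^ c * (n : ℝ) ^ ((1 - η) * c) = ((n : ℝ) ^ (1 - η) / 2) ^ c := by
            rw [div_eq_mul_one_div ((n : ℝ) ^ (1 - η)) 2, k0, mul_comm]
        _ ≤ (l : ℝ) ^ c := Real.rpow_le_rpow (by positivity) hl1 hc.le
    have k2 : (2 * (l : ℝ) + 1) ^ 2 ≤ 9 * (n : ℝ) ^ (2 : ℝ) := by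
      rw [Real.rpow_two]
      nlinarith
    have k3 : (2 * (l : ℝ) + 1) ^ 2 * Real.exp (-(l : ℝ) ^ c) ≤
        9 * (n : ℝ) ^ (2 : ℝ) * Real.exp (-((1 / 2) ^ c * (n : ℝ) ^ ((1 - η) * c))) :=
      mul_le_mul k2 (Real.exp_le_exp.2 (by linarith)) (Real.exp_pos _).le (by positivity)
    have k4 := mul_le_mul hKn k3 (by positivity) (by positivity)
    have k5 : (n : ℝ) ^ (4 : ℝ) = (n : ℝ) ^ (2 : ℝ) * (n : ℝ) ^ (2 : ℝ) := by
      rw [← Real.rpow_add hn0]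
      norm_num
    rw [k5] at f3
    linarith
  have t4 : 4 * (2 * ((K * n + 2 * l : ℕ) : ℝ) + 1) ^ 2 * Real.exp (-(n : ℝ) ^ c') ≤
      Real.exp (-(n : ℝ) ^ c'') / 5 := by
    have k1 : (2 * ((K * n + 2 * l : ℕ) : ℝ) + 1) ^ 2 ≤ (2 * K + 5) ^ 2 * (n : ℝ) ^ (2 : ℝ) := by
      push_cast
      rw [Real.rpow_two]
      have : 2 * ((K : ℝ) * n + 2 * l) + 1 ≤ (2 * K + 5) * n := by nlinarith
      calc (2 * ((K : ℝ) * n + 2 * l) + 1) ^ 2 ≤ ((2 * K + 5) * n) ^ 2 :=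
            pow_le_pow_left₀ (by positivity) this 2
        _ = (2 * K + 5) ^ 2 * (n : ℝ) ^ 2 := by ring
    have k2 := mul_le_mul_of_nonneg_right k1 (Real.exp_pos (-(n : ℝ) ^ c')).le
    rw [one_mul] at f4
    linarith
  linarith

/-- the lower step -/
theorem lo_step {μ : ℝ × ℝ → ℝ} {Cμ : ℝ} (hμ : MuOK μ Cμ) (hsaw : SawBound)
    {a' κ β β' η c' : ℝ} (ha : 0 < a') (hκ : 0 < κ) (H : HLo μ a' (2 + κ))
    (hβ : 0 < β) (hS : SLo μ β) (hη : 0 < η) (hη1 : η < 1) (hc' : 0 < c')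
    (h1 : η + (1 - η) * a' < β') (h2 : (1 - η) * β + 2 * c' < β')
    (h4 : 2 * η < (1 - η) * κ) : SLo μ β' := by
  obtain ⟨C, hC⟩ := H
  obtain ⟨c, hc, N0, hN0⟩ := hS
  have hη' : 0 < 1 - η := by linarith
  have hCμ := hμ.one_le
  set K : ℕ := ⌈2048 * Cμ⌉₊ with hK
  have hKge : 2048 * Cμ ≤ K := Nat.le_ceil _
  have hK1 : 1 ≤ K := by
    have : (1 : ℝ) ≤ K := by linarith
    exact_mod_cast this
  set c'' : ℝ := min c' (min ((1 - η) * c) (1 - η)) / 2 with hc''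
  have hmin : 0 < min c' (min ((1 - η) * c) (1 - η)) :=
    lt_min hc' (lt_min (mul_pos hη' hc) hη')
  have hc''0 : 0 < c'' := by rw [hc'']; linarith
  have h5 : c'' < c' := by
    rw [hc'']
    linarith [min_le_left c' (min ((1 - η) * c) (1 - η))]
  have h6 : c'' < (1 - η) * c := by
    rw [hc'']
    linarith [min_le_right c' (min ((1 - η) * c) (1 - η)), min_le_left ((1 - η) * c) (1 - η)]
  have h7 : c'' < 1 - η := by
    rw [hc'']
    linarith [min_le_right c' (min ((1 - η) * c) (1 - η)), min_le_right ((1 - η) * c) (1 - η)]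
  have E1 := floor_pow hη'
  have E3 := lo_error (Cμ := Cμ) (by linarith) ha hβ hη1 hc' h1 h2
  have E4 := lo_prob (C := |C|) (abs_nonneg C) K hK1 hκ hc hη hη1 hc''0 h4 h5 h6 h7
  have E5 := ge_const hη' (2 * (N0 + 1))
  have E6 := ge_const hc' 1
  obtain ⟨N1, hN1⟩ := eventually_atTop.1 (E1.and (E3.and (E4.and (E5.and E6))))
  refine ⟨c'', hc''0, N1, fun n hn v hv => ?_⟩
  obtain ⟨⟨f1, f2, f3⟩, f5, f6, f7, f8⟩ := hN1 n hn
  set l := ⌊(n : ℝ) ^ (1 - η)⌋₊ with hl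
  have hlN0 : N0 + 1 ≤ l := by
    have : ((N0 + 1 : ℕ) : ℝ) ≤ l := by push_cast; linarith
    exact_mod_cast this
  have hl1 : (1 : ℝ) ≤ l := by exact_mod_cast f1
  set J := ⌈(n : ℝ) ^ c'⌉₊ with hJ
  have hJ1 : (n : ℝ) ^ c' ≤ J := Nat.le_ceil _
  have hJ2 : (J : ℝ) ≤ 2 * (n : ℝ) ^ c' := by
    have := Nat.ceil_lt_add_one (show 0 ≤ (n : ℝ) ^ c' by positivity)
    linarith
  have hP1 : PP.real {x | ∃ v : V, nrm v = l ∧ Fast x Set.univ 0 v (at' μ v - (l : ℝ) ^ a')} ≤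
      |C| * (l : ℝ) ^ (-(2 + κ)) :=
    (hC l f1).trans (mul_le_mul_of_nonneg_right (le_abs_self C) (by positivity))
  have hP2 := hN0 l (by omega)
  have hmv : at' μ v ≤ Cμ * n := by
    have h := hμ.le v
    have h' : (nrm v : ℝ) ≤ n := by exact_mod_cast hv
    nlinarith
  have hR : at' μ v ≤ ((K * n : ℕ) : ℝ) / 2048 := by
    rw [le_div_iff₀ (by norm_num)]
    push_cast
    have hn0 : (0 : ℝ) ≤ n := Nat.cast_nonneg n
    nlinarith
  have core := lo_core hμ hsaw v (K * n) l f1 ((l : ℝ) ^ a') ((l : ℝ) ^ β) ((n : ℝ) ^ c')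
    _ _ (by positivity) (by positivity) f8 J hR hP1 (Real.exp_pos _).le hP2
  have herr := f5 (at' μ v) l J (mu_nonneg hμ v) hmv f3 f2 (by positivity) hJ2
  have hprob := f6 l J f1 f3 f2 hJ1
  refine le_trans (measureReal_mono ?_ (measure_ne_top _ _)) (core.trans hprob)
  intro x hx
  exact Fast.mono hx le_rfl (by linarith)

theorem SLo.mono {μ : ℝ × ℝ → ℝ} {β β' : ℝ} (h : SLo μ β) (hb : β ≤ β') : SLo μ β' := by
  obtain ⟨c, hc, N0, hN0⟩ := h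
  refine ⟨c, hc, max N0 1, fun n hn v hv => ?_⟩
  have h1 : 1 ≤ n := le_trans (le_max_right _ _) hn
  have h1' : (1 : ℝ) ≤ n := by exact_mod_cast h1
  refine le_trans (measureReal_mono ?_ (measure_ne_top _ _))
    (hN0 n (le_trans (le_max_left _ _) hn) v hv)
  intro x hx
  exact Fast.mono hx le_rfl (by
    have := Real.rpow_le_rpow_of_exponent_le h1' hb
    linarith)

theorem lo_base {μ : ℝ × ℝ → ℝ} {Cμ : ℝ} (hμ : MuOK μ Cμ) : SLo μ 2 := by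
  have e1 := pow_lt (show (1 : ℝ) < 2 by norm_num) Cμ
  obtain ⟨N1, hN1⟩ := eventually_atTop.1 e1
  refine ⟨1, one_pos, N1, fun n hn v hv => ?_⟩
  have f1 := hN1 n hn
  rw [Real.rpow_one] at f1
  have hmv : at' μ v ≤ Cμ * n := by
    have h := hμ.le v
    have h' : (nrm v : ℝ) ≤ n := by exact_mod_cast hv
    have := hμ.one_le
    nlinarith
  have hz : PP.real {x | Fast x Set.univ 0 v (at' μ v - (n : ℝ) ^ (2 : ℝ))} = 0 := by
    rw [measureReal_def, ENNReal.toReal_eq_zero_iff]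
    left
    apply measure_mono_null (t := {x : W | ¬ ∀ e, 0 ≤ x e})
    · rintro x ⟨k, p, hp, hlt⟩ hx
      have := cst_nonneg hx p k
      linarith
    · exact nonneg_ae
  rw [hz]
  exact (Real.exp_pos _).le

/-- from polynomial bounds at all scales `β > a` to stretched exponential bounds -/
theorem lo_all {μ : ℝ × ℝ → ℝ} {Cμ : ℝ} (hμ : MuOK μ Cμ) (hsaw : SawBound) {a : ℝ}
    (ha : 0 < a) (ha1 : a < 1) (H : ∀ β, a < β → β < 1 → ∃ κ > 0, HLo μ β (2 + κ)) :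
    ∀ β > a, SLo μ β := by
  apply inf_iter a 2 (by linarith) (lo_base hμ) (fun β β' _ hb h => h.mono hb)
  intro b hb hall
  have hb0 : 0 < b := by linarith
  set a' : ℝ := (a + min b 1) / 2 with ha'
  have hm1 : a < min b 1 := lt_min hb ha1
  have h1 : a < a' := by rw [ha']; linarith
  have h2 : a' < 1 := by rw [ha']; linarith [min_le_right b 1]
  have h3 : a' < b := by rw [ha']; linarith [min_le_left b 1]
  obtain ⟨κ, hκ, hH⟩ := H a' h1 h2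
  set d := b - a' with hd
  have hd0 : 0 < d := by rw [hd]; linarith
  set η : ℝ := min (min (1 / 2) (κ / 8)) (d / 4) with hη
  have hη0 : 0 < η := by
    rw [hη]
    exact lt_min (lt_min (by norm_num) (by linarith)) (by linarith)
  have hη1 : η ≤ 1 / 2 := (min_le_left _ _).trans (min_le_left _ _)
  have hη2 : η ≤ κ / 8 := (min_le_left _ _).trans (min_le_right _ _)
  have hη3 : η ≤ d / 4 := min_le_right _ _
  have hηb : 0 < η * b := mul_pos hη0 hb0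
  have ha'0 : 0 < a' := by linarith
  set β' : ℝ := max (b - η * b / 4) (a' + d / 2) with hβ'
  have hβ'1 : b - η * b / 4 ≤ β' := le_max_left _ _
  have hβ'2 : a' + d / 2 ≤ β' := le_max_right _ _
  refine ⟨β', ?_, by linarith, ?_⟩
  · rw [hβ']
    apply max_lt
    · linarith
    · rw [hd]
      linarith
  · apply lo_step hμ hsaw ha'0 hκ hH (β := b + η * b / 4) (c' := η * b / 8) (by linarith)
      (hall _ (by linarith)) hη0 (by linarith) (by linarith)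
    · have : (1 - η) * a' ≤ a' := by nlinarith
      linarith
    · have : (1 - η) * (b + η * b / 4) ≤ b - η * b + η * b / 4 := by nlinarith
      linarith
    · nlinarith

end Pool.Agent.K4H17.FPP
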