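import Pool.Agent.K4H17.FPP.LoF
import Pool.Agent.K4H17.FPP.LoStep

/-!
First-passage percolation on `ℤ²`: the lower-tail multiscale step around a general subadditive
function, asymptotic form, and its iteration.
-/

set_option autoImplicit false
open MeasureTheory ProbabilityTheory Filter
open scoped Pointwise

namespace Pool.Agent.K4H17.FPP

/-- the total error of the lower step is at most `N ^ β'` -/
theorem loF_error {Cμ a' β β' η c' : ℝ} (hC : 0 ≤ Cμ) (ha : 0 < a') (hβ : 0 < β)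
    (hc' : 0 < c')
    (h1 : η + (1 - η) * a' < β') (h2 : (1 - η) * β + 2 * c' < β') :
    ∀ᶠ n : ℕ in atTop, ∀ mv l J : ℝ, 0 ≤ mv → mv ≤ Cμ * n → (n : ℝ) ^ (1 - η) / 2 ≤ l →
      l ≤ (n : ℝ) ^ (1 - η) → 0 ≤ J → J ≤ 2 * (n : ℝ) ^ c' →
      2048 * (mv / l) * (2 * l ^ a') + 121 * J * (8192 * (n : ℝ) ^ c' + 1) * l ^ β + l ^ β ≤
        (n : ℝ) ^ β' := by
  have e1 := pow_lt h1 (2 * (2048 * (Cμ * 4)))
  have e2 := pow_lt h2 (2 * (121 * 2 * 8193 + 1))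
  have e3 := ge_const hc' 1
  filter_upwards [e1, e2, e3, eventually_gt_atTop 0] with n f1 f2 f3 hn
  intro mv l J hmv0 hmv hl1 hl2 hJ0 hJ
  have hn0 : (0 : ℝ) < n := by exact_mod_cast hn
  have hp : 0 < (n : ℝ) ^ (1 - η) := by positivity
  have hl0 : 0 < l := by linarith
  have pl : ∀ s : ℝ, 0 < s → l ^ s ≤ (n : ℝ) ^ ((1 - η) * s) := by
    intro s hs
    calc l ^ s ≤ ((n : ℝ) ^ (1 - η)) ^ s := Real.rpow_le_rpow hl0.le hl2 hs.le
      _ = (n : ℝ) ^ ((1 - η) * s) := by rw [← Real.rpow_mul hn0.le]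
  have hdiv : mv / l ≤ Cμ * 2 * (n : ℝ) ^ η := by
    rw [div_le_iff₀ hl0]
    have hmul : (n : ℝ) ^ η * (n : ℝ) ^ (1 - η) = n := by
      rw [← Real.rpow_add hn0]
      simp
    calc mv ≤ Cμ * n := hmv
      _ = Cμ * 2 * (n : ℝ) ^ η * ((n : ℝ) ^ (1 - η) / 2) := by
          have hsimp : Cμ * 2 * (n : ℝ) ^ η * ((n : ℝ) ^ (1 - η) / 2) =
              Cμ * ((n : ℝ) ^ η * (n : ℝ) ^ (1 - η)) := by ring
          rw [hsimp, hmul]
      _ ≤ Cμ * 2 * (n : ℝ) ^ η * l := mul_le_mul_of_nonneg_left hl1 (by positivity)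
  have p1 : 2048 * (mv / l) * (2 * l ^ a') ≤ 2048 * (Cμ * 4) * (n : ℝ) ^ (η + (1 - η) * a') := by
    calc 2048 * (mv / l) * (2 * l ^ a')
        ≤ 2048 * (Cμ * 2 * (n : ℝ) ^ η) * (2 * (n : ℝ) ^ ((1 - η) * a')) :=
          mul_le_mul (mul_le_mul_of_nonneg_left hdiv (by norm_num))
            (mul_le_mul_of_nonneg_left (pl a' ha) (by norm_num)) (by positivity) (by positivity)
      _ = 2048 * (Cμ * 4) * (n : ℝ) ^ (η + (1 - η) * a') := by rw [Real.rpow_add hn0]; ring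
  have hc1 : 8192 * (n : ℝ) ^ c' + 1 ≤ 8193 * (n : ℝ) ^ c' := by linarith
  have p2 : 121 * J * (8192 * (n : ℝ) ^ c' + 1) * l ^ β + l ^ β ≤
      (121 * 2 * 8193 + 1) * (n : ℝ) ^ ((1 - η) * β + 2 * c') := by
    have hsq : (n : ℝ) ^ ((1 - η) * β + 2 * c') =
        (n : ℝ) ^ c' * (n : ℝ) ^ c' * (n : ℝ) ^ ((1 - η) * β) := by
      rw [← Real.rpow_add hn0, ← Real.rpow_add hn0]
      congr 1
      ring
    have k1 : 121 * J * (8192 * (n : ℝ) ^ c' + 1) ≤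
        121 * (2 * (n : ℝ) ^ c') * (8193 * (n : ℝ) ^ c') :=
      mul_le_mul (mul_le_mul_of_nonneg_left hJ (by norm_num)) hc1 (by positivity) (by positivity)
    have k2 : 1 ≤ (n : ℝ) ^ c' * (n : ℝ) ^ c' := by nlinarith
    have k3 := pl β hβ
    have k4 : 0 ≤ l ^ β := by positivity
    calc 121 * J * (8192 * (n : ℝ) ^ c' + 1) * l ^ β + l ^ β
        = (121 * J * (8192 * (n : ℝ) ^ c' + 1) + 1) * l ^ β := by ring
      _ ≤ (121 * (2 * (n : ℝ) ^ c') * (8193 * (n : ℝ) ^ c') + (n : ℝ) ^ c' * (n : ℝ) ^ c') *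
          (n : ℝ) ^ ((1 - η) * β) := by
          apply mul_le_mul (by linarith) k3 k4 (by positivity)
      _ = (121 * 2 * 8193 + 1) * (n : ℝ) ^ ((1 - η) * β + 2 * c') := by rw [hsq]; ring
  linarith

/-- the coarse-graining length -/
theorem loF_rho {C a' η c' : ℝ} (hC : 0 ≤ C) (ha : 0 < a') (ha1 : a' < 1) (hη1 : η < 1)
    (hc' : 0 < c') (h5 : 2 * c' < (1 - η) * a') :
    ∀ᶠ n : ℕ in atTop, ∀ l ρ : ℕ, (n : ℝ) ^ (1 - η) / 2 ≤ l →
      (ρ : ℝ) ≤ (n : ℝ) ^ ((1 - η) * a' - 2 * c') →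
      8 * ρ ≤ l ∧ 4 * (C * ρ) ≤ (l : ℝ) ^ a' ∧ (l : ℝ) ^ a' + 4 * C * ρ + 4 * ρ * (n : ℝ) ^ c' + 2 ≤ 2 * (l : ℝ) ^ a' := by
  have hη' : 0 < 1 - η := by linarith
  have e1 := pow_lt (show (1 - η) * a' - 2 * c' < 1 - η by nlinarith) 16
  have e2 := pow_lt (show (1 - η) * a' - 2 * c' < (1 - η) * a' by linarith)
    (3 * (4 * C * 2 ^ a'))
  have e3 := pow_lt (show (1 - η) * a' - c' < (1 - η) * a' by linarith) (3 * (4 * 2 ^ a'))
  have e4 := ge_const (show 0 < (1 - η) * a' by positivity) (3 * (2 * 2 ^ a'))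
  filter_upwards [e1, e2, e3, e4, eventually_gt_atTop 0] with n f1 f2 f3 f4 hn
  intro l ρ hl hρ
  have hn0 : (0 : ℝ) < n := by exact_mod_cast hn
  refine ⟨?_, ?_⟩
  · have : (8 : ℝ) * ρ ≤ l := by linarith
    exact_mod_cast this
  · have hla : (n : ℝ) ^ ((1 - η) * a') ≤ 2 ^ a' * (l : ℝ) ^ a' := by
      calc (n : ℝ) ^ ((1 - η) * a') = ((n : ℝ) ^ (1 - η)) ^ a' := by rw [← Real.rpow_mul hn0.le]
        _ ≤ (2 * (l : ℝ)) ^ a' := Real.rpow_le_rpow (by positivity) (by linarith) ha.le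
        _ = 2 ^ a' * (l : ℝ) ^ a' := Real.mul_rpow (by norm_num) (by positivity)
    have h2pos : (0 : ℝ) < 2 ^ a' := by positivity
    have t1 : 4 * C * ρ ≤ (l : ℝ) ^ a' / 3 := by
      have k1 : 4 * C * ρ ≤ 4 * C * (n : ℝ) ^ ((1 - η) * a' - 2 * c') :=
        mul_le_mul_of_nonneg_left hρ (by positivity)
      have k2 : 2 ^ a' * (3 * (4 * C * ρ)) ≤ 2 ^ a' * (l : ℝ) ^ a' := by
        calc 2 ^ a' * (3 * (4 * C * ρ))
            ≤ 2 ^ a' * (3 * (4 * C * (n : ℝ) ^ ((1 - η) * a' - 2 * c'))) :=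
              mul_le_mul_of_nonneg_left (by linarith) h2pos.le
          _ = 3 * (4 * C * 2 ^ a') * (n : ℝ) ^ ((1 - η) * a' - 2 * c') := by ring
          _ ≤ (n : ℝ) ^ ((1 - η) * a') := f2
          _ ≤ 2 ^ a' * (l : ℝ) ^ a' := hla
      have k3 := le_of_mul_le_mul_left k2 h2pos
      linarith
    have t2 : 4 * ρ * (n : ℝ) ^ c' ≤ (l : ℝ) ^ a' / 3 := by
      have k0 : (n : ℝ) ^ ((1 - η) * a' - c') =
          (n : ℝ) ^ ((1 - η) * a' - 2 * c') * (n : ℝ) ^ c' := by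
        rw [← Real.rpow_add hn0]
        congr 1
        ring
      have k1 : 4 * ρ * (n : ℝ) ^ c' ≤ 4 * (n : ℝ) ^ ((1 - η) * a' - c') := by
        rw [k0]
        have := mul_le_mul_of_nonneg_right hρ (show 0 ≤ (n : ℝ) ^ c' by positivity)
        linarith
      have k2 : 2 ^ a' * (3 * (4 * ρ * (n : ℝ) ^ c')) ≤ 2 ^ a' * (l : ℝ) ^ a' := by
        calc 2 ^ a' * (3 * (4 * ρ * (n : ℝ) ^ c'))
            ≤ 2 ^ a' * (3 * (4 * (n : ℝ) ^ ((1 - η) * a' - c'))) :=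
              mul_le_mul_of_nonneg_left (by linarith) h2pos.le
          _ = 3 * (4 * 2 ^ a') * (n : ℝ) ^ ((1 - η) * a' - c') := by ring
          _ ≤ (n : ℝ) ^ ((1 - η) * a') := f3
          _ ≤ 2 ^ a' * (l : ℝ) ^ a' := hla
      have k3 := le_of_mul_le_mul_left k2 h2pos
      linarith
    have t3 : (2 : ℝ) ≤ (l : ℝ) ^ a' / 3 := by
      have k2 : 2 ^ a' * (3 * 2) ≤ 2 ^ a' * (l : ℝ) ^ a' := by linarith
      have k3 := le_of_mul_le_mul_left k2 h2pos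
      linarith
    have hlpos : 0 ≤ (l : ℝ) ^ a' := by positivity
    exact ⟨by linarith, by linarith⟩

/-- the probability of many abnormal cells -/
theorem loF_prob1 {C κ η c' a' : ℝ} (hC : 0 ≤ C) (K : ℕ) (hK : 1 ≤ K) (hκ : 0 < κ)
    (ha1 : a' < 1) (hη : 0 < η) (hη1 : η < 1) (hc' : 0 < c')
    (h4 : 2 * η + 4 * c' < (1 - η) * κ) :
    ∀ᶠ n : ℕ in atTop, ∀ (l ρ J : ℕ), 1 ≤ l → 1 ≤ ρ → (n : ℝ) ^ (1 - η) / 2 ≤ l →
      (l : ℝ) ≤ (n : ℝ) ^ (1 - η) → (n : ℝ) ^ ((1 - η) * a' - 2 * c') / 2 ≤ ρ →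
      (n : ℝ) ^ c' ≤ J →
      121 * ((2 * ((K * n / l + 2 : ℕ) : ℝ) + 1) ^ 2 *
        ((2 * ((2 * l / ρ + 2 : ℕ) : ℝ) + 1) ^ 2 *
          (C * (l : ℝ) ^ (-(2 * (1 - a') + κ))))) ^ J ≤
        121 * Real.exp (-(n : ℝ) ^ c') := by
  obtain ⟨q, hq⟩ : ∃ q : ℝ, q = 2 * (1 - a') + κ := ⟨_, rfl⟩
  rw [← hq]
  have hq0 : 0 < q := by rw [hq]; linarith
  have hη' : 0 < 1 - η := by linarith
  have e1 := pow_lt (show 2 * η + 4 * c' - (1 - η) * κ < 0 by linarith)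
    (Real.exp 1 * (81 * K ^ 2 * 169 * C * 2 ^ q))
  have e2 := ge_const hη 1
  obtain ⟨ξ, hξ⟩ : ∃ ξ : ℝ, ξ = (1 - η) * (1 - a') + 2 * c' := ⟨_, rfl⟩
  have hξ0 : 0 < ξ := by
    have := mul_pos hη' (show 0 < 1 - a' by linarith)
    rw [hξ]
    linarith
  have e3 := ge_const hξ0 1
  filter_upwards [e1, e2, e3, eventually_gt_atTop 0] with n f1 f2 f3 hn
  intro l ρ J hl hρ hl1 hl2 hρ1 hJ
  have hn0 : (0 : ℝ) < n := by exact_mod_cast hn
  have hl0 : (0 : ℝ) < l := by exact_mod_cast hl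
  have hρ0 : (0 : ℝ) < ρ := by exact_mod_cast hρ
  have hK' : (1 : ℝ) ≤ K := by exact_mod_cast hK
  have hmul : (n : ℝ) ^ η * (n : ℝ) ^ (1 - η) = n := by
    rw [← Real.rpow_add hn0]
    simp
  have hdiv : ((K * n / l : ℕ) : ℝ) ≤ 2 * K * (n : ℝ) ^ η := by
    refine Nat.cast_div_le.trans ?_
    rw [div_le_iff₀ hl0]
    push_cast
    calc (K : ℝ) * n = 2 * K * (n : ℝ) ^ η * ((n : ℝ) ^ (1 - η) / 2) := by
          have hsimp : 2 * K * (n : ℝ) ^ η * ((n : ℝ) ^ (1 - η) / 2) =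
              K * ((n : ℝ) ^ η * (n : ℝ) ^ (1 - η)) := by ring
          rw [hsimp, hmul]
      _ ≤ 2 * K * (n : ℝ) ^ η * l := mul_le_mul_of_nonneg_left hl1 (by positivity)
  have g1 : 2 * ((K * n / l + 2 : ℕ) : ℝ) + 1 ≤ 9 * K * (n : ℝ) ^ η := by
    push_cast
    have h0 : (1 : ℝ) ≤ K * (n : ℝ) ^ η := by nlinarith
    nlinarith
  have g2 : (2 * ((K * n / l + 2 : ℕ) : ℝ) + 1) ^ 2 ≤ 81 * K ^ 2 * (n : ℝ) ^ (2 * η) := by
    calc (2 * ((K * n / l + 2 : ℕ) : ℝ) + 1) ^ 2 ≤ (9 * K * (n : ℝ) ^ η) ^ 2 :=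
          pow_le_pow_left₀ (by positivity) g1 2
      _ = 81 * K ^ 2 * (n : ℝ) ^ (2 * η) := by
          rw [two_mul, Real.rpow_add hn0]
          ring
  -- the number of grid points in a cell
  have hdiv2 : ((2 * l / ρ : ℕ) : ℝ) ≤ 4 * (n : ℝ) ^ ξ := by
    refine Nat.cast_div_le.trans ?_
    rw [div_le_iff₀ hρ0]
    push_cast
    have k1 : (n : ℝ) ^ ξ * (n : ℝ) ^ ((1 - η) * a' - 2 * c') = (n : ℝ) ^ (1 - η) := by
      rw [← Real.rpow_add hn0]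
      congr 1
      rw [hξ]
      ring
    calc 2 * (l : ℝ) ≤ 2 * (n : ℝ) ^ (1 - η) := by linarith
      _ = 4 * (n : ℝ) ^ ξ * ((n : ℝ) ^ ((1 - η) * a' - 2 * c') / 2) := by
          rw [← k1]
          ring
      _ ≤ 4 * (n : ℝ) ^ ξ * ρ := mul_le_mul_of_nonneg_left hρ1 (by positivity)
  have g4 : (2 * ((2 * l / ρ + 2 : ℕ) : ℝ) + 1) ^ 2 ≤ 169 * (n : ℝ) ^ (2 * ξ) := by
    have k1 : 2 * ((2 * l / ρ + 2 : ℕ) : ℝ) + 1 ≤ 13 * (n : ℝ) ^ ξ := by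
      rw [Nat.cast_add]
      push_cast at hdiv2 ⊢
      linarith
    calc (2 * ((2 * l / ρ + 2 : ℕ) : ℝ) + 1) ^ 2 ≤ (13 * (n : ℝ) ^ ξ) ^ 2 :=
          pow_le_pow_left₀ (by positivity) k1 2
      _ = 169 * (n : ℝ) ^ (2 * ξ) := by
          rw [two_mul, Real.rpow_add hn0]
          ring
  have h3 : (l : ℝ) ^ (-q) ≤ 2 ^ q * (n : ℝ) ^ (-((1 - η) * q)) := by
    calc (l : ℝ) ^ (-q) ≤ ((n : ℝ) ^ (1 - η) / 2) ^ (-q) :=
          Real.rpow_le_rpow_of_nonpos (by positivity) hl1 (by linarith)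
      _ = 2 ^ q * (n : ℝ) ^ (-((1 - η) * q)) := by
          rw [Real.div_rpow (by positivity) (by norm_num), ← Real.rpow_mul hn0.le,
            Real.rpow_neg (by norm_num : (0 : ℝ) ≤ 2), div_inv_eq_mul, mul_comm]
          congr 2
          ring
  have hbase : (2 * ((K * n / l + 2 : ℕ) : ℝ) + 1) ^ 2 *
      ((2 * ((2 * l / ρ + 2 : ℕ) : ℝ) + 1) ^ 2 * (C * (l : ℝ) ^ (-q))) ≤ Real.exp (-1) := by
    calc (2 * ((K * n / l + 2 : ℕ) : ℝ) + 1) ^ 2 *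
        ((2 * ((2 * l / ρ + 2 : ℕ) : ℝ) + 1) ^ 2 * (C * (l : ℝ) ^ (-q)))
        ≤ 81 * K ^ 2 * (n : ℝ) ^ (2 * η) *
          (169 * (n : ℝ) ^ (2 * ξ) * (C * (2 ^ q * (n : ℝ) ^ (-((1 - η) * q))))) :=
          mul_le_mul g2 (mul_le_mul g4 (mul_le_mul_of_nonneg_left h3 hC) (by positivity)
            (by positivity)) (by positivity) (by positivity)
      _ = 81 * K ^ 2 * 169 * C * 2 ^ q * (n : ℝ) ^ (2 * η + 4 * c' - (1 - η) * κ) := by
          have k1 : 2 * η + 4 * c' - (1 - η) * κ = 2 * η + 2 * ξ + -((1 - η) * q) := by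
            rw [hξ, hq]
            ring
          rw [k1, Real.rpow_add hn0, Real.rpow_add hn0]
          ring
      _ ≤ Real.exp (-1) := by
          rw [Real.rpow_zero] at f1
          have hpos := Real.exp_pos 1
          rw [Real.exp_neg 1, inv_eq_one_div, le_div_iff₀ hpos]
          linarith
  have hpow : ((2 * ((K * n / l + 2 : ℕ) : ℝ) + 1) ^ 2 *
      ((2 * ((2 * l / ρ + 2 : ℕ) : ℝ) + 1) ^ 2 * (C * (l : ℝ) ^ (-q)))) ^ J ≤
      Real.exp (-(n : ℝ) ^ c') := by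
    calc _ ≤ (Real.exp (-1)) ^ J := pow_le_pow_left₀ (by positivity) hbase J
      _ = Real.exp (-(J : ℝ)) := by rw [← Real.exp_nat_mul]; congr 1; ring
      _ ≤ Real.exp (-(n : ℝ) ^ c') := Real.exp_le_exp.2 (by linarith)
  linarith

/-- the failure probability of the lower step -/
theorem loF_prob {C κ c η c' c'' a' : ℝ} (hC : 0 ≤ C) (K : ℕ) (hK : 1 ≤ K) (hκ : 0 < κ)
    (ha1 : a' < 1)
    (hc : 0 < c) (hη : 0 < η) (hη1 : η < 1) (hc' : 0 < c') (hc'' : 0 < c'')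
    (h4 : 2 * η + 4 * c' < (1 - η) * κ) (h5 : c'' < c') (h6 : c'' < (1 - η) * c)
    (h7 : c'' < 1 - η) :
    ∀ᶠ n : ℕ in atTop, ∀ (l ρ J : ℕ), 1 ≤ l → 1 ≤ ρ → (n : ℝ) ^ (1 - η) / 2 ≤ l →
      (l : ℝ) ≤ (n : ℝ) ^ (1 - η) → (n : ℝ) ^ ((1 - η) * a' - 2 * c') / 2 ≤ ρ →
      (n : ℝ) ^ c' ≤ J →
      (1 / 4 : ℝ) ^ (K * n) + 121 * ((2 * ((K * n / l + 2 : ℕ) : ℝ) + 1) ^ 2 *
        ((2 * ((2 * l / ρ + 2 : ℕ) : ℝ) + 1) ^ 2 *
          (C * (l : ℝ) ^ (-(2 * (1 - a') + κ))))) ^ J +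
        (2 * ((K * n : ℕ) : ℝ) + 1) ^ 2 * (1 / 4 : ℝ) ^ l +
        (2 * ((K * n : ℕ) : ℝ) + 1) ^ 2 * ((2 * (l : ℝ) + 1) ^ 2 * Real.exp (-(l : ℝ) ^ c)) +
        4 * (2 * ((K * n + 2 * l : ℕ) : ℝ) + 1) ^ 2 * Real.exp (-(n : ℝ) ^ c') ≤
          Real.exp (-(n : ℝ) ^ c'') := by
  have e0 := exp_absorb hc'' (show c'' < 1 by linarith) 0 1 5 one_pos
  have e1 := loF_prob1 (C := C) (c' := c') hC K hK hκ ha1 hη hη1 hc' h4
  have e1' := exp_absorb hc'' h5 0 1 (5 * 121) one_pos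
  have e2 := exp_absorb hc'' h7 2 (1 / 2) (5 * (9 * K ^ 2)) (by norm_num)
  have e3 := exp_absorb hc'' h6 4 ((1 / 2) ^ c) (5 * (81 * K ^ 2)) (by positivity)
  have e4 := exp_absorb hc'' h5 2 1 (5 * (4 * (2 * K + 5) ^ 2)) one_pos
  filter_upwards [e0, e1, e1', e2, e3, e4, eventually_gt_atTop 0]
    with n f0 f1 f1' f2 f3 f4 hn
  intro l ρ J hl hρ hl1 hl2 hρ1 hJ
  have hn0 : (0 : ℝ) < n := by exact_mod_cast hn
  have hn1 : (1 : ℝ) ≤ n := by exact_mod_cast hn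
  have hl0 : (0 : ℝ) < l := by exact_mod_cast hl
  have hK' : (1 : ℝ) ≤ K := by exact_mod_cast hK
  have hln : (l : ℝ) ≤ n := by
    calc (l : ℝ) ≤ (n : ℝ) ^ (1 - η) := hl2
      _ ≤ (n : ℝ) ^ (1 : ℝ) := Real.rpow_le_rpow_of_exponent_le hn1 (by linarith)
      _ = n := Real.rpow_one _
  have hKn : (2 * ((K * n : ℕ) : ℝ) + 1) ^ 2 ≤ 9 * K ^ 2 * (n : ℝ) ^ (2 : ℝ) := by
    push_cast
    rw [Real.rpow_two]
    have : 2 * ((K : ℝ) * n) + 1 ≤ 3 * K * n := by nlinarith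
    calc (2 * ((K : ℝ) * n) + 1) ^ 2 ≤ (3 * K * n) ^ 2 := pow_le_pow_left₀ (by positivity) this 2
      _ = 9 * K ^ 2 * (n : ℝ) ^ 2 := by ring
  have t0 : (1 / 4 : ℝ) ^ (K * n) ≤ Real.exp (-(n : ℝ) ^ c'') / 5 := by
    have k1 := quarter_pow_le (K * n)
    have k2 : Real.exp (-((K * n : ℕ) : ℝ)) ≤ Real.exp (-(1 * (n : ℝ) ^ (1 : ℝ))) := by
      apply Real.exp_le_exp.2
      push_cast
      rw [Real.rpow_one]
      nlinarith
    rw [Real.rpow_zero, mul_one] at f0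
    linarith
  have t1 := f1 l ρ J hl hρ hl1 hl2 hρ1 hJ
  have t1' : 121 * Real.exp (-(n : ℝ) ^ c') ≤ Real.exp (-(n : ℝ) ^ c'') / 5 := by
    rw [Real.rpow_zero, mul_one, one_mul] at f1'
    linarith
  have t2 : (2 * ((K * n : ℕ) : ℝ) + 1) ^ 2 * (1 / 4 : ℝ) ^ l ≤
      Real.exp (-(n : ℝ) ^ c'') / 5 := by
    have k1 : (1 / 4 : ℝ) ^ l ≤ Real.exp (-(1 / 2 * (n : ℝ) ^ (1 - η))) :=
      (quarter_pow_le l).trans (Real.exp_le_exp.2 (by linarith))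
    have k2 := mul_le_mul hKn k1 (by positivity) (by positivity)
    linarith
  have t3 : (2 * ((K * n : ℕ) : ℝ) + 1) ^ 2 * ((2 * (l : ℝ) + 1) ^ 2 *
      Real.exp (-(l : ℝ) ^ c)) ≤ Real.exp (-(n : ℝ) ^ c'') / 5 := by
    have k0 : ((n : ℝ) ^ (1 - η) * (1 / 2)) ^ c = (n : ℝ) ^ ((1 - η) * c) * (1 / 2) ^ c := by
      rw [Real.mul_rpow (by positivity) (by norm_num), ← Real.rpow_mul hn0.le]
    have k1 : (1 / 2) ^ c * (n : ℝ) ^ ((1 - η) * c) ≤ (l : ℝ) ^ c := by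
      calc (1 / 2) ^ c * (n : ℝ) ^ ((1 - η) * c) = ((n : ℝ) ^ (1 - η) / 2) ^ c := by
            rw [div_eq_mul_one_div ((n : ℝ) ^ (1 - η)) 2, k0, mul_comm]
        _ ≤ (l : ℝ) ^ c := Real.rpow_le_rpow (by positivity) hl1 hc.le
    have k2 : (2 * (l : ℝ) + 1) ^ 2 ≤ 9 * (n : ℝ) ^ (2 : ℝ) := by
      rw [Real.rpow_two]
      nlinarith
    have k3 : (2 * (l : ℝ) + 1) ^ 2 * Real.exp (-(l : ℝ) ^ c) ≤
        9 * (n : ℝ) ^ (2 : ℝ) * Real.exp (-((1 / 2) ^ c * (n : ℝ) ^ ((1 - η) * c))) :=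
      mul_le_mul k2 (Real.exp_le_exp.2 (by linarith)) (Real.exp_pos _).le (by positivity)
    have k4 := mul_le_mul hKn k3 (by positivity) (by positivity)
    have k5 : (n : ℝ) ^ (4 : ℝ) = (n : ℝ) ^ (2 : ℝ) * (n : ℝ) ^ (2 : ℝ) := by
      rw [← Real.rpow_add hn0]
      norm_num
    rw [k5] at f3
    linarith
  have t4 : 4 * (2 * ((K * n + 2 * l : ℕ) : ℝ) + 1) ^ 2 * Real.exp (-(n : ℝ) ^ c') ≤
      Real.exp (-(n : ℝ) ^ c'') / 5 := by
    have k1 : (2 * ((K * n + 2 * l : ℕ) : ℝ) + 1) ^ 2 ≤ (2 * K + 5) ^ 2 * (n : ℝ) ^ (2 : ℝ) := by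
      push_cast
      rw [Real.rpow_two]
      have : 2 * ((K : ℝ) * n + 2 * l) + 1 ≤ (2 * K + 5) * n := by nlinarith
      calc (2 * ((K : ℝ) * n + 2 * l) + 1) ^ 2 ≤ ((2 * K + 5) * n) ^ 2 :=
            pow_le_pow_left₀ (by positivity) this 2
        _ = (2 * K + 5) ^ 2 * (n : ℝ) ^ 2 := by ring
    have k2 := mul_le_mul_of_nonneg_right k1 (Real.exp_pos (-(n : ℝ) ^ c')).le
    rw [one_mul] at f4
    linarith
  linarith

/-- the lower step -/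
theorem loF_step {φ : V → ℝ} {Cφ : ℝ} (hφ : SubOK φ Cφ) (hsaw : SawBound)
    {a' κ β β' η c' : ℝ} (ha : 0 < a') (ha1 : a' < 1) (hκ : 0 < κ)
    (H : HLoT φ a' (2 * (1 - a') + κ))
    (hβ : 0 < β) (hS : SLoF φ β) (hη : 0 < η) (hη1 : η < 1) (hc' : 0 < c')
    (h1 : η + (1 - η) * a' < β') (h2 : (1 - η) * β + 2 * c' < β')
    (h4 : 2 * η + 4 * c' < (1 - η) * κ) (h5' : 2 * c' < (1 - η) * a') : SLoF φ β' := by
  obtain ⟨C, hC⟩ := H
  obtain ⟨c, hc, N0, hN0⟩ := hS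
  have hη' : 0 < 1 - η := by linarith
  have hCμ := hφ.one_le
  set K : ℕ := ⌈2048 * Cφ⌉₊ with hK
  have hKge : 2048 * Cφ ≤ K := Nat.le_ceil _
  have hK1 : 1 ≤ K := by
    have : (1 : ℝ) ≤ K := by linarith
    exact_mod_cast this
  set c'' : ℝ := min c' (min ((1 - η) * c) (1 - η)) / 2 with hc''
  have hmin : 0 < min c' (min ((1 - η) * c) (1 - η)) :=
    lt_min hc' (lt_min (mul_pos hη' hc) hη')
  have hc''0 : 0 < c'' := by rw [hc'']; linarith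
  have h5 : c'' < c' := by
    rw [hc'']
    linarith [min_le_left c' (min ((1 - η) * c) (1 - η))]
  have h6 : c'' < (1 - η) * c := by
    rw [hc'']
    linarith [min_le_right c' (min ((1 - η) * c) (1 - η)), min_le_left ((1 - η) * c) (1 - η)]
  have h7 : c'' < 1 - η := by
    rw [hc'']
    linarith [min_le_right c' (min ((1 - η) * c) (1 - η)), min_le_right ((1 - η) * c) (1 - η)]
  have E1 := floor_pow hη'
  have E2 := floor_pow (show 0 < (1 - η) * a' - 2 * c' by linarith)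
  have E3 := loF_error (Cμ := Cφ) (by linarith) ha hβ hc' h1 h2
  have E4 := loF_prob (C := |C|) (a' := a') (abs_nonneg C) K hK1 hκ ha1 hc hη hη1 hc' hc''0
    h4 h5 h6 h7
  have E5 := ge_const hη' (2 * (N0 + 1))
  have E6 := ge_const hc' 1
  have E7 := loF_rho (C := Cφ) (by linarith) ha ha1 hη1 hc' h5'
  obtain ⟨N1, hN1⟩ := eventually_atTop.1
    (E1.and (E2.and (E3.and (E4.and (E5.and (E6.and E7))))))
  refine ⟨c'', hc''0, N1, fun n hn v hv => ?_⟩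
  obtain ⟨⟨f1, f2, f3⟩, ⟨r1, r2, r3⟩, f5, f6, f7, f8, f9⟩ := hN1 n hn
  set l := ⌊(n : ℝ) ^ (1 - η)⌋₊ with hl
  set ρ := ⌊(n : ℝ) ^ ((1 - η) * a' - 2 * c')⌋₊ with hρ
  obtain ⟨u1, u3, u2⟩ := f9 l ρ f3 r2
  have hlN0 : N0 + 1 ≤ l := by
    have : ((N0 + 1 : ℕ) : ℝ) ≤ l := by push_cast; linarith
    exact_mod_cast this
  set J := ⌈(n : ℝ) ^ c'⌉₊ with hJ
  have hJ1 : (n : ℝ) ^ c' ≤ J := Nat.le_ceil _
  have hJ2 : (J : ℝ) ≤ 2 * (n : ℝ) ^ c' := by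
    have := Nat.ceil_lt_add_one (show 0 ≤ (n : ℝ) ^ c' by positivity)
    linarith
  have hρ4 : 4 * (ρ : ℝ) ≤ (l : ℝ) ^ a' := by
    have : (ρ : ℝ) ≤ Cφ * ρ := by
      have h0 : (0 : ℝ) ≤ ρ := Nat.cast_nonneg _
      nlinarith
    linarith
  have hQ : ∀ v : V, nrm v ≤ l + 4 * ρ → l ≤ nrm v + 4 * ρ →
      ((l : ℝ) ≤ nrm v + (l : ℝ) ^ a' ∧ (nrm v : ℝ) ≤ l + (l : ℝ) ^ a') := by
    intro v h1 h2
    have h1' : (nrm v : ℝ) ≤ l + 4 * ρ := by exact_mod_cast h1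
    have h2' : (l : ℝ) ≤ nrm v + 4 * ρ := by exact_mod_cast h2
    exact ⟨by linarith, by linarith⟩
  have hP1 : PP.real {x | ∃ v : V, ((l : ℝ) ≤ nrm v + (l : ℝ) ^ a' ∧
      (nrm v : ℝ) ≤ l + (l : ℝ) ^ a') ∧ Fast x Set.univ 0 v (φ v - (l : ℝ) ^ a')} ≤
      |C| * (l : ℝ) ^ (-(2 * (1 - a') + κ)) :=
    (hC l f1).trans (mul_le_mul_of_nonneg_right (le_abs_self C) (by positivity))
  have hP2 := hN0 l (by omega)
  have hmv : φ v ≤ Cφ * n := by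
    have h := hφ.le v
    have h' : (nrm v : ℝ) ≤ n := by exact_mod_cast hv
    nlinarith
  have hR : φ v ≤ ((K * n : ℕ) : ℝ) / 2048 := by
    rw [le_div_iff₀ (by norm_num)]
    push_cast
    have hn0 : (0 : ℝ) ≤ n := Nat.cast_nonneg n
    nlinarith
  have core := loF_core hφ hsaw _ v (K * n) l ρ f1 r1 u1 hQ ((l : ℝ) ^ a') (2 * (l : ℝ) ^ a')
    ((l : ℝ) ^ β) ((n : ℝ) ^ c')
    _ _ (by positivity) u2 (by positivity) f8 J hR hP1 (Real.exp_pos _).le hP2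
  have herr := f5 (φ v) l J (hφ.nonneg v) hmv f3 f2 (by positivity) hJ2
  have hprob := f6 l ρ J f1 r1 f3 f2 r3 hJ1
  refine le_trans (measureReal_mono ?_ (measure_ne_top _ _)) (core.trans hprob)
  intro x hx
  exact Fast.mono hx le_rfl (by linarith)

/-- the full annulus contains the thin one -/
theorem HLoF.thin {φ : V → ℝ} {β q : ℝ} (hβ1 : β < 1) (hq : 0 ≤ q) (h : HLoF φ β q) :
    HLoT φ β q := by
  obtain ⟨C, hC⟩ := h
  obtain ⟨N1, hN1⟩ := eventually_atTop.1 (pow_lt hβ1 2)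
  refine ⟨max C 0 + ((N1 : ℕ) : ℝ) ^ q, fun l hl => ?_⟩
  have hl1 : (1 : ℝ) ≤ l := by exact_mod_cast hl
  have hl0 : (0 : ℝ) < l := by linarith
  have hq' : 0 < (l : ℝ) ^ (-q) := by positivity
  by_cases hbig : N1 ≤ l
  · have h1 := hN1 l hbig
    rw [Real.rpow_one] at h1
    refine le_trans (measureReal_mono ?_ (measure_ne_top _ _)) ((hC l hl).trans ?_)
    · rintro x ⟨v, ⟨h2, h3⟩, hf⟩
      refine ⟨v, ⟨?_, ?_⟩, hf⟩
      · have : (l : ℝ) ≤ 2 * nrm v := by linarith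
        exact_mod_cast this
      · have : (nrm v : ℝ) ≤ 2 * l := by linarith
        exact_mod_cast this
    · apply mul_le_mul_of_nonneg_right _ hq'.le
      have := le_max_left C 0
      have h0 : (0 : ℝ) ≤ ((N1 : ℕ) : ℝ) ^ q := by positivity
      linarith
  · push Not at hbig
    refine measureReal_le_one.trans ?_
    have h1 : (l : ℝ) ^ q ≤ ((N1 : ℕ) : ℝ) ^ q :=
      Real.rpow_le_rpow hl0.le (by exact_mod_cast hbig.le) hq
    have h2 : (l : ℝ) ^ q * (l : ℝ) ^ (-q) = 1 := by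
      rw [← Real.rpow_add hl0, add_neg_cancel, Real.rpow_zero]
    calc (1 : ℝ) = (l : ℝ) ^ q * (l : ℝ) ^ (-q) := h2.symm
      _ ≤ (max C 0 + ((N1 : ℕ) : ℝ) ^ q) * (l : ℝ) ^ (-q) := by
          apply mul_le_mul_of_nonneg_right _ hq'.le
          have := le_max_right C 0
          linarith

theorem SLoF.mono {φ : V → ℝ} {β β' : ℝ} (h : SLoF φ β) (hb : β ≤ β') : SLoF φ β' := by
  obtain ⟨c, hc, N0, hN0⟩ := h
  refine ⟨c, hc, max N0 1, fun n hn v hv => ?_⟩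
  have h1 : 1 ≤ n := le_trans (le_max_right _ _) hn
  have h1' : (1 : ℝ) ≤ n := by exact_mod_cast h1
  refine le_trans (measureReal_mono ?_ (measure_ne_top _ _))
    (hN0 n (le_trans (le_max_left _ _) hn) v hv)
  intro x hx
  exact Fast.mono hx le_rfl (by
    have := Real.rpow_le_rpow_of_exponent_le h1' hb
    linarith)

theorem loF_base {φ : V → ℝ} {Cφ : ℝ} (hφ : SubOK φ Cφ) : SLoF φ 2 := by
  have e1 := pow_lt (show (1 : ℝ) < 2 by norm_num) Cφ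
  obtain ⟨N1, hN1⟩ := eventually_atTop.1 e1
  refine ⟨1, one_pos, N1, fun n hn v hv => ?_⟩
  have f1 := hN1 n hn
  rw [Real.rpow_one] at f1
  have hmv : φ v ≤ Cφ * n := by
    have h := hφ.le v
    have h' : (nrm v : ℝ) ≤ n := by exact_mod_cast hv
    have := hφ.one_le
    nlinarith
  have hz : PP.real {x | Fast x Set.univ 0 v (φ v - (n : ℝ) ^ (2 : ℝ))} = 0 := by
    rw [measureReal_def, ENNReal.toReal_eq_zero_iff]
    left
    apply measure_mono_null (t := {x : W | ¬ ∀ e, 0 ≤ x e})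
    · rintro x ⟨k, p, hp, hlt⟩ hx
      have := cst_nonneg hx p k
      linarith
    · exact nonneg_ae
  rw [hz]
  exact (Real.exp_pos _).le

/-- from polynomial bounds at all scales `β > a` to stretched exponential bounds -/
theorem loF_all {φ : V → ℝ} {Cφ : ℝ} (hφ : SubOK φ Cφ) (hsaw : SawBound) {a : ℝ}
    (ha : 0 < a) (ha1 : a < 1)
    (H : ∀ β, a < β → β < 1 → ∃ κ > 0, HLoT φ β (2 * (1 - β) + κ)) :
    ∀ β > a, SLoF φ β := by
  apply inf_iter a 2 (by linarith) (loF_base hφ) (fun β β' _ hb h => h.mono hb)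
  intro b hb hall
  have hb0 : 0 < b := by linarith
  set a' : ℝ := (a + min b 1) / 2 with ha'
  have hm1 : a < min b 1 := lt_min hb ha1
  have h1 : a < a' := by rw [ha']; linarith
  have h2 : a' < 1 := by rw [ha']; linarith [min_le_right b 1]
  have h3 : a' < b := by rw [ha']; linarith [min_le_left b 1]
  obtain ⟨κ, hκ, hH⟩ := H a' h1 h2
  set d := b - a' with hd
  have hd0 : 0 < d := by rw [hd]; linarith
  set η : ℝ := min (min (1 / 2) (κ / 16)) (d / 4) with hη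
  have hη0 : 0 < η := by
    rw [hη]
    exact lt_min (lt_min (by norm_num) (by linarith)) (by linarith)
  have hη1 : η ≤ 1 / 2 := (min_le_left _ _).trans (min_le_left _ _)
  have hη2 : η ≤ κ / 16 := (min_le_left _ _).trans (min_le_right _ _)
  have hη3 : η ≤ d / 4 := min_le_right _ _
  have hηb : 0 < η * b := mul_pos hη0 hb0
  have ha'0 : 0 < a' := by linarith
  set c' : ℝ := min (η * b / 8) (min (κ / 32) (a' / 8)) with hc'
  have hc'0 : 0 < c' := lt_min (by linarith) (lt_min (by linarith) (by linarith))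
  have hc'1 : c' ≤ η * b / 8 := min_le_left _ _
  have hc'2 : c' ≤ κ / 32 := (min_le_right _ _).trans (min_le_left _ _)
  have hc'3 : c' ≤ a' / 8 := (min_le_right _ _).trans (min_le_right _ _)
  set β' : ℝ := max (b - η * b / 4) (a' + d / 2) with hβ'
  have hβ'1 : b - η * b / 4 ≤ β' := le_max_left _ _
  have hβ'2 : a' + d / 2 ≤ β' := le_max_right _ _
  refine ⟨β', ?_, by linarith, ?_⟩
  · rw [hβ']
    apply max_lt
    · linarith
    · rw [hd]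
      linarith
  · apply loF_step hφ hsaw ha'0 h2 hκ hH (β := b + η * b / 4) (c' := c') (by linarith)
      (hall _ (by linarith)) hη0 (by linarith) hc'0
    · have : (1 - η) * a' ≤ a' := by nlinarith
      linarith
    · have : (1 - η) * (b + η * b / 4) ≤ b - η * b + η * b / 4 := by nlinarith
      linarith
    · nlinarith
    · nlinarith

end Pool.Agent.K4H17.FPP
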