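import Pool.Agent.K4H17.FPP.Hm
import Pool.Agent.K4H17.FPP.LoFStep

/-!
First-passage percolation on `ℤ²`: the mean passage time of a long vector is almost the cost of
a representation by vectors of norm `l` (the first step of Alexander's argument).
-/

set_option autoImplicit false
open MeasureTheory ProbabilityTheory Filter
open scoped Pointwise

namespace Pool.Agent.K4H17.FPP

/-! ### representations -/

theorem Rep.weaken {h : V → ℝ} {l : ℕ} {v : V} {s t : ℝ} (H : Rep h l v s) (hst : s ≤ t) :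
    Rep h l v t := by
  obtain ⟨F, ν, h1, h2, h3, h4⟩ := H
  exact ⟨F, ν, h1, h2, h3, h4.trans hst⟩

theorem Rep.nil (h : V → ℝ) (l : ℕ) : Rep h l 0 0 :=
  ⟨∅, fun _ => 0, by simp, by simp, by simp, by simp⟩

theorem Rep.single (h : V → ℝ) {l : ℕ} {v : V} (hv : nrm v = l) : Rep h l v (h v) :=
  ⟨{v}, fun _ => 1, by simp [hv], by simp, by simp, by simp⟩

theorem Rep.add {h : V → ℝ} {l : ℕ} {v w : V} {s t : ℝ} (H : Rep h l v s) (G : Rep h l w t) :
    Rep h l (v + w) (s + t) := by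
  classical
  obtain ⟨F1, ν1, a1, a2, a3, a4⟩ := H
  obtain ⟨F2, ν2, b1, b2, b3, b4⟩ := G
  have key : ∀ g : V → ℝ, ∑ z ∈ F1 ∪ F2,
      ((if z ∈ F1 then ν1 z else 0) + (if z ∈ F2 then ν2 z else 0)) * g z =
        ∑ z ∈ F1, ν1 z * g z + ∑ z ∈ F2, ν2 z * g z := by
    intro g
    have e1 : ∑ z ∈ F1 ∪ F2, (if z ∈ F1 then ν1 z else 0) * g z = ∑ z ∈ F1, ν1 z * g z := by
      rw [← Finset.sum_subset (Finset.subset_union_left : F1 ⊆ F1 ∪ F2)]
      · apply Finset.sum_congr rfl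
        intro z hz
        rw [if_pos hz]
      · intro z _ hz
        rw [if_neg hz, zero_mul]
    have e2 : ∑ z ∈ F1 ∪ F2, (if z ∈ F2 then ν2 z else 0) * g z = ∑ z ∈ F2, ν2 z * g z := by
      rw [← Finset.sum_subset (Finset.subset_union_right : F2 ⊆ F1 ∪ F2)]
      · apply Finset.sum_congr rfl
        intro z hz
        rw [if_pos hz]
      · intro z _ hz
        rw [if_neg hz, zero_mul]
    rw [← e1, ← e2, ← Finset.sum_add_distrib]
    apply Finset.sum_congr rfl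
    intro z _
    ring
  refine ⟨F1 ∪ F2, fun z => (if z ∈ F1 then ν1 z else 0) + (if z ∈ F2 then ν2 z else 0),
    ?_, ?_, ?_, ?_⟩
  · intro z hz
    refine ⟨?_, ?_⟩
    · rcases Finset.mem_union.1 hz with h | h
      · exact (a1 z h).1
      · exact (b1 z h).1
    · dsimp only
      apply add_nonneg
      · split_ifs with h
        · exact (a1 z h).2
        · exact le_rfl
      · split_ifs with h
        · exact (b1 z h).2
        · exact le_rfl
  · rw [key (fun z => (z.1 : ℝ)), a2, b2]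
    push_cast [Prod.fst_add]
    ring
  · rw [key (fun z => (z.2 : ℝ)), a3, b3]
    push_cast [Prod.snd_add]
    ring
  · rw [key h]
    linarith

/-- a short remainder -/
theorem Rep.small {h : V → ℝ} {l : ℕ} (hl : 1 ≤ l) (hh : ∀ v, nrm v = l → h v ≤ l) {r : V}
    (hr : nrm r ≤ l) : Rep h l r l := by
  classical
  have hl0 : (0 : ℝ) < l := by exact_mod_cast hl
  obtain ⟨σ1, hσ1, e1⟩ : ∃ σ : ℤ, (σ = 1 ∨ σ = -1) ∧ (|r.1| : ℤ) * σ = r.1 := by
    rcases le_or_gt 0 r.1 with h0 | h0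
    · exact ⟨1, Or.inl rfl, by rw [abs_of_nonneg h0, mul_one]⟩
    · exact ⟨-1, Or.inr rfl, by rw [abs_of_neg h0]; ring⟩
  obtain ⟨σ2, hσ2, e2⟩ : ∃ σ : ℤ, (σ = 1 ∨ σ = -1) ∧ (|r.2| : ℤ) * σ = r.2 := by
    rcases le_or_gt 0 r.2 with h0 | h0
    · exact ⟨1, Or.inl rfl, by rw [abs_of_nonneg h0, mul_one]⟩
    · exact ⟨-1, Or.inr rfl, by rw [abs_of_neg h0]; ring⟩
  set z1 : V := (σ1 * l, 0) with hz1
  set z2 : V := (0, σ2 * l) with hz2
  have hne : z1 ≠ z2 := by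
    intro hcon
    have := congrArg Prod.fst hcon
    simp only [hz1, hz2] at this
    rcases hσ1 with h | h <;> rw [h] at this <;> omega
  have n1 : nrm z1 = l := by
    rcases hσ1 with h | h <;> simp [hz1, h, nrm]
  have n2 : nrm z2 = l := by
    rcases hσ2 with h | h <;> simp [hz2, h, nrm]
  have key : ∀ g : V → ℝ, ∑ z ∈ ({z1, z2} : Finset V),
      (if z = z1 then |(r.1 : ℝ)| / l else |(r.2 : ℝ)| / l) * g z =
        |(r.1 : ℝ)| / l * g z1 + |(r.2 : ℝ)| / l * g z2 := by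
    intro g
    rw [Finset.sum_insert (by simpa using hne), Finset.sum_singleton, if_pos rfl,
      if_neg hne.symm]
  have e1' : |(r.1 : ℝ)| * (σ1 : ℝ) = r.1 := by exact_mod_cast e1
  have e2' : |(r.2 : ℝ)| * (σ2 : ℝ) = r.2 := by exact_mod_cast e2
  refine ⟨{z1, z2}, fun z => if z = z1 then |(r.1 : ℝ)| / l else |(r.2 : ℝ)| / l,
    ?_, ?_, ?_, ?_⟩
  · intro z hz
    refine ⟨?_, ?_⟩
    · rcases Finset.mem_insert.1 hz with h | h
      · rw [h, n1]
      · rw [Finset.mem_singleton.1 h, n2]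
    · dsimp only
      split_ifs <;> positivity
  · rw [key (fun z => (z.1 : ℝ))]
    simp only [hz1, hz2]
    push_cast
    rw [mul_zero, add_zero, div_mul_eq_mul_div, ← mul_assoc, mul_div_assoc, div_self hl0.ne',
      mul_one]
    exact e1'
  · rw [key (fun z => (z.2 : ℝ))]
    simp only [hz1, hz2]
    push_cast
    rw [mul_zero, zero_add, div_mul_eq_mul_div, ← mul_assoc, mul_div_assoc, div_self hl0.ne',
      mul_one]
    exact e2'
  · rw [key h]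
    have hr' : |(r.1 : ℝ)| + |(r.2 : ℝ)| ≤ l := by
      have h1 : (|r.1| : ℤ) + |r.2| ≤ l := by
        rw [Int.abs_eq_natAbs, Int.abs_eq_natAbs]
        unfold nrm at hr
        omega
      exact_mod_cast h1
    have h1 := hh z1 n1
    have h2 := hh z2 n2
    have k1 : |(r.1 : ℝ)| / l * h z1 ≤ |(r.1 : ℝ)| := by
      calc |(r.1 : ℝ)| / l * h z1 ≤ |(r.1 : ℝ)| / l * l :=
            mul_le_mul_of_nonneg_left h1 (by positivity)
        _ = |(r.1 : ℝ)| := by field_simp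
    have k2 : |(r.2 : ℝ)| / l * h z2 ≤ |(r.2 : ℝ)| := by
      calc |(r.2 : ℝ)| / l * h z2 ≤ |(r.2 : ℝ)| / l * l :=
            mul_le_mul_of_nonneg_left h2 (by positivity)
        _ = |(r.2 : ℝ)| := by field_simp
    linarith

/-- the blocks of a path represent its endpoint -/
theorem Rep.blocks {h : V → ℝ} {p : ℕ → V} {n l k : ℕ} {τ : ℕ → ℕ} (hl : 1 ≤ l)
    (hh : ∀ v, nrm v = l → h v ≤ l) (hB : Blocks p n l 0 k τ) (hp0 : p 0 = 0) {x : W} {s : ℝ}
    (h1 : ∀ i < k, h (p (τ (i + 1)) - p (τ i)) - s ≤ seg x p (τ i) (τ (i + 1))) :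
    Rep h l (p n) (seg x p 0 (τ k) + k * s + l) := by
  have main : ∀ j ≤ k, Rep h l (p (τ j)) (seg x p 0 (τ j) + j * s) := by
    intro j
    induction j with
    | zero =>
      intro _
      rw [hB.1, hp0]
      have : seg x p 0 0 + ((0 : ℕ) : ℝ) * s = 0 := by simp [seg]
      rw [this]
      exact Rep.nil h l
    | succ j ih =>
      intro hj
      have g1 := ih (by omega)
      have g2 := h1 j (by omega)
      have g3 := g1.add (Rep.single h (hB.2.2.2.1 j (by omega)).1)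
      rw [add_sub_cancel] at g3
      refine g3.weaken ?_
      rw [← seg_add x p (Nat.zero_le (τ j)) (hB.2.1 j (by omega)).le]
      push_cast
      linarith
  have g := (main k le_rfl).add (Rep.small hl hh hB.2.2.2.2)
  rwa [add_sub_cancel] at g

/-! ### the probabilistic part -/

/-- Markov's inequality -/
theorem markov_fast (w : V) : 1 / (hm w + 1) ≤ PP.real {x | Fast x Set.univ 0 w (hm w + 1)} := by
  have hm0 := hm_nonneg w
  have h1 := mul_meas_ge_le_integral_of_nonneg (μ := PP) (f := fun x : W => tm x w)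
    (by filter_upwards [nonneg_ae] with x hx; exact tm_nonneg hx w) (tm_integrable w) (hm w + 1)
  have h2 : PP.real {x : W | hm w + 1 ≤ tm x w} =
      PP.real {x | Fast x Set.univ 0 w (hm w + 1)}ᶜ := by
    apply measureReal_congr
    filter_upwards [nonneg_ae] with x hx
    apply propext
    show hm w + 1 ≤ tm x w ↔ ¬ Fast x Set.univ 0 w (hm w + 1)
    rw [← tm_lt_iff hx, not_lt]
  rw [h2, real_not _ (measurableSet_fast _ _ _ _)] at h1
  have h3 : (hm w + 1) * (1 - PP.real {x | Fast x Set.univ 0 w (hm w + 1)}) ≤ hm w := h1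
  rw [div_le_iff₀ (by linarith)]
  linarith

/-- the deterministic part -/
theorem rep_det {x : W} (hx : ∀ e, 0 ≤ x e) (w : V) (R l : ℕ) (hl : 1 ≤ l) (s : ℝ) (hs : 0 ≤ s)
    (c : ℝ) (hc : c ≤ (R : ℝ) / 2048) (hf : Fast x Set.univ 0 w c)
    (g0 : ¬ ∃ v : V, R ≤ nrm v ∧ Fast x Set.univ 0 v ((R : ℝ) / 2048))
    (g2 : ∀ u ∈ Bl 0 R, ¬ ∃ u' : V, nrm (u' - u) = l ∧ Fast x Set.univ u u' ((l : ℝ) / 2048))
    (g3 : ∀ u ∈ Bl 0 R, ¬ ∃ u' : V, nrm (u' - u) ≤ l ∧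
      Fast x Set.univ u u' (hm (u' - u) - s)) :
    Rep hm l w (c + 2048 * (c / l) * s + l) := by
  have hl0 : (0 : ℝ) < l := by exact_mod_cast hl
  obtain ⟨n, p, hp, hlt⟩ := hf
  -- the path stays in the ball of radius `R`
  have hball : ∀ i ≤ n, p i ∈ Bl 0 R := by
    intro i hi
    by_contra hcon
    have h1 : ¬ nrm (p i - 0) ≤ R := hcon
    rw [sub_zero] at h1
    exact g0 ⟨p i, by omega, i, p, ⟨hp.1, rfl, fun j hj => hp.2.2.1 j (by omega),
      fun _ _ => Set.mem_univ _⟩, by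
      have := cst_mono hx p hi
      linarith⟩
  obtain ⟨k, τ, hB⟩ := exists_blocks p n l hl hp.2.2.1
  -- every block costs at least `l / 2048`
  have hcheap : ∀ i < k, (l : ℝ) / 2048 ≤ seg x p (τ i) (τ (i + 1)) := by
    intro i hi
    by_contra hcon
    push Not at hcon
    exact g2 (p (τ i)) (hball _ (hB.le i hi.le)) ⟨p (τ (i + 1)), (hB.2.2.2.1 i hi).1,
      seg_fast hp.2.2.1 (hB.2.1 i hi).le (hB.le (i + 1) hi) (fun _ _ _ => Set.mem_univ _) hcon⟩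
  have h1 : ∀ i < k, hm (p (τ (i + 1)) - p (τ i)) - s ≤ seg x p (τ i) (τ (i + 1)) := by
    intro i hi
    by_contra hcon
    push Not at hcon
    exact g3 (p (τ i)) (hball _ (hB.le i hi.le)) ⟨p (τ (i + 1)), (hB.2.2.2.1 i hi).1.le,
      seg_fast hp.2.2.1 (hB.2.1 i hi).le (hB.le (i + 1) hi) (fun _ _ _ => Set.mem_univ _) hcon⟩
  have hseg : seg x p 0 (τ k) ≤ cst x p n := by
    rw [← seg_zero, ← seg_add x p (Nat.zero_le (τ k)) hB.2.2.1]
    have := seg_nonneg hx p (τ k) n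
    linarith
  have hk : (k : ℝ) ≤ 2048 * (c / l) := by
    have h3 := blocks_seg_ge hB hcheap 0 k (Nat.zero_le _) le_rfl
    rw [Nat.sub_zero, hB.1] at h3
    have h5 : (k : ℝ) * (l / 2048) ≤ c := by linarith
    rw [← mul_div_assoc, le_div_iff₀ hl0]
    linarith
  have hrep := Rep.blocks (h := hm) hl (fun v hv => by
    have := hm_sub.le v
    rw [one_mul, hv] at this
    exact this) hB hp.1 h1
  rw [hp.2.1] at hrep
  refine hrep.weaken ?_
  have := mul_le_mul_of_nonneg_right hk hs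
  linarith

/-- the probability of the bad events -/
theorem rep_bad (hsaw : SawBound) (R l : ℕ) (s P2 : ℝ) (hP20 : 0 ≤ P2)
    (hP2 : ∀ w : V, nrm w ≤ l → PP.real {x | Fast x Set.univ 0 w (hm w - s)} ≤ P2) :
    PP.real ({x | ∃ v : V, R ≤ nrm v ∧ Fast x Set.univ 0 v ((R : ℝ) / 2048)} ∪
      ({x | ∃ u ∈ Bl 0 R,
        x ∈ {x | ∃ u' : V, nrm (u' - u) = l ∧ Fast x Set.univ u u' ((l : ℝ) / 2048)}} ∪
      {x | ∃ u ∈ Bl 0 R,
        x ∈ {x | ∃ u' : V, nrm (u' - u) ≤ l ∧ Fast x Set.univ u u' (hm (u' - u) - s)}})) ≤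
      (1 / 4 : ℝ) ^ R + ((2 * R + 1) ^ 2 * (1 / 4 : ℝ) ^ l +
        (2 * R + 1) ^ 2 * ((2 * l + 1) ^ 2 * P2)) := by
  refine (measureReal_union_le _ _).trans (add_le_add (hsaw R)
    ((measureReal_union_le _ _).trans (add_le_add ?_ ?_)))
  · apply real_biUnion_ball 0 R _ _ (by positivity)
    intro w _
    have h := real_ex_translate (fun v => nrm v = l) (fun _ => (l : ℝ) / 2048) w
    rw [h]
    refine le_trans (measureReal_mono ?_ (measure_ne_top _ _)) (hsaw l)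
    rintro x ⟨w', h1, h2⟩
    exact ⟨w', h1.ge, h2⟩
  · apply real_biUnion_ball 0 R _ _ (by positivity)
    intro w _
    have h := real_ex_translate (fun v => nrm v ≤ l) (fun v => hm v - s) w
    rw [h]
    have h2 := real_biUnion_ball 0 l (fun w' => {x | Fast x Set.univ 0 w' (hm w' - s)}) P2
      hP20 (by
        intro w' hw'
        have := mem_Bl.1 hw'
        rw [sub_zero] at this
        exact hP2 w' this)
    refine le_trans (measureReal_mono ?_ (measure_ne_top _ _)) h2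
    rintro x ⟨w', h1, h3⟩
    refine ⟨w', mem_Bl.2 ?_, h3⟩
    rw [sub_zero]
    exact h1

theorem rep_prob {c : ℝ} (hc : 0 < c) :
    ∀ᶠ l : ℕ in atTop, ∀ M : ℕ, l ^ 2 ≤ M → M ≤ l ^ 4 →
      (1 / 4 : ℝ) ^ (4096 * M) + ((2 * ((4096 * M : ℕ) : ℝ) + 1) ^ 2 * (1 / 4 : ℝ) ^ l +
        (2 * ((4096 * M : ℕ) : ℝ) + 1) ^ 2 * ((2 * l + 1) ^ 2 * Real.exp (-(l : ℝ) ^ c))) <
        1 / ((M : ℝ) + 1) := by
  have e1 := poly_le_exp one_pos 12 (8 * (1 + 8193 ^ 2))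
  have e2 := poly_le_exp hc 14 (8 * (8193 ^ 2 * 9))
  filter_upwards [e1, e2, eventually_ge_atTop 1] with l f1 f2 hl M hM1 hM2
  have hl1 : (1 : ℝ) ≤ l := by exact_mod_cast hl
  have hM1' : (l : ℝ) ^ 2 ≤ M := by exact_mod_cast hM1
  have hM2' : (M : ℝ) ≤ (l : ℝ) ^ 4 := by exact_mod_cast hM2
  have hMl : l ≤ 4096 * M := by nlinarith
  have hM0 : (1 : ℝ) ≤ M := le_trans (one_le_pow₀ hl1) hM1'
  have g0 : (1 / 4 : ℝ) ^ (4096 * M) ≤ (1 / 4 : ℝ) ^ l :=
    pow_le_pow_of_le_one (by norm_num) (by norm_num) hMl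
  have g1 : (1 / 4 : ℝ) ^ l ≤ Real.exp (-(l : ℝ)) := quarter_pow_le l
  have g2 : (2 * ((4096 * M : ℕ) : ℝ) + 1) ^ 2 ≤ 8193 ^ 2 * (l : ℝ) ^ 8 := by
    push_cast
    calc (2 * (4096 * (M : ℝ)) + 1) ^ 2 ≤ (8193 * (l : ℝ) ^ 4) ^ 2 :=
          pow_le_pow_left₀ (by positivity) (by linarith) 2
      _ = 8193 ^ 2 * (l : ℝ) ^ 8 := by ring
  have g3 : (2 * (l : ℝ) + 1) ^ 2 ≤ 9 * (l : ℝ) ^ 2 := by nlinarith
  have g4 : (1 : ℝ) ≤ (l : ℝ) ^ 8 := one_le_pow₀ hl1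
  have k1 : (1 / 4 : ℝ) ^ (4096 * M) + (2 * ((4096 * M : ℕ) : ℝ) + 1) ^ 2 * (1 / 4 : ℝ) ^ l ≤
      (1 + 8193 ^ 2) * (l : ℝ) ^ 8 * Real.exp (-(l : ℝ)) := by
    have t1 : (1 / 4 : ℝ) ^ (4096 * M) ≤ (l : ℝ) ^ 8 * Real.exp (-(l : ℝ)) := by
      have := mul_le_mul g4 (g0.trans g1) (by positivity) (by positivity)
      rwa [one_mul] at this
    have t2 := mul_le_mul g2 g1 (by positivity) (by positivity)
    calc _ ≤ (l : ℝ) ^ 8 * Real.exp (-(l : ℝ)) +
          8193 ^ 2 * (l : ℝ) ^ 8 * Real.exp (-(l : ℝ)) := add_le_add t1 t2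
      _ = _ := by ring
  have k2 : (2 * ((4096 * M : ℕ) : ℝ) + 1) ^ 2 * ((2 * l + 1) ^ 2 * Real.exp (-(l : ℝ) ^ c)) ≤
      8193 ^ 2 * 9 * (l : ℝ) ^ 10 * Real.exp (-(l : ℝ) ^ c) := by
    have t1 := mul_le_mul_of_nonneg_right g3 (Real.exp_pos (-(l : ℝ) ^ c)).le
    have t2 := mul_le_mul g2 t1 (by positivity) (by positivity)
    refine t2.trans (le_of_eq ?_)
    ring
  have r1 : (1 + 8193 ^ 2) * (l : ℝ) ^ 8 * Real.exp (-(l : ℝ)) ≤ 1 / (8 * (l : ℝ) ^ 4) := by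
    rw [le_div_iff₀ (by positivity), Real.exp_neg, ← div_eq_mul_inv, div_mul_eq_mul_div,
      div_le_one (Real.exp_pos _)]
    rw [Real.rpow_one] at f1
    refine le_trans (le_of_eq ?_) f1
    have : (l : ℝ) ^ (12 : ℝ) = (l : ℝ) ^ 12 := by exact_mod_cast Real.rpow_natCast (l : ℝ) 12
    rw [this]
    ring
  have r2 : 8193 ^ 2 * 9 * (l : ℝ) ^ 10 * Real.exp (-(l : ℝ) ^ c) ≤ 1 / (8 * (l : ℝ) ^ 4) := by
    rw [le_div_iff₀ (by positivity), Real.exp_neg, ← div_eq_mul_inv, div_mul_eq_mul_div,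
      div_le_one (Real.exp_pos _)]
    refine le_trans (le_of_eq ?_) f2
    have : (l : ℝ) ^ (14 : ℝ) = (l : ℝ) ^ 14 := by exact_mod_cast Real.rpow_natCast (l : ℝ) 14
    rw [this]
    ring
  have r3 : 1 / (8 * (l : ℝ) ^ 4) + 1 / (8 * (l : ℝ) ^ 4) < 1 / ((M : ℝ) + 1) := by
    have hl4 : (1 : ℝ) ≤ (l : ℝ) ^ 4 := one_le_pow₀ hl1
    have : 1 / (8 * (l : ℝ) ^ 4) + 1 / (8 * (l : ℝ) ^ 4) = 1 / (4 * (l : ℝ) ^ 4) := by
      field_simp
      norm_num
    rw [this]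
    apply one_div_lt_one_div_of_lt (by positivity)
    linarith
  linarith

/-- the first step of Alexander's argument -/
theorem rep_step (hsaw : SawBound) {a b : ℝ} (_ha : 0 < a) (hab : a < b) (hb : b < 1)
    (hS : ∀ β > a, SLoF hm β) :
    ∃ K : ℝ, ∃ l0 : ℕ, ∀ l ≥ l0, ∀ M : ℕ, l ^ 2 ≤ M → M ≤ l ^ 4 → ∀ w, nrm w = M →
      Rep hm l w (hm w + K * M * (l : ℝ) ^ (b - 1)) := by
  obtain ⟨c, hc, N0, hN0⟩ := hS b hab
  obtain ⟨N1, hN1⟩ := eventually_atTop.1 (rep_prob hc)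
  refine ⟨10 ^ 4, max (max N0 N1) 1, fun l hl M hM1 hM2 w hw => ?_⟩
  have hlN0 : N0 ≤ l := le_trans ((le_max_left _ _).trans (le_max_left _ _)) hl
  have hlN1 : N1 ≤ l := le_trans ((le_max_right _ _).trans (le_max_left _ _)) hl
  have hl1 : 1 ≤ l := le_trans (le_max_right _ _) hl
  have hl1' : (1 : ℝ) ≤ l := by exact_mod_cast hl1
  have hl0 : (0 : ℝ) < l := by linarith
  have hM1' : (l : ℝ) ^ 2 ≤ M := by exact_mod_cast hM1
  have hM0 : (1 : ℝ) ≤ M := le_trans (one_le_pow₀ hl1') hM1'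
  have hhm : hm w ≤ M := by
    have := hm_sub.le w
    rw [one_mul, hw] at this
    exact this
  have hhm0 := hm_nonneg w
  have hbad := rep_bad hsaw (4096 * M) l ((l : ℝ) ^ b) (Real.exp (-(l : ℝ) ^ c))
    (Real.exp_pos _).le (hN0 l hlN0)
  have hprob := hN1 l hlN1 M hM1 hM2
  have hmark := markov_fast w
  have hmark2 : 1 / ((M : ℝ) + 1) ≤ 1 / (hm w + 1) :=
    one_div_le_one_div_of_le (by linarith) (by linarith)
  -- a good configuration
  set A0 : Set W :=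
    {x | ∃ v : V, 4096 * M ≤ nrm v ∧ Fast x Set.univ 0 v (((4096 * M : ℕ) : ℝ) / 2048)}
  set A2 : Set W := {x | ∃ u ∈ Bl 0 (4096 * M),
        x ∈ {x | ∃ u' : V, nrm (u' - u) = l ∧ Fast x Set.univ u u' ((l : ℝ) / 2048)}}
  set A3 : Set W := {x | ∃ u ∈ Bl 0 (4096 * M),
        x ∈ {x | ∃ u' : V, nrm (u' - u) ≤ l ∧ Fast x Set.univ u u' (hm (u' - u) - (l : ℝ) ^ b)}}
  have hex : ∃ x : W, (∀ e, 0 ≤ x e) ∧ Fast x Set.univ 0 w (hm w + 1) ∧
      x ∉ A0 ∪ (A2 ∪ A3) := by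
    by_contra hcon
    push Not at hcon
    have hle : PP.real {x | Fast x Set.univ 0 w (hm w + 1)} ≤ PP.real (A0 ∪ (A2 ∪ A3)) := by
      have h := real_union_le {x | Fast x Set.univ 0 w (hm w + 1)} (A0 ∪ (A2 ∪ A3)) ∅ (by
        filter_upwards [nonneg_ae] with x hx hf
        exact Or.inl (hcon x hx hf))
      simpa using h
    linarith
  obtain ⟨x, hx, hf, hnot⟩ := hex
  rw [Set.mem_union, not_or, Set.mem_union, not_or] at hnot
  obtain ⟨h0, h2, h3⟩ := hnot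
  have hrep := rep_det hx w (4096 * M) l hl1 ((l : ℝ) ^ b) (by positivity) (hm w + 1)
    (by push_cast; linarith) hf h0 (fun u hu hex => h2 ⟨u, hu, hex⟩)
    (fun u hu hex => h3 ⟨u, hu, hex⟩)
  refine hrep.weaken ?_
  have hpow : (l : ℝ) ^ b = l * (l : ℝ) ^ (b - 1) := by
    rw [Real.rpow_sub hl0, Real.rpow_one]
    field_simp
  have hpos : 0 < (l : ℝ) ^ (b - 1) := by positivity
  have hge : 1 ≤ l * (l : ℝ) ^ (b - 1) := by
    rw [← hpow]
    exact Real.one_le_rpow hl1' (by linarith)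
  have hlM : (l : ℝ) ≤ M * (l : ℝ) ^ (b - 1) := by
    calc (l : ℝ) ≤ l * (l * (l : ℝ) ^ (b - 1)) := by nlinarith
      _ = (l : ℝ) ^ 2 * (l : ℝ) ^ (b - 1) := by ring
      _ ≤ M * (l : ℝ) ^ (b - 1) := mul_le_mul_of_nonneg_right hM1' hpos.le
  have t2 : 2048 * ((hm w + 1) / l) * (l : ℝ) ^ b ≤ 4096 * (M * (l : ℝ) ^ (b - 1)) := by
    have : 2048 * ((hm w + 1) / l) * (l : ℝ) ^ b = 2048 * (hm w + 1) * (l : ℝ) ^ (b - 1) := by
      rw [hpow]
      field_simp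
    rw [this]
    have : 2048 * (hm w + 1) ≤ 4096 * M := by linarith
    calc _ ≤ 4096 * M * (l : ℝ) ^ (b - 1) := mul_le_mul_of_nonneg_right this hpos.le
      _ = _ := by ring
  have t3 : 10 ^ 4 * (M : ℝ) * (l : ℝ) ^ (b - 1) = 10 ^ 4 * (M * (l : ℝ) ^ (b - 1)) := by ring
  rw [t3]
  linarith

end Pool.Agent.K4H17.FPP
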