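import Pool.Agent.K4H17.FPP.AsmOuter
import Pool.Agent.K4H17.FPP.Hm
import Pool.Agent.K4H17.FPP.RepStep
import Pool.Agent.K4H17.FPP.Chain
import Pool.Agent.K4H17.FPP.Gap
import Pool.Agent.K4H17.FPP.Moments
import Pool.Agent.K4H17.FPP.L1Mean

/-!
First-passage percolation on `ℤ²`: both halves of the shape problem from the fluctuations of
the passage times around their means.
-/

set_option autoImplicit false
open MeasureTheory ProbabilityTheory Filter
open scoped Pointwise Topology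

namespace Pool.Agent.K4H17.FPP

variable {Ω : Type} [MeasureSpace Ω] {X : Sym2 V → Ω → ℝ} {T : Ω → V → ℝ} {μ : ℝ × ℝ → ℝ}

/-- transfer of a one-point event -/
theorem Setting.real_tm (S : Setting Ω X T μ) (v : V) {B : Set ℝ} (hB : MeasurableSet B) :
    (volume : Measure Ω).real {ω | T ω v ∈ B} = PP.real {x | tm x v ∈ B} := by
  have h1 : (fun ω => T ω v) = (fun x : W => tm x v) ∘ (fun ω e => X e ω) := by
    funext ω
    exact S.T_eq ω v
  have h2 : (volume : Measure Ω).map (fun ω => T ω v) = PP.map (fun x : W => tm x v) := by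
    rw [h1, ← S.map_eq]
    rw [AEMeasurable.map_map_of_aemeasurable]
    · rw [S.map_eq]
      exact tm_aemeasurable v
    · exact S.measurable_weights.aemeasurable
  have h3 : (volume : Measure Ω) {ω | T ω v ∈ B} =
      ((volume : Measure Ω).map (fun ω => T ω v)) B :=
    (Measure.map_apply_of_aemeasurable (S.T_measurable v) hB).symm
  have h4 : PP {x | tm x v ∈ B} = (PP.map (fun x : W => tm x v)) B :=
    (Measure.map_apply_of_aemeasurable (tm_aemeasurable v) hB).symm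
  rw [measureReal_def, measureReal_def, h3, h4, h2]

theorem Setting.real_abs (S : Setting Ω X T μ) (v : V) (m c : ℝ) :
    (volume : Measure Ω).real {ω | c ≤ |T ω v - m|} = PP.real {x | c ≤ |tm x v - m|} := by
  have hB : MeasurableSet {t : ℝ | c ≤ |t - m|} :=
    measurableSet_le measurable_const ((measurable_id.sub_const m).abs)
  exact S.real_tm v hB

theorem Setting.integrable_iff (S : Setting Ω X T μ) (v : V) {f : ℝ → ℝ} (hf : Measurable f) :
    Integrable (fun ω => f (T ω v)) (volume : Measure Ω) ↔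
      Integrable (fun x : W => f (tm x v)) PP := by
  have hg : AEStronglyMeasurable (fun x : W => f (tm x v))
      ((volume : Measure Ω).map (fun ω e => X e ω)) := by
    rw [S.map_eq]
    exact (hf.comp_aemeasurable (tm_aemeasurable v)).aestronglyMeasurable
  have h1 := integrable_map_measure hg S.measurable_weights.aemeasurable
  rw [S.map_eq] at h1
  rw [h1]
  have h2 : (fun ω => f (T ω v)) = (fun x : W => f (tm x v)) ∘ (fun ω e => X e ω) := by
    funext ω
    show f (T ω v) = f (tm (fun e => X e ω) v)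
    rw [S.T_eq]
  rw [h2]

/-- the nonrandom fluctuations are small as soon as the lower tail around the mean is -/
theorem gap_of_slo (S : Setting Ω X T μ) {Cμ : ℝ} (hμ : MuOK μ Cμ) {a : ℝ} (ha : 0 < a)
    (ha1 : a < 1) (hS : ∀ β > a, SLoF hm β) :
    ∀ ε > 0, ∃ C, ∀ v, hm v ≤ at' μ v + C * (1 + (nrm v : ℝ)) ^ (a + ε) := by
  intro ε hε
  obtain ⟨b, hb⟩ : ∃ b : ℝ, b = min (a + ε) ((1 + a) / 2) := ⟨_, rfl⟩
  have h1 : a < b := by rw [hb]; exact lt_min (by linarith) (by linarith)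
  have h2 : b < 1 := by rw [hb]; exact lt_of_le_of_lt (min_le_right _ _) (by linarith)
  have h3 : b ≤ a + ε := by rw [hb]; exact min_le_left _ _
  have hstep := rep_step sawBound ha h1 h2 hS
  have hge : ∀ v, at' μ v ≤ hm v := at'_le_hm S
  have hchain := rep_chain (h := hm) hm_sub (fun v => (hμ.ge v).trans (hge v))
    (fun v => hm_lim S v) hμ (by linarith) h2 hstep
  obtain ⟨K', hK'⟩ := gap_of_rep hm_sub hμ hge (by linarith) h2 hchain
  refine ⟨max K' 0, fun v => (hK' v).trans ?_⟩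
  have h4 : (1 : ℝ) ≤ 1 + nrm v := by
    have : (0 : ℝ) ≤ nrm v := Nat.cast_nonneg _
    linarith
  have h5 : (1 + (nrm v : ℝ)) ^ b ≤ (1 + (nrm v : ℝ)) ^ (a + ε) :=
    Real.rpow_le_rpow_of_exponent_le h4 h3
  have h6 : 0 ≤ (1 + (nrm v : ℝ)) ^ b := by positivity
  have h7 : K' * (1 + (nrm v : ℝ)) ^ b ≤ max K' 0 * (1 + (nrm v : ℝ)) ^ (a + ε) :=
    (mul_le_mul_of_nonneg_right (le_max_left K' 0) h6).trans
      (mul_le_mul_of_nonneg_left h5 (le_max_right K' 0))
  linarith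

/-- tails around the time constant give tails around the mean -/
theorem tail_mean (S : Setting Ω X T μ) {Cμ : ℝ} (hμ : MuOK μ Cμ) {a : ℝ} (ha : 0 < a)
    (ha1 : a < 1) (hU : ∀ β > a, SUp μ β) (hL : ∀ β > a, SLo μ β) :
    ∀ ε > (0:ℝ), ∃ c > (0:ℝ), ∃ N0 : ℕ, ∀ v : V, N0 ≤ nrm v →
      PP.real {x | (nrm v : ℝ)^(a+ε) ≤ |tm x v - hm v|} ≤ Real.exp (-(nrm v : ℝ)^c) := by
  have hP := S.prob
  intro ε hε
  obtain ⟨c1, hc1, N1, hN1⟩ := hU (a + ε) (by linarith)
  obtain ⟨c2, hc2, N2, hN2⟩ := hL (a + ε / 2) (by linarith)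
  obtain ⟨C, hC⟩ := l1_of_sup S hμ a ha ha1 (fun β hβ _ => hU β hβ) (ε / 4) (by linarith)
  have hmu : ∀ v, hm v ≤ at' μ v + |C| * (1 + (nrm v : ℝ)) ^ (a + ε / 4) := by
    intro v
    have h1 := hC v
    have h2 : hm v - at' μ v = ∫ ω, (T ω v - at' μ v) := by
      rw [integral_sub (integrable_T S v) (integrable_const _), hm_eq S]
      simp
    have h3 : ∫ ω, (T ω v - at' μ v) ≤ ∫ ω, |T ω v - at' μ v| := by
      apply integral_mono ((integrable_T S v).sub (integrable_const _))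
        (((integrable_T S v).sub (integrable_const _)).abs)
      intro ω
      exact le_abs_self _
    have h4 : C * (1 + (nrm v : ℝ)) ^ (a + ε / 4) ≤ |C| * (1 + (nrm v : ℝ)) ^ (a + ε / 4) :=
      mul_le_mul_of_nonneg_right (le_abs_self C) (by positivity)
    linarith
  obtain ⟨c, hc⟩ : ∃ c : ℝ, c = min c1 c2 / 2 := ⟨_, rfl⟩
  have hmin : 0 < min c1 c2 := lt_min hc1 hc2
  have hc0 : 0 < c := by rw [hc]; linarith
  have hcc1 : c < c1 := by rw [hc]; linarith [min_le_left c1 c2]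
  have hcc2 : c < c2 := by rw [hc]; linarith [min_le_right c1 c2]
  have e1 := exp_absorb hc0 hcc1 0 1 2 one_pos
  have e2 := exp_absorb hc0 hcc2 0 1 2 one_pos
  have e3 := pow_lt (show a + ε / 4 < a + ε by linarith) (2 * (|C| * 2 ^ (a + ε / 4)))
  have e4 := pow_lt (show a + ε / 2 < a + ε by linarith) 4
  obtain ⟨N3, hN3⟩ := eventually_atTop.1 (e1.and (e2.and (e3.and (e4.and
    (eventually_ge_atTop 1)))))
  refine ⟨c, hc0, max N1 (max N2 N3), fun v hv => ?_⟩
  have hv1 : N1 ≤ nrm v := le_trans (le_max_left _ _) hv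
  have hv2 : N2 ≤ nrm v := le_trans (le_trans (le_max_left _ _) (le_max_right _ _)) hv
  have hv3 : N3 ≤ nrm v := le_trans (le_trans (le_max_right _ _) (le_max_right _ _)) hv
  obtain ⟨f1, f2, f3, f4, f5⟩ := hN3 (nrm v) hv3
  set n := nrm v with hn
  have hn1 : (1 : ℝ) ≤ n := by exact_mod_cast f5
  have hn0 : (0 : ℝ) < n := by linarith
  have hU' := hN1 v hv1
  have hL' := hN2 n hv2 v le_rfl
  have hge : at' μ v ≤ hm v := at'_le_hm S v
  have hup := hmu v
  rw [← hn] at hup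
  have hpow : |C| * (1 + (n : ℝ)) ^ (a + ε / 4) ≤ |C| * 2 ^ (a + ε / 4) * (n : ℝ) ^ (a + ε / 4) := by
    rw [mul_assoc, ← Real.mul_rpow (by norm_num) hn0.le]
    apply mul_le_mul_of_nonneg_left _ (abs_nonneg C)
    exact Real.rpow_le_rpow (by linarith) (by linarith) (by linarith)
  have hpos : 0 < (n : ℝ) ^ (a + ε / 2) := by positivity
  refine (real_union_le _ {x | ¬ Fast x Set.univ 0 v (at' μ v + (n : ℝ) ^ (a + ε))}
    {x | Fast x Set.univ 0 v (at' μ v - (n : ℝ) ^ (a + ε / 2))} ?_).trans ?_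
  · filter_upwards [nonneg_ae] with x hx hx2
    have hx3 : (n : ℝ) ^ (a + ε) ≤ |tm x v - hm v| := hx2
    rcases le_abs.1 hx3 with h | h
    · left
      intro hf
      have := (tm_lt_iff hx v _).2 hf
      linarith
    · right
      apply (tm_lt_iff hx v _).1
      linarith
  · rw [Real.rpow_zero, mul_one, one_mul] at f1 f2
    linarith

/-- the lower tail around the mean controls the outer half and the nonrandom fluctuations -/
theorem low_mean (S : Setting Ω X T μ) (a : ℝ) (ha : 0 < a) (ha1 : a < 1)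
    (hlow : ∀ ε > (0 : ℝ), ∃ C : ℝ, ∀ v : V, v ≠ 0 →
        ((volume : Measure Ω) {ω | T ω v < (∫ ω', T ω' v) - (nrm v : ℝ) ^ (a + ε)}).toReal ≤
          C * (nrm v : ℝ) ^ (-(3 * (1 - a)))) :
    (∀ ζ, 0 < ζ → ζ < 1 - a → ∃ c > (0 : ℝ), ∀ᶠ t : ℝ in atTop,
        ((volume : Measure Ω) (outerEv T μ (a - 1 + ζ) t)).toReal ≤ Real.exp (-t ^ c)) ∧
      ∀ ε > (0 : ℝ), ∃ C : ℝ, ∀ v : V,
        ∫ ω, T ω v ≤ at' μ v + C * (1 + (nrm v : ℝ)) ^ (a + ε) := by
  have hP := S.prob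
  have hsaw := sawBound
  obtain ⟨Cμ, hμ⟩ := muOK S hsaw
  simp only [← hm_eq S] at hlow ⊢
  have hS : ∀ β > a, SLoF hm β := loF_all hm_sub hsaw ha ha1
    (hloT_of_p2p hm_sub ha ha1 (fun β hβ _ => by
      obtain ⟨C, hC⟩ := hlow (β - a) (by linarith)
      refine ⟨C, fun v hv => ?_⟩
      have := hC v hv
      rw [add_sub_cancel] at this
      rw [← S.real_T_lt]
      exact this))
  refine ⟨?_, gap_of_slo S hμ ha ha1 hS⟩
  have hL : ∀ β > a, SLo μ β := by
    intro β hβ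
    obtain ⟨c, hc, N0, hN0⟩ := hS β hβ
    refine ⟨c, hc, N0, fun N hN v hv => le_trans (measureReal_mono ?_ (measure_ne_top _ _))
      (hN0 N hN v hv)⟩
    intro x hx
    exact Fast.mono hx le_rfl (by
      have := at'_le_hm S v
      linarith)
  exact outer_of_slo S hμ hsaw a ha ha1 (fun β hβ _ => hL β hβ)

theorem mean_tfae (S : Setting Ω X T μ) (a : ℝ) (ha : 0 < a) (ha1 : a < 1) :
    List.TFAE [
      ∀ ζ, 0 < ζ → ζ < 1 - a → ∀ q > (0 : ℝ),
        ((fun t : ℝ => ((volume : Measure Ω) (outerEv T μ (a - 1 + ζ) t)).toReal) =O[atTop]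
          fun t => t ^ (-q)) ∧
        (fun t : ℝ => ((volume : Measure Ω) (innerEv T μ (a - 1 + ζ) t)).toReal) =O[atTop]
          fun t => t ^ (-q),
      ∀ ζ, 0 < ζ → ζ < 1 - a → ∃ c > (0 : ℝ), ∀ᶠ t : ℝ in atTop,
        ((volume : Measure Ω) (outerEv T μ (a - 1 + ζ) t)).toReal ≤ Real.exp (-t ^ c) ∧
        ((volume : Measure Ω) (innerEv T μ (a - 1 + ζ) t)).toReal ≤ Real.exp (-t ^ c),
      ∀ ε > (0 : ℝ), ∃ C : ℝ, ∀ v : V, v ≠ 0 →
        ((volume : Measure Ω) {ω | (nrm v : ℝ) ^ (a + ε) ≤ |T ω v - ∫ ω', T ω' v|}).toReal ≤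
          C * (nrm v : ℝ) ^ (-(3 * (1 - a))),
      (∀ ε > (0 : ℝ), ∃ C : ℝ, ∀ v : V, v ≠ 0 →
        ((volume : Measure Ω) {ω | T ω v < (∫ ω', T ω' v) - (nrm v : ℝ) ^ (a + ε)}).toReal ≤
          C * (nrm v : ℝ) ^ (-(3 * (1 - a)))) ∧
        (∀ ε > (0 : ℝ), ∃ C : ℝ, ∀ v : V,
          ∫ ω, |T ω v - ∫ ω', T ω' v| ≤ C * (1 + (nrm v : ℝ)) ^ (a + ε)),
      ∀ k : ℕ, ∀ ε > (0 : ℝ), ∃ C : ℝ, ∀ v : V,
        Integrable (fun ω => |T ω v - ∫ ω', T ω' v| ^ k) (volume : Measure Ω) ∧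
        ∫ ω, |T ω v - ∫ ω', T ω' v| ^ k ≤ C * (1 + (nrm v : ℝ)) ^ ((k : ℝ) * (a + ε))] := by
  have hP := S.prob
  have hsaw := sawBound
  obtain ⟨Cμ, hμ⟩ := muOK S hsaw
  simp only [← hm_eq S]
  have hin := inner_tfae S a ha ha1
  tfae_have 2 → 1 := by
    intro h ζ h1 h2 q _
    obtain ⟨c, hc, hev⟩ := h ζ h1 h2
    exact ⟨isBigO_of_exp (fun t => ENNReal.toReal_nonneg) hc (hev.mono fun t ht => ht.1) q,
      isBigO_of_exp (fun t => ENNReal.toReal_nonneg) hc (hev.mono fun t ht => ht.2) q⟩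
  tfae_have 1 → 5 := by
    intro h
    have hU : ∀ β > a, SUp μ β := up_all hμ hsaw ha ha1
      (hup_of_inner S hμ a ha ha1 (fun ζ h1 h2 => ⟨1, one_pos, (h ζ h1 h2 1 one_pos).2⟩))
    have hH := hloF_of_outer S hμ a ha ha1 (fun ζ h1 h2 =>
      (h ζ h1 h2 (3 * (1 - a)) (by linarith)).1)
    have hL : ∀ β > a, SLo μ β := loF_all hμ.subOK hsaw ha ha1 (fun β h1 h2 => by
      obtain ⟨κ, hκ, hκ2⟩ := hH β h1 h2
      exact ⟨κ, hκ, hκ2.thin h2 (by linarith)⟩)
    have ht := moments_of_tail ha (tail_mean S hμ ha ha1 hU hL)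
    intro k ε hε
    obtain ⟨C, hC⟩ := ht k ε hε
    refine ⟨C, fun v => ⟨?_, ?_⟩⟩
    · exact S.integrable_comp v (f := fun t => |t - hm v| ^ k) (hC v).1
    · have h3 := S.integral_comp v (f := fun t => |t - hm v| ^ k)
        (((measurable_id.sub_const (hm v)).abs).pow_const k)
      rw [h3]
      exact (hC v).2
  tfae_have 5 → 3 := by
    intro h
    have ht : ∀ k : ℕ, ∀ ε > (0:ℝ), ∃ C : ℝ, ∀ v,
        Integrable (fun x : W => |tm x v - hm v|^k) PP ∧
        ∫ x, |tm x v - hm v|^k ∂PP ≤ C * (1 + (nrm v : ℝ))^((k:ℝ)*(a+ε)) := by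
      intro k ε hε
      obtain ⟨C, hC⟩ := h k ε hε
      have hmeas : ∀ v : V, Measurable (fun t : ℝ => |t - hm v| ^ k) := fun v =>
        ((measurable_id.sub_const (hm v)).abs).pow_const k
      refine ⟨C, fun v => ⟨?_, ?_⟩⟩
      · exact (S.integrable_iff v (hmeas v)).1 (hC v).1
      · have h3 := S.integral_comp v (f := fun t => |t - hm v| ^ k) (hmeas v)
        rw [← h3]
        exact (hC v).2
    have h2 := tail_of_moments ha ht
    intro ε hε
    obtain ⟨C, hC⟩ := h2 ε hε (3 * (1 - a)) (by linarith)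
    refine ⟨C, fun v hv => ?_⟩
    have := hC v hv
    rw [← S.real_abs] at this
    exact this
  tfae_have 3 → 4 := by
    intro h
    refine ⟨fun ε hε => ?_, ?_⟩
    · obtain ⟨C, hC⟩ := h ε hε
      refine ⟨C, fun v hv => le_trans (measureReal_mono ?_ (measure_ne_top _ _)) (hC v hv)⟩
      intro ω hω
      have h1 : T ω v < hm v - (nrm v : ℝ) ^ (a + ε) := hω
      show (nrm v : ℝ) ^ (a + ε) ≤ |T ω v - hm v|
      rw [abs_sub_comm]
      exact le_trans (by linarith) (le_abs_self _)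
    · have h2 := l1_of_tail ha ha1 (fun ε hε => by
        obtain ⟨C, hC⟩ := h ε hε
        refine ⟨C, fun v hv => ?_⟩
        rw [← S.real_abs]
        exact hC v hv)
      intro ε hε
      obtain ⟨C, hC⟩ := h2 ε hε
      refine ⟨C, fun v => ?_⟩
      have h3 := S.integral_comp v (f := fun t => |t - hm v|)
        ((measurable_id.sub_const (hm v)).abs)
      rw [h3]
      exact hC v
  tfae_have 4 → 2 := by
    rintro ⟨hlow, hl1⟩
    simp only [hm_eq S] at hlow
    obtain ⟨hO, hgap⟩ := low_mean S a ha ha1 hlow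
    simp only [← hm_eq S] at hgap
    have hmu := sup_mean S a hgap hl1
    have hI : ∀ ζ, 0 < ζ → ζ < 1 - a → ∃ c > (0 : ℝ), ∀ᶠ t : ℝ in atTop,
        ((volume : Measure Ω) (innerEv T μ (a - 1 + ζ) t)).toReal ≤ Real.exp (-t ^ c) := by
      apply (hin.out 3 4).1
      intro ε hε
      obtain ⟨C, hC⟩ := hmu ε hε
      exact ⟨C, fun v => ⟨integrable_T S v, hC v⟩⟩
    intro ζ h1 h2
    obtain ⟨c1, hc1, hev1⟩ := hI ζ h1 h2
    obtain ⟨c2, hc2, hev2⟩ := hO ζ h1 h2
    refine ⟨min c1 c2, lt_min hc1 hc2, ?_⟩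
    filter_upwards [hev1, hev2, eventually_ge_atTop 1] with t g1 g2 ht
    have k1 : t ^ (min c1 c2) ≤ t ^ c1 := Real.rpow_le_rpow_of_exponent_le ht (min_le_left _ _)
    have k2 : t ^ (min c1 c2) ≤ t ^ c2 := Real.rpow_le_rpow_of_exponent_le ht (min_le_right _ _)
    exact ⟨g2.trans (Real.exp_le_exp.2 (by linarith)), g1.trans (Real.exp_le_exp.2 (by linarith))⟩
  tfae_finish

end Pool.Agent.K4H17.FPP
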