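import Pool.Agent.K4H17.FPP.AsmMean

/-!
First-passage percolation on `ℤ²`: both halves of the shape problem are equivalent to a
one-sided bound, the lower tail around the mean.
-/

set_option autoImplicit false
open MeasureTheory ProbabilityTheory Filter
open scoped Pointwise Topology

namespace Pool.Agent.K4H17.FPP

variable {Ω : Type} [MeasureSpace Ω] {X : Sym2 V → Ω → ℝ} {T : Ω → V → ℝ} {μ : ℝ × ℝ → ℝ}

/-- the first central moment is twice the mean of the negative part -/
theorem abs_central (v : V) :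
    ∫ x, |tm x v - hm v| ∂PP = 2 * ∫ x, max (hm v - tm x v) 0 ∂PP := by
  have h1 := tm_integrable v
  have h2 : Integrable (fun x : W => hm v - tm x v) PP := (integrable_const _).sub h1
  have h3 : Integrable (fun x : W => max (hm v - tm x v) 0) PP := h2.pos_part
  have h4 : ∀ x : W, |tm x v - hm v| = (tm x v - hm v) + 2 * max (hm v - tm x v) 0 := by
    intro x
    rcases le_total (tm x v) (hm v) with h | h
    · rw [abs_of_nonpos (by linarith), max_eq_left (by linarith)]
      ring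
    · rw [abs_of_nonneg (by linarith), max_eq_right (by linarith)]
      ring
  have h5 : ∫ x, (tm x v - hm v) ∂PP = 0 := by
    rw [integral_sub h1 (integrable_const _)]
    simp [hm]
  calc ∫ x, |tm x v - hm v| ∂PP
      = ∫ x, ((tm x v - hm v) + 2 * max (hm v - tm x v) 0) ∂PP :=
        integral_congr_ae (Eventually.of_forall h4)
    _ = ∫ x, (tm x v - hm v) ∂PP + ∫ x, 2 * max (hm v - tm x v) 0 ∂PP :=
        integral_add (h1.sub (integrable_const _)) (h3.const_mul 2)
    _ = 2 * ∫ x, max (hm v - tm x v) 0 ∂PP := by rw [h5, integral_const_mul, zero_add]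

theorem neg_part_le (v : V) (b : ℝ) (hb : 0 ≤ b) :
    ∫ x, max (hm v - tm x v) 0 ∂PP ≤
      b + PP.real {x | Fast x Set.univ 0 v (hm v - b)} * hm v := by
  have h1 := tm_integrable v
  have h2 : Integrable (fun x : W => max (hm v - tm x v) 0) PP :=
    ((integrable_const _).sub h1).pos_part
  set F : Set W := {x | Fast x Set.univ 0 v (hm v - b)} with hF
  have hFm : MeasurableSet F := measurableSet_fast _ _ _ _
  have h3 : Integrable (fun x : W => b + F.indicator (fun _ => hm v) x) PP :=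
    (integrable_const _).add ((integrable_const _).indicator hFm)
  have h4 : ∫ x, max (hm v - tm x v) 0 ∂PP ≤ ∫ x, (b + F.indicator (fun _ => hm v) x) ∂PP := by
    apply integral_mono_ae h2 h3
    filter_upwards [nonneg_ae] with x hx
    have h5 := tm_nonneg hx v
    have h6 := hm_nonneg v
    show max (hm v - tm x v) 0 ≤ b + F.indicator (fun _ => hm v) x
    by_cases hxF : x ∈ F
    · rw [Set.indicator_of_mem hxF]
      exact max_le (by linarith) (by linarith)
    · rw [Set.indicator_of_notMem hxF, add_zero]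
      have h7 : ¬ tm x v < hm v - b := fun h => hxF ((tm_lt_iff hx v _).1 h)
      push Not at h7
      exact max_le (by linarith) hb
  refine h4.trans (le_of_eq ?_)
  rw [integral_add (integrable_const _) ((integrable_const _).indicator hFm),
    integral_indicator_const _ hFm]
  simp

/-- the lower tail around the mean controls the first central moment -/
theorem l1_of_lower {a : ℝ} (ha : 0 < a) (ha1 : a < 1)
    (hlow : ∀ ε > (0 : ℝ), ∃ C : ℝ, ∀ v : V, v ≠ 0 →
      PP.real {x | Fast x Set.univ 0 v (hm v - (nrm v : ℝ) ^ (a + ε))} ≤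
        C * (nrm v : ℝ) ^ (-(3 * (1 - a)))) :
    ∀ ε > (0 : ℝ), ∃ C : ℝ, ∀ v : V,
      ∫ x, |tm x v - hm v| ∂PP ≤ C * (1 + (nrm v : ℝ)) ^ (a + ε) := by
  intro ε hε
  obtain ⟨C, hC⟩ := hlow ε hε
  refine ⟨2 * (1 + |C|), fun v => ?_⟩
  rw [abs_central, mul_assoc]
  apply mul_le_mul_of_nonneg_left _ (by norm_num)
  have hn : (0 : ℝ) ≤ nrm v := Nat.cast_nonneg _
  have hpow : (nrm v : ℝ) ^ (a + ε) ≤ (1 + (nrm v : ℝ)) ^ (a + ε) :=
    Real.rpow_le_rpow hn (by linarith) (by linarith)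
  have hpow0 : 0 ≤ (1 + (nrm v : ℝ)) ^ (a + ε) := by positivity
  by_cases hv : v = 0
  · subst hv
    have h1 := neg_part_le 0 0 le_rfl
    have h2 : (0 : ℝ) + PP.real {x | Fast x Set.univ 0 0 (hm 0 - 0)} * hm 0 = 0 := by
      rw [hm_zero]
      ring
    rw [h2] at h1
    refine h1.trans ?_
    positivity
  · have hv1 := one_le_nrm hv
    have hv0 : (0 : ℝ) < nrm v := by linarith
    refine (neg_part_le v ((nrm v : ℝ) ^ (a + ε)) (by positivity)).trans ?_
    have h1 := hC v hv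
    have h2 : hm v ≤ nrm v := by
      have := hm_sub.le v
      linarith
    have h3 := hm_nonneg v
    have h4 : PP.real {x | Fast x Set.univ 0 v (hm v - (nrm v : ℝ) ^ (a + ε))} * hm v ≤
        |C| * (nrm v : ℝ) ^ (a + ε) := by
      calc PP.real {x | Fast x Set.univ 0 v (hm v - (nrm v : ℝ) ^ (a + ε))} * hm v
          ≤ (|C| * (nrm v : ℝ) ^ (-(3 * (1 - a)))) * nrm v := by
            apply mul_le_mul _ h2 h3 (by positivity)
            exact h1.trans (mul_le_mul_of_nonneg_right (le_abs_self C) (by positivity))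
        _ = |C| * ((nrm v : ℝ) ^ (-(3 * (1 - a))) * (nrm v : ℝ) ^ (1 : ℝ)) := by
            rw [Real.rpow_one]
            ring
        _ = |C| * (nrm v : ℝ) ^ (-(3 * (1 - a)) + 1) := by rw [Real.rpow_add hv0]
        _ ≤ |C| * (nrm v : ℝ) ^ (a + ε) := by
            apply mul_le_mul_of_nonneg_left _ (abs_nonneg C)
            exact Real.rpow_le_rpow_of_exponent_le hv1 (by linarith)
    have h5 : |C| * (nrm v : ℝ) ^ (a + ε) ≤ |C| * (1 + (nrm v : ℝ)) ^ (a + ε) :=
      mul_le_mul_of_nonneg_left hpow (abs_nonneg C)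
    linarith

theorem one_tfae (S : Setting Ω X T μ) (a : ℝ) (ha : 0 < a) (ha1 : a < 1) :
    List.TFAE [
      ∀ ζ, 0 < ζ → ζ < 1 - a → ∀ q > (0 : ℝ),
        ((fun t : ℝ => ((volume : Measure Ω) (outerEv T μ (a - 1 + ζ) t)).toReal) =O[atTop]
          fun t => t ^ (-q)) ∧
        (fun t : ℝ => ((volume : Measure Ω) (innerEv T μ (a - 1 + ζ) t)).toReal) =O[atTop]
          fun t => t ^ (-q),
      ∀ ζ, 0 < ζ → ζ < 1 - a → ∃ c > (0 : ℝ), ∀ᶠ t : ℝ in atTop,
        ((volume : Measure Ω) (outerEv T μ (a - 1 + ζ) t)).toReal ≤ Real.exp (-t ^ c) ∧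
        ((volume : Measure Ω) (innerEv T μ (a - 1 + ζ) t)).toReal ≤ Real.exp (-t ^ c),
      ∀ ε > (0 : ℝ), ∃ C : ℝ, ∀ v : V, v ≠ 0 →
        ((volume : Measure Ω) {ω | T ω v < (∫ ω', T ω' v) - (nrm v : ℝ) ^ (a + ε)}).toReal ≤
          C * (nrm v : ℝ) ^ (-(3 * (1 - a))),
      ∀ k : ℕ, ∀ ε > (0 : ℝ), ∃ C : ℝ, ∀ v : V,
        Integrable (fun ω => |T ω v - ∫ ω', T ω' v| ^ k) (volume : Measure Ω) ∧
        ∫ ω, |T ω v - ∫ ω', T ω' v| ^ k ≤ C * (1 + (nrm v : ℝ)) ^ ((k : ℝ) * (a + ε))] := by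
  have h := mean_tfae S a ha ha1
  tfae_have 1 ↔ 2 := h.out 0 1
  tfae_have 1 ↔ 4 := h.out 0 4
  have h14 := h.out 0 3
  tfae_have 1 → 3 := fun h1 => (h14.1 h1).1
  tfae_have 3 → 1 := by
    intro hlow
    apply h14.2
    refine ⟨hlow, ?_⟩
    have hlow' : ∀ ε > (0 : ℝ), ∃ C : ℝ, ∀ v : V, v ≠ 0 →
      PP.real {x | Fast x Set.univ 0 v (hm v - (nrm v : ℝ) ^ (a + ε))} ≤
        C * (nrm v : ℝ) ^ (-(3 * (1 - a))) := by
      intro ε hε
      obtain ⟨C, hC⟩ := hlow ε hε
      refine ⟨C, fun v hv => ?_⟩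
      have h1 := hC v hv
      rw [← hm_eq S] at h1
      rw [← S.real_T_lt]
      exact h1
    intro ε hε
    obtain ⟨C, hC⟩ := l1_of_lower ha ha1 hlow' ε hε
    refine ⟨C, fun v => ?_⟩
    have h3 := S.integral_comp v (f := fun t => |t - hm v|)
      ((measurable_id.sub_const (hm v)).abs)
    rw [← hm_eq S, h3]
    exact hC v
  tfae_finish

end Pool.Agent.K4H17.FPP
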