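import Pool.Agent.K4H17.FPP.DefsF
import Pool.Agent.K4H17.FPP.Ev

/-!
First-passage percolation on `ℤ²`: from the outer half of the shape problem to polynomial lower
tails at all endpoints of an annulus (adapted from `hlo_of_outer` in `Ev.lean`).
-/

set_option autoImplicit false
open MeasureTheory ProbabilityTheory Filter Asymptotics
open scoped Pointwise

namespace Pool.Agent.K4H17.FPP

variable {Ω : Type} [MeasureSpace Ω] {X : Sym2 V → Ω → ℝ} {T : Ω → V → ℝ} {μ : ℝ × ℝ → ℝ} {Cμ : ℝ}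

open Ev in
/-- from the outer half of the shape problem to polynomial lower tails -/
theorem hloF_of_outer (S : Setting Ω X T μ) (hμ : MuOK μ Cμ) (a : ℝ) (ha0 : 0 < a) (ha1 : a < 1)
    (h : ∀ ζ, 0 < ζ → ζ < 1 - a →
      (fun t : ℝ => ((volume : Measure Ω) (outerEv T μ (a - 1 + ζ) t)).toReal) =O[atTop]
        fun t => t ^ (-(3 * (1 - a)))) :
    ∀ β, a < β → β < 1 → ∃ κ > (0 : ℝ), HLoF (at' μ) β (2 * (1 - β) + κ) := by
  intro β hβ hβ1
  have hP := S.prob
  have hO := h ((β - a) / 2) (by linarith) (by linarith)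
  refine ⟨3 * (β - a), by linarith, ?_⟩
  obtain ⟨Q, hQ⟩ : ∃ Q : ℝ, Q = 3 * (1 - a) := ⟨_, rfl⟩
  obtain ⟨Q', hQ'⟩ : ∃ Q' : ℝ, Q' = 2 * (1 - β) + 3 * (β - a) := ⟨_, rfl⟩
  have hQ0 : 0 < Q := by rw [hQ]; linarith
  have hQ'0 : 0 < Q' := by rw [hQ']; linarith
  rw [← hQ] at hO
  rw [← hQ']
  set ζ : ℝ := (β - a) / 2 with hζ
  have hC1 := hμ.one_le
  obtain ⟨C0, hC0⟩ := hO.bound
  obtain ⟨t0, ht0⟩ := eventually_atTop.1 hC0
  have hp := ev_pow (show a + ζ < β by rw [hζ]; linarith) (by linarith)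
    (4 * (2 * Cμ + 1) ^ (a + ζ)) 0
  obtain ⟨n0, hn0⟩ := eventually_atTop.1 hp
  have hp2 := ev_pow hβ1 (by norm_num) 4096 0
  obtain ⟨n1, hn1⟩ := eventually_atTop.1 hp2
  set N1 : ℝ := max 1 (max (max n0 n1) (8192 * max t0 1)) with hN1
  have hN11 : 1 ≤ N1 := le_max_left _ _
  refine ⟨max (N1 ^ Q') ((8 * Cμ + 2) * (|C0| * 8192 ^ Q)), fun l hl => ?_⟩
  set n : ℝ := (l : ℝ) with hn
  have hnone : 1 ≤ n := by
    rw [hn]
    exact_mod_cast hl
  have hnpos : 0 < n := by linarith
  have hnq : 0 < n ^ (-Q') := Real.rpow_pos_of_pos (by linarith) _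
  by_cases hnN : n < N1
  · have h1 : PP.real {x | ∃ v : V, (l ≤ 2 * nrm v ∧ nrm v ≤ 2 * l) ∧
        Fast x Set.univ 0 v (at' μ v - n ^ β)} ≤ 1 := measureReal_le_one
    refine h1.trans ?_
    have h2 : n ^ Q' ≤ N1 ^ Q' := rpow_mono (by linarith) hnN.le hQ'0.le
    have h3 : n ^ Q' * n ^ (-Q') = 1 := by
      rw [← Real.rpow_add (by linarith), add_neg_cancel, Real.rpow_zero]
    calc (1 : ℝ) = n ^ Q' * n ^ (-Q') := h3.symm
      _ ≤ _ * n ^ (-Q') :=
        mul_le_mul_of_nonneg_right (h2.trans (le_max_left _ _)) hnq.le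
  · rw [not_lt] at hnN
    have hnn0 : n0 ≤ n :=
      (((le_max_left _ _).trans (le_max_left _ _)).trans (le_max_right _ _)).trans hnN
    have hnn1 : n1 ≤ n :=
      (((le_max_right _ _).trans (le_max_left _ _)).trans (le_max_right _ _)).trans hnN
    have hnt : 8192 * max t0 1 ≤ n := ((le_max_right _ _).trans (le_max_right _ _)).trans hnN
    have hnβ : 0 < n ^ β := Real.rpow_pos_of_pos (by linarith) _
    have hnβ1 : n ^ β ≤ n := by
      have := Real.rpow_le_rpow_of_exponent_le hnone hβ1.le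
      rwa [Real.rpow_one] at this
    have hn0' := hn0 n hnn0
    have hn1' := hn1 n hnn1
    rw [Real.rpow_one] at hn1'
    set g : ℝ := n ^ β / 4 with hg
    have hg0 : 0 < g := by positivity
    set J : ℕ := ⌈8 * Cμ * n ^ (1 - β)⌉₊ with hJ
    have hpw : 0 < n ^ (1 - β) := Real.rpow_pos_of_pos hnpos _
    have hJlow : 8 * Cμ * n ^ (1 - β) ≤ J := Nat.le_ceil _
    have hJup : (J : ℝ) < 8 * Cμ * n ^ (1 - β) + 1 := Nat.ceil_lt_add_one (by positivity)
    have hmul : n ^ (1 - β) * n ^ β = n := by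
      rw [← Real.rpow_add hnpos]
      simp
    have hJg : 2 * Cμ * n ≤ J * g := by
      have h1 : 8 * Cμ * n ^ (1 - β) * g ≤ J * g := mul_le_mul_of_nonneg_right hJlow hg0.le
      have h2 : 8 * Cμ * n ^ (1 - β) * g = 2 * Cμ * (n ^ (1 - β) * n ^ β) := by
        rw [hg]
        ring
      rw [h2, hmul] at h1
      exact h1
    have hJg2 : J * g ≤ 2 * Cμ * n + g := by
      have h1 : (J : ℝ) * g ≤ (8 * Cμ * n ^ (1 - β) + 1) * g :=
        mul_le_mul_of_nonneg_right hJup.le hg0.le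
      have h2 : (8 * Cμ * n ^ (1 - β) + 1) * g = 2 * Cμ * (n ^ (1 - β) * n ^ β) + g := by
        rw [hg]
        ring
      rw [h2, hmul] at h1
      exact h1
    set tt : ℕ → ℝ := fun j => n / 8192 + j * g with htt
    have htlow : ∀ j, n / 8192 ≤ tt j := by
      intro j
      have : (0 : ℝ) ≤ j * g := by positivity
      rw [htt]
      linarith
    have htup : ∀ j, j ≤ J → tt j ≤ (2 * Cμ + 1) * n := by
      intro j hj
      have h1 : (j : ℝ) * g ≤ J * g := mul_le_mul_of_nonneg_right (by exact_mod_cast hj) hg0.le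
      rw [htt]
      simp only
      nlinarith
    have htpow : ∀ j, j ≤ J → (tt j) ^ (a + ζ) ≤ n ^ β / 4 := by
      intro j hj
      have h0 : 0 ≤ tt j := le_trans (by positivity) (htlow j)
      have h1 : (tt j) ^ (a + ζ) ≤ ((2 * Cμ + 1) * n) ^ (a + ζ) :=
        rpow_mono h0 (htup j hj) (by linarith)
      rw [Real.mul_rpow (by linarith) (by linarith)] at h1
      nlinarith
    have hbd : ∀ j, (volume : Measure Ω).real (outerEv T μ (a - 1 + ζ) (tt j)) ≤
        |C0| * 8192 ^ Q * n ^ (-Q) := by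
      intro j
      have h1 := htlow j
      have h2 : 0 < tt j := lt_of_lt_of_le (by positivity) h1
      have h3 : max t0 1 ≤ n / 8192 := by
        rw [le_div_iff₀ (by norm_num)]
        linarith
      have h4 := ht0 (tt j) ((le_max_left _ _).trans (h3.trans h1))
      rw [Real.norm_eq_abs, Real.norm_eq_abs, abs_of_nonneg ENNReal.toReal_nonneg,
        abs_of_nonneg (Real.rpow_nonneg h2.le _)] at h4
      refine h4.trans ?_
      have h5 : (tt j) ^ (-Q) ≤ 8192 ^ Q * n ^ (-Q) := by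
        have h6 : (tt j) ^ (-Q) ≤ (n / 8192) ^ (-Q) :=
          Real.rpow_le_rpow_of_nonpos (by positivity) h1 (by linarith)
        refine h6.trans (le_of_eq ?_)
        rw [Real.div_rpow (by linarith) (by norm_num),
          Real.rpow_neg (by norm_num : (0:ℝ) ≤ 8192) Q]
        field_simp
      calc C0 * (tt j) ^ (-Q) ≤ |C0| * (tt j) ^ (-Q) :=
            mul_le_mul_of_nonneg_right (le_abs_self _) (Real.rpow_nonneg h2.le _)
        _ ≤ |C0| * (8192 ^ Q * n ^ (-Q)) :=
            mul_le_mul_of_nonneg_left h5 (abs_nonneg _)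
        _ = |C0| * 8192 ^ Q * n ^ (-Q) := by ring
    have hsub : {ω | ∃ v : V, (l ≤ 2 * nrm v ∧ nrm v ≤ 2 * l) ∧ T ω v < at' μ v - n ^ β} ⊆
        ⋃ j ∈ Finset.range (J + 1), outerEv T μ (a - 1 + ζ) (tt j) := by
      rintro ω ⟨v, ⟨hvl1, hvl2⟩, hTv⟩
      have hvn1 : n / 2 ≤ (nrm v : ℝ) := by
        have : n ≤ 2 * (nrm v : ℝ) := by rw [hn]; exact_mod_cast hvl1
        linarith
      have hvn2 : (nrm v : ℝ) ≤ 2 * n := by rw [hn]; exact_mod_cast hvl2
      have hge : n / 4096 ≤ at' μ v := by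
        have := hμ.ge v
        linarith
      have hle : at' μ v ≤ 2 * Cμ * n := by
        have := hμ.le v
        nlinarith
      have hex : ∃ j, T ω v ≤ tt j := by
        refine ⟨J, ?_⟩
        have : tt J = n / 8192 + J * g := rfl
        rw [this]
        have : 0 < n / 8192 := by positivity
        linarith
      classical
      set j := Nat.find hex with hj
      have hjT : T ω v ≤ tt j := Nat.find_spec hex
      have hjJ : j ≤ J := by
        refine Nat.find_min' hex ?_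
        have : tt J = n / 8192 + J * g := rfl
        rw [this]
        have : 0 < n / 8192 := by positivity
        linarith
      refine Set.mem_biUnion (Finset.mem_coe.2 (Finset.mem_range.2 (Nat.lt_succ_of_le hjJ))) ?_
      intro hincl
      have hmem := hincl (show (((v.1 : ℝ), (v.2 : ℝ)) : ℝ × ℝ) ∈ {x : ℝ × ℝ | ∃ v : ℤ × ℤ,
        T ω v ≤ tt j ∧ |x.1 - (v.1 : ℝ)| ≤ 1 / 2 ∧ |x.2 - (v.2 : ℝ)| ≤ 1 / 2} from
        ⟨v, hjT, by simp, by simp⟩)
      have htj : 0 < tt j := lt_of_lt_of_le (by positivity) (htlow j)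
      have hs : (1 + (tt j) ^ (a - 1 + ζ)) * tt j = tt j + (tt j) ^ (a + ζ) := by
        have : (tt j) ^ (a + ζ) = (tt j) ^ (a - 1 + ζ) * tt j := by
          rw [← Real.rpow_add_one htj.ne']
          congr 1
          ring
        rw [this]
        ring
      have hpos : 0 < tt j + (tt j) ^ (a + ζ) := by
        have := Real.rpow_nonneg htj.le (a + ζ)
        linarith
      rw [mem_smul_shape hμ (by rw [hs]; exact hpos), hs] at hmem
      have hmem' : at' μ v ≤ tt j + (tt j) ^ (a + ζ) := hmem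
      have hpow := htpow j hjJ
      rcases Nat.eq_zero_or_pos j with h0 | h0
      · have e : tt j = n / 8192 := by
          rw [h0, htt]
          simp
        rw [e] at hmem' hpow
        linarith
      · have h1 : ¬ T ω v ≤ tt (j - 1) := Nat.find_min hex (by omega)
        rw [not_le] at h1
        have e : tt (j - 1) = tt j - g := by
          rw [htt]
          simp only
          rw [Nat.cast_sub h0]
          push_cast
          ring
        rw [e] at h1
        linarith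
    have hfin : PP.real {x | ∃ v : V, (l ≤ 2 * nrm v ∧ nrm v ≤ 2 * l) ∧
        Fast x Set.univ 0 v (at' μ v - n ^ β)} ≤
        ((J : ℝ) + 1) * (|C0| * 8192 ^ Q * n ^ (-Q)) := by
      rw [← Setting.real_exists_lt S (fun v => l ≤ 2 * nrm v ∧ nrm v ≤ 2 * l)
        (fun v => at' μ v - n ^ β)]
      refine (measureReal_mono hsub (measure_ne_top _ _)).trans ?_
      refine (measureReal_biUnion_finset_le _ _).trans ?_
      refine (Finset.sum_le_sum (fun j _ => hbd j)).trans ?_
      rw [Finset.sum_const, nsmul_eq_mul, Finset.card_range]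
      push_cast
      exact le_rfl
    refine hfin.trans ?_
    have hnp1 : 1 ≤ n ^ (1 - β) := Real.one_le_rpow hnone (by linarith)
    have hJ1 : (J : ℝ) + 1 ≤ (8 * Cμ + 2) * n ^ (1 - β) := by nlinarith
    have hK0 : 0 ≤ |C0| * 8192 ^ Q * n ^ (-Q) := by positivity
    have hexp : n ^ (1 - β) * n ^ (-Q) = n ^ (-Q') := by
      rw [← Real.rpow_add hnpos]
      congr 1
      rw [hQ, hQ']
      ring
    calc ((J : ℝ) + 1) * (|C0| * 8192 ^ Q * n ^ (-Q))
        ≤ ((8 * Cμ + 2) * n ^ (1 - β)) * (|C0| * 8192 ^ Q * n ^ (-Q)) :=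
          mul_le_mul_of_nonneg_right hJ1 hK0
      _ = ((8 * Cμ + 2) * (|C0| * 8192 ^ Q)) * (n ^ (1 - β) * n ^ (-Q)) := by ring
      _ = ((8 * Cμ + 2) * (|C0| * 8192 ^ Q)) * n ^ (-Q') := by rw [hexp]
      _ ≤ _ * n ^ (-Q') :=
          mul_le_mul_of_nonneg_right (le_max_right _ _) hnq.le

end Pool.Agent.K4H17.FPP
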