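import Pool.Agent.K4H17.FPP.Indep

/-!
First-passage percolation on `ℤ²`: the upper-tail multiscale step, non-asymptotic form.
-/

set_option autoImplicit false
open MeasureTheory ProbabilityTheory Filter
open scoped Pointwise

namespace Pool.Agent.K4H17.FPP

theorem cst_mono {x : W} (hx : ∀ e, 0 ≤ x e) (p : ℕ → V) {i n : ℕ} (h : i ≤ n) :
    cst x p i ≤ cst x p n := by
  unfold cst
  apply Finset.sum_le_sum_of_subset_of_nonneg
  · exact Finset.range_mono h
  · intro j _ _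
    exact hx _

/-- a cheap path leaves a large ball only if it is cheap and long -/
theorem fast_local {x : W} (hx : ∀ e, 0 ≤ x e) {R : ℕ} {u : V} {c : ℝ}
    (h : Fast x Set.univ 0 u c) :
    Fast x (Bl 0 R) 0 u c ∨ ∃ w : V, R ≤ nrm w ∧ Fast x Set.univ 0 w c := by
  obtain ⟨n, p, hp, hlt⟩ := h
  by_cases hall : ∀ i ≤ n, p i ∈ Bl 0 R
  · exact Or.inl ⟨n, p, ⟨hp.1, hp.2.1, hp.2.2.1, hall⟩, hlt⟩
  · right
    push Not at hall
    obtain ⟨i, hi, hpi⟩ := hall
    refine ⟨p i, ?_, i, p, ⟨hp.1, rfl, fun j hj => hp.2.2.1 j (by omega),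
      fun _ _ => Set.mem_univ _⟩, lt_of_le_of_lt (cst_mono hx p hi) hlt⟩
    have : ¬ nrm (p i - 0) ≤ R := hpi
    rw [sub_zero] at this
    omega

theorem real_union_le (A B C : Set W) (h : ∀ᵐ x ∂PP, x ∈ A → x ∈ B ∨ x ∈ C) :
    PP.real A ≤ PP.real B + PP.real C := by
  have h1 : PP A ≤ PP (B ∪ C) := measure_mono_ae h
  have h2 : PP.real A ≤ PP.real (B ∪ C) :=
    ENNReal.toReal_mono (measure_ne_top _ _) h1
  exact h2.trans (measureReal_union_le _ _)

theorem loc_le (hsaw : SawBound) {R : ℕ} {u : V} {c : ℝ} (hc : c ≤ (R : ℝ) / 2048) :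
    PP.real {x | ¬ Fast x (Bl 0 R) 0 u c} ≤
      PP.real {x | ¬ Fast x Set.univ 0 u c} + (1 / 4 : ℝ) ^ R := by
  refine (real_union_le _ {x | ¬ Fast x Set.univ 0 u c}
    {x | ∃ v : V, R ≤ nrm v ∧ Fast x Set.univ 0 v ((R : ℝ) / 2048)} ?_).trans
    (add_le_add le_rfl (hsaw R))
  filter_upwards [nonneg_ae] with x hx h
  by_cases h2 : Fast x Set.univ 0 u c
  · right
    rcases fast_local hx (R := R) h2 with h3 | ⟨w, hw1, hw2⟩
    · exact absurd h3 h
    · exact ⟨w, hw1, hw2.mono le_rfl hc⟩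
  · exact Or.inl h2

theorem nsmul_sub_nrm (u : V) (i j : ℕ) (h : i ≤ j) : nrm (j • u - i • u) = (j - i) * nrm u := by
  have : j • u - i • u = (j - i) • u := by
    rw [sub_eq_iff_eq_add, ← add_nsmul, Nat.sub_add_cancel h]
  rw [this, nrm_nsmul]

/-- concatenation of blocks -/
theorem fast_blocks {x : W} (u : V) (c : ℕ → ℝ) : ∀ m : ℕ,
    (∀ i < m, Fast x Set.univ (i • u) ((i + 1) • u) (c i)) → ∀ δ : ℝ, 0 < δ →
    Fast x Set.univ 0 (m • u) (δ + ∑ i ∈ Finset.range m, c i) := by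
  intro m
  induction m with
  | zero =>
    intro _ δ hδ
    rw [zero_nsmul]
    exact Fast.refl (Set.mem_univ _) (by simpa using hδ)
  | succ m ih =>
    intro h δ hδ
    have h1 := ih (fun i hi => h i (by omega)) δ hδ
    have h2 := h m (by omega)
    have := h1.trans h2
    rw [Finset.sum_range_succ, ← add_assoc]
    exact this

/-- abnormal block -/
def abn (μ : ℝ × ℝ → ℝ) (u : V) (R : ℕ) (s : ℝ) (i : ℕ) : Set W :=
  {x | ¬ Fast x (Bl (i • u) R) (i • u) ((i + 1) • u) (at' μ u + s)}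

theorem abn_meas (μ : ℝ × ℝ → ℝ) (u : V) (R : ℕ) (s : ℝ) (i : ℕ) :
    MeasurableSet (abn μ u R s i) := (measurableSet_fast _ _ _ _).compl

theorem abn_dep (μ : ℝ × ℝ → ℝ) (u : V) (R : ℕ) (s : ℝ) (i : ℕ) :
    DepOn (edgesIn (i • u) R) (abn μ u R s i) := (depOn_fast _ _ _ _ _).compl

theorem abn_real (μ : ℝ × ℝ → ℝ) (u : V) (R : ℕ) (s : ℝ) (i : ℕ) :
    PP.real (abn μ u R s i) = PP.real {x | ¬ Fast x (Bl 0 R) 0 u (at' μ u + s)} := by
  have h := real_not_fast_translate_Bl 0 u (i • u) 0 R (at' μ u + s)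
  rw [zero_add] at h
  have h2 : u + i • u = (i + 1) • u := by rw [add_nsmul, one_nsmul, add_comm]
  rw [h2] at h
  exact h

theorem up_many (μ : ℝ × ℝ → ℝ) (hsaw : SawBound) (K : ℕ) (u : V) (m : ℕ)
    (hu : 1 ≤ nrm u) (s p : ℝ) (hs : at' μ u + s ≤ ((K * nrm u : ℕ) : ℝ) / 2048)
    (hp : PP.real {x | ¬ Fast x Set.univ 0 u (at' μ u + s)} ≤ p) (J : ℕ) :
    PP.real {x | ∃ S ⊆ Finset.range m, (2 * K + 1) * J ≤ S.card ∧
        ∀ i ∈ S, x ∈ abn μ u (K * nrm u) s i} ≤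
      (2 * K + 1) * (m * (p + (1 / 4 : ℝ) ^ (K * nrm u))) ^ J := by
  have hp0 : 0 ≤ p := le_trans measureReal_nonneg hp
  have key := ld_col (fun i => abn μ u (K * nrm u) s i) (fun i => edgesIn (i • u) (K * nrm u))
    (Finset.range m) (fun i => i % (2 * K + 1)) (Finset.range (2 * K + 1))
    ⟨0, Finset.mem_range.2 (by omega)⟩
    (fun i _ => Finset.mem_range.2 (Nat.mod_lt _ (by omega)))
    (fun i _ => abn_meas _ _ _ _ _) (fun i _ => abn_dep _ _ _ _ _)
    ?_ (p + (1 / 4 : ℝ) ^ (K * nrm u)) (by positivity) ?_ J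
  · rw [Finset.card_range, Finset.card_range] at key
    push_cast at key
    exact key
  · -- disjoint supports
    have main : ∀ i j : ℕ, i < j → i % (2 * K + 1) = j % (2 * K + 1) →
        Disjoint (edgesIn (i • u) (K * nrm u)) (edgesIn (j • u) (K * nrm u)) := by
      intro i j hij hmod
      apply edgesIn_disjoint
      rw [nrm_sub_comm, nsmul_sub_nrm u i j hij.le]
      have h1 : 2 * K + 1 ≤ j - i := by
        have h2 : (2 * K + 1) ∣ (j - i) := (Nat.modEq_iff_dvd' hij.le).1 hmod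
        exact Nat.le_of_dvd (by omega) h2
      calc K * nrm u + K * nrm u < (2 * K + 1) * nrm u := by nlinarith
        _ ≤ (j - i) * nrm u := Nat.mul_le_mul_right _ h1
    intro i _ j _ hij hmod
    rcases Nat.lt_or_gt_of_ne hij with h | h
    · exact main i j h hmod
    · exact (main j i h hmod.symm).symm
  · intro i _
    rw [abn_real]
    exact (loc_le hsaw hs).trans (add_le_add hp le_rfl)

theorem mu_nsmul {μ : ℝ × ℝ → ℝ} {Cμ : ℝ} (hμ : MuOK μ Cμ) (m : ℕ) (u : V) :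
    at' μ (m • u) = m * at' μ u := by
  unfold at'
  rw [← hμ.hom _ _ (Nat.cast_nonneg m)]
  congr 1
  simp

theorem mu_add_le {μ : ℝ × ℝ → ℝ} {Cμ : ℝ} (hμ : MuOK μ Cμ) (u v : V) :
    at' μ (u + v) ≤ at' μ u + at' μ v := by
  unfold at'
  refine le_trans (le_of_eq ?_) (hμ.sub _ _)
  congr 1
  simp

theorem mu_zero {μ : ℝ × ℝ → ℝ} {Cμ : ℝ} (hμ : MuOK μ Cμ) : at' μ 0 = 0 := by
  have := mu_nsmul hμ 0 0
  simpa using this

theorem mu_nonneg {μ : ℝ × ℝ → ℝ} {Cμ : ℝ} (hμ : MuOK μ Cμ) (v : V) : 0 ≤ at' μ v :=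
  le_trans (by positivity) (hμ.ge v)

/-- the deterministic part of the upper step -/
theorem up_det {μ : ℝ × ℝ → ℝ} {Cμ : ℝ} (hμ : MuOK μ Cμ) {x : W} (K : ℕ) (v u r : V) (m : ℕ)
    (hv : v = m • u + r) (s1 s2 y δ : ℝ) (hs1 : 0 ≤ s1) (hs2 : 0 ≤ s2) (hδ : 0 < δ) (J : ℕ)
    (g1 : ¬ ∃ S ⊆ Finset.range m, (2 * K + 1) * J ≤ S.card ∧
        ∀ i ∈ S, x ∈ abn μ u (K * nrm u) s1 i)
    (g2 : ∀ i < m, Fast x Set.univ (i • u) ((i + 1) • u) (at' μ u + s2))
    (g3 : ¬ ∃ a b : V, a ∈ Bl (m • u) (nrm r) ∧ nrm (b - a) = 1 ∧ y < x s(a, b)) :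
    Fast x Set.univ 0 v (at' μ v + (Cμ * nrm r + m * s1 + (2 * K + 1) * J * s2 +
      nrm r * y + δ)) := by
  classical
  set S : Finset ℕ := (Finset.range m).filter (fun i => x ∈ abn μ u (K * nrm u) s1 i) with hS
  have hcard : S.card < (2 * K + 1) * J := by
    by_contra hcon
    push Not at hcon
    exact g1 ⟨S, Finset.filter_subset _ _, hcon, fun i hi => (Finset.mem_filter.1 hi).2⟩
  -- block costs
  have hb : ∀ i < m, Fast x Set.univ (i • u) ((i + 1) • u)
      (at' μ u + s1 + if i ∈ S then s2 else 0) := by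
    intro i hi
    by_cases h : i ∈ S
    · rw [if_pos h]
      exact (g2 i hi).mono le_rfl (by linarith)
    · rw [if_neg h]
      have : x ∉ abn μ u (K * nrm u) s1 i := by
        intro hx
        exact h (Finset.mem_filter.2 ⟨Finset.mem_range.2 hi, hx⟩)
      have h2 : Fast x (Bl (i • u) (K * nrm u)) (i • u) ((i + 1) • u) (at' μ u + s1) := by
        by_contra hcon
        exact this hcon
      exact h2.mono (Set.subset_univ _) (by linarith)
  have h1 := fast_blocks u _ m hb (δ / 2) (by linarith)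
  have h2 : Fast x Set.univ (m • u) v (nrm r * y + δ / 2) := by
    have hr : nrm (v - m • u) = nrm r := by rw [hv, add_sub_cancel_left]
    have := fast_stair (x := x) (u := m • u) (v := v) (y := y) (c := nrm r * y + δ / 2)
      (by
        intro a b ha _ hab
        rw [hr] at ha
        by_contra hcon
        push Not at hcon
        exact g3 ⟨a, b, ha, hab, hcon⟩) (by rw [hr]; linarith)
    exact this.mono (Set.subset_univ _) le_rfl
  refine (h1.trans h2).mono le_rfl ?_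
  have hsum : ∑ i ∈ Finset.range m, (at' μ u + s1 + if i ∈ S then s2 else 0) ≤
      m * at' μ u + m * s1 + (2 * K + 1) * J * s2 := by
    rw [Finset.sum_add_distrib, Finset.sum_const, Finset.card_range, nsmul_eq_mul,
      Finset.sum_ite_mem, Finset.sum_const, nsmul_eq_mul]
    have h3 : (((Finset.range m) ∩ S).card : ℝ) ≤ (2 * K + 1) * J := by
      have h4 : ((Finset.range m) ∩ S).card ≤ (2 * K + 1) * J :=
        (Finset.card_le_card Finset.inter_subset_right).trans hcard.le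
      exact_mod_cast h4
    have h5 := mul_le_mul_of_nonneg_right h3 hs2
    linarith
  have hmu : m * at' μ u ≤ at' μ v + Cμ * nrm r := by
    rw [← mu_nsmul hμ]
    have h3 : m • u = v + (-r) := by rw [hv]; abel
    rw [h3]
    have h4 := mu_add_le hμ v (-r)
    have h5 := hμ.le (-r)
    rw [nrm_neg] at h5
    linarith
  linarith

theorem up_core {μ : ℝ × ℝ → ℝ} {Cμ : ℝ} (hμ : MuOK μ Cμ) (hsaw : SawBound) (K : ℕ)
    (v u r : V) (m : ℕ)
    (hv : v = m • u + r) (hu : 1 ≤ nrm u) (s1 s2 y δ p P2 : ℝ) (hs1 : 0 ≤ s1) (hs2 : 0 ≤ s2)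
    (hy : 0 ≤ y) (hδ : 0 < δ) (hs : at' μ u + s1 ≤ ((K * nrm u : ℕ) : ℝ) / 2048)
    (hp : PP.real {x | ¬ Fast x Set.univ 0 u (at' μ u + s1)} ≤ p)
    (hP2 : PP.real {x | ¬ Fast x Set.univ 0 u (at' μ u + s2)} ≤ P2) (J : ℕ) :
    PP.real {x | ¬ Fast x Set.univ 0 v (at' μ v + (Cμ * nrm r + m * s1 +
        (2 * K + 1) * J * s2 + nrm r * y + δ))} ≤
      (2 * K + 1) * (m * (p + (1 / 4 : ℝ) ^ (K * nrm u))) ^ J + m * P2 +
        4 * (2 * nrm r + 1) ^ 2 * Real.exp (-y) := by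
  have hG1 := up_many μ hsaw K u m hu s1 p hs hp J
  have hG3 := edges_gt (m • u) (nrm r) hy
  have hG2 : PP.real {x | ∃ i < m, ¬ Fast x Set.univ (i • u) ((i + 1) • u) (at' μ u + s2)} ≤
      m * P2 := by
    have hsub : {x : W | ∃ i < m, ¬ Fast x Set.univ (i • u) ((i + 1) • u) (at' μ u + s2)} ⊆
        ⋃ i ∈ Finset.range m, {x | ¬ Fast x Set.univ (i • u) ((i + 1) • u) (at' μ u + s2)} := by
      rintro x ⟨i, hi, h⟩
      simp only [Set.mem_iUnion]
      exact ⟨i, Finset.mem_range.2 hi, h⟩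
    refine (measureReal_mono hsub (measure_ne_top _ _)).trans
      ((measureReal_biUnion_finset_le _ _).trans ?_)
    have h1 : ∀ i ∈ Finset.range m,
        PP.real {x | ¬ Fast x Set.univ (i • u) ((i + 1) • u) (at' μ u + s2)} ≤ P2 := by
      intro i _
      have h := real_not_fast_translate 0 u (i • u) (at' μ u + s2)
      rw [zero_add] at h
      have h2 : u + i • u = (i + 1) • u := by rw [add_nsmul, one_nsmul, add_comm]
      rw [h2] at h
      rw [h]
      exact hP2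
    refine (Finset.sum_le_sum h1).trans ?_
    rw [Finset.sum_const, Finset.card_range, nsmul_eq_mul]
  refine (real_union_le _ ({x | ∃ S ⊆ Finset.range m, (2 * K + 1) * J ≤ S.card ∧
        ∀ i ∈ S, x ∈ abn μ u (K * nrm u) s1 i} ∪
        {x | ∃ i < m, ¬ Fast x Set.univ (i • u) ((i + 1) • u) (at' μ u + s2)})
      {x | ∃ a b : V, a ∈ Bl (m • u) (nrm r) ∧ nrm (b - a) = 1 ∧ y < x s(a, b)} ?_).trans
      (add_le_add ((measureReal_union_le _ _).trans (add_le_add hG1 hG2)) hG3)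
  refine Eventually.of_forall fun x hx => ?_
  by_contra hcon
  push Not at hcon
  obtain ⟨h1, h2⟩ := hcon
  rw [Set.mem_union, not_or] at h1
  apply hx
  apply up_det hμ K v u r m hv s1 s2 y δ hs1 hs2 hδ J h1.1 _ h2
  intro i hi
  by_contra h3
  exact h1.2 ⟨i, hi, h3⟩

end Pool.Agent.K4H17.FPP
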