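import Pool.Agent.K4H17.FPP.Api
import Pool.Agent.K4H17.FPP.UpCore

/-!
First-passage percolation on `ℤ²`: the lower-tail multiscale step, deterministic part.
-/

set_option autoImplicit false
open MeasureTheory ProbabilityTheory Filter
open scoped Pointwise

namespace Pool.Agent.K4H17.FPP

/-- cost of a segment of a path -/
noncomputable def seg (x : W) (p : ℕ → V) (a b : ℕ) : ℝ :=
  ∑ i ∈ Finset.Ico a b, x s(p i, p (i + 1))

theorem seg_zero (x : W) (p : ℕ → V) (n : ℕ) : seg x p 0 n = cst x p n := by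
  unfold seg cst
  rw [Finset.range_eq_Ico]

theorem seg_add (x : W) (p : ℕ → V) {a b c : ℕ} (h1 : a ≤ b) (h2 : b ≤ c) :
    seg x p a b + seg x p b c = seg x p a c := Finset.sum_Ico_consecutive _ h1 h2

theorem seg_nonneg {x : W} (hx : ∀ e, 0 ≤ x e) (p : ℕ → V) (a b : ℕ) : 0 ≤ seg x p a b :=
  Finset.sum_nonneg (fun _ _ => hx _)

theorem seg_fast {x : W} {p : ℕ → V} {n a b : ℕ} {B : Set V}
    (hp : ∀ i < n, nrm (p (i + 1) - p i) = 1) (hab : a ≤ b) (hbn : b ≤ n)
    (hB : ∀ j, a ≤ j → j ≤ b → p j ∈ B) {c : ℝ} (hc : seg x p a b < c) :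
    Fast x B (p a) (p b) c := by
  refine ⟨b - a, fun i => p (a + i), ⟨rfl, ?_, ?_, ?_⟩, ?_⟩
  · show p (a + (b - a)) = p b
    congr 1
    omega
  · intro i hi
    exact hp (a + i) (by omega)
  · intro i hi
    exact hB (a + i) (by omega) (by omega)
  · have : cst x (fun i => p (a + i)) (b - a) = seg x p a b := by
      unfold cst seg
      rw [Finset.sum_Ico_eq_sum_range]
      rfl
    rw [this]
    exact hc

/-- decomposition of a path into blocks of ℓ¹ size `l` -/
def Blocks (p : ℕ → V) (n l s k : ℕ) (τ : ℕ → ℕ) : Prop :=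
  τ 0 = s ∧ (∀ i < k, τ i < τ (i + 1)) ∧ τ k ≤ n ∧
    (∀ i < k, nrm (p (τ (i + 1)) - p (τ i)) = l ∧
      ∀ j, τ i ≤ j → j ≤ τ (i + 1) → nrm (p j - p (τ i)) ≤ l) ∧
    nrm (p n - p (τ k)) ≤ l

theorem exists_blocks_aux (p : ℕ → V) (n l : ℕ) (hl : 1 ≤ l)
    (hp : ∀ i < n, nrm (p (i + 1) - p i) = 1) :
    ∀ d s : ℕ, s ≤ n → n - s = d → ∃ k τ, Blocks p n l s k τ := by
  intro d
  induction d using Nat.strong_induction_on with
  | _ d ih =>
    intro s hs hd
    by_cases hall : ∀ j, s ≤ j → j ≤ n → nrm (p j - p s) < l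
    · exact ⟨0, fun _ => s, rfl, fun i hi => by omega, hs, fun i hi => by omega,
        (hall n hs le_rfl).le⟩
    · push Not at hall
      classical
      have hex : ∃ j, s ≤ j ∧ j ≤ n ∧ l ≤ nrm (p j - p s) := hall
      set t := Nat.find hex with ht
      obtain ⟨h1, h2, h3⟩ := Nat.find_spec hex
      rw [← ht] at h1 h2 h3
      have hmin : ∀ j, s ≤ j → j < t → nrm (p j - p s) < l := by
        intro j hj1 hj2
        by_contra hcon
        push Not at hcon
        exact Nat.find_min hex hj2 ⟨hj1, by omega, hcon⟩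
      have hst : s < t := by
        rcases Nat.lt_or_ge s t with h | h
        · exact h
        · have : t = s := by omega
          rw [this, sub_self, nrm_zero] at h3
          omega
      have heq : nrm (p t - p s) = l := by
        have h4 := hmin (t - 1) (by omega) (by omega)
        have h5 := hp (t - 1) (by omega)
        rw [show t - 1 + 1 = t by omega] at h5
        have h6 := nrm_sub_le (p t) (p (t - 1)) (p s)
        omega
      obtain ⟨k, τ, e0, e1, e2, e3, e4⟩ := ih (n - t) (by omega) t h2 rfl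
      refine ⟨k + 1, fun i => if i = 0 then s else τ (i - 1), ?_, ?_, ?_, ?_, ?_⟩
      · simp
      · intro i hi
        rcases Nat.eq_zero_or_pos i with rfl | hi0
        · simp [e0, hst]
        · have h7 := e1 (i - 1) (by omega)
          rw [show i - 1 + 1 = i by omega] at h7
          simpa [show i ≠ 0 by omega] using h7
      · simpa using e2
      · intro i hi
        rcases Nat.eq_zero_or_pos i with rfl | hi0
        · refine ⟨by simp [e0, heq], ?_⟩
          intro j hj1 hj2
          simp only [if_true] at hj1 ⊢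
          simp only [Nat.zero_add, one_ne_zero, if_false, Nat.sub_self, e0] at hj2
          rcases Nat.lt_or_ge j t with h | h
          · exact (hmin j hj1 h).le
          · have : j = t := by omega
            rw [this, heq]
        · have h7 := e3 (i - 1) (by omega)
          rw [show i - 1 + 1 = i by omega] at h7
          simpa [show i ≠ 0 by omega] using h7
      · simpa using e4

theorem exists_blocks (p : ℕ → V) (n l : ℕ) (hl : 1 ≤ l)
    (hp : ∀ i < n, nrm (p (i + 1) - p i) = 1) : ∃ k τ, Blocks p n l 0 k τ :=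
  exists_blocks_aux p n l hl hp n 0 (Nat.zero_le _) rfl

theorem Blocks.mono {p : ℕ → V} {n l s k : ℕ} {τ : ℕ → ℕ} (h : Blocks p n l s k τ) :
    ∀ i j, i ≤ j → j ≤ k → τ i ≤ τ j := by
  intro i j hij
  induction j, hij using Nat.le_induction with
  | base => intro _; exact le_rfl
  | succ j hij ih =>
    intro hj
    exact (ih (by omega)).trans (h.2.1 j (by omega)).le

theorem Blocks.le {p : ℕ → V} {n l s k : ℕ} {τ : ℕ → ℕ} (h : Blocks p n l s k τ) :
    ∀ i ≤ k, τ i ≤ n := fun i hi => (h.mono i k hi le_rfl).trans h.2.2.1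

/-- every block costs at least `g`, so `j - i` blocks cost at least `(j - i) g` -/
theorem blocks_seg_ge {x : W} {p : ℕ → V} {n l k : ℕ} {τ : ℕ → ℕ} (h : Blocks p n l 0 k τ)
    {g : ℝ} (hg : ∀ i < k, g ≤ seg x p (τ i) (τ (i + 1))) :
    ∀ i j, i ≤ j → j ≤ k → ((j - i : ℕ) : ℝ) * g ≤ seg x p (τ i) (τ j) := by
  intro i j hij
  induction j, hij using Nat.le_induction with
  | base => intro _; simp [seg]
  | succ j hij ih =>
    intro hj
    have h1 := ih (by omega)
    have h2 := hg j (by omega)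
    rw [← seg_add x p (h.mono i j hij (by omega)) (h.2.1 j (by omega)).le]
    have h3 : j + 1 - i = (j - i) + 1 := by omega
    rw [h3]
    push_cast
    linarith

/-- summing the lower bounds of the blocks -/
theorem blocks_sum {μ : ℝ × ℝ → ℝ} {Cμ : ℝ} (hμ : MuOK μ Cμ) {x : W} {p : ℕ → V} {v : V}
    {n l k : ℕ} {τ : ℕ → ℕ} (h : Blocks p n l 0 k τ) (hp0 : p 0 = 0)
    (e : ℕ → ℝ) (s2 : ℝ)
    (h1 : ∀ i < k, at' μ (p (τ (i + 1)) - p (τ i)) - e i ≤ seg x p (τ i) (τ (i + 1)))
    (h2 : at' μ (v - p (τ k)) - s2 ≤ seg x p (τ k) n) :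
    at' μ v - (∑ i ∈ Finset.range k, e i) - s2 ≤ cst x p n := by
  have main : ∀ j ≤ k, at' μ (p (τ j)) - ∑ i ∈ Finset.range j, e i ≤ seg x p 0 (τ j) := by
    intro j
    induction j with
    | zero =>
      intro _
      rw [h.1, hp0, mu_zero hμ]
      simp [seg]
    | succ j ih =>
      intro hj
      have g1 := ih (by omega)
      have g2 := h1 j (by omega)
      rw [Finset.sum_range_succ, ← seg_add x p (Nat.zero_le (τ j)) (h.2.1 j (by omega)).le]
      have g3 := mu_add_le hμ (p (τ j)) (p (τ (j + 1)) - p (τ j))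
      rw [add_sub_cancel] at g3
      linarith
  have g1 := main k le_rfl
  rw [← seg_zero, ← seg_add x p (Nat.zero_le (τ k)) h.2.2.1]
  have g3 := mu_add_le hμ (p (τ k)) (v - p (τ k))
  rw [add_sub_cancel] at g3
  linarith

/-- a near-optimal path -/
theorem exists_near {x : W} (hx : ∀ e, 0 ≤ x e) {v : V} {c : ℝ} (h : Fast x Set.univ 0 v c) :
    ∃ n p, IsP Set.univ 0 v n p ∧ cst x p n < c ∧ ¬ Fast x Set.univ 0 v (cst x p n - 1) := by
  have h1 : tm x v < c := (tm_lt_iff hx v c).2 h
  have h2 : tm x v < min c (tm x v + 1) := lt_min h1 (by linarith)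
  obtain ⟨n, p, hp, hlt⟩ := (tm_lt_iff hx v _).1 h2
  refine ⟨n, p, hp, lt_of_lt_of_le hlt (min_le_left _ _), ?_⟩
  intro h3
  have h4 := (tm_lt_iff hx v _).2 h3
  have h5 := lt_of_lt_of_le hlt (min_le_right _ _)
  linarith

theorem near_opt {x : W} {v : V} {n : ℕ} {p : ℕ → V} (hp : IsP Set.univ 0 v n p)
    (hopt : ¬ Fast x Set.univ 0 v (cst x p n - 1)) {a b : ℕ} (hab : a ≤ b) (hbn : b ≤ n)
    {c : ℝ} (hf : Fast x Set.univ (p a) (p b) c) : seg x p a b ≤ c + 1 := by
  by_contra hcon
  push Not at hcon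
  apply hopt
  set δ := (seg x p a b - (c + 1)) / 2 with hδ
  have hδ0 : 0 < δ := by rw [hδ]; linarith
  have f1 : Fast x Set.univ (p 0) (p a) (seg x p 0 a + δ) :=
    seg_fast hp.2.2.1 (Nat.zero_le _) (hab.trans hbn) (fun _ _ _ => Set.mem_univ _) (by linarith)
  have f2 : Fast x Set.univ (p b) (p n) (seg x p b n + δ) :=
    seg_fast hp.2.2.1 hbn le_rfl (fun _ _ _ => Set.mem_univ _) (by linarith)
  have f3 := (f1.trans hf).trans f2
  rw [hp.1, hp.2.1] at f3
  refine f3.mono le_rfl ?_
  rw [← seg_zero, ← seg_add x p (Nat.zero_le a) (hab.trans hbn), ← seg_add x p hab hbn]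
  linarith

/-- the cell of a vertex -/
def cell (l : ℕ) (w : V) : V := (w.1 / (l : ℤ), w.2 / (l : ℤ))

theorem cell_near {l : ℕ} (hl : 1 ≤ l) {w w' : V} (h : cell l w = cell l w') :
    nrm (w - w') ≤ 2 * l := by
  unfold cell at h
  rw [Prod.mk.injEq] at h
  obtain ⟨h1, h2⟩ := h
  have hl' : (l : ℤ) ≠ 0 := by omega
  have e1 := Int.mul_ediv_add_emod w.1 l
  have e2 := Int.mul_ediv_add_emod w'.1 l
  have e3 := Int.mul_ediv_add_emod w.2 l
  have e4 := Int.mul_ediv_add_emod w'.2 l
  have g1 := Int.emod_nonneg w.1 hl'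
  have g2 := Int.emod_nonneg w'.1 hl'
  have g3 := Int.emod_nonneg w.2 hl'
  have g4 := Int.emod_nonneg w'.2 hl'
  have k1 := Int.emod_lt_of_pos w.1 (show (0 : ℤ) < l by omega)
  have k2 := Int.emod_lt_of_pos w'.1 (show (0 : ℤ) < l by omega)
  have k3 := Int.emod_lt_of_pos w.2 (show (0 : ℤ) < l by omega)
  have k4 := Int.emod_lt_of_pos w'.2 (show (0 : ℤ) < l by omega)
  rw [h1] at e1
  rw [h2] at e3
  simp only [nrm, Prod.fst_sub, Prod.snd_sub]
  omega

theorem cell_corner {l : ℕ} (hl : 1 ≤ l) (w : V) :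
    nrm (w - l • cell l w) ≤ 2 * l := by
  have hl' : (l : ℤ) ≠ 0 := by omega
  have e1 := Int.mul_ediv_add_emod w.1 l
  have e3 := Int.mul_ediv_add_emod w.2 l
  have g1 := Int.emod_nonneg w.1 hl'
  have g3 := Int.emod_nonneg w.2 hl'
  have k1 := Int.emod_lt_of_pos w.1 (show (0 : ℤ) < l by omega)
  have k3 := Int.emod_lt_of_pos w.2 (show (0 : ℤ) < l by omega)
  have f1 : (w - l • cell l w).1 = w.1 - l * (w.1 / l) := by
    simp [cell]
  have f2 : (w - l • cell l w).2 = w.2 - l * (w.2 / l) := by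
    simp [cell]
  unfold nrm
  rw [f1, f2]
  omega

theorem cell_nrm {l : ℕ} (hl : 1 ≤ l) (w : V) : nrm (cell l w) ≤ nrm w / l + 2 := by
  have hl' : (l : ℤ) ≠ 0 := by omega
  have h1 := cell_corner hl w
  have h2 : l * nrm (cell l w) ≤ nrm w + 2 * l := by
    rw [← nrm_nsmul]
    have h3 : l • cell l w = w + (-(w - l • cell l w)) := by abel
    rw [h3]
    refine (nrm_add_le _ _).trans ?_
    rw [nrm_neg]
    omega
  have h3 : nrm (cell l w) ≤ (nrm w + 2 * l) / l := by
    rw [Nat.le_div_iff_mul_le (by omega), mul_comm]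
    exact h2
  rw [Nat.add_mul_div_right _ _ (by omega)] at h3
  exact h3

/-- a set of naturals whose elements are pairwise at distance at most `D` -/
theorem card_le_of_close (s : Finset ℕ) (D : ℕ) (h : ∀ i ∈ s, ∀ j ∈ s, i ≤ j → j - i ≤ D) :
    s.card ≤ D + 1 := by
  rcases s.eq_empty_or_nonempty with rfl | hne
  · simp
  · have h1 : s ⊆ Finset.Icc (s.min' hne) (s.min' hne + D) := by
      intro j hj
      have h2 := s.min'_le j hj
      have h3 := h _ (s.min'_mem hne) j hj h2
      rw [Finset.mem_Icc]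
      omega
    have h2 := Finset.card_le_card h1
    rw [Nat.card_Icc] at h2
    omega

end Pool.Agent.K4H17.FPP
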