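import Pool.Agent.K4H17.FPP.DefsF
import Pool.Agent.K4H17.FPP.LoDet
import Pool.Agent.K4H17.FPP.Asym

/-!
First-passage percolation on `ℤ²`: from point-to-point lower tails to all the endpoints of a thin
annulus at once, by coarse graining the endpoints.
-/

set_option autoImplicit false
open MeasureTheory ProbabilityTheory Filter
open scoped Pointwise

namespace Pool.Agent.K4H17.FPP

/-- the ℓ¹ sphere -/
noncomputable def sph (k : ℕ) : Finset V :=
  (Finset.Icc (-(k : ℤ)) k).image (fun i => ((i, (k : ℤ) - |i|) : V)) ∪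
    (Finset.Icc (-(k : ℤ)) k).image (fun i => ((i, -((k : ℤ) - |i|)) : V))

theorem mem_sph (z : V) : z ∈ sph (nrm z) := by
  obtain ⟨z1, z2⟩ := z
  unfold sph nrm
  rw [Finset.mem_union, Finset.mem_image, Finset.mem_image]
  dsimp only
  rcases le_or_gt 0 z2 with h | h
  · left
    refine ⟨z1, ?_, ?_⟩
    · rw [Finset.mem_Icc]
      omega
    · rw [Prod.mk.injEq, Int.abs_eq_natAbs]
      refine ⟨rfl, ?_⟩
      omega
  · right
    refine ⟨z1, ?_, ?_⟩
    · rw [Finset.mem_Icc]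
      omega
    · rw [Prod.mk.injEq, Int.abs_eq_natAbs]
      refine ⟨rfl, ?_⟩
      omega

theorem card_sph (k : ℕ) : (sph k).card ≤ 4 * k + 2 := by
  unfold sph
  refine (Finset.card_union_le _ _).trans ?_
  have h1 : (Finset.Icc (-(k : ℤ)) k).card = 2 * k + 1 := by
    rw [Int.card_Icc]
    omega
  have h2 := Finset.card_image_le (s := Finset.Icc (-(k : ℤ)) k)
    (f := fun i => ((i, (k : ℤ) - |i|) : V))
  have h3 := Finset.card_image_le (s := Finset.Icc (-(k : ℤ)) k)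
    (f := fun i => ((i, -((k : ℤ) - |i|)) : V))
  omega

/-- moving the endpoint to the grid -/
theorem grid_det {φ : V → ℝ} {C : ℝ} (hφ : SubOK φ C) {x : W} {l ρ : ℕ} (hρ : 1 ≤ ρ) {y : ℝ}
    (hy : 0 ≤ y) {v : V} {s s' : ℝ} (hv : nrm v + 2 * ρ ≤ 4 * l)
    (g4 : ¬ ∃ a b : V, a ∈ Bl 0 (4 * l) ∧ nrm (b - a) = 1 ∧ y < x s(a, b))
    (hf : Fast x Set.univ 0 v (φ v - s)) (hs : s' + 2 * C * ρ + 2 * ρ * y + 1 ≤ s) :
    Fast x Set.univ 0 (ρ • cell ρ v) (φ (ρ • cell ρ v) - s') := by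
  have h1 := cell_corner hρ v
  set g := ρ • cell ρ v with hg
  have h1' : nrm (g - v) ≤ 2 * ρ := by rw [nrm_sub_comm]; exact h1
  have f1 : Fast x Set.univ v g (2 * ρ * y + 1) := by
    have := fast_stair (x := x) (u := v) (v := g) (y := y) (c := 2 * ρ * y + 1)
      (by
        intro a b ha _ hab
        by_contra hlt'
        push Not at hlt'
        refine g4 ⟨a, b, ?_, hab, hlt'⟩
        have q1 := mem_Bl.1 ha
        have q3 := nrm_sub_le a v 0
        rw [sub_zero, sub_zero] at q3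
        refine mem_Bl.2 ?_
        rw [sub_zero]
        omega) (by
        have q : (nrm (g - v) : ℝ) ≤ 2 * ρ := by exact_mod_cast h1'
        nlinarith)
    exact this.mono (Set.subset_univ _) le_rfl
  refine (hf.trans f1).mono le_rfl ?_
  have e1 := hφ.sub g (v - g)
  rw [add_sub_cancel] at e1
  have e2 := hφ.le (v - g)
  have q : (nrm (v - g) : ℝ) ≤ 2 * ρ := by exact_mod_cast h1
  have hC := hφ.one_le
  have e3 : C * (nrm (v - g) : ℝ) ≤ C * (2 * ρ) := mul_le_mul_of_nonneg_left q (by linarith)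
  linarith

/-- the union bound over the grid points -/
theorem grid_prob {φ : V → ℝ} {C : ℝ} (hφ : SubOK φ C) {l ρ : ℕ} (hρ : 1 ≤ ρ) {y : ℝ}
    (hy : 0 ≤ y) {s s' p : ℝ} (hs : s' + 2 * C * ρ + 2 * ρ * y + 1 ≤ s) (k1 k2 : ℕ)
    (hsl : ∀ v : V, (nrm v : ℝ) ≤ l + s → nrm v + 2 * ρ ≤ 4 * l)
    (hk : ∀ v : V, (l : ℝ) ≤ nrm v + s → (nrm v : ℝ) ≤ l + s →
      k1 ≤ nrm (cell ρ v) ∧ nrm (cell ρ v) ≤ k2)
    (hp0 : 0 ≤ p)
    (hp : ∀ z : V, k1 ≤ nrm z → nrm z ≤ k2 →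
      PP.real {x | Fast x Set.univ 0 (ρ • z) (φ (ρ • z) - s')} ≤ p) :
    PP.real {x | ∃ v : V, ((l : ℝ) ≤ nrm v + s ∧ (nrm v : ℝ) ≤ l + s) ∧
      Fast x Set.univ 0 v (φ v - s)} ≤
      4 * (2 * ((4 * l : ℕ) : ℝ) + 1) ^ 2 * Real.exp (-y) +
        ((k2 + 1 - k1 : ℕ) : ℝ) * ((4 * k2 + 2) * p) := by
  classical
  have hsub : {x | ∃ v : V, ((l : ℝ) ≤ nrm v + s ∧ (nrm v : ℝ) ≤ l + s) ∧
      Fast x Set.univ 0 v (φ v - s)} ⊆
      {x : W | ∃ a b : V, a ∈ Bl 0 (4 * l) ∧ nrm (b - a) = 1 ∧ y < x s(a, b)} ∪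
      ⋃ k ∈ Finset.Icc k1 k2, ⋃ z ∈ (sph k).filter (fun z => nrm z = k),
        {x | Fast x Set.univ 0 (ρ • z) (φ (ρ • z) - s')} := by
    rintro x ⟨v, ⟨hv1, hv2⟩, hf⟩
    by_cases g4 : ∃ a b : V, a ∈ Bl 0 (4 * l) ∧ nrm (b - a) = 1 ∧ y < x s(a, b)
    · exact Or.inl g4
    · right
      have h1 := grid_det hφ hρ hy (hsl v hv2) g4 hf hs
      obtain ⟨h2, h3⟩ := hk v hv1 hv2
      simp only [Set.mem_iUnion]
      exact ⟨nrm (cell ρ v), Finset.mem_Icc.2 ⟨h2, h3⟩, cell ρ v,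
        Finset.mem_filter.2 ⟨mem_sph _, rfl⟩, h1⟩
  refine (measureReal_mono hsub (measure_ne_top _ _)).trans ((measureReal_union_le _ _).trans
    (add_le_add (edges_gt 0 (4 * l) hy) ((measureReal_biUnion_finset_le _ _).trans ?_)))
  have h1 : ∀ k ∈ Finset.Icc k1 k2, PP.real (⋃ z ∈ (sph k).filter (fun z => nrm z = k),
        {x | Fast x Set.univ 0 (ρ • z) (φ (ρ • z) - s')}) ≤ (4 * k2 + 2) * p := by
    intro k hk'
    rw [Finset.mem_Icc] at hk'
    refine (measureReal_biUnion_finset_le _ _).trans ?_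
    refine (Finset.sum_le_sum (fun z hz => ?_) (g := fun _ => p)).trans ?_
    · have hz' := (Finset.mem_filter.1 hz).2
      exact hp z (by omega) (by omega)
    · rw [Finset.sum_const, nsmul_eq_mul]
      apply mul_le_mul_of_nonneg_right _ hp0
      have h2 : ((sph k).filter (fun z => nrm z = k)).card ≤ 4 * k2 + 2 :=
        (Finset.card_filter_le _ _).trans ((card_sph k).trans (by omega))
      exact_mod_cast h2
  refine (Finset.sum_le_sum h1).trans ?_
  rw [Finset.sum_const, nsmul_eq_mul, Nat.card_Icc]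

/-- point-to-point bounds give bounds for all the endpoints in a thin annulus -/
theorem hloT_of_p2p {φ : V → ℝ} {C : ℝ} (hφ : SubOK φ C) {a : ℝ} (ha : 0 < a) (ha1 : a < 1)
    (h : ∀ β, a < β → β < 1 → ∃ C : ℝ, ∀ v : V, v ≠ 0 →
      PP.real {x | Fast x Set.univ 0 v (φ v - (nrm v : ℝ) ^ β)} ≤
        C * (nrm v : ℝ) ^ (-(3 * (1 - a)))) :
    ∀ β, a < β → β < 1 → ∃ κ > 0, HLoT φ β (2 * (1 - β) + κ) := by
  intro β hβ hβ1
  set d : ℝ := β - a with hd
  have hd0 : 0 < d := by rw [hd]; linarith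
  set β1 : ℝ := β - d / 8 with hβ1def
  set β2 : ℝ := β - d / 16 with hβ2def
  have hC := hφ.one_le
  have hβ10 : 0 < β1 := by rw [hβ1def, hd]; linarith
  have hβ20 : 0 < β2 := by rw [hβ2def, hd]; linarith
  obtain ⟨C1, hC1⟩ := h β2 (by rw [hβ2def, hd]; linarith) (by rw [hβ2def]; linarith)
  set q : ℝ := 2 * (1 - β) + 11 / 4 * d with hq
  have hq0 : 0 < q := by rw [hq]; linarith
  have hdiff : 1 + β - 2 * β1 - 3 * (1 - a) = -q := by
    rw [hq, hβ1def, hd]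
    ring
  -- asymptotic facts
  have e1 := floor_pow hβ10
  have e2 := pow_lt (show β1 < β by rw [hβ1def]; linarith) (8 * C)
  have e3 := pow_lt (show β1 + d / 64 < β by rw [hβ1def]; linarith) 8
  have e4 := ge_const (show 0 < β by linarith) 4
  have e5 := pow_lt (show β2 < β by rw [hβ2def]; linarith) 16
  have e6 := pow_lt (show β < 1 from hβ1) 8
  have e7 := poly_le_exp (show 0 < d / 64 by linarith) (q + 2) 324
  obtain ⟨N, hN⟩ := eventually_atTop.1
    (e1.and (e2.and (e3.and (e4.and (e5.and (e6.and e7))))))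
  refine ⟨11 / 4 * d, by positivity,
    162 * (|C1| * 2 ^ (3 * (1 - a))) + 1 + (N : ℝ) ^ q, fun l hl => ?_⟩
  have hl1 : (1 : ℝ) ≤ l := by exact_mod_cast hl
  have hl0 : (0 : ℝ) < l := by linarith
  rw [← hq]
  have hconst : 0 ≤ 162 * (|C1| * 2 ^ (3 * (1 - a))) + 1 := by positivity
  rcases lt_or_ge l N with hlN | hlN
  · -- small `l`
    have h1 : (1 : ℝ) ≤ (N : ℝ) ^ q * (l : ℝ) ^ (-q) := by
      rw [Real.rpow_neg hl0.le, ← div_eq_mul_inv, le_div_iff₀ (by positivity), one_mul]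
      exact Real.rpow_le_rpow hl0.le (by exact_mod_cast hlN.le) hq0.le
    have h2 : 0 ≤ (162 * (|C1| * 2 ^ (3 * (1 - a))) + 1) * (l : ℝ) ^ (-q) := by positivity
    have h3 : PP.real {x | ∃ v : V, ((l : ℝ) ≤ nrm v + (l : ℝ) ^ β ∧
        (nrm v : ℝ) ≤ l + (l : ℝ) ^ β) ∧ Fast x Set.univ 0 v (φ v - (l : ℝ) ^ β)} ≤ 1 :=
      measureReal_le_one
    rw [add_mul]
    linarith
  · obtain ⟨⟨f1, f2, f3⟩, g1, g2, g3, g4, g5, g6⟩ := hN l hlN
    set ρ := ⌊(l : ℝ) ^ β1⌋₊ with hρ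
    have hρ0 : (0 : ℝ) < ρ := by exact_mod_cast f1
    set y : ℝ := (l : ℝ) ^ (d / 64) with hy
    have hy0 : 0 < y := by positivity
    rw [Real.rpow_one] at g5
    have hρβ : (8 : ℝ) * ρ ≤ (l : ℝ) ^ β := by
      have h1 : 8 * (ρ : ℝ) ≤ 8 * C * (l : ℝ) ^ β1 := by
        have : 8 * (ρ : ℝ) ≤ 8 * (l : ℝ) ^ β1 := by linarith
        have h2 : 8 * (l : ℝ) ^ β1 ≤ 8 * C * (l : ℝ) ^ β1 := by
          apply mul_le_mul_of_nonneg_right _ (by positivity)
          linarith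
        linarith
      linarith
    have hs : 4 * (l : ℝ) ^ β2 + 2 * C * ρ + 2 * ρ * y + 1 ≤ (l : ℝ) ^ β := by
      have h1 : 2 * C * ρ ≤ (l : ℝ) ^ β / 4 := by
        have : 8 * C * ρ ≤ 8 * C * (l : ℝ) ^ β1 := mul_le_mul_of_nonneg_left f2 (by positivity)
        linarith
      have h2 : 2 * ρ * y ≤ (l : ℝ) ^ β / 4 := by
        have h3 : ρ * y ≤ (l : ℝ) ^ (β1 + d / 64) := by
          rw [Real.rpow_add hl0]
          exact mul_le_mul_of_nonneg_right f2 hy0.le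
        linarith
      linarith
    -- the scales of the grid points
    set k1 : ℕ := ⌈((l : ℝ) - 2 * (l : ℝ) ^ β) / ρ⌉₊ with hk1
    set k2 : ℕ := ⌊((l : ℝ) + 2 * (l : ℝ) ^ β) / ρ⌋₊ with hk2
    have hlb : 0 ≤ (l : ℝ) - 2 * (l : ℝ) ^ β := by linarith
    have hcell : ∀ v : V, (ρ : ℝ) * nrm (cell ρ v) ≤ nrm v + 2 * ρ ∧
        (nrm v : ℝ) ≤ ρ * nrm (cell ρ v) + 2 * ρ := by
      intro v
      have h1 := cell_corner f1 v
      have h2 : nrm (ρ • cell ρ v) = ρ * nrm (cell ρ v) := nrm_nsmul _ _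
      have h3 : nrm (ρ • cell ρ v) ≤ nrm v + 2 * ρ := by
        have := nrm_sub_le (ρ • cell ρ v) v 0
        rw [sub_zero, sub_zero, nrm_sub_comm (ρ • cell ρ v) v] at this
        omega
      have h4 : nrm v ≤ nrm (ρ • cell ρ v) + 2 * ρ := by
        have := nrm_sub_le v (ρ • cell ρ v) 0
        rw [sub_zero, sub_zero] at this
        omega
      rw [h2] at h3 h4
      exact ⟨by exact_mod_cast h3, by exact_mod_cast h4⟩
    have hp : ∀ z : V, k1 ≤ nrm z → nrm z ≤ k2 →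
        PP.real {x | Fast x Set.univ 0 (ρ • z) (φ (ρ • z) - 4 * (l : ℝ) ^ β2)} ≤
          |C1| * 2 ^ (3 * (1 - a)) * (l : ℝ) ^ (-(3 * (1 - a))) := by
      intro z hz1 hz2
      have h1 : ((l : ℝ) - 2 * (l : ℝ) ^ β) / ρ ≤ nrm z :=
        (Nat.le_ceil _).trans (by exact_mod_cast hz1)
      have h2 : (nrm z : ℝ) ≤ ((l : ℝ) + 2 * (l : ℝ) ^ β) / ρ :=
        le_trans (by exact_mod_cast hz2) (Nat.floor_le (by positivity))
      rw [div_le_iff₀ hρ0] at h1
      rw [le_div_iff₀ hρ0] at h2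
      have h3 : (nrm (ρ • z) : ℝ) = nrm z * ρ := by
        rw [nrm_nsmul]
        push_cast
        ring
      have h4 : (l : ℝ) / 2 ≤ nrm (ρ • z) := by rw [h3]; linarith
      have h5 : (nrm (ρ • z) : ℝ) ≤ 2 * l := by rw [h3]; linarith
      have hne : ρ • z ≠ 0 := by
        intro hcon
        rw [hcon, nrm_zero] at h4
        push_cast at h4
        linarith
      have h6 := hC1 (ρ • z) hne
      have h7 : (nrm (ρ • z) : ℝ) ^ β2 ≤ 4 * (l : ℝ) ^ β2 := by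
        calc (nrm (ρ • z) : ℝ) ^ β2 ≤ (2 * (l : ℝ)) ^ β2 :=
              Real.rpow_le_rpow (Nat.cast_nonneg _) h5 hβ20.le
          _ = 2 ^ β2 * (l : ℝ) ^ β2 := Real.mul_rpow (by norm_num) hl0.le
          _ ≤ 4 * (l : ℝ) ^ β2 := by
              apply mul_le_mul_of_nonneg_right _ (by positivity)
              calc (2 : ℝ) ^ β2 ≤ 2 ^ (1 : ℝ) :=
                    Real.rpow_le_rpow_of_exponent_le (by norm_num) (by linarith)
                _ ≤ 4 := by norm_num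
      refine (measureReal_mono ?_ (measure_ne_top _ _)).trans (h6.trans ?_)
      · intro x hx
        exact Fast.mono hx le_rfl (by linarith)
      · have h8 : (nrm (ρ • z) : ℝ) ^ (-(3 * (1 - a))) ≤
            2 ^ (3 * (1 - a)) * (l : ℝ) ^ (-(3 * (1 - a))) := by
          calc (nrm (ρ • z) : ℝ) ^ (-(3 * (1 - a))) ≤ ((l : ℝ) / 2) ^ (-(3 * (1 - a))) :=
                Real.rpow_le_rpow_of_nonpos (by positivity) h4 (by linarith)
            _ = 2 ^ (3 * (1 - a)) * (l : ℝ) ^ (-(3 * (1 - a))) := by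
                rw [Real.div_rpow hl0.le (by norm_num), Real.rpow_neg (by norm_num : (0 : ℝ) ≤ 2),
                  div_inv_eq_mul, mul_comm]
        calc C1 * (nrm (ρ • z) : ℝ) ^ (-(3 * (1 - a)))
            ≤ |C1| * (nrm (ρ • z) : ℝ) ^ (-(3 * (1 - a))) :=
              mul_le_mul_of_nonneg_right (le_abs_self _) (by positivity)
          _ ≤ |C1| * (2 ^ (3 * (1 - a)) * (l : ℝ) ^ (-(3 * (1 - a)))) :=
              mul_le_mul_of_nonneg_left h8 (abs_nonneg _)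
          _ = _ := by ring
    have key := grid_prob (l := l) (ρ := ρ) hφ f1 hy0.le hs k1 k2
      (by
        intro v hv
        have h1 : (nrm v : ℝ) + 2 * ρ ≤ 4 * l := by linarith
        exact_mod_cast h1)
      (by
        intro v hv1 hv2
        obtain ⟨c1, c2⟩ := hcell v
        constructor
        · rw [hk1]
          apply Nat.ceil_le.2
          rw [div_le_iff₀ hρ0]
          linarith
        · rw [hk2]
          apply Nat.le_floor
          rw [le_div_iff₀ hρ0]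
          linarith)
      (by positivity) hp
    refine key.trans ?_
    -- the large edges
    have t1 : 4 * (2 * ((4 * l : ℕ) : ℝ) + 1) ^ 2 * Real.exp (-y) ≤ (l : ℝ) ^ (-q) := by
      have h1 : 4 * (2 * ((4 * l : ℕ) : ℝ) + 1) ^ 2 ≤ 324 * (l : ℝ) ^ 2 := by
        push_cast
        nlinarith
      have h2 : 324 * (l : ℝ) ^ 2 * (l : ℝ) ^ q ≤ Real.exp y := by
        refine le_trans (le_of_eq ?_) g6
        rw [Real.rpow_add hl0 q 2, Real.rpow_two]
        ring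
      rw [Real.exp_neg, Real.rpow_neg hl0.le, ← div_eq_mul_inv, inv_eq_one_div,
        div_le_div_iff₀ (Real.exp_pos _) (by positivity), one_mul]
      exact (mul_le_mul_of_nonneg_right h1 (by positivity)).trans h2
    -- the number of grid points
    have hinv : 1 / (ρ : ℝ) ≤ 2 * (l : ℝ) ^ (-β1) := by
      rw [div_le_iff₀ hρ0, Real.rpow_neg hl0.le]
      have : 0 < (l : ℝ) ^ β1 := by positivity
      calc (1 : ℝ) = 2 * ((l : ℝ) ^ β1)⁻¹ * ((l : ℝ) ^ β1 / 2) := by field_simp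
        _ ≤ 2 * ((l : ℝ) ^ β1)⁻¹ * ρ := mul_le_mul_of_nonneg_left f3 (by positivity)
    have c1 : ((k2 + 1 - k1 : ℕ) : ℝ) ≤ 9 * (l : ℝ) ^ (β - β1) := by
      have h1 : (k2 : ℝ) ≤ ((l : ℝ) + 2 * (l : ℝ) ^ β) / ρ := Nat.floor_le (by positivity)
      have h2 : ((l : ℝ) - 2 * (l : ℝ) ^ β) / ρ ≤ k1 := Nat.le_ceil _
      have h3 : ((k2 + 1 - k1 : ℕ) : ℝ) ≤ 4 * (l : ℝ) ^ β * (1 / ρ) + 1 := by
        have h4 : ((l : ℝ) + 2 * (l : ℝ) ^ β) / ρ - ((l : ℝ) - 2 * (l : ℝ) ^ β) / ρ =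
            4 * (l : ℝ) ^ β * (1 / ρ) := by ring
        rcases le_or_gt k1 (k2 + 1) with h5 | h5
        · rw [Nat.cast_sub h5]
          push_cast
          linarith
        · rw [Nat.sub_eq_zero_of_le h5.le]
          push_cast
          positivity
      have h5 : 4 * (l : ℝ) ^ β * (1 / ρ) ≤ 8 * (l : ℝ) ^ (β - β1) := by
        rw [sub_eq_add_neg, Real.rpow_add hl0]
        have := mul_le_mul_of_nonneg_left hinv (show 0 ≤ 4 * (l : ℝ) ^ β by positivity)
        linarith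
      have h6 : (1 : ℝ) ≤ (l : ℝ) ^ (β - β1) :=
        Real.one_le_rpow hl1 (by rw [hβ1def]; linarith)
      linarith
    have c2 : (4 * (k2 : ℝ) + 2) ≤ 18 * (l : ℝ) ^ (1 - β1) := by
      have h1 : (k2 : ℝ) ≤ ((l : ℝ) + 2 * (l : ℝ) ^ β) / ρ := Nat.floor_le (by positivity)
      have h2 : ((l : ℝ) + 2 * (l : ℝ) ^ β) / ρ ≤ 2 * l * (1 / ρ) := by
        rw [div_eq_mul_one_div]
        apply mul_le_mul_of_nonneg_right _ (by positivity)
        linarith
      have h5 : 2 * (l : ℝ) * (1 / ρ) ≤ 4 * (l : ℝ) ^ (1 - β1) := by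
        rw [sub_eq_add_neg, Real.rpow_add hl0, Real.rpow_one]
        have := mul_le_mul_of_nonneg_left hinv (show 0 ≤ 2 * (l : ℝ) by positivity)
        linarith
      have h6 : (1 : ℝ) ≤ (l : ℝ) ^ (1 - β1) :=
        Real.one_le_rpow hl1 (by rw [hβ1def]; linarith)
      linarith
    set P : ℝ := |C1| * 2 ^ (3 * (1 - a)) with hP
    have hP0 : 0 ≤ P := by positivity
    have t2 : ((k2 + 1 - k1 : ℕ) : ℝ) * ((4 * k2 + 2) * (P * (l : ℝ) ^ (-(3 * (1 - a))))) ≤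
        162 * P * (l : ℝ) ^ (-q) := by
      have e0 : (l : ℝ) ^ (-q) =
          (l : ℝ) ^ (β - β1) * ((l : ℝ) ^ (1 - β1) * (l : ℝ) ^ (-(3 * (1 - a)))) := by
        rw [← Real.rpow_add hl0, ← Real.rpow_add hl0]
        congr 1
        rw [← hdiff]
        ring
      calc ((k2 + 1 - k1 : ℕ) : ℝ) * ((4 * k2 + 2) * (P * (l : ℝ) ^ (-(3 * (1 - a)))))
          ≤ 9 * (l : ℝ) ^ (β - β1) *
            (18 * (l : ℝ) ^ (1 - β1) * (P * (l : ℝ) ^ (-(3 * (1 - a))))) := by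
            apply mul_le_mul c1 _ (by positivity) (by positivity)
            exact mul_le_mul_of_nonneg_right c2 (by positivity)
        _ = 162 * P * (l : ℝ) ^ (-q) := by rw [e0]; ring
    have t3 : 0 ≤ (N : ℝ) ^ q * (l : ℝ) ^ (-q) := by positivity
    calc _ ≤ (l : ℝ) ^ (-q) + 162 * P * (l : ℝ) ^ (-q) := add_le_add t1 t2
      _ ≤ (162 * P + 1 + (N : ℝ) ^ q) * (l : ℝ) ^ (-q) := by
          rw [add_mul, add_mul]
          linarith

end Pool.Agent.K4H17.FPP
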