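import Pool.Agent.K4H17.FPP.AsmInner
import Pool.Agent.K4H17.FPP.LoFStep
import Pool.Agent.K4H17.FPP.Grid
import Pool.Agent.K4H17.FPP.Ev2

/-!
First-passage percolation on `ℤ²`: the equivalences for the outer half.
-/

set_option autoImplicit false
open MeasureTheory ProbabilityTheory Filter
open scoped Pointwise Topology

namespace Pool.Agent.K4H17.FPP

variable {Ω : Type} [MeasureSpace Ω] {X : Sym2 V → Ω → ℝ} {T : Ω → V → ℝ} {μ : ℝ × ℝ → ℝ}

theorem MuOK.subOK {Cμ : ℝ} (hμ : MuOK μ Cμ) : SubOK (at' μ) Cμ where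
  one_le := hμ.one_le
  zero := mu_zero hμ
  nonneg := mu_nonneg hμ
  sub := mu_add_le hμ
  le := hμ.le

theorem one_le_nrm {v : V} (hv : v ≠ 0) : (1 : ℝ) ≤ nrm v := by
  have : nrm v ≠ 0 := fun h0 => hv (nrm_eq_zero.1 h0)
  exact_mod_cast Nat.one_le_iff_ne_zero.2 this

/-- from stretched exponential to polynomial, for lattice points -/
theorem pow_of_exp {f : V → ℝ} (hf : ∀ v, f v ≤ 1) {c : ℝ} (hc : 0 < c) {N0 : ℕ}
    (h : ∀ v : V, N0 ≤ nrm v → f v ≤ Real.exp (-(nrm v : ℝ) ^ c)) (q : ℝ) (hq : 0 ≤ q) :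
    ∃ C : ℝ, ∀ v : V, v ≠ 0 → f v ≤ C * (nrm v : ℝ) ^ (-q) := by
  have h1 := poly_le_exp hc q 1
  obtain ⟨N1, hN1⟩ := eventually_atTop.1 h1
  refine ⟨((max N0 N1 : ℕ) : ℝ) ^ q + 1, fun v hv => ?_⟩
  have hv1 := one_le_nrm hv
  have hv0 : (0 : ℝ) < nrm v := by linarith
  have hpos : (0 : ℝ) < (nrm v : ℝ) ^ q := by positivity
  rw [Real.rpow_neg hv0.le, ← div_eq_mul_inv, le_div_iff₀ hpos]
  by_cases hbig : max N0 N1 ≤ nrm v
  · have g1 := h v (le_trans (le_max_left _ _) hbig)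
    have g2 := hN1 (nrm v) (le_trans (le_max_right _ _) hbig)
    have g3 : Real.exp (-(nrm v : ℝ) ^ c) * Real.exp ((nrm v : ℝ) ^ c) = 1 := by
      rw [← Real.exp_add, neg_add_cancel, Real.exp_zero]
    have g4 : f v * (nrm v : ℝ) ^ q ≤ 1 := by
      calc f v * (nrm v : ℝ) ^ q ≤ Real.exp (-(nrm v : ℝ) ^ c) * (nrm v : ℝ) ^ q :=
            mul_le_mul_of_nonneg_right g1 hpos.le
        _ ≤ Real.exp (-(nrm v : ℝ) ^ c) * Real.exp ((nrm v : ℝ) ^ c) :=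
            mul_le_mul_of_nonneg_left (by linarith) (Real.exp_pos _).le
        _ = 1 := g3
    have g5 : (0 : ℝ) ≤ ((max N0 N1 : ℕ) : ℝ) ^ q := by positivity
    linarith
  · push Not at hbig
    have g1 : (nrm v : ℝ) ^ q ≤ ((max N0 N1 : ℕ) : ℝ) ^ q :=
      Real.rpow_le_rpow hv0.le (by exact_mod_cast hbig.le) hq
    have g2 := hf v
    nlinarith

theorem outer_tfae (S : Setting Ω X T μ) (a : ℝ) (ha : 0 < a) (ha1 : a < 1) :
    List.TFAE [
      ∀ ζ, 0 < ζ → ζ < 1 - a → ∀ q > (0 : ℝ),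
        (fun t : ℝ => ((volume : Measure Ω) (outerEv T μ (a - 1 + ζ) t)).toReal) =O[atTop]
          fun t => t ^ (-q),
      ∀ ζ, 0 < ζ → ζ < 1 - a →
        (fun t : ℝ => ((volume : Measure Ω) (outerEv T μ (a - 1 + ζ) t)).toReal) =O[atTop]
          fun t => t ^ (-(3 * (1 - a))),
      ∀ ε > (0 : ℝ), ∃ C : ℝ, ∀ v : V, v ≠ 0 →
        ((volume : Measure Ω) {ω | T ω v < at' μ v - (nrm v : ℝ) ^ (a + ε)}).toReal ≤
          C * (nrm v : ℝ) ^ (-(3 * (1 - a))),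
      ∀ ζ, 0 < ζ → ζ < 1 - a → ∃ c > (0 : ℝ), ∀ᶠ t : ℝ in atTop,
        ((volume : Measure Ω) (outerEv T μ (a - 1 + ζ) t)).toReal ≤ Real.exp (-t ^ c)] := by
  have hP := S.prob
  have hsaw := sawBound
  obtain ⟨Cμ, hμ⟩ := muOK S hsaw
  tfae_have 1 → 2 := fun h ζ h1 h2 => h ζ h1 h2 _ (by linarith)
  have key : (∀ β, a < β → β < 1 → ∃ κ > 0, HLoT (at' μ) β (2 * (1 - β) + κ)) →
      ∀ β > a, SLo μ β := fun H => loF_all hμ.subOK hsaw ha ha1 H
  have thin : (∀ β, a < β → β < 1 → ∃ κ > 0, HLoF (at' μ) β (2 * (1 - β) + κ)) →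
      ∀ β, a < β → β < 1 → ∃ κ > 0, HLoT (at' μ) β (2 * (1 - β) + κ) := by
    intro H β h1 h2
    obtain ⟨κ, hκ, hH⟩ := H β h1 h2
    exact ⟨κ, hκ, hH.thin h2 (by linarith)⟩
  tfae_have 2 → 4 := by
    intro h
    have h1 := key (thin (hloF_of_outer S hμ a ha ha1 h))
    exact outer_of_slo S hμ hsaw a ha ha1 (fun β hβ _ => h1 β hβ)
  tfae_have 4 → 1 := by
    intro h ζ h1 h2 q _
    obtain ⟨c, hc, hev⟩ := h ζ h1 h2
    exact isBigO_of_exp (fun t => ENNReal.toReal_nonneg) hc hev q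
  tfae_have 2 → 3 := by
    intro h ε hε
    obtain ⟨c, hc, N0, hN0⟩ := key (thin (hloF_of_outer S hμ a ha ha1 h)) (a + ε) (by linarith)
    apply pow_of_exp (f := fun v =>
      ((volume : Measure Ω) {ω | T ω v < at' μ v - (nrm v : ℝ) ^ (a + ε)}).toReal)
      (fun v => measureReal_le_one) hc (N0 := N0) _ _ (by linarith)
    intro v hv
    have h1 := hN0 (nrm v) hv v le_rfl
    rw [← S.real_T_lt] at h1
    exact h1
  tfae_have 3 → 4 := by
    intro h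
    have h1 := key (hloT_of_p2p hμ.subOK ha ha1 (fun β hβ _ => by
      obtain ⟨C, hC⟩ := h (β - a) (by linarith)
      refine ⟨C, fun v hv => ?_⟩
      have := hC v hv
      rw [add_sub_cancel] at this
      rw [← S.real_T_lt]
      exact this))
    exact outer_of_slo S hμ hsaw a ha ha1 (fun β hβ _ => h1 β hβ)
  tfae_finish

end Pool.Agent.K4H17.FPP
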