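import Pool.Agent.K4H17.FPP.Defs

/-!
First-passage percolation on `ℤ²`: the ℓ¹ norm and deterministic facts on paths.
-/

set_option autoImplicit false
open MeasureTheory ProbabilityTheory Filter
open scoped Pointwise

namespace Pool.Agent.K4H17.FPP

/-! ### the norm -/

theorem nrm_zero : nrm 0 = 0 := by simp [nrm]

theorem nrm_neg (v : V) : nrm (-v) = nrm v := by simp [nrm]

theorem nrm_add_le (u v : V) : nrm (u + v) ≤ nrm u + nrm v := by
  simp only [nrm, Prod.fst_add, Prod.snd_add]
  omega

theorem nrm_sub_comm (u v : V) : nrm (u - v) = nrm (v - u) := by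
  rw [← nrm_neg (u - v), neg_sub]

theorem nrm_eq_zero {v : V} : nrm v = 0 ↔ v = 0 := by
  simp only [nrm, Prod.ext_iff, Prod.fst_zero, Prod.snd_zero]
  omega

theorem nrm_nsmul (n : ℕ) (v : V) : nrm (n • v) = n * nrm v := by
  have h1 : (n • v).1 = (n : ℤ) * v.1 := by rw [Prod.smul_fst, nsmul_eq_mul]
  have h2 : (n • v).2 = (n : ℤ) * v.2 := by rw [Prod.smul_snd, nsmul_eq_mul]
  unfold nrm
  rw [h1, h2, Int.natAbs_mul, Int.natAbs_mul, Int.natAbs_natCast]
  ring

theorem nrm_sub_le (u v w : V) : nrm (u - w) ≤ nrm (u - v) + nrm (v - w) := by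
  have := nrm_add_le (u - v) (v - w)
  simpa using this

theorem nrm_sub_le' (u v : V) : nrm (u - v) ≤ nrm u + nrm v := by
  have := nrm_add_le u (-v)
  rw [nrm_neg] at this
  simpa [sub_eq_add_neg] using this

theorem mem_Bl {u w : V} {R : ℕ} : w ∈ Bl u R ↔ nrm (w - u) ≤ R := Iff.rfl

theorem self_mem_Bl (u : V) (R : ℕ) : u ∈ Bl u R := by
  simp [mem_Bl, nrm_zero]

theorem Bl_mono {u : V} {R R' : ℕ} (h : R ≤ R') : Bl u R ⊆ Bl u R' :=
  fun _ hw => le_trans (mem_Bl.1 hw) h

theorem Bl_subset {u v : V} {R R' : ℕ} (h : nrm (u - v) + R ≤ R') : Bl u R ⊆ Bl v R' := by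
  intro w hw
  have := nrm_sub_le w u v
  have hw' := mem_Bl.1 hw
  exact mem_Bl.2 (by omega)

/-! ### paths -/

theorem IsP.mono {B B' : Set V} {u v : V} {n : ℕ} {p : ℕ → V} (h : IsP B u v n p)
    (hB : B ⊆ B') : IsP B' u v n p :=
  ⟨h.1, h.2.1, h.2.2.1, fun i hi => hB (h.2.2.2 i hi)⟩

theorem Fast.mono {x : W} {B B' : Set V} {u v : V} {c c' : ℝ} (h : Fast x B u v c)
    (hB : B ⊆ B') (hc : c ≤ c') : Fast x B' u v c' := by
  obtain ⟨n, p, hp, hlt⟩ := h
  exact ⟨n, p, hp.mono hB, lt_of_lt_of_le hlt hc⟩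

/-- concatenation of two paths -/
def cat (p q : ℕ → V) (n : ℕ) : ℕ → V := fun i => if i ≤ n then p i else q (i - n)

theorem cat_isP {B : Set V} {u v w : V} {n m : ℕ} {p q : ℕ → V} (hp : IsP B u v n p)
    (hq : IsP B v w m q) : IsP B u w (n + m) (cat p q n) := by
  obtain ⟨h1, h2, h3, h4⟩ := hp
  obtain ⟨k1, k2, k3, k4⟩ := hq
  refine ⟨?_, ?_, ?_, ?_⟩
  · simp [cat, h1]
  · unfold cat
    split_ifs with h
    · have hm : m = 0 := by omega
      subst hm
      simp only [add_zero]
      rw [h2, ← k2, k1]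
    · simpa using k2
  · intro i hi
    unfold cat
    by_cases h : i + 1 ≤ n
    · rw [if_pos h, if_pos (by omega)]
      exact h3 i (by omega)
    · rw [if_neg h]
      by_cases h' : i ≤ n
      · have : i = n := by omega
        subst this
        rw [if_pos le_rfl, h2, ← k1]
        have := k3 0 (by omega)
        simpa using this
      · rw [if_neg h']
        have := k3 (i - n) (by omega)
        rwa [show i - n + 1 = i + 1 - n by omega] at this
  · intro i hi
    unfold cat
    split_ifs with h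
    · exact h4 i h
    · exact k4 (i - n) (by omega)

theorem cat_cst {B : Set V} {u v w : V} {n m : ℕ} {p q : ℕ → V} (x : W) (hp : IsP B u v n p)
    (hq : IsP B v w m q) : cst x (cat p q n) (n + m) = cst x p n + cst x q m := by
  unfold cst
  rw [Finset.sum_range_add]
  congr 1
  · apply Finset.sum_congr rfl
    intro i hi
    have hi' := Finset.mem_range.1 hi
    unfold cat
    rw [if_pos (by omega), if_pos (by omega)]
  · apply Finset.sum_congr rfl
    intro i hi
    unfold cat
    rw [if_neg (by omega : ¬ (n + i + 1 ≤ n))]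
    by_cases h : n + i ≤ n
    · have : i = 0 := by omega
      subst this
      rw [if_pos h]
      have e1 : p n = q 0 := by rw [hp.2.1, hq.1]
      rw [Nat.add_zero, e1]
      congr 2
      congr 1
      omega
    · rw [if_neg h]
      congr 2
      · congr 1
        omega
      · congr 1
        omega

theorem Fast.trans {x : W} {B : Set V} {u v w : V} {c d : ℝ} (h : Fast x B u v c)
    (h' : Fast x B v w d) : Fast x B u w (c + d) := by
  obtain ⟨n, p, hp, hlt⟩ := h
  obtain ⟨m, q, hq, hlt'⟩ := h'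
  refine ⟨n + m, cat p q n, cat_isP hp hq, ?_⟩
  rw [cat_cst x hp hq]
  linarith

/-- the reversed path -/
theorem Fast.symm {x : W} {B : Set V} {u v : V} {c : ℝ} (h : Fast x B u v c) :
    Fast x B v u c := by
  obtain ⟨n, p, ⟨h1, h2, h3, h4⟩, hlt⟩ := h
  refine ⟨n, fun i => p (n - i), ⟨?_, ?_, ?_, ?_⟩, ?_⟩
  · simpa using h2
  · simpa using h1
  · intro i hi
    rw [nrm_sub_comm]
    have := h3 (n - (i + 1)) (by omega)
    rwa [show n - (i + 1) + 1 = n - i by omega] at this
  · intro i hi
    exact h4 _ (by omega)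
  · have : cst x (fun i => p (n - i)) n = cst x p n := by
      unfold cst
      rw [← Finset.sum_range_reflect]
      apply Finset.sum_congr rfl
      intro i hi
      have hi' := Finset.mem_range.1 hi
      dsimp only
      have e1 : n - (n - 1 - i) = i + 1 := by omega
      have e2 : n - (n - 1 - i + 1) = i := by omega
      rw [e1, e2, Sym2.eq_swap]
    rw [this]
    exact hlt

theorem Fast.refl {x : W} {B : Set V} {u : V} {c : ℝ} (hu : u ∈ B) (hc : 0 < c) :
    Fast x B u u c := by
  refine ⟨0, fun _ => u, ⟨rfl, rfl, ?_, ?_⟩, ?_⟩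
  · intro i hi
    omega
  · intro i _
    exact hu
  · simpa [cst] using hc

/-- one step towards `v` -/
theorem exists_step {u v : V} (h : u ≠ v) :
    ∃ w : V, nrm (w - u) = 1 ∧ nrm (v - u) = nrm (v - w) + 1 := by
  obtain ⟨u1, u2⟩ := u
  obtain ⟨v1, v2⟩ := v
  have hne : u1 ≠ v1 ∨ u2 ≠ v2 := by
    by_contra hcon
    push Not at hcon
    exact h (Prod.ext hcon.1 hcon.2)
  rcases lt_trichotomy u1 v1 with h1 | h1 | h1
  · exact ⟨(u1 + 1, u2), by simp [nrm], by simp only [nrm, Prod.mk_sub_mk]; omega⟩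
  · rcases lt_trichotomy u2 v2 with h2 | h2 | h2
    · exact ⟨(u1, u2 + 1), by simp [nrm], by simp only [nrm, Prod.mk_sub_mk]; omega⟩
    · rcases hne with h3 | h3
      · exact absurd h1 h3
      · exact absurd h2 h3
    · exact ⟨(u1, u2 - 1), by simp [nrm], by simp only [nrm, Prod.mk_sub_mk]; omega⟩
  · exact ⟨(u1 - 1, u2), by simp [nrm], by simp only [nrm, Prod.mk_sub_mk]; omega⟩

theorem fast_step {x : W} {B : Set V} {u w : V} {c : ℝ} (hu : u ∈ B) (hw : w ∈ B)
    (h1 : nrm (w - u) = 1) (hc : x s(u, w) < c) : Fast x B u w c := by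
  refine ⟨1, fun i => if i = 0 then u else w, ⟨by simp, by simp, ?_, ?_⟩, ?_⟩
  · intro i hi
    have : i = 0 := by omega
    subst this
    simpa using h1
  · intro i _
    dsimp only
    split_ifs
    · exact hu
    · exact hw
  · simpa [cst] using hc

theorem fast_stair_aux {x : W} {B : Set V} {y : ℝ} (v : V) : ∀ (k : ℕ) (u : V), nrm (v - u) = k →
    (∀ a : V, nrm (v - a) ≤ k → nrm (a - u) ≤ k → a ∈ B) →
    (∀ a b : V, a ∈ B → b ∈ B → nrm (b - a) = 1 → x s(a, b) ≤ y) →
    ∀ c : ℝ, k * y < c → Fast x B u v c := by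
  intro k
  induction k with
  | zero =>
    intro u hk hB _ c hc
    have : v = u := by
      have := nrm_eq_zero.1 hk
      exact sub_eq_zero.1 this
    subst this
    apply Fast.refl
    · exact hB v (by simp [nrm_zero]) (by simp [nrm_zero])
    · simpa using hc
  | succ k ih =>
    intro u hk hB hx c hc
    have hne : u ≠ v := by
      rintro rfl
      simp [nrm_zero] at hk
    obtain ⟨w, hw1, hw2⟩ := exists_step hne
    have hw3 : nrm (v - w) = k := by omega
    have huB : u ∈ B := hB u (by omega) (by simp [nrm_zero])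
    have hwB : w ∈ B := hB w (by omega) (by omega)
    have hk1 : ((k + 1 : ℕ) : ℝ) * y = k * y + y := by push_cast; ring
    rw [hk1] at hc
    obtain ⟨e, he⟩ : ∃ e : ℝ, e = (c - (k * y + y)) / 2 := ⟨_, rfl⟩
    have he0 : 0 < e := by rw [he]; linarith
    have f1 : Fast x B u w (y + e) := by
      apply fast_step huB hwB hw1
      have := hx u w huB hwB hw1
      linarith
    have f2 : Fast x B w v (k * y + e) := by
      apply ih w hw3 _ hx
      · linarith
      · intro a ha1 ha2
        apply hB a (by omega)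
        have := nrm_sub_le a w u
        omega
    have := f1.trans f2
    have hc' : y + e + (k * y + e) = c := by rw [he]; ring
    rwa [hc'] at this

/-- a path with `nrm (v - u)` steps that stays in the ball -/
theorem fast_stair {x : W} {u v : V} {y c : ℝ}
    (h : ∀ a b : V, a ∈ Bl u (nrm (v - u)) → b ∈ Bl u (nrm (v - u)) → nrm (b - a) = 1 →
      x s(a, b) ≤ y) (hc : nrm (v - u) * y < c) :
    Fast x (Bl u (nrm (v - u))) u v c :=
  fast_stair_aux v (nrm (v - u)) u rfl (fun _ _ ha => ha) h c hc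

/-- steps of size 1 do not move far -/
theorem IsP.nrm_le {B : Set V} {u v : V} {n : ℕ} {p : ℕ → V} (h : IsP B u v n p) :
    ∀ i j : ℕ, i ≤ j → j ≤ n → nrm (p j - p i) ≤ j - i := by
  intro i j hij
  induction j, hij using Nat.le_induction with
  | base => intro _; simp [nrm_zero]
  | succ j hij ih =>
    intro hj
    have h1 := ih (by omega)
    have h2 := h.2.2.1 j (by omega)
    have h3 := nrm_sub_le (p (j + 1)) (p j) (p i)
    omega

end Pool.Agent.K4H17.FPP
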