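import Mathlib

/-!
First-passage percolation on `ℤ²` with Exp(1) weights (MP_de94ef_pr): common definitions.
-/

set_option autoImplicit false
open MeasureTheory ProbabilityTheory Filter
open scoped Pointwise

namespace Pool.Agent.K4H17.FPP

/-- vertices of the lattice -/
abbrev V : Type := ℤ × ℤ

/-- weights on (all) unordered pairs -/
abbrev W : Type := Sym2 V → ℝ

/-- the ℓ¹ norm -/
def nrm (v : V) : ℕ := v.1.natAbs + v.2.natAbs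

/-- `p 0, …, p n` is a nearest-neighbour path from `u` to `v` with all vertices in `B` -/
def IsP (B : Set V) (u v : V) (n : ℕ) (p : ℕ → V) : Prop :=
  p 0 = u ∧ p n = v ∧ (∀ i < n, nrm (p (i + 1) - p i) = 1) ∧ ∀ i ≤ n, p i ∈ B

/-- the passage time of the path `p 0, …, p n` -/
noncomputable def cst (x : W) (p : ℕ → V) (n : ℕ) : ℝ :=
  ∑ i ∈ Finset.range n, x s(p i, p (i + 1))

/-- some path from `u` to `v` inside `B` has passage time `< c` -/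
def Fast (x : W) (B : Set V) (u v : V) (c : ℝ) : Prop :=
  ∃ n p, IsP B u v n p ∧ cst x p n < c

/-- ℓ¹ ball -/
def Bl (u : V) (R : ℕ) : Set V := {w | nrm (w - u) ≤ R}

/-- i.i.d. Exp(1) weights on all unordered pairs -/
noncomputable def PP : Measure W := Measure.infinitePi (fun _ : Sym2 V => expMeasure 1)

instance : IsProbabilityMeasure (expMeasure 1) := isProbabilityMeasure_expMeasure one_pos

instance : IsProbabilityMeasure PP := by unfold PP; infer_instance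

/-- a function on the plane at an integer point -/
def at' (μ : ℝ × ℝ → ℝ) (v : V) : ℝ := μ ((v.1 : ℝ), (v.2 : ℝ))

/-- the setting of the problem, exactly as in the frozen statement -/
structure Setting (Ω : Type) [MeasureSpace Ω] (X : Sym2 V → Ω → ℝ) (T : Ω → V → ℝ)
    (μ : ℝ × ℝ → ℝ) : Prop where
  prob : IsProbabilityMeasure (volume : Measure Ω)
  meas : ∀ e, Measurable (X e)
  indep : iIndepFun X (volume : Measure Ω)
  law : ∀ e, Measure.map (X e) (volume : Measure Ω) = expMeasure 1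
  hT : ∀ ω v, T ω v = sInf {s : ℝ | ∃ n : ℕ, ∃ p : ℕ → ℤ × ℤ, p 0 = 0 ∧ p n = v ∧
        (∀ i < n, |(p (i + 1)).1 - (p i).1| + |(p (i + 1)).2 - (p i).2| = 1) ∧
        s = ∑ i ∈ Finset.range n, X s(p i, p (i + 1)) ω}
  hom : ∀ (x : ℝ × ℝ) (c : ℝ), 0 ≤ c → μ (c • x) = c * μ x
  cont : Continuous μ
  lim : ∀ z : ℤ × ℤ, ∀ᵐ ω ∂(volume : Measure Ω),
        Tendsto (fun n : ℕ => T ω ((n : ℤ) • z) / (n : ℝ)) atTop
          (nhds (μ ((z.1 : ℝ), (z.2 : ℝ))))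

/-- what the proofs use of the time constant -/
structure MuOK (μ : ℝ × ℝ → ℝ) (Cμ : ℝ) : Prop where
  one_le : 1 ≤ Cμ
  hom : ∀ (x : ℝ × ℝ) (c : ℝ), 0 ≤ c → μ (c • x) = c * μ x
  sub : ∀ x y : ℝ × ℝ, μ (x + y) ≤ μ x + μ y
  le : ∀ v : V, at' μ v ≤ Cμ * nrm v
  ge : ∀ v : V, (nrm v : ℝ) / 2048 ≤ at' μ v
  abs_le : ∀ x : ℝ × ℝ, |μ x| ≤ Cμ * (|x.1| + |x.2|)

/-- stretched exponential upper-tail bound at scale `n ^ β` -/
def SUp (μ : ℝ × ℝ → ℝ) (β : ℝ) : Prop :=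
  ∃ c > (0 : ℝ), ∃ N0 : ℕ, ∀ v : V, N0 ≤ nrm v →
    PP.real {x | ¬ Fast x Set.univ 0 v (at' μ v + (nrm v : ℝ) ^ β)} ≤
      Real.exp (-(nrm v : ℝ) ^ c)

/-- uniform version of `SUp` -/
def UUp (μ : ℝ × ℝ → ℝ) (β : ℝ) : Prop :=
  ∃ c > (0 : ℝ), ∃ N0 : ℕ, ∀ N ≥ N0, ∀ v : V, nrm v ≤ N →
    PP.real {x | ¬ Fast x Set.univ 0 v (at' μ v + (N : ℝ) ^ β)} ≤ Real.exp (-(N : ℝ) ^ c)

/-- stretched exponential lower-tail bound at scale `N ^ β` -/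
def SLo (μ : ℝ × ℝ → ℝ) (β : ℝ) : Prop :=
  ∃ c > (0 : ℝ), ∃ N0 : ℕ, ∀ N ≥ N0, ∀ v : V, nrm v ≤ N →
    PP.real {x | Fast x Set.univ 0 v (at' μ v - (N : ℝ) ^ β)} ≤ Real.exp (-(N : ℝ) ^ c)

/-- polynomial upper-tail bound -/
def HUp (μ : ℝ × ℝ → ℝ) (β q : ℝ) : Prop :=
  ∃ C : ℝ, ∀ v : V, v ≠ 0 →
    PP.real {x | ¬ Fast x Set.univ 0 v (at' μ v + (nrm v : ℝ) ^ β)} ≤ C * (nrm v : ℝ) ^ (-q)

/-- polynomial lower-tail bound, simultaneously for all endpoints at distance `l` -/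
def HLo (μ : ℝ × ℝ → ℝ) (β q : ℝ) : Prop :=
  ∃ C : ℝ, ∀ l : ℕ, 1 ≤ l →
    PP.real {x | ∃ v : V, nrm v = l ∧ Fast x Set.univ 0 v (at' μ v - (l : ℝ) ^ β)} ≤
      C * (l : ℝ) ^ (-q)

/-- the linear lower bound on passage times (proved in `Saw.lean`) -/
def SawBound : Prop :=
  ∀ R : ℕ, PP.real {x | ∃ v : V, R ≤ nrm v ∧ Fast x Set.univ 0 v ((R : ℝ) / 2048)} ≤
    (1 / 4 : ℝ) ^ R

/-- the fattened cluster leaves the blown-up limit shape -/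
def outerEv {Ω : Type} (T : Ω → V → ℝ) (μ : ℝ × ℝ → ℝ) (e t : ℝ) : Set Ω :=
  {ω | ¬ ({x : ℝ × ℝ | ∃ v : ℤ × ℤ, T ω v ≤ t ∧
            |x.1 - (v.1 : ℝ)| ≤ 1 / 2 ∧ |x.2 - (v.2 : ℝ)| ≤ 1 / 2} ⊆
            ((1 + t ^ e) * t) • {x : ℝ × ℝ | μ x ≤ 1})}

/-- the fattened cluster misses part of the shrunk limit shape -/
def innerEv {Ω : Type} (T : Ω → V → ℝ) (μ : ℝ × ℝ → ℝ) (e t : ℝ) : Set Ω :=
  {ω | ¬ (((1 - t ^ e) * t) • {x : ℝ × ℝ | μ x ≤ 1} ⊆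
            {x : ℝ × ℝ | ∃ v : ℤ × ℤ, T ω v ≤ t ∧
            |x.1 - (v.1 : ℝ)| ≤ 1 / 2 ∧ |x.2 - (v.2 : ℝ)| ≤ 1 / 2})}

end Pool.Agent.K4H17.FPP
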