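import Pool.Agent.K4H17.FPP.Defs

/-!
First-passage percolation on `ℤ²`: lower tails around a general subadditive function `φ`
(used with `φ = at' μ`, the time constant, and with `φ v = E T(0,v)`, the mean).
-/

set_option autoImplicit false
open MeasureTheory ProbabilityTheory Filter
open scoped Pointwise

namespace Pool.Agent.K4H17.FPP

/-- a subadditive function of linear growth -/
structure SubOK (φ : V → ℝ) (C : ℝ) : Prop where
  one_le : 1 ≤ C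
  zero : φ 0 = 0
  nonneg : ∀ v, 0 ≤ φ v
  sub : ∀ u v, φ (u + v) ≤ φ u + φ v
  le : ∀ v : V, φ v ≤ C * nrm v

/-- stretched exponential bound for the lower tail around `φ` at scale `N ^ β`
(for `φ = at' μ` this is `SLo μ β`, by `Iff.rfl`) -/
def SLoF (φ : V → ℝ) (β : ℝ) : Prop :=
  ∃ c > (0 : ℝ), ∃ N0 : ℕ, ∀ N ≥ N0, ∀ v : V, nrm v ≤ N →
    PP.real {x | Fast x Set.univ 0 v (φ v - (N : ℝ) ^ β)} ≤ Real.exp (-(N : ℝ) ^ c)

/-- polynomial bound for the lower tail around `φ`, simultaneously for all endpoints at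
distance between `l / 2` and `2 l` -/
def HLoF (φ : V → ℝ) (β q : ℝ) : Prop :=
  ∃ C : ℝ, ∀ l : ℕ, 1 ≤ l →
    PP.real {x | ∃ v : V, (l ≤ 2 * nrm v ∧ nrm v ≤ 2 * l) ∧
      Fast x Set.univ 0 v (φ v - (l : ℝ) ^ β)} ≤ C * (l : ℝ) ^ (-q)

/-- polynomial bound for the lower tail around `φ`, simultaneously for all endpoints in the thin
annulus of radius `l` and width `l ^ β` -/
def HLoT (φ : V → ℝ) (β q : ℝ) : Prop :=
  ∃ C : ℝ, ∀ l : ℕ, 1 ≤ l →
    PP.real {x | ∃ v : V, ((l : ℝ) ≤ nrm v + (l : ℝ) ^ β ∧ (nrm v : ℝ) ≤ l + (l : ℝ) ^ β) ∧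
      Fast x Set.univ 0 v (φ v - (l : ℝ) ^ β)} ≤ C * (l : ℝ) ^ (-q)

theorem SLoF_at' (μ : ℝ × ℝ → ℝ) (β : ℝ) : SLoF (at' μ) β ↔ SLo μ β := Iff.rfl

end Pool.Agent.K4H17.FPP
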