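import Pool.Agent.K4H17.FPP.Meas

/-!
First-passage percolation on `ℤ²`: independence of events with disjoint supports, and the
elementary large deviation bound.
-/

set_option autoImplicit false
open MeasureTheory ProbabilityTheory Filter
open scoped Pointwise

namespace Pool.Agent.K4H17.FPP

/-- the event `A` depends only on the weights in `E` -/
def DepOn (E : Finset (Sym2 V)) (A : Set W) : Prop :=
  ∀ x y : W, (∀ e ∈ E, x e = y e) → x ∈ A → y ∈ A

theorem DepOn.inter {E F : Finset (Sym2 V)} [DecidableEq (Sym2 V)] {A B : Set W}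
    (hA : DepOn E A) (hB : DepOn F B) : DepOn (E ∪ F) (A ∩ B) := by
  intro x y h hx
  exact ⟨hA x y (fun e he => h e (Finset.mem_union_left _ he)) hx.1,
    hB x y (fun e he => h e (Finset.mem_union_right _ he)) hx.2⟩

theorem DepOn.mono {E F : Finset (Sym2 V)} {A : Set W}
    (hA : DepOn E A) (h : E ⊆ F) : DepOn F A :=
  fun x y hxy hx => hA x y (fun e he => hxy e (h he)) hx

theorem DepOn.compl {E : Finset (Sym2 V)} {A : Set W}
    (hA : DepOn E A) : DepOn E Aᶜ :=
  fun x y hxy hx hy => hx (hA y x (fun e he => (hxy e he).symm) hy)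

open Classical in
/-- extension by zero -/
noncomputable def ext0 (E : Finset (Sym2 V)) (z : E → ℝ) : W :=
  fun e => if h : e ∈ E then z ⟨e, h⟩ else 0

theorem measurable_ext0 (E : Finset (Sym2 V)) : Measurable (ext0 E) := by
  refine measurable_pi_iff.2 fun e => ?_
  unfold ext0
  by_cases h : e ∈ E
  · simp only [h, dite_true]
    exact measurable_pi_apply _
  · simp only [h, dite_false]
    exact measurable_const

theorem indep_coord : iIndepFun (fun (e : Sym2 V) (x : W) => x e) PP :=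
  iIndepFun_infinitePi (P := fun _ : Sym2 V => expMeasure 1) (X := fun _ x => x)
    (fun _ => measurable_id)

theorem preimage_ext0 {E : Finset (Sym2 V)} {A : Set W} (hA : DepOn E A) :
    A = (fun (x : W) (i : E) => x i) ⁻¹' ((ext0 E) ⁻¹' A) := by
  ext x
  have key : ∀ e ∈ E, x e = ext0 E (fun i : E => x i) e := by
    intro e he
    simp [ext0, he]
  constructor
  · intro hx
    exact hA x _ key hx
  · intro hx
    exact hA _ x (fun e he => (key e he).symm) hx

theorem indep_two {E F : Finset (Sym2 V)} {A B : Set W} (hA : DepOn E A) (hB : DepOn F B)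
    (hd : Disjoint E F) (mA : MeasurableSet A) (mB : MeasurableSet B) :
    PP (A ∩ B) = PP A * PP B := by
  have h := indep_coord.indepFun_finset E F hd (fun e => measurable_pi_apply e)
  have h2 := (indepFun_iff_measure_inter_preimage_eq_mul.1 h) ((ext0 E) ⁻¹' A) ((ext0 F) ⁻¹' B)
    (measurable_ext0 E mA) (measurable_ext0 F mB)
  rw [← preimage_ext0 hA, ← preimage_ext0 hB] at h2
  exact h2

theorem indep_inter {ι : Type*} [DecidableEq ι] (A : ι → Set W) (E : ι → Finset (Sym2 V))
    (I : Finset ι) :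
    (∀ i ∈ I, MeasurableSet (A i)) → (∀ i ∈ I, DepOn (E i) (A i)) →
    (∀ i ∈ I, ∀ j ∈ I, i ≠ j → Disjoint (E i) (E j)) →
    PP (⋂ i ∈ I, A i) = ∏ i ∈ I, PP (A i) := by
  classical
  induction I using Finset.induction_on with
  | empty => intro _ _ _; simp
  | insert a I ha ih =>
    intro hm hE hd
    rw [Finset.prod_insert ha, Finset.set_biInter_insert]
    have hd2 : DepOn (I.biUnion E) (⋂ i ∈ I, A i) := by
      intro x y hxy hx
      simp only [Set.mem_iInter] at hx ⊢
      intro i hi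
      exact hE i (Finset.mem_insert_of_mem hi) x y
        (fun e he => hxy e (Finset.mem_biUnion.2 ⟨i, hi, he⟩)) (hx i hi)
    have hdis : Disjoint (E a) (I.biUnion E) := by
      rw [Finset.disjoint_biUnion_right]
      intro i hi
      exact hd a (Finset.mem_insert_self a I) i (Finset.mem_insert_of_mem hi)
        (fun h => ha (h ▸ hi))
    rw [indep_two (hE a (Finset.mem_insert_self a I)) hd2 hdis
      (hm a (Finset.mem_insert_self a I))
      (Finset.measurableSet_biInter I (fun i hi => hm i (Finset.mem_insert_of_mem hi)))]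
    rw [ih (fun i hi => hm i (Finset.mem_insert_of_mem hi))
      (fun i hi => hE i (Finset.mem_insert_of_mem hi))
      (fun i hi j hj => hd i (Finset.mem_insert_of_mem hi) j (Finset.mem_insert_of_mem hj))]

theorem indep_inter_le {ι : Type*} [DecidableEq ι] (A : ι → Set W) (E : ι → Finset (Sym2 V))
    (I : Finset ι) (hm : ∀ i ∈ I, MeasurableSet (A i)) (hE : ∀ i ∈ I, DepOn (E i) (A i))
    (hd : ∀ i ∈ I, ∀ j ∈ I, i ≠ j → Disjoint (E i) (E j)) (p : ℝ)
    (hp : ∀ i ∈ I, PP.real (A i) ≤ p) :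
    PP.real (⋂ i ∈ I, A i) ≤ p ^ I.card := by
  rw [measureReal_def, indep_inter A E I hm hE hd, ENNReal.toReal_prod]
  calc ∏ i ∈ I, (PP (A i)).toReal ≤ ∏ _i ∈ I, p :=
        Finset.prod_le_prod (fun _ _ => ENNReal.toReal_nonneg) (fun i hi => hp i hi)
    _ = p ^ I.card := by rw [Finset.prod_const]

/-- many of independent unlikely events -/
theorem ld {ι : Type*} [DecidableEq ι] (A : ι → Set W) (E : ι → Finset (Sym2 V))
    (I : Finset ι) (hm : ∀ i ∈ I, MeasurableSet (A i)) (hE : ∀ i ∈ I, DepOn (E i) (A i))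
    (hd : ∀ i ∈ I, ∀ j ∈ I, i ≠ j → Disjoint (E i) (E j)) (p : ℝ) (hp0 : 0 ≤ p)
    (hp : ∀ i ∈ I, PP.real (A i) ≤ p) (J : ℕ) :
    PP.real {x | ∃ S ⊆ I, S.card = J ∧ ∀ i ∈ S, x ∈ A i} ≤ (I.card * p) ^ J := by
  have hsub : {x : W | ∃ S ⊆ I, S.card = J ∧ ∀ i ∈ S, x ∈ A i} ⊆
      ⋃ S ∈ I.powersetCard J, ⋂ i ∈ S, A i := by
    rintro x ⟨S, hS, hc, h⟩
    simp only [Set.mem_iUnion, Set.mem_iInter]
    exact ⟨S, Finset.mem_powersetCard.2 ⟨hS, hc⟩, h⟩
  refine (measureReal_mono hsub (measure_ne_top _ _)).trans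
    ((measureReal_biUnion_finset_le _ _).trans ?_)
  have h1 : ∀ S ∈ I.powersetCard J, PP.real (⋂ i ∈ S, A i) ≤ p ^ J := by
    intro S hS
    obtain ⟨hS1, hS2⟩ := Finset.mem_powersetCard.1 hS
    have := indep_inter_le A E S (fun i hi => hm i (hS1 hi)) (fun i hi => hE i (hS1 hi))
      (fun i hi j hj => hd i (hS1 hi) j (hS1 hj)) p (fun i hi => hp i (hS1 hi))
    rwa [hS2] at this
  refine (Finset.sum_le_sum h1).trans ?_
  rw [Finset.sum_const, Finset.card_powersetCard, nsmul_eq_mul, mul_pow]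
  apply mul_le_mul_of_nonneg_right _ (pow_nonneg hp0 J)
  exact_mod_cast Nat.choose_le_pow I.card J

/-- the same with colour classes: only events of the same colour have disjoint supports -/
theorem ld_col {ι κ : Type*} [DecidableEq ι] [DecidableEq κ] (A : ι → Set W)
    (E : ι → Finset (Sym2 V)) (I : Finset ι) (col : ι → κ) (K : Finset κ) (hK : K.Nonempty)
    (hcol : ∀ i ∈ I, col i ∈ K)
    (hm : ∀ i ∈ I, MeasurableSet (A i)) (hE : ∀ i ∈ I, DepOn (E i) (A i))
    (hd : ∀ i ∈ I, ∀ j ∈ I, i ≠ j → col i = col j → Disjoint (E i) (E j)) (p : ℝ) (hp0 : 0 ≤ p)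
    (hp : ∀ i ∈ I, PP.real (A i) ≤ p) (J : ℕ) :
    PP.real {x | ∃ S ⊆ I, K.card * J ≤ S.card ∧ ∀ i ∈ S, x ∈ A i} ≤
      K.card * (I.card * p) ^ J := by
  have hsub : {x : W | ∃ S ⊆ I, K.card * J ≤ S.card ∧ ∀ i ∈ S, x ∈ A i} ⊆
      ⋃ k ∈ K, {x : W | ∃ S ⊆ I.filter (fun i => col i = k), S.card = J ∧ ∀ i ∈ S, x ∈ A i} := by
    rintro x ⟨S, hS, hc, h⟩
    obtain ⟨k, hk, hk2⟩ := Finset.exists_le_card_fiber_of_mul_le_card_of_maps_to
      (f := col) (fun i hi => hcol i (hS hi)) hK hc
    obtain ⟨S', hS', hS'c⟩ := Finset.exists_subset_card_eq hk2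
    simp only [Set.mem_iUnion]
    refine ⟨k, hk, S', ?_, hS'c, ?_⟩
    · intro i hi
      have := Finset.mem_filter.1 (hS' hi)
      exact Finset.mem_filter.2 ⟨hS this.1, this.2⟩
    · intro i hi
      exact h i (Finset.mem_filter.1 (hS' hi)).1
  refine (measureReal_mono hsub (measure_ne_top _ _)).trans
    ((measureReal_biUnion_finset_le _ _).trans ?_)
  rw [← nsmul_eq_mul, ← Finset.sum_const]
  apply Finset.sum_le_sum
  intro k _
  refine (ld A E (I.filter (fun i => col i = k))
    (fun i hi => hm i (Finset.mem_filter.1 hi).1)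
    (fun i hi => hE i (Finset.mem_filter.1 hi).1)
    (fun i hi j hj hij => hd i (Finset.mem_filter.1 hi).1 j (Finset.mem_filter.1 hj).1 hij
      ((Finset.mem_filter.1 hi).2.trans (Finset.mem_filter.1 hj).2.symm)) p hp0
    (fun i hi => hp i (Finset.mem_filter.1 hi).1) J).trans ?_
  apply pow_le_pow_left₀ (by positivity)
  apply mul_le_mul_of_nonneg_right _ hp0
  exact_mod_cast Finset.card_filter_le _ _

/-- the edges inside a ball -/
noncomputable def edgesIn (u : V) (R : ℕ) : Finset (Sym2 V) :=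
  ((ball_finite u R).toFinset ×ˢ (ball_finite u R).toFinset).image (fun q => s(q.1, q.2))

theorem mem_edgesIn {u a b : V} {R : ℕ} (ha : a ∈ Bl u R) (hb : b ∈ Bl u R) :
    s(a, b) ∈ edgesIn u R := by
  unfold edgesIn
  rw [Finset.mem_image]
  exact ⟨(a, b), by simpa using ⟨ha, hb⟩, rfl⟩

theorem edgesIn_disjoint {u v : V} {R R' : ℕ} (h : R + R' < nrm (u - v)) :
    Disjoint (edgesIn u R) (edgesIn v R') := by
  rw [Finset.disjoint_left]
  intro e he he'
  unfold edgesIn at he he'
  rw [Finset.mem_image] at he he'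
  obtain ⟨⟨a, b⟩, hab, rfl⟩ := he
  obtain ⟨⟨c, d⟩, hcd, hEq⟩ := he'
  simp only [Finset.mem_product, Set.Finite.mem_toFinset, mem_Bl] at hab hcd
  have h3 : a = c ∨ a = d := by
    rcases Sym2.eq_iff.1 hEq with ⟨h1, h2⟩ | ⟨h1, h2⟩
    · exact Or.inl h1.symm
    · exact Or.inr h2.symm
  have key : nrm (a - v) ≤ R' := by
    rcases h3 with rfl | rfl
    · exact hcd.1
    · exact hcd.2
  have := nrm_sub_le u a v
  rw [nrm_sub_comm u a] at this
  omega

/-- `Fast` inside a ball depends only on the edges in the ball -/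
theorem depOn_fast (u a b : V) (R : ℕ) (c : ℝ) :
    DepOn (edgesIn u R) {x | Fast x (Bl u R) a b c} := by
  rintro x y hxy ⟨n, p, hp, hlt⟩
  refine ⟨n, p, hp, ?_⟩
  have : cst y p n = cst x p n := by
    unfold cst
    apply Finset.sum_congr rfl
    intro i hi
    have hi' := Finset.mem_range.1 hi
    exact (hxy _ (mem_edgesIn (hp.2.2.2 i (by omega)) (hp.2.2.2 (i + 1) (by omega)))).symm
  rw [this]
  exact hlt

end Pool.Agent.K4H17.FPP
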