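import Pool.Agent.K4H17.FPP.LoDet

/-!
First-passage percolation on `ℤ²`: the lower-tail multiscale step, non-asymptotic form.
-/

set_option autoImplicit false
open MeasureTheory ProbabilityTheory Filter
open scoped Pointwise

namespace Pool.Agent.K4H17.FPP

/-- abnormal vertex: a cheap exit of the ball of radius `l` -/
def badAt (μ : ℝ × ℝ → ℝ) (l : ℕ) (s : ℝ) (w : V) : Set W :=
  {x | ∃ w' : V, nrm (w' - w) = l ∧ Fast x (Bl w l) w w' (at' μ (w' - w) - s)}

/-- abnormal cell -/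
def badCell (μ : ℝ × ℝ → ℝ) (l : ℕ) (s : ℝ) (z : V) : Set W :=
  {x | ∃ w : V, cell l w = z ∧ x ∈ badAt μ l s w}

theorem badAt_meas (μ : ℝ × ℝ → ℝ) (l : ℕ) (s : ℝ) (w : V) : MeasurableSet (badAt μ l s w) := by
  have : badAt μ l s w = ⋃ w' : V, ({_x : W | nrm (w' - w) = l} ∩
      {x | Fast x (Bl w l) w w' (at' μ (w' - w) - s)}) := by
    ext x
    simp [badAt]
  rw [this]
  exact MeasurableSet.iUnion fun w' => (MeasurableSet.const _).inter (measurableSet_fast _ _ _ _)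

theorem badCell_meas (μ : ℝ × ℝ → ℝ) (l : ℕ) (s : ℝ) (z : V) :
    MeasurableSet (badCell μ l s z) := by
  have : badCell μ l s z = ⋃ w : V, ({_x : W | cell l w = z} ∩ badAt μ l s w) := by
    ext x
    simp [badCell]
  rw [this]
  exact MeasurableSet.iUnion fun w => (MeasurableSet.const _).inter (badAt_meas _ _ _ _)

theorem badCell_dep (μ : ℝ × ℝ → ℝ) {l : ℕ} (hl : 1 ≤ l) (s : ℝ) (z : V) :
    DepOn (edgesIn (l • z) (3 * l)) (badCell μ l s z) := by
  rintro x y hxy ⟨w, hw, w', hw', hf⟩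
  refine ⟨w, hw, w', hw', ?_⟩
  have hsub : Bl w l ⊆ Bl (l • z) (3 * l) := by
    apply Bl_subset
    have := cell_corner hl w
    rw [hw] at this
    omega
  obtain ⟨n, p, hp, hlt⟩ := hf
  refine ⟨n, p, hp, ?_⟩
  have : cst y p n = cst x p n := by
    unfold cst
    apply Finset.sum_congr rfl
    intro i hi
    have hi' := Finset.mem_range.1 hi
    exact (hxy _ (mem_edgesIn (hsub (hp.2.2.2 i (by omega)))
      (hsub (hp.2.2.2 (i + 1) (by omega))))).symm
  rw [this]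
  exact hlt

/-- translation of a family of endpoints -/
theorem real_ex_translate (Q : V → Prop) (c : V → ℝ) (w : V) :
    PP.real {x | ∃ w' : V, Q (w' - w) ∧ Fast x Set.univ w w' (c (w' - w))} =
      PP.real {x | ∃ w' : V, Q w' ∧ Fast x Set.univ 0 w' (c w')} := by
  have hm : MeasurableSet {x : W | ∃ w' : V, Q w' ∧ Fast x Set.univ 0 w' (c w')} := by
    have : {x : W | ∃ w' : V, Q w' ∧ Fast x Set.univ 0 w' (c w')} =
        ⋃ w' : V, ({_x : W | Q w'} ∩ {x | Fast x Set.univ 0 w' (c w')}) := by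
      ext x
      simp
    rw [this]
    exact MeasurableSet.iUnion fun w' =>
      (MeasurableSet.const _).inter (measurableSet_fast _ _ _ _)
  rw [← (shift_mp w).measureReal_preimage hm.nullMeasurableSet]
  congr 1
  ext x
  simp only [Set.mem_ofPred_eq, Set.mem_preimage]
  constructor
  · rintro ⟨w', hq, hf⟩
    refine ⟨w' - w, hq, ?_⟩
    rw [fast_shift, image_univ_add, zero_add, sub_add_cancel]
    exact hf
  · rintro ⟨w', hq, hf⟩
    rw [fast_shift, image_univ_add, zero_add] at hf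
    exact ⟨w' + w, by simpa using hq, by simpa using hf⟩

theorem real_biUnion_ball (u : V) (R : ℕ) (A : V → Set W) (p : ℝ) (hp0 : 0 ≤ p)
    (hp : ∀ w ∈ Bl u R, PP.real (A w) ≤ p) :
    PP.real {x | ∃ w ∈ Bl u R, x ∈ A w} ≤ (2 * R + 1) ^ 2 * p := by
  have hsub : {x : W | ∃ w ∈ Bl u R, x ∈ A w} ⊆ ⋃ w ∈ (ball_finite u R).toFinset, A w := by
    rintro x ⟨w, hw, hx⟩
    simp only [Set.mem_iUnion]
    exact ⟨w, by simpa using hw, hx⟩
  refine (measureReal_mono hsub (measure_ne_top _ _)).trans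
    ((measureReal_biUnion_finset_le _ _).trans ?_)
  refine (Finset.sum_le_sum (fun w hw => hp w (by simpa using hw))).trans ?_
  rw [Finset.sum_const, nsmul_eq_mul]
  apply mul_le_mul_of_nonneg_right _ hp0
  have h1 := ball_ncard_le u R
  rw [Set.ncard_eq_toFinset_card _ (ball_finite u R)] at h1
  exact_mod_cast h1

theorem badAt_real {μ : ℝ × ℝ → ℝ} {l : ℕ} {s p : ℝ}
    (hp : PP.real {x | ∃ v : V, nrm v = l ∧ Fast x Set.univ 0 v (at' μ v - s)} ≤ p) (w : V) :
    PP.real (badAt μ l s w) ≤ p := by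
  have h := real_ex_translate (fun v => nrm v = l) (fun v => at' μ v - s) w
  rw [← h] at hp
  refine le_trans (measureReal_mono ?_ (measure_ne_top _ _)) hp
  rintro x ⟨w', h1, h2⟩
  exact ⟨w', h1, h2.mono (Set.subset_univ _) le_rfl⟩

theorem badCell_real {μ : ℝ × ℝ → ℝ} {l : ℕ} (hl : 1 ≤ l) {s p : ℝ}
    (hp : PP.real {x | ∃ v : V, nrm v = l ∧ Fast x Set.univ 0 v (at' μ v - s)} ≤ p) (z : V) :
    PP.real (badCell μ l s z) ≤ (4 * l + 1) ^ 2 * p := by
  have hp0 : 0 ≤ p := le_trans measureReal_nonneg hp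
  have h := real_biUnion_ball (l • z) (2 * l) (fun w => badAt μ l s w) p hp0
    (fun w _ => badAt_real hp w)
  refine le_trans (measureReal_mono ?_ (measure_ne_top _ _)) (h.trans (le_of_eq ?_))
  · rintro x ⟨w, h1, h2⟩
    refine ⟨w, ?_, h2⟩
    have := cell_corner hl w
    rw [h1] at this
    exact this
  · push_cast
    ring

/-- many abnormal cells -/
theorem lo_many (μ : ℝ × ℝ → ℝ) {l : ℕ} (hl : 1 ≤ l) (s p : ℝ)
    (hp : PP.real {x | ∃ v : V, nrm v = l ∧ Fast x Set.univ 0 v (at' μ v - s)} ≤ p)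
    (M J : ℕ) :
    PP.real {x | ∃ S ⊆ (ball_finite 0 M).toFinset, 49 * J ≤ S.card ∧
        ∀ z ∈ S, x ∈ badCell μ l s z} ≤
      49 * ((2 * M + 1) ^ 2 * ((4 * l + 1) ^ 2 * p)) ^ J := by
  have hp0 : 0 ≤ p := le_trans measureReal_nonneg hp
  have key := ld_col (fun z => badCell μ l s z) (fun z => edgesIn (l • z) (3 * l))
    (ball_finite 0 M).toFinset (fun z => (z.1 % 7, z.2 % 7))
    (Finset.Ico (0 : ℤ) 7 ×ˢ Finset.Ico (0 : ℤ) 7) ⟨(0, 0), by simp⟩
    (fun z _ => by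
      rw [Finset.mem_product, Finset.mem_Ico, Finset.mem_Ico]
      exact ⟨⟨Int.emod_nonneg _ (by norm_num), Int.emod_lt_of_pos _ (by norm_num)⟩,
        ⟨Int.emod_nonneg _ (by norm_num), Int.emod_lt_of_pos _ (by norm_num)⟩⟩)
    (fun z _ => badCell_meas _ _ _ _) (fun z _ => badCell_dep μ hl s z)
    ?_ ((4 * l + 1) ^ 2 * p) (by positivity) (fun z _ => badCell_real hl hp z) J
  · have hc : (Finset.Ico (0 : ℤ) 7 ×ˢ Finset.Ico (0 : ℤ) 7).card = 49 := by decide
    rw [hc] at key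
    refine key.trans ?_
    push_cast
    apply mul_le_mul_of_nonneg_left _ (by norm_num)
    apply pow_le_pow_left₀ (by positivity)
    apply mul_le_mul_of_nonneg_right _ (by positivity)
    have h1 := ball_ncard_le 0 M
    rw [Set.ncard_eq_toFinset_card _ (ball_finite 0 M)] at h1
    exact_mod_cast h1
  · intro z _ z' _ hne hcol
    apply edgesIn_disjoint
    rw [Prod.mk.injEq] at hcol
    obtain ⟨h1, h2⟩ := hcol
    have h3 : 7 ≤ nrm (z - z') := by
      have hne' : z.1 ≠ z'.1 ∨ z.2 ≠ z'.2 := by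
        by_contra hcon
        push Not at hcon
        exact hne (Prod.ext hcon.1 hcon.2)
      simp only [nrm, Prod.fst_sub, Prod.snd_sub]
      omega
    have h4 : nrm (l • z - l • z') = l * nrm (z - z') := by rw [← smul_sub, nrm_nsmul]
    rw [h4]
    nlinarith

/-- the deterministic part of the lower step -/
theorem lo_det {μ : ℝ × ℝ → ℝ} {Cμ : ℝ} (hμ : MuOK μ Cμ) {x : W} (hx : ∀ e, 0 ≤ x e)
    (v : V) (R l : ℕ) (hl : 1 ≤ l) (s1 s2 y : ℝ) (hs1 : 0 ≤ s1) (hs2 : 0 ≤ s2) (hy : 1 ≤ y)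
    (J : ℕ) (hR : at' μ v ≤ (R : ℝ) / 2048)
    (g0 : ¬ ∃ w : V, R ≤ nrm w ∧ Fast x Set.univ 0 w ((R : ℝ) / 2048))
    (g1 : ¬ ∃ S ⊆ (ball_finite 0 (R / l + 2)).toFinset, 49 * J ≤ S.card ∧
        ∀ z ∈ S, x ∈ badCell μ l s1 z)
    (g2 : ∀ w ∈ Bl 0 R, ¬ ∃ w' : V, nrm (w' - w) = l ∧ Fast x Set.univ w w' ((l : ℝ) / 2048))
    (g3 : ∀ w ∈ Bl 0 R, ¬ ∃ w' : V, nrm (w' - w) ≤ l ∧
      Fast x Set.univ w w' (at' μ (w' - w) - s2))
    (g4 : ¬ ∃ a b : V, a ∈ Bl 0 (R + 2 * l) ∧ nrm (b - a) = 1 ∧ y < x s(a, b)) :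
    ¬ Fast x Set.univ 0 v
      (at' μ v - (2048 * (at' μ v / l) * s1 + 49 * J * (8192 * y + 1) * s2 + s2)) := by
  classical
  intro hf
  have hμv := mu_nonneg hμ v
  have hl0 : (0 : ℝ) < l := by exact_mod_cast hl
  have hl1 : (1 : ℝ) ≤ l := by exact_mod_cast hl
  obtain ⟨n, p, hp, hlt, hopt⟩ := exists_near hx hf
  have hE : 0 ≤ 2048 * (at' μ v / l) * s1 + 49 * J * (8192 * y + 1) * s2 + s2 := by positivity
  have hcst : cst x p n < at' μ v := by linarith
  -- the path stays in the ball of radius `R`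
  have hball : ∀ i ≤ n, p i ∈ Bl 0 R := by
    intro i hi
    by_contra hcon
    have h1 : ¬ nrm (p i - 0) ≤ R := hcon
    rw [sub_zero] at h1
    exact g0 ⟨p i, by omega, i, p, ⟨hp.1, rfl, fun j hj => hp.2.2.1 j (by omega),
      fun _ _ => Set.mem_univ _⟩, by
      have := cst_mono hx p hi
      linarith⟩
  obtain ⟨k, τ, hB⟩ := exists_blocks p n l hl hp.2.2.1
  -- every block costs at least `l / 2048`
  have hcheap : ∀ i < k, (l : ℝ) / 2048 ≤ seg x p (τ i) (τ (i + 1)) := by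
    intro i hi
    by_contra hcon
    push Not at hcon
    exact g2 (p (τ i)) (hball _ (hB.le i hi.le)) ⟨p (τ (i + 1)), (hB.2.2.2.1 i hi).1,
      seg_fast hp.2.2.1 (hB.2.1 i hi).le (hB.le (i + 1) hi) (fun _ _ _ => Set.mem_univ _) hcon⟩
  -- lower bounds for the blocks
  set e : ℕ → ℝ := fun i => if x ∈ badAt μ l s1 (p (τ i)) then s2 else s1 with he
  have h1 : ∀ i < k, at' μ (p (τ (i + 1)) - p (τ i)) - e i ≤ seg x p (τ i) (τ (i + 1)) := by
    intro i hi
    by_contra hcon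
    push Not at hcon
    by_cases hb : x ∈ badAt μ l s1 (p (τ i))
    · have hei : e i = s2 := by rw [he]; simp [hb]
      rw [hei] at hcon
      exact g3 (p (τ i)) (hball _ (hB.le i hi.le)) ⟨p (τ (i + 1)), (hB.2.2.2.1 i hi).1.le,
        seg_fast hp.2.2.1 (hB.2.1 i hi).le (hB.le (i + 1) hi) (fun _ _ _ => Set.mem_univ _) hcon⟩
    · have hei : e i = s1 := by rw [he]; simp [hb]
      rw [hei] at hcon
      exact hb ⟨p (τ (i + 1)), (hB.2.2.2.1 i hi).1,
        seg_fast hp.2.2.1 (hB.2.1 i hi).le (hB.le (i + 1) hi)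
          (fun j hj1 hj2 => (hB.2.2.2.1 i hi).2 j hj1 hj2) hcon⟩
  have h2 : at' μ (v - p (τ k)) - s2 ≤ seg x p (τ k) n := by
    by_contra hcon
    push Not at hcon
    have h3 := seg_fast (x := x) (B := Set.univ) hp.2.2.1 hB.2.2.1 le_rfl
      (fun _ _ _ => Set.mem_univ _) hcon
    rw [hp.2.1] at h3
    have h4 := hB.2.2.2.2
    rw [hp.2.1] at h4
    exact g3 (p (τ k)) (hball _ (hB.le k le_rfl)) ⟨v, h4, h3⟩
  have hsum := blocks_sum hμ hB hp.1 e s2 h1 h2
  -- the number of blocks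
  have hk : (k : ℝ) ≤ 2048 * (at' μ v / l) := by
    have h3 := blocks_seg_ge hB hcheap 0 k (Nat.zero_le _) le_rfl
    rw [Nat.sub_zero, hB.1] at h3
    have h4 : seg x p 0 (τ k) ≤ cst x p n := by
      rw [← seg_zero, ← seg_add x p (Nat.zero_le (τ k)) hB.2.2.1]
      have := seg_nonneg hx p (τ k) n
      linarith
    have h5 : (k : ℝ) * (l / 2048) ≤ at' μ v := by linarith
    rw [← mul_div_assoc, le_div_iff₀ hl0]
    linarith
  -- the number of abnormal blocks
  set I : Finset ℕ := (Finset.range k).filter (fun i => x ∈ badAt μ l s1 (p (τ i))) with hI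
  set f : ℕ → V := fun i => cell l (p (τ i)) with hf'
  set D : ℕ := ⌊8192 * y⌋₊ with hD
  have hfib : ∀ z ∈ I.image f, (I.filter (fun i => f i = z)).card ≤ D + 1 := by
    intro z _
    apply card_le_of_close
    intro i hi j hj hij
    rw [Finset.mem_filter] at hi hj
    have hik : i < k := Finset.mem_range.1 (Finset.mem_filter.1 hi.1).1
    have hjk : j < k := Finset.mem_range.1 (Finset.mem_filter.1 hj.1).1
    have hcell : cell l (p (τ j)) = cell l (p (τ i)) := hj.2.trans hi.2.symm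
    have hd := cell_near hl hcell
    have hst : Fast x Set.univ (p (τ i)) (p (τ j)) (2 * l * y + 1) := by
      have hmem : p (τ i) ∈ Bl 0 R := hball _ (hB.le i hik.le)
      have := fast_stair (x := x) (u := p (τ i)) (v := p (τ j)) (y := y) (c := 2 * l * y + 1)
        (by
          intro a b ha _ hab
          by_contra hlt'
          push Not at hlt'
          refine g4 ⟨a, b, ?_, hab, hlt'⟩
          have q1 := mem_Bl.1 ha
          have q2 := mem_Bl.1 hmem
          rw [sub_zero] at q2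
          have q3 := nrm_sub_le a (p (τ i)) 0
          rw [sub_zero, sub_zero] at q3
          refine mem_Bl.2 ?_
          rw [sub_zero]
          omega) (by
          have q : (nrm (p (τ j) - p (τ i)) : ℝ) ≤ 2 * l := by exact_mod_cast hd
          nlinarith)
      exact this.mono (Set.subset_univ _) le_rfl
    have hseg := near_opt hp hopt (hB.mono i j hij hjk.le) (hB.le j hjk.le) hst
    have hseg2 := blocks_seg_ge hB hcheap i j hij hjk.le
    rw [hD]
    apply Nat.le_floor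
    have h6 : ((j - i : ℕ) : ℝ) * (l / 2048) ≤ 4 * l * y := by nlinarith
    have h7 : ((j - i : ℕ) : ℝ) * l ≤ (8192 * y) * l := by nlinarith
    exact le_of_mul_le_mul_right h7 hl0
  have hcard := Finset.card_le_mul_card_image I (D + 1) hfib
  have himg : (I.image f).card < 49 * J := by
    by_contra hcon
    push Not at hcon
    refine g1 ⟨I.image f, ?_, hcon, ?_⟩
    · intro z hz
      obtain ⟨i, hi, rfl⟩ := Finset.mem_image.1 hz
      have hik : i < k := Finset.mem_range.1 (Finset.mem_filter.1 hi).1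
      have hmem := mem_Bl.1 (hball _ (hB.le i hik.le))
      rw [sub_zero] at hmem
      rw [Set.Finite.mem_toFinset]
      refine mem_Bl.2 ?_
      rw [sub_zero]
      have h3 := cell_nrm hl (p (τ i))
      have h4 : nrm (p (τ i)) / l ≤ R / l := Nat.div_le_div_right hmem
      show nrm (cell l (p (τ i))) ≤ R / l + 2
      omega
    · intro z hz
      obtain ⟨i, hi, rfl⟩ := Finset.mem_image.1 hz
      exact ⟨p (τ i), rfl, (Finset.mem_filter.1 hi).2⟩
  have hA : (I.card : ℝ) ≤ 49 * J * (8192 * y + 1) := by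
    have h3 : I.card ≤ (D + 1) * (49 * J) := hcard.trans (Nat.mul_le_mul_left _ himg.le)
    have h4 : (I.card : ℝ) ≤ (D + 1) * (49 * J) := by exact_mod_cast h3
    have h5 : (D : ℝ) ≤ 8192 * y := Nat.floor_le (by positivity)
    have h6 : (0 : ℝ) ≤ 49 * J := by positivity
    nlinarith
  have hes : ∑ i ∈ Finset.range k, e i ≤ k * s1 + I.card * s2 := by
    have h3 : ∀ i ∈ Finset.range k, e i ≤ s1 + if i ∈ I then s2 else 0 := by
      intro i hi
      by_cases hb : x ∈ badAt μ l s1 (p (τ i))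
      · have hei : e i = s2 := by rw [he]; simp [hb]
        have hiI : i ∈ I := Finset.mem_filter.2 ⟨hi, hb⟩
        rw [hei, if_pos hiI]
        linarith
      · have hei : e i = s1 := by rw [he]; simp [hb]
        have hiI : i ∉ I := fun h => hb (Finset.mem_filter.1 h).2
        rw [hei, if_neg hiI]
        linarith
    refine (Finset.sum_le_sum h3).trans (le_of_eq ?_)
    have h4 : (Finset.range k) ∩ I = I :=
      Finset.inter_eq_right.2 (Finset.filter_subset _ _)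
    rw [Finset.sum_add_distrib, Finset.sum_const, Finset.card_range, nsmul_eq_mul,
      Finset.sum_ite_mem, h4, Finset.sum_const, nsmul_eq_mul]
  have t1 : k * s1 ≤ 2048 * (at' μ v / l) * s1 := mul_le_mul_of_nonneg_right hk hs1
  have t2 : I.card * s2 ≤ 49 * J * (8192 * y + 1) * s2 := mul_le_mul_of_nonneg_right hA hs2
  linarith

theorem lo_core {μ : ℝ × ℝ → ℝ} {Cμ : ℝ} (hμ : MuOK μ Cμ) (hsaw : SawBound)
    (v : V) (R l : ℕ) (hl : 1 ≤ l) (s1 s2 y p P2 : ℝ) (hs1 : 0 ≤ s1) (hs2 : 0 ≤ s2) (hy : 1 ≤ y)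
    (J : ℕ) (hR : at' μ v ≤ (R : ℝ) / 2048)
    (hp : PP.real {x | ∃ v : V, nrm v = l ∧ Fast x Set.univ 0 v (at' μ v - s1)} ≤ p)
    (hP20 : 0 ≤ P2)
    (hP2 : ∀ w : V, nrm w ≤ l → PP.real {x | Fast x Set.univ 0 w (at' μ w - s2)} ≤ P2) :
    PP.real {x | Fast x Set.univ 0 v
      (at' μ v - (2048 * (at' μ v / l) * s1 + 49 * J * (8192 * y + 1) * s2 + s2))} ≤
      (1 / 4 : ℝ) ^ R + 49 * ((2 * ((R / l + 2 : ℕ) : ℝ) + 1) ^ 2 * ((4 * l + 1) ^ 2 * p)) ^ J +
        (2 * R + 1) ^ 2 * (1 / 4 : ℝ) ^ l + (2 * R + 1) ^ 2 * ((2 * l + 1) ^ 2 * P2) +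
        4 * (2 * ((R + 2 * l : ℕ) : ℝ) + 1) ^ 2 * Real.exp (-y) := by
  have q0 := hsaw R
  have q1 := lo_many μ hl s1 p hp (R / l + 2) J
  have q2 : PP.real {x | ∃ w ∈ Bl 0 R,
      x ∈ {x | ∃ w' : V, nrm (w' - w) = l ∧ Fast x Set.univ w w' ((l : ℝ) / 2048)}} ≤
      (2 * R + 1) ^ 2 * (1 / 4 : ℝ) ^ l := by
    apply real_biUnion_ball 0 R _ _ (by positivity)
    intro w _
    have h := real_ex_translate (fun v => nrm v = l) (fun _ => (l : ℝ) / 2048) w
    rw [h]
    refine le_trans (measureReal_mono ?_ (measure_ne_top _ _)) (hsaw l)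
    rintro x ⟨w', h1, h2⟩
    exact ⟨w', h1.ge, h2⟩
  have q3 : PP.real {x | ∃ w ∈ Bl 0 R,
      x ∈ {x | ∃ w' : V, nrm (w' - w) ≤ l ∧ Fast x Set.univ w w' (at' μ (w' - w) - s2)}} ≤
      (2 * R + 1) ^ 2 * ((2 * l + 1) ^ 2 * P2) := by
    apply real_biUnion_ball 0 R _ _ (by positivity)
    intro w _
    have h := real_ex_translate (fun v => nrm v ≤ l) (fun v => at' μ v - s2) w
    rw [h]
    have h2 := real_biUnion_ball 0 l (fun w' => {x | Fast x Set.univ 0 w' (at' μ w' - s2)}) P2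
      hP20 (by
        intro w' hw'
        have := mem_Bl.1 hw'
        rw [sub_zero] at this
        exact hP2 w' this)
    refine le_trans (measureReal_mono ?_ (measure_ne_top _ _)) h2
    rintro x ⟨w', h1, h3⟩
    refine ⟨w', mem_Bl.2 ?_, h3⟩
    rw [sub_zero]
    exact h1
  have q4 := edges_gt 0 (R + 2 * l) (y := y) (by linarith)
  set A0 : Set W := {x | ∃ w : V, R ≤ nrm w ∧ Fast x Set.univ 0 w ((R : ℝ) / 2048)}
  set A1 : Set W := {x | ∃ S ⊆ (ball_finite 0 (R / l + 2)).toFinset, 49 * J ≤ S.card ∧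
        ∀ z ∈ S, x ∈ badCell μ l s1 z}
  set A2 : Set W := {x | ∃ w ∈ Bl 0 R,
      x ∈ {x | ∃ w' : V, nrm (w' - w) = l ∧ Fast x Set.univ w w' ((l : ℝ) / 2048)}}
  set A3 : Set W := {x | ∃ w ∈ Bl 0 R,
      x ∈ {x | ∃ w' : V, nrm (w' - w) ≤ l ∧ Fast x Set.univ w w' (at' μ (w' - w) - s2)}}
  set A4 : Set W := {x | ∃ a b : V, a ∈ Bl 0 (R + 2 * l) ∧ nrm (b - a) = 1 ∧ y < x s(a, b)}
  have hun : PP.real (((A0 ∪ A1) ∪ A2) ∪ A3) ≤ PP.real A0 + PP.real A1 + PP.real A2 + PP.real A3 :=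
    (measureReal_union_le _ _).trans (add_le_add ((measureReal_union_le _ _).trans
      (add_le_add (measureReal_union_le _ _) le_rfl)) le_rfl)
  refine (real_union_le _ (((A0 ∪ A1) ∪ A2) ∪ A3) A4 ?_).trans ?_
  · filter_upwards [nonneg_ae] with x hx hf
    by_contra hcon
    rw [not_or, Set.mem_union, not_or, Set.mem_union, not_or, Set.mem_union, not_or] at hcon
    obtain ⟨⟨⟨⟨h0, h1⟩, h2⟩, h3⟩, h4⟩ := hcon
    exact lo_det hμ hx v R l hl s1 s2 y hs1 hs2 hy J hR h0 h1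
      (fun w hw hex => h2 ⟨w, hw, hex⟩) (fun w hw hex => h3 ⟨w, hw, hex⟩) h4 hf
  · linarith

end Pool.Agent.K4H17.FPP
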