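import Pool.Agent.K4H17.FPP.LoCore
import Pool.Agent.K4H17.FPP.DefsF

/-!
First-passage percolation on `ℤ²`: the lower-tail multiscale step around a general subadditive
function, with coarse-grained starting points; non-asymptotic form.
-/

set_option autoImplicit false
open MeasureTheory ProbabilityTheory Filter
open scoped Pointwise

namespace Pool.Agent.K4H17.FPP

/-- abnormal grid point: `Q` is the set of admissible displacements -/
def badG (φ : V → ℝ) (Q : V → Prop) (l : ℕ) (s : ℝ) (g : V) : Set W :=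
  {x | ∃ g' : V, Q (g' - g) ∧ Fast x (Bl g (2 * l)) g g' (φ (g' - g) - s)}

/-- abnormal cell -/
def badC (φ : V → ℝ) (Q : V → Prop) (l ρ : ℕ) (s : ℝ) (z : V) : Set W :=
  {x | ∃ w : V, cell l w = z ∧ x ∈ badG φ Q l s (ρ • cell ρ w)}

theorem badG_meas (φ : V → ℝ) (Q : V → Prop) (l : ℕ) (s : ℝ) (g : V) :
    MeasurableSet (badG φ Q l s g) := by
  have : badG φ Q l s g = ⋃ g' : V, ({_x : W | Q (g' - g)} ∩
      {x | Fast x (Bl g (2 * l)) g g' (φ (g' - g) - s)}) := by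
    ext x
    simp [badG]
  rw [this]
  exact MeasurableSet.iUnion fun w' => (MeasurableSet.const _).inter (measurableSet_fast _ _ _ _)

theorem badC_meas (φ : V → ℝ) (Q : V → Prop) (l ρ : ℕ) (s : ℝ) (z : V) :
    MeasurableSet (badC φ Q l ρ s z) := by
  have : badC φ Q l ρ s z =
      ⋃ w : V, ({_x : W | cell l w = z} ∩ badG φ Q l s (ρ • cell ρ w)) := by
    ext x
    simp [badC]
  rw [this]
  exact MeasurableSet.iUnion fun w => (MeasurableSet.const _).inter (badG_meas _ _ _ _ _)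

theorem badC_dep (φ : V → ℝ) (Q : V → Prop) {l ρ : ℕ} (hl : 1 ≤ l) (hρ : 1 ≤ ρ)
    (hρl : 8 * ρ ≤ l) (s : ℝ)
    (z : V) : DepOn (edgesIn (l • z) (5 * l)) (badC φ Q l ρ s z) := by
  rintro x y hxy ⟨w, hw, g', hg', hf⟩
  refine ⟨w, hw, g', hg', ?_⟩
  have hsub : Bl (ρ • cell ρ w) (2 * l) ⊆ Bl (l • z) (5 * l) := by
    apply Bl_subset
    have h1 := cell_corner hl w
    rw [hw] at h1
    have h2 := cell_corner hρ w
    rw [nrm_sub_comm] at h2
    have h3 := nrm_sub_le (ρ • cell ρ w) w (l • z)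
    omega
  obtain ⟨n, p, hp, hlt⟩ := hf
  refine ⟨n, p, hp, ?_⟩
  have : cst y p n = cst x p n := by
    unfold cst
    apply Finset.sum_congr rfl
    intro i hi
    have hi' := Finset.mem_range.1 hi
    exact (hxy _ (mem_edgesIn (hsub (hp.2.2.2 i (by omega)))
      (hsub (hp.2.2.2 (i + 1) (by omega))))).symm
  rw [this]
  exact hlt

theorem cell_lip {ρ : ℕ} (hρ : 1 ≤ ρ) (w w' : V) :
    nrm (cell ρ w - cell ρ w') ≤ nrm (w - w') / ρ + 2 := by
  have hl' : (ρ : ℤ) ≠ 0 := by omega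
  have e1 := Int.mul_ediv_add_emod w.1 ρ
  have e2 := Int.mul_ediv_add_emod w'.1 ρ
  have e3 := Int.mul_ediv_add_emod w.2 ρ
  have e4 := Int.mul_ediv_add_emod w'.2 ρ
  have g1 := Int.emod_nonneg w.1 hl'
  have g2 := Int.emod_nonneg w'.1 hl'
  have g3 := Int.emod_nonneg w.2 hl'
  have g4 := Int.emod_nonneg w'.2 hl'
  have k1 := Int.emod_lt_of_pos w.1 (show (0 : ℤ) < ρ by omega)
  have k2 := Int.emod_lt_of_pos w'.1 (show (0 : ℤ) < ρ by omega)
  have k3 := Int.emod_lt_of_pos w.2 (show (0 : ℤ) < ρ by omega)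
  have k4 := Int.emod_lt_of_pos w'.2 (show (0 : ℤ) < ρ by omega)
  have h2 : ρ * nrm (cell ρ w - cell ρ w') ≤ nrm (w - w') + 2 * ρ := by
    rw [← nrm_nsmul, smul_sub]
    have f1 : (ρ • cell ρ w - ρ • cell ρ w').1 = ρ * (w.1 / ρ) - ρ * (w'.1 / ρ) := by
      simp [cell]
    have f2 : (ρ • cell ρ w - ρ • cell ρ w').2 = ρ * (w.2 / ρ) - ρ * (w'.2 / ρ) := by
      simp [cell]
    unfold nrm
    rw [f1, f2]
    simp only [Prod.fst_sub, Prod.snd_sub]
    omega
  have h3 : nrm (cell ρ w - cell ρ w') ≤ (nrm (w - w') + 2 * ρ) / ρ := by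
    rw [Nat.le_div_iff_mul_le (by omega), mul_comm]
    exact h2
  rw [Nat.add_mul_div_right _ _ (by omega)] at h3
  exact h3

theorem badG_real {φ : V → ℝ} {Q : V → Prop} {l : ℕ} {s p : ℝ}
    (hp : PP.real {x | ∃ v : V, Q v ∧ Fast x Set.univ 0 v (φ v - s)} ≤ p) (g : V) :
    PP.real (badG φ Q l s g) ≤ p := by
  have h := real_ex_translate Q (fun v => φ v - s) g
  rw [← h] at hp
  refine le_trans (measureReal_mono ?_ (measure_ne_top _ _)) hp
  rintro x ⟨w', h1, h2⟩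
  exact ⟨w', h1, h2.mono (Set.subset_univ _) le_rfl⟩

theorem badC_real {φ : V → ℝ} {Q : V → Prop} {l ρ : ℕ} (hl : 1 ≤ l) (hρ : 1 ≤ ρ) {s p : ℝ}
    (hp : PP.real {x | ∃ v : V, Q v ∧ Fast x Set.univ 0 v (φ v - s)} ≤ p) (z : V) :
    PP.real (badC φ Q l ρ s z) ≤ (2 * ((2 * l / ρ + 2 : ℕ) : ℝ) + 1) ^ 2 * p := by
  have hp0 : 0 ≤ p := le_trans measureReal_nonneg hp
  have h := real_biUnion_ball (cell ρ (l • z)) (2 * l / ρ + 2) (fun w => badG φ Q l s (ρ • w)) p hp0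
    (fun w _ => badG_real hp (ρ • w))
  refine le_trans (measureReal_mono ?_ (measure_ne_top _ _)) h
  rintro x ⟨w, h1, h2⟩
  refine ⟨cell ρ w, ?_, h2⟩
  have h3 := cell_corner hl w
  rw [h1] at h3
  have h4 := cell_lip hρ w (l • z)
  have h5 : nrm (w - l • z) / ρ ≤ 2 * l / ρ := Nat.div_le_div_right h3
  exact mem_Bl.2 (by omega)

/-- many abnormal cells -/
theorem loF_many (φ : V → ℝ) (Q : V → Prop) {l ρ : ℕ} (hl : 1 ≤ l) (hρ : 1 ≤ ρ)
    (hρl : 8 * ρ ≤ l) (s p : ℝ)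
    (hp : PP.real {x | ∃ v : V, Q v ∧ Fast x Set.univ 0 v (φ v - s)} ≤ p) (M J : ℕ) :
    PP.real {x | ∃ S ⊆ (ball_finite 0 M).toFinset, 121 * J ≤ S.card ∧
        ∀ z ∈ S, x ∈ badC φ Q l ρ s z} ≤
      121 * ((2 * M + 1) ^ 2 * ((2 * ((2 * l / ρ + 2 : ℕ) : ℝ) + 1) ^ 2 * p)) ^ J := by
  have hp0 : 0 ≤ p := le_trans measureReal_nonneg hp
  have key := ld_col (fun z => badC φ Q l ρ s z) (fun z => edgesIn (l • z) (5 * l))
    (ball_finite 0 M).toFinset (fun z => (z.1 % 11, z.2 % 11))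
    (Finset.Ico (0 : ℤ) 11 ×ˢ Finset.Ico (0 : ℤ) 11) ⟨(0, 0), by simp⟩
    (fun z _ => by
      rw [Finset.mem_product, Finset.mem_Ico, Finset.mem_Ico]
      exact ⟨⟨Int.emod_nonneg _ (by norm_num), Int.emod_lt_of_pos _ (by norm_num)⟩,
        ⟨Int.emod_nonneg _ (by norm_num), Int.emod_lt_of_pos _ (by norm_num)⟩⟩)
    (fun z _ => badC_meas _ _ _ _ _ _) (fun z _ => badC_dep φ Q hl hρ hρl s z)
    ?_ ((2 * ((2 * l / ρ + 2 : ℕ) : ℝ) + 1) ^ 2 * p) (by positivity)
    (fun z _ => badC_real hl hρ hp z) J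
  · have hc : (Finset.Ico (0 : ℤ) 11 ×ˢ Finset.Ico (0 : ℤ) 11).card = 121 := by
      rw [Finset.card_product, Int.card_Ico]
      rfl
    rw [hc] at key
    refine key.trans ?_
    push_cast
    apply mul_le_mul_of_nonneg_left _ (by norm_num)
    apply pow_le_pow_left₀ (by positivity)
    apply mul_le_mul_of_nonneg_right _ (by positivity)
    have h1 := ball_ncard_le 0 M
    rw [Set.ncard_eq_toFinset_card _ (ball_finite 0 M)] at h1
    exact_mod_cast h1
  · intro z _ z' _ hne hcol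
    apply edgesIn_disjoint
    rw [Prod.mk.injEq] at hcol
    obtain ⟨h1, h2⟩ := hcol
    have h3 : 11 ≤ nrm (z - z') := by
      have hne' : z.1 ≠ z'.1 ∨ z.2 ≠ z'.2 := by
        by_contra hcon
        push Not at hcon
        exact hne (Prod.ext hcon.1 hcon.2)
      simp only [nrm, Prod.fst_sub, Prod.snd_sub]
      omega
    have h4 : nrm (l • z - l • z') = l * nrm (z - z') := by rw [← smul_sub, nrm_nsmul]
    rw [h4]
    nlinarith

/-- summing the lower bounds of the blocks -/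
theorem blocksF_sum {φ : V → ℝ} {Cφ : ℝ} (hφ : SubOK φ Cφ) {x : W} {p : ℕ → V} {v : V}
    {n l k : ℕ} {τ : ℕ → ℕ} (h : Blocks p n l 0 k τ) (hp0 : p 0 = 0)
    (e : ℕ → ℝ) (s2 : ℝ)
    (h1 : ∀ i < k, φ (p (τ (i + 1)) - p (τ i)) - e i ≤ seg x p (τ i) (τ (i + 1)))
    (h2 : φ (v - p (τ k)) - s2 ≤ seg x p (τ k) n) :
    φ v - (∑ i ∈ Finset.range k, e i) - s2 ≤ cst x p n := by
  have main : ∀ j ≤ k, φ (p (τ j)) - ∑ i ∈ Finset.range j, e i ≤ seg x p 0 (τ j) := by
    intro j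
    induction j with
    | zero =>
      intro _
      rw [h.1, hp0, hφ.zero]
      simp [seg]
    | succ j ih =>
      intro hj
      have g1 := ih (by omega)
      have g2 := h1 j (by omega)
      rw [Finset.sum_range_succ, ← seg_add x p (Nat.zero_le (τ j)) (h.2.1 j (by omega)).le]
      have g3 := hφ.sub (p (τ j)) (p (τ (j + 1)) - p (τ j))
      rw [add_sub_cancel] at g3
      linarith
  have g1 := main k le_rfl
  rw [← seg_zero, ← seg_add x p (Nat.zero_le (τ k)) h.2.2.1]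
  have g3 := hφ.sub (p (τ k)) (v - p (τ k))
  rw [add_sub_cancel] at g3
  linarith

/-- from an abnormal block to an abnormal grid point -/
theorem coarse {φ : V → ℝ} {Cφ : ℝ} (hφ : SubOK φ Cφ) {Q : V → Prop} {x : W} {l ρ : ℕ}
    (hρ : 1 ≤ ρ) (hρl : 8 * ρ ≤ l)
    (hQ : ∀ v : V, nrm v ≤ l + 4 * ρ → l ≤ nrm v + 4 * ρ → Q v) {s s1 y : ℝ} (hss : s + 4 * Cφ * ρ + 4 * ρ * y + 2 ≤ s1) {w w' : V}
    (hww : nrm (w' - w) = l) (hy0 : 0 ≤ y)
    (hedge : ∀ a b : V, nrm (a - w) ≤ 2 * l → nrm (b - a) = 1 → x s(a, b) ≤ y)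
    (hf : Fast x (Bl w l) w w' (φ (w' - w) - s1)) : x ∈ badG φ Q l s (ρ • cell ρ w) := by
  have h1 := cell_corner hρ w
  have h2 := cell_corner hρ w'
  set g := ρ • cell ρ w with hg
  set g' := ρ • cell ρ w' with hg'
  have h2' : nrm (g' - w') ≤ 2 * ρ := by rw [nrm_sub_comm]; exact h2
  have h1' : nrm (g - w) ≤ 2 * ρ := by rw [nrm_sub_comm]; exact h1
  have d1 : nrm (g' - g) ≤ l + 4 * ρ := by
    have := nrm_sub_le g' w' g
    have := nrm_sub_le w' w g
    omega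
  have d2 : l ≤ nrm (g' - g) + 4 * ρ := by
    have := nrm_sub_le w' g' w
    have := nrm_sub_le g' g w
    omega
  refine ⟨g', hQ _ d1 d2, ?_⟩
  have f1 : Fast x (Bl g (2 * l)) g w (2 * ρ * y + 1) := by
    have := fast_stair (x := x) (u := g) (v := w) (y := y) (c := 2 * ρ * y + 1)
      (by
        intro a b ha _ hab
        apply hedge a b _ hab
        have := mem_Bl.1 ha
        have := nrm_sub_le a g w
        omega) (by
        have q : (nrm (w - g) : ℝ) ≤ 2 * ρ := by exact_mod_cast h1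
        nlinarith)
    exact this.mono (Bl_mono (by omega)) le_rfl
  have f2 : Fast x (Bl g (2 * l)) w w' (φ (w' - w) - s1) :=
    hf.mono (Bl_subset (by omega)) le_rfl
  have f3 : Fast x (Bl g (2 * l)) w' g' (2 * ρ * y + 1) := by
    have := fast_stair (x := x) (u := w') (v := g') (y := y) (c := 2 * ρ * y + 1)
      (by
        intro a b ha _ hab
        apply hedge a b _ hab
        have := mem_Bl.1 ha
        have := nrm_sub_le a w' w
        omega) (by
        have q : (nrm (g' - w') : ℝ) ≤ 2 * ρ := by exact_mod_cast h2'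
        nlinarith)
    refine this.mono (Bl_subset ?_) le_rfl
    have := nrm_sub_le w' w g
    omega
  refine ((f1.trans f2).trans f3).mono le_rfl ?_
  have hsub : φ (w' - w) ≤ φ (g' - g) + 4 * Cφ * ρ := by
    have e1 := hφ.sub (g' - g) ((w' - g') + (g - w))
    have e2 := hφ.sub (w' - g') (g - w)
    have e3 := hφ.le (w' - g')
    have e4 := hφ.le (g - w)
    have e5 : g' - g + (w' - g' + (g - w)) = w' - w := by abel
    rw [e5] at e1
    have q1 : (nrm (w' - g') : ℝ) ≤ 2 * ρ := by exact_mod_cast h2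
    have q2 : (nrm (g - w) : ℝ) ≤ 2 * ρ := by exact_mod_cast h1'
    have hC := hφ.one_le
    nlinarith
  linarith

/-- the deterministic part of the lower step -/
theorem loF_det {φ : V → ℝ} {Cφ : ℝ} (hφ : SubOK φ Cφ) {Q : V → Prop} {x : W}
    (hx : ∀ e, 0 ≤ x e)
    (v : V) (R l ρ : ℕ) (hl : 1 ≤ l) (hρ : 1 ≤ ρ) (hρl : 8 * ρ ≤ l)
    (hQ : ∀ v : V, nrm v ≤ l + 4 * ρ → l ≤ nrm v + 4 * ρ → Q v) (s s1 s2 y : ℝ)
    (hs1 : 0 ≤ s1) (hss : s + 4 * Cφ * ρ + 4 * ρ * y + 2 ≤ s1) (hs2 : 0 ≤ s2) (hy : 1 ≤ y)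
    (J : ℕ) (hR : φ v ≤ (R : ℝ) / 2048)
    (g0 : ¬ ∃ w : V, R ≤ nrm w ∧ Fast x Set.univ 0 w ((R : ℝ) / 2048))
    (g1 : ¬ ∃ S ⊆ (ball_finite 0 (R / l + 2)).toFinset, 121 * J ≤ S.card ∧
        ∀ z ∈ S, x ∈ badC φ Q l ρ s z)
    (g2 : ∀ w ∈ Bl 0 R, ¬ ∃ w' : V, nrm (w' - w) = l ∧ Fast x Set.univ w w' ((l : ℝ) / 2048))
    (g3 : ∀ w ∈ Bl 0 R, ¬ ∃ w' : V, nrm (w' - w) ≤ l ∧
      Fast x Set.univ w w' (φ (w' - w) - s2))
    (g4 : ¬ ∃ a b : V, a ∈ Bl 0 (R + 2 * l) ∧ nrm (b - a) = 1 ∧ y < x s(a, b)) :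
    ¬ Fast x Set.univ 0 v
      (φ v - (2048 * (φ v / l) * s1 + 121 * J * (8192 * y + 1) * s2 + s2)) := by
  classical
  intro hf
  have hμv := hφ.nonneg v
  have hl0 : (0 : ℝ) < l := by exact_mod_cast hl
  have hl1 : (1 : ℝ) ≤ l := by exact_mod_cast hl
  obtain ⟨n, p, hp, hlt, hopt⟩ := exists_near hx hf
  have hE : 0 ≤ 2048 * (φ v / l) * s1 + 121 * J * (8192 * y + 1) * s2 + s2 := by positivity
  have hcst : cst x p n < φ v := by linarith
  -- the path stays in the ball of radius `R`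
  have hball : ∀ i ≤ n, p i ∈ Bl 0 R := by
    intro i hi
    by_contra hcon
    have h1 : ¬ nrm (p i - 0) ≤ R := hcon
    rw [sub_zero] at h1
    exact g0 ⟨p i, by omega, i, p, ⟨hp.1, rfl, fun j hj => hp.2.2.1 j (by omega),
      fun _ _ => Set.mem_univ _⟩, by
      have := cst_mono hx p hi
      linarith⟩
  obtain ⟨k, τ, hB⟩ := exists_blocks p n l hl hp.2.2.1
  -- every block costs at least `l / 2048`
  have hcheap : ∀ i < k, (l : ℝ) / 2048 ≤ seg x p (τ i) (τ (i + 1)) := by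
    intro i hi
    by_contra hcon
    push Not at hcon
    exact g2 (p (τ i)) (hball _ (hB.le i hi.le)) ⟨p (τ (i + 1)), (hB.2.2.2.1 i hi).1,
      seg_fast hp.2.2.1 (hB.2.1 i hi).le (hB.le (i + 1) hi) (fun _ _ _ => Set.mem_univ _) hcon⟩
  -- lower bounds for the blocks
  set e : ℕ → ℝ := fun i => if x ∈ badC φ Q l ρ s (cell l (p (τ i))) then s2 else s1 with he
  have h1 : ∀ i < k, φ (p (τ (i + 1)) - p (τ i)) - e i ≤ seg x p (τ i) (τ (i + 1)) := by
    intro i hi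
    by_contra hcon
    push Not at hcon
    by_cases hb : x ∈ badC φ Q l ρ s (cell l (p (τ i)))
    · have hei : e i = s2 := by rw [he]; simp [hb]
      rw [hei] at hcon
      exact g3 (p (τ i)) (hball _ (hB.le i hi.le)) ⟨p (τ (i + 1)), (hB.2.2.2.1 i hi).1.le,
        seg_fast hp.2.2.1 (hB.2.1 i hi).le (hB.le (i + 1) hi) (fun _ _ _ => Set.mem_univ _) hcon⟩
    · have hei : e i = s1 := by rw [he]; simp [hb]
      rw [hei] at hcon
      have hff := seg_fast (B := Bl (p (τ i)) l) hp.2.2.1 (hB.2.1 i hi).le (hB.le (i + 1) hi)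
          (fun j hj1 hj2 => (hB.2.2.2.1 i hi).2 j hj1 hj2) hcon
      refine hb ⟨p (τ i), rfl, coarse hφ hρ hρl hQ hss (hB.2.2.2.1 i hi).1 (by linarith) ?_ hff⟩
      intro a b ha hab
      by_contra hlt'
      push Not at hlt'
      refine g4 ⟨a, b, ?_, hab, hlt'⟩
      have q2 := mem_Bl.1 (hball _ (hB.le i hi.le))
      rw [sub_zero] at q2
      have q3 := nrm_sub_le a (p (τ i)) 0
      rw [sub_zero, sub_zero] at q3
      refine mem_Bl.2 ?_
      rw [sub_zero]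
      omega
  have h2 : φ (v - p (τ k)) - s2 ≤ seg x p (τ k) n := by
    by_contra hcon
    push Not at hcon
    have h3 := seg_fast (x := x) (B := Set.univ) hp.2.2.1 hB.2.2.1 le_rfl
      (fun _ _ _ => Set.mem_univ _) hcon
    rw [hp.2.1] at h3
    have h4 := hB.2.2.2.2
    rw [hp.2.1] at h4
    exact g3 (p (τ k)) (hball _ (hB.le k le_rfl)) ⟨v, h4, h3⟩
  have hsum := blocksF_sum hφ hB hp.1 e s2 h1 h2
  -- the number of blocks
  have hk : (k : ℝ) ≤ 2048 * (φ v / l) := by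
    have h3 := blocks_seg_ge hB hcheap 0 k (Nat.zero_le _) le_rfl
    rw [Nat.sub_zero, hB.1] at h3
    have h4 : seg x p 0 (τ k) ≤ cst x p n := by
      rw [← seg_zero, ← seg_add x p (Nat.zero_le (τ k)) hB.2.2.1]
      have := seg_nonneg hx p (τ k) n
      linarith
    have h5 : (k : ℝ) * (l / 2048) ≤ φ v := by linarith
    rw [← mul_div_assoc, le_div_iff₀ hl0]
    linarith
  -- the number of abnormal blocks
  set I : Finset ℕ :=
    (Finset.range k).filter (fun i => x ∈ badC φ Q l ρ s (cell l (p (τ i)))) with hI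
  set f : ℕ → V := fun i => cell l (p (τ i)) with hf'
  set D : ℕ := ⌊8192 * y⌋₊ with hD
  have hfib : ∀ z ∈ I.image f, (I.filter (fun i => f i = z)).card ≤ D + 1 := by
    intro z _
    apply card_le_of_close
    intro i hi j hj hij
    rw [Finset.mem_filter] at hi hj
    have hik : i < k := Finset.mem_range.1 (Finset.mem_filter.1 hi.1).1
    have hjk : j < k := Finset.mem_range.1 (Finset.mem_filter.1 hj.1).1
    have hcell : cell l (p (τ j)) = cell l (p (τ i)) := hj.2.trans hi.2.symm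
    have hd := cell_near hl hcell
    have hst : Fast x Set.univ (p (τ i)) (p (τ j)) (2 * l * y + 1) := by
      have hmem : p (τ i) ∈ Bl 0 R := hball _ (hB.le i hik.le)
      have := fast_stair (x := x) (u := p (τ i)) (v := p (τ j)) (y := y) (c := 2 * l * y + 1)
        (by
          intro a b ha _ hab
          by_contra hlt'
          push Not at hlt'
          refine g4 ⟨a, b, ?_, hab, hlt'⟩
          have q1 := mem_Bl.1 ha
          have q2 := mem_Bl.1 hmem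
          rw [sub_zero] at q2
          have q3 := nrm_sub_le a (p (τ i)) 0
          rw [sub_zero, sub_zero] at q3
          refine mem_Bl.2 ?_
          rw [sub_zero]
          omega) (by
          have q : (nrm (p (τ j) - p (τ i)) : ℝ) ≤ 2 * l := by exact_mod_cast hd
          nlinarith)
      exact this.mono (Set.subset_univ _) le_rfl
    have hseg := near_opt hp hopt (hB.mono i j hij hjk.le) (hB.le j hjk.le) hst
    have hseg2 := blocks_seg_ge hB hcheap i j hij hjk.le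
    rw [hD]
    apply Nat.le_floor
    have h6 : ((j - i : ℕ) : ℝ) * (l / 2048) ≤ 4 * l * y := by nlinarith
    have h7 : ((j - i : ℕ) : ℝ) * l ≤ (8192 * y) * l := by nlinarith
    exact le_of_mul_le_mul_right h7 hl0
  have hcard := Finset.card_le_mul_card_image I (D + 1) hfib
  have himg : (I.image f).card < 121 * J := by
    by_contra hcon
    push Not at hcon
    refine g1 ⟨I.image f, ?_, hcon, ?_⟩
    · intro z hz
      obtain ⟨i, hi, rfl⟩ := Finset.mem_image.1 hz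
      have hik : i < k := Finset.mem_range.1 (Finset.mem_filter.1 hi).1
      have hmem := mem_Bl.1 (hball _ (hB.le i hik.le))
      rw [sub_zero] at hmem
      rw [Set.Finite.mem_toFinset]
      refine mem_Bl.2 ?_
      rw [sub_zero]
      have h3 := cell_nrm hl (p (τ i))
      have h4 : nrm (p (τ i)) / l ≤ R / l := Nat.div_le_div_right hmem
      show nrm (cell l (p (τ i))) ≤ R / l + 2
      omega
    · intro z hz
      obtain ⟨i, hi, rfl⟩ := Finset.mem_image.1 hz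
      exact (Finset.mem_filter.1 hi).2
  have hA : (I.card : ℝ) ≤ 121 * J * (8192 * y + 1) := by
    have h3 : I.card ≤ (D + 1) * (121 * J) := hcard.trans (Nat.mul_le_mul_left _ himg.le)
    have h4 : (I.card : ℝ) ≤ (D + 1) * (121 * J) := by exact_mod_cast h3
    have h5 : (D : ℝ) ≤ 8192 * y := Nat.floor_le (by positivity)
    have h6 : (0 : ℝ) ≤ 121 * J := by positivity
    nlinarith
  have hes : ∑ i ∈ Finset.range k, e i ≤ k * s1 + I.card * s2 := by
    have h3 : ∀ i ∈ Finset.range k, e i ≤ s1 + if i ∈ I then s2 else 0 := by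
      intro i hi
      by_cases hb : x ∈ badC φ Q l ρ s (cell l (p (τ i)))
      · have hei : e i = s2 := by rw [he]; simp [hb]
        have hiI : i ∈ I := Finset.mem_filter.2 ⟨hi, hb⟩
        rw [hei, if_pos hiI]
        linarith
      · have hei : e i = s1 := by rw [he]; simp [hb]
        have hiI : i ∉ I := fun h => hb (Finset.mem_filter.1 h).2
        rw [hei, if_neg hiI]
        linarith
    refine (Finset.sum_le_sum h3).trans (le_of_eq ?_)
    have h4 : (Finset.range k) ∩ I = I :=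
      Finset.inter_eq_right.2 (Finset.filter_subset _ _)
    rw [Finset.sum_add_distrib, Finset.sum_const, Finset.card_range, nsmul_eq_mul,
      Finset.sum_ite_mem, h4, Finset.sum_const, nsmul_eq_mul]
  have t1 : k * s1 ≤ 2048 * (φ v / l) * s1 := mul_le_mul_of_nonneg_right hk hs1
  have t2 : I.card * s2 ≤ 121 * J * (8192 * y + 1) * s2 := mul_le_mul_of_nonneg_right hA hs2
  linarith

theorem loF_core {φ : V → ℝ} {Cφ : ℝ} (hφ : SubOK φ Cφ) (hsaw : SawBound) (Q : V → Prop)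
    (v : V) (R l ρ : ℕ) (hl : 1 ≤ l) (hρ : 1 ≤ ρ) (hρl : 8 * ρ ≤ l)
    (hQ : ∀ v : V, nrm v ≤ l + 4 * ρ → l ≤ nrm v + 4 * ρ → Q v) (s s1 s2 y p P2 : ℝ)
    (hs1 : 0 ≤ s1) (hss : s + 4 * Cφ * ρ + 4 * ρ * y + 2 ≤ s1) (hs2 : 0 ≤ s2) (hy : 1 ≤ y)
    (J : ℕ) (hR : φ v ≤ (R : ℝ) / 2048)
    (hp : PP.real {x | ∃ v : V, Q v ∧ Fast x Set.univ 0 v (φ v - s)} ≤ p)
    (hP20 : 0 ≤ P2)
    (hP2 : ∀ w : V, nrm w ≤ l → PP.real {x | Fast x Set.univ 0 w (φ w - s2)} ≤ P2) :
    PP.real {x | Fast x Set.univ 0 v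
      (φ v - (2048 * (φ v / l) * s1 + 121 * J * (8192 * y + 1) * s2 + s2))} ≤
      (1 / 4 : ℝ) ^ R + 121 * ((2 * ((R / l + 2 : ℕ) : ℝ) + 1) ^ 2 *
          ((2 * ((2 * l / ρ + 2 : ℕ) : ℝ) + 1) ^ 2 * p)) ^ J +
        (2 * R + 1) ^ 2 * (1 / 4 : ℝ) ^ l + (2 * R + 1) ^ 2 * ((2 * l + 1) ^ 2 * P2) +
        4 * (2 * ((R + 2 * l : ℕ) : ℝ) + 1) ^ 2 * Real.exp (-y) := by
  have q0 := hsaw R
  have q1 := loF_many φ Q hl hρ hρl s p hp (R / l + 2) J
  have q2 : PP.real {x | ∃ w ∈ Bl 0 R,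
      x ∈ {x | ∃ w' : V, nrm (w' - w) = l ∧ Fast x Set.univ w w' ((l : ℝ) / 2048)}} ≤
      (2 * R + 1) ^ 2 * (1 / 4 : ℝ) ^ l := by
    apply real_biUnion_ball 0 R _ _ (by positivity)
    intro w _
    have h := real_ex_translate (fun v => nrm v = l) (fun _ => (l : ℝ) / 2048) w
    rw [h]
    refine le_trans (measureReal_mono ?_ (measure_ne_top _ _)) (hsaw l)
    rintro x ⟨w', h1, h2⟩
    exact ⟨w', h1.ge, h2⟩
  have q3 : PP.real {x | ∃ w ∈ Bl 0 R,
      x ∈ {x | ∃ w' : V, nrm (w' - w) ≤ l ∧ Fast x Set.univ w w' (φ (w' - w) - s2)}} ≤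
      (2 * R + 1) ^ 2 * ((2 * l + 1) ^ 2 * P2) := by
    apply real_biUnion_ball 0 R _ _ (by positivity)
    intro w _
    have h := real_ex_translate (fun v => nrm v ≤ l) (fun v => φ v - s2) w
    rw [h]
    have h2 := real_biUnion_ball 0 l (fun w' => {x | Fast x Set.univ 0 w' (φ w' - s2)}) P2
      hP20 (by
        intro w' hw'
        have := mem_Bl.1 hw'
        rw [sub_zero] at this
        exact hP2 w' this)
    refine le_trans (measureReal_mono ?_ (measure_ne_top _ _)) h2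
    rintro x ⟨w', h1, h3⟩
    refine ⟨w', mem_Bl.2 ?_, h3⟩
    rw [sub_zero]
    exact h1
  have q4 := edges_gt 0 (R + 2 * l) (y := y) (by linarith)
  set A0 : Set W := {x | ∃ w : V, R ≤ nrm w ∧ Fast x Set.univ 0 w ((R : ℝ) / 2048)}
  set A1 : Set W := {x | ∃ S ⊆ (ball_finite 0 (R / l + 2)).toFinset, 121 * J ≤ S.card ∧
        ∀ z ∈ S, x ∈ badC φ Q l ρ s z}
  set A2 : Set W := {x | ∃ w ∈ Bl 0 R,
      x ∈ {x | ∃ w' : V, nrm (w' - w) = l ∧ Fast x Set.univ w w' ((l : ℝ) / 2048)}}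
  set A3 : Set W := {x | ∃ w ∈ Bl 0 R,
      x ∈ {x | ∃ w' : V, nrm (w' - w) ≤ l ∧ Fast x Set.univ w w' (φ (w' - w) - s2)}}
  set A4 : Set W := {x | ∃ a b : V, a ∈ Bl 0 (R + 2 * l) ∧ nrm (b - a) = 1 ∧ y < x s(a, b)}
  have hun : PP.real (((A0 ∪ A1) ∪ A2) ∪ A3) ≤ PP.real A0 + PP.real A1 + PP.real A2 + PP.real A3 :=
    (measureReal_union_le _ _).trans (add_le_add ((measureReal_union_le _ _).trans
      (add_le_add (measureReal_union_le _ _) le_rfl)) le_rfl)
  refine (real_union_le _ (((A0 ∪ A1) ∪ A2) ∪ A3) A4 ?_).trans ?_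
  · filter_upwards [nonneg_ae] with x hx hf
    by_contra hcon
    rw [not_or, Set.mem_union, not_or, Set.mem_union, not_or, Set.mem_union, not_or] at hcon
    obtain ⟨⟨⟨⟨h0, h1⟩, h2⟩, h3⟩, h4⟩ := hcon
    exact loF_det hφ hx v R l ρ hl hρ hρl hQ s s1 s2 y hs1 hss hs2 hy J hR h0 h1
      (fun w hw hex => h2 ⟨w, hw, hex⟩) (fun w hw hex => h3 ⟨w, hw, hex⟩) h4 hf
  · linarith

end Pool.Agent.K4H17.FPP
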