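import Pool.Agent.K4H17.FPP.Base

/-!
First-passage percolation on `ℤ²`: the canonical measure, measurability, translation, one edge.
-/

set_option autoImplicit false
open MeasureTheory ProbabilityTheory Filter
open scoped Pointwise

namespace Pool.Agent.K4H17.FPP

instance : Countable (Sym2 V) := by
  unfold Sym2
  infer_instance

/-! ### one coordinate -/

theorem PP_coord (e : Sym2 V) {s : Set ℝ} (hs : MeasurableSet s) :
    PP {x | x e ∈ s} = expMeasure 1 s := by
  have h := Measure.infinitePi_pi (μ := fun _ : Sym2 V => expMeasure 1) (s := {e})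
    (t := fun _ => s) (by intro i _; exact hs)
  have h2 : (Set.pi ((({e} : Finset (Sym2 V)) : Set (Sym2 V))) (fun _ => s) : Set W) =
      {x | x e ∈ s} := by
    ext x
    simp
  rw [h2] at h
  simpa [PP] using h

theorem PP_coord_real (e : Sym2 V) {s : Set ℝ} (hs : MeasurableSet s) :
    PP.real {x | x e ∈ s} = (expMeasure 1).real s := by
  rw [measureReal_def, PP_coord e hs, measureReal_def]

theorem exp_real_Iic (y : ℝ) (hy : 0 ≤ y) :
    (expMeasure 1).real (Set.Iic y) = 1 - Real.exp (-y) := by
  rw [← cdf_eq_real, cdf_expMeasure_eq one_pos, if_pos hy, one_mul]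

theorem exp_real_Ioi (y : ℝ) (hy : 0 ≤ y) :
    (expMeasure 1).real (Set.Ioi y) = Real.exp (-y) := by
  have h := measureReal_compl (μ := expMeasure 1) (s := Set.Iic y) measurableSet_Iic
  rw [Set.compl_Iic, exp_real_Iic y hy] at h
  rw [h]
  simp

/-- tail of one weight -/
theorem edge_gt (e : Sym2 V) {y : ℝ} (hy : 0 ≤ y) : PP.real {x | y < x e} = Real.exp (-y) := by
  rw [← exp_real_Ioi y hy, ← PP_coord_real e measurableSet_Ioi]
  rfl

theorem edge_le (e : Sym2 V) {y : ℝ} (hy : 0 ≤ y) : PP.real {x | x e ≤ y} ≤ y := by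
  have h : PP.real {x | x e ≤ y} = 1 - Real.exp (-y) := by
    rw [← exp_real_Iic y hy, ← PP_coord_real e measurableSet_Iic]
    rfl
  rw [h]
  have := Real.add_one_le_exp (-y)
  linarith

theorem nonneg_ae : ∀ᵐ x ∂PP, ∀ e, 0 ≤ x e := by
  rw [ae_all_iff]
  intro e
  have h : PP {x | x e ∈ Set.Iio 0} = 0 := by
    rw [PP_coord e measurableSet_Iio]
    have h1 : expMeasure 1 (Set.Iic 0) = 0 := by
      rw [← ofReal_cdf, cdf_expMeasure_eq one_pos]
      simp
    exact measure_mono_null Set.Iio_subset_Iic_self h1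
  rw [ae_iff]
  convert h using 3
  simp

/-! ### balls -/

theorem ball_subset_box (u : V) (R : ℕ) :
    Bl u R ⊆ ((Finset.Icc (u.1 - R) (u.1 + R) ×ˢ Finset.Icc (u.2 - R) (u.2 + R) : Finset V) :
      Set V) := by
  intro w hw
  have hw' := mem_Bl.1 hw
  simp only [nrm, Prod.fst_sub, Prod.snd_sub] at hw'
  simp only [Finset.coe_product, Finset.coe_Icc, Set.mem_prod, Set.mem_Icc]
  omega

theorem ball_finite (u : V) (R : ℕ) : (Bl u R).Finite :=
  (Finset.finite_toSet _).subset (ball_subset_box u R)

theorem ball_ncard_le (u : V) (R : ℕ) : (Bl u R).ncard ≤ (2 * R + 1) ^ 2 := by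
  refine (Set.ncard_le_ncard (ball_subset_box u R) (Finset.finite_toSet _)).trans ?_
  rw [Set.ncard_coe_finset, Finset.card_product, Int.card_Icc, Int.card_Icc, pow_two]
  apply Nat.mul_le_mul <;> omega

/-- the four unit vectors -/
def dirs : Finset V := {(1, 0), (-1, 0), (0, 1), (0, -1)}

theorem mem_dirs {v : V} (h : nrm v = 1) : v ∈ dirs := by
  obtain ⟨a, b⟩ := v
  simp only [nrm] at h
  simp only [dirs, Finset.mem_insert, Finset.mem_singleton, Prod.mk.injEq]
  omega

/-- some edge near `u` is large -/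
theorem edges_gt (u : V) (R : ℕ) {y : ℝ} (hy : 0 ≤ y) :
    PP.real {x | ∃ a b : V, a ∈ Bl u R ∧ nrm (b - a) = 1 ∧ y < x s(a, b)} ≤
      4 * (2 * R + 1) ^ 2 * Real.exp (-y) := by
  classical
  set F : Finset (V × V) := (ball_finite u R).toFinset ×ˢ dirs with hF
  have hsub : {x : W | ∃ a b : V, a ∈ Bl u R ∧ nrm (b - a) = 1 ∧ y < x s(a, b)} ⊆
      ⋃ i ∈ F, {x : W | y < x s(i.1, i.1 + i.2)} := by
    rintro x ⟨a, b, ha, hab, hlt⟩
    simp only [Set.mem_iUnion]
    refine ⟨(a, b - a), ?_, ?_⟩
    · rw [hF, Finset.mem_product]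
      exact ⟨by simpa using ha, mem_dirs hab⟩
    · simpa using hlt
  refine (measureReal_mono hsub (measure_ne_top _ _)).trans
    ((measureReal_biUnion_finset_le _ _).trans ?_)
  rw [Finset.sum_congr rfl (fun i _ => edge_gt _ hy), Finset.sum_const, nsmul_eq_mul]
  apply mul_le_mul_of_nonneg_right _ (Real.exp_pos _).le
  have h1 : F.card = (Bl u R).ncard * 4 := by
    rw [hF, Finset.card_product, Set.ncard_eq_toFinset_card _ (ball_finite u R)]
    congr 1
  rw [h1]
  have h2 := ball_ncard_le u R
  have h3 : ((Bl u R).ncard : ℝ) ≤ (2 * R + 1) ^ 2 := by exact_mod_cast h2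
  push_cast
  linarith

/-! ### measurability -/

theorem measurable_cst (p : ℕ → V) (n : ℕ) : Measurable (fun x : W => cst x p n) := by
  unfold cst
  exact Finset.measurable_sum _ (fun i _ => measurable_pi_apply _)

/-- only finitely many vertices of the path matter -/
theorem fast_iff_fin {x : W} {B : Set V} {u v : V} {c : ℝ} :
    Fast x B u v c ↔ ∃ n : ℕ, ∃ q : Fin (n + 1) → V,
      IsP B u v n (fun i => q (Fin.ofNat (n + 1) i)) ∧
        cst x (fun i => q (Fin.ofNat (n + 1) i)) n < c := by
  constructor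
  · rintro ⟨n, p, hp, hlt⟩
    refine ⟨n, fun i => p i, ?_, ?_⟩
    · obtain ⟨h1, h2, h3, h4⟩ := hp
      refine ⟨?_, ?_, ?_, ?_⟩
      · simpa using h1
      · simpa using h2
      · intro i hi
        have e1 : i % (n + 1) = i := Nat.mod_eq_of_lt (by omega)
        have e2 : (i + 1) % (n + 1) = i + 1 := Nat.mod_eq_of_lt (by omega)
        simp only [Fin.ofNat, e1, e2]
        exact h3 i hi
      · intro i hi
        have e1 : i % (n + 1) = i := Nat.mod_eq_of_lt (by omega)
        simp only [Fin.ofNat, e1]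
        exact h4 i hi
    · have : cst x (fun i => p ((Fin.ofNat (n + 1) i : Fin (n + 1)) : ℕ)) n = cst x p n := by
        unfold cst
        apply Finset.sum_congr rfl
        intro i hi
        have hi' := Finset.mem_range.1 hi
        have e1 : i % (n + 1) = i := Nat.mod_eq_of_lt (by omega)
        have e2 : (i + 1) % (n + 1) = i + 1 := Nat.mod_eq_of_lt (by omega)
        simp only [Fin.ofNat, e1, e2]
      rw [this]
      exact hlt
  · rintro ⟨n, q, h1, h2⟩
    exact ⟨n, _, h1, h2⟩

theorem measurableSet_fast (B : Set V) (u v : V) (c : ℝ) :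
    MeasurableSet {x : W | Fast x B u v c} := by
  have : {x : W | Fast x B u v c} = ⋃ n : ℕ, ⋃ q : Fin (n + 1) → V,
      {x : W | IsP B u v n (fun i => q (Fin.ofNat (n + 1) i)) ∧
        cst x (fun i => q (Fin.ofNat (n + 1) i)) n < c} := by
    ext x
    simp only [Set.mem_iUnion, Set.mem_ofPred_eq]
    exact fast_iff_fin
  rw [this]
  refine MeasurableSet.iUnion fun n => MeasurableSet.iUnion fun q => ?_
  exact (MeasurableSet.const _).inter (measurableSet_lt (measurable_cst _ _) measurable_const)

/-! ### translation -/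

/-- translation of the weights -/
def shift (w : V) (x : W) : W := fun e => x (e.map (fun v => v + w))

theorem shift_mp (w : V) : MeasurePreserving (shift w) PP PP := by
  refine ⟨?_, ?_⟩
  · exact measurable_pi_iff.2 (fun e => measurable_pi_apply _)
  · have hinj : Function.Injective (fun e : Sym2 V => e.map (fun v => v + w)) :=
      Sym2.map.injective (add_left_injective w)
    have := Measure.map_infinitePi_infinitePi_of_inj (P := fun _ : Sym2 V => expMeasure 1) hinj
    exact this

theorem shift_cst (w : V) (x : W) (p : ℕ → V) (n : ℕ) :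
    cst (shift w x) p n = cst x (fun i => p i + w) n := by
  unfold cst shift
  simp

theorem fast_shift {x : W} {B : Set V} {u v w : V} {c : ℝ} :
    Fast (shift w x) B u v c ↔ Fast x ((fun b => b + w) '' B) (u + w) (v + w) c := by
  constructor
  · rintro ⟨n, p, ⟨h1, h2, h3, h4⟩, hlt⟩
    refine ⟨n, fun i => p i + w, ⟨by simp [h1], by simp [h2], ?_, ?_⟩, ?_⟩
    · intro i hi
      have := h3 i hi
      simpa using this
    · intro i hi
      exact ⟨p i, h4 i hi, rfl⟩
    · rwa [shift_cst] at hlt
  · rintro ⟨n, p, ⟨h1, h2, h3, h4⟩, hlt⟩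
    refine ⟨n, fun i => p i - w, ⟨by simp [h1], by simp [h2], ?_, ?_⟩, ?_⟩
    · intro i hi
      have := h3 i hi
      simpa using this
    · intro i hi
      obtain ⟨b, hb, hb2⟩ := h4 i hi
      dsimp only at hb2 ⊢
      rw [← hb2]
      simpa using hb
    · rw [shift_cst]
      simpa using hlt

theorem image_univ_add (w : V) : (fun b : V => b + w) '' Set.univ = Set.univ := by
  ext b
  simp only [Set.image_univ, Set.mem_range, Set.mem_univ, iff_true]
  exact ⟨b - w, by simp⟩

theorem image_Bl_add (u w : V) (R : ℕ) : (fun b : V => b + w) '' Bl u R = Bl (u + w) R := by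
  ext b
  constructor
  · rintro ⟨a, ha, rfl⟩
    have := mem_Bl.1 ha
    refine mem_Bl.2 ?_
    simpa using this
  · intro hb
    refine ⟨b - w, ?_, by simp⟩
    have := mem_Bl.1 hb
    refine mem_Bl.2 ?_
    rwa [sub_sub, add_comm w u]

theorem real_fast_translate (u v w : V) (c : ℝ) :
    PP.real {x | Fast x Set.univ (u + w) (v + w) c} = PP.real {x | Fast x Set.univ u v c} := by
  have h := (shift_mp w).measureReal_preimage
    ((measurableSet_fast Set.univ u v c).nullMeasurableSet)
  rw [← h]
  congr 1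
  ext x
  simp only [Set.mem_ofPred_eq, Set.mem_preimage]
  rw [fast_shift, image_univ_add]

theorem real_fast_translate_Bl (u v w y : V) (R : ℕ) (c : ℝ) :
    PP.real {x | Fast x (Bl (y + w) R) (u + w) (v + w) c} =
      PP.real {x | Fast x (Bl y R) u v c} := by
  have h := (shift_mp w).measureReal_preimage
    ((measurableSet_fast (Bl y R) u v c).nullMeasurableSet)
  rw [← h]
  congr 1
  ext x
  simp only [Set.mem_ofPred_eq, Set.mem_preimage]
  rw [fast_shift, image_Bl_add]

theorem real_not (A : Set W) (hA : MeasurableSet A) : PP.real Aᶜ = 1 - PP.real A := by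
  have := measureReal_compl (μ := PP) hA
  simpa using this

theorem real_not_fast_translate (u v w : V) (c : ℝ) :
    PP.real {x | ¬ Fast x Set.univ (u + w) (v + w) c} =
      PP.real {x | ¬ Fast x Set.univ u v c} := by
  have h1 := real_not _ (measurableSet_fast Set.univ (u + w) (v + w) c)
  have h2 := real_not _ (measurableSet_fast Set.univ u v c)
  have h3 := real_fast_translate u v w c
  have e1 : ({x : W | Fast x Set.univ (u + w) (v + w) c})ᶜ =
    {x | ¬ Fast x Set.univ (u + w) (v + w) c} := rfl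
  have e2 : ({x : W | Fast x Set.univ u v c})ᶜ = {x | ¬ Fast x Set.univ u v c} := rfl
  rw [e1] at h1
  rw [e2] at h2
  rw [h1, h2, h3]

theorem real_not_fast_translate_Bl (u v w y : V) (R : ℕ) (c : ℝ) :
    PP.real {x | ¬ Fast x (Bl (y + w) R) (u + w) (v + w) c} =
      PP.real {x | ¬ Fast x (Bl y R) u v c} := by
  have h1 := real_not _ (measurableSet_fast (Bl (y + w) R) (u + w) (v + w) c)
  have h2 := real_not _ (measurableSet_fast (Bl y R) u v c)
  have h3 := real_fast_translate_Bl u v w y R c
  have e1 : ({x : W | Fast x (Bl (y + w) R) (u + w) (v + w) c})ᶜ =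
    {x | ¬ Fast x (Bl (y + w) R) (u + w) (v + w) c} := rfl
  have e2 : ({x : W | Fast x (Bl y R) u v c})ᶜ = {x | ¬ Fast x (Bl y R) u v c} := rfl
  rw [e1] at h1
  rw [e2] at h2
  rw [h1, h2, h3]

end Pool.Agent.K4H17.FPP
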