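import Pool.Agent.K4H17.FPP.DefsF
import Pool.Agent.K4H17.FPP.Api

/-!
First-passage percolation on `ℤ²`: the mean passage time and representations of a vector by
vectors of a fixed length.
-/

set_option autoImplicit false
open MeasureTheory ProbabilityTheory Filter
open scoped Pointwise

namespace Pool.Agent.K4H17.FPP

/-- the mean passage time -/
noncomputable def hm (v : V) : ℝ := ∫ x, tm x v ∂PP

/-- `v` is a nonnegative combination of integer vectors of norm `l`, of total `h`-cost `≤ s` -/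
def Rep (h : V → ℝ) (l : ℕ) (v : V) (s : ℝ) : Prop :=
  ∃ (F : Finset V) (ν : V → ℝ), (∀ w ∈ F, nrm w = l ∧ 0 ≤ ν w) ∧
    (∑ w ∈ F, ν w * (w.1 : ℝ)) = v.1 ∧ (∑ w ∈ F, ν w * (w.2 : ℝ)) = v.2 ∧
    ∑ w ∈ F, ν w * h w ≤ s

end Pool.Agent.K4H17.FPP
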