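import Pool.Agent.K4H17.FPP.UpAll

/-!
First-passage percolation on `ℤ²`: the uniform version of the upper-tail bound.
-/

set_option autoImplicit false
open MeasureTheory ProbabilityTheory Filter
open scoped Pointwise

namespace Pool.Agent.K4H17.FPP

theorem uup_of_sup {μ : ℝ × ℝ → ℝ} {Cμ : ℝ} (hμ : MuOK μ Cμ) {a : ℝ} (ha : 0 < a)
    (h : ∀ β > a, SUp μ β) : ∀ β > a, UUp μ β := by
  intro β hβ
  have hβ0 : 0 < β := by linarith
  obtain ⟨β1, hβ1⟩ : ∃ β1 : ℝ, β1 = (a + β) / 2 := ⟨_, rfl⟩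
  have h1 : a < β1 := by rw [hβ1]; linarith
  have h2 : β1 < β := by rw [hβ1]; linarith
  obtain ⟨c, hc, N0, hN0⟩ := h β1 h1
  obtain ⟨s, hs⟩ : ∃ s : ℝ, s = β / 2 := ⟨_, rfl⟩
  have hs0 : 0 < s := by rw [hs]; linarith
  -- the constant
  obtain ⟨c', hc'⟩ : ∃ c' : ℝ, c' = min (s * c) (β / 4) / 2 := ⟨_, rfl⟩
  have hmin : 0 < min (s * c) (β / 4) := lt_min (mul_pos hs0 hc) (by linarith)
  have hc'0 : 0 < c' := by rw [hc']; linarith
  have hc'1 : c' < s * c := by rw [hc']; linarith [min_le_left (s * c) (β / 4)]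
  have hc'2 : c' < β / 4 := by rw [hc']; linarith [min_le_right (s * c) (β / 4)]
  have e1 := exp_absorb hc'0 hc'1 0 1 1 one_pos
  have e2 := exp_absorb hc'0 hc'2 2 1 36 one_pos
  have e3 := ge_const hs0 (N0 + 1)
  have e4 := pow_lt (show β / 2 + β / 4 < β by linarith) 2
  obtain ⟨N1, hN1⟩ := eventually_atTop.1 (e1.and (e2.and (e3.and (e4.and
    (eventually_ge_atTop 1)))))
  refine ⟨c', hc'0, N1, fun N hN v hv => ?_⟩
  obtain ⟨f1, f2, f3, f4, f5⟩ := hN1 N hN
  have hN1' : (1 : ℝ) ≤ N := by exact_mod_cast f5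
  have hN0' : (0 : ℝ) < N := by linarith
  by_cases hcase : (N : ℝ) ^ s ≤ nrm v
  · -- large vectors
    have hv0 : N0 ≤ nrm v := by
      have : ((N0 : ℕ) : ℝ) ≤ nrm v := by linarith
      exact_mod_cast this
    have hv1 : (1 : ℝ) ≤ nrm v := by
      have : (1 : ℝ) ≤ (N : ℝ) ^ s := Real.one_le_rpow hN1' hs0.le
      linarith
    have hvN : (nrm v : ℝ) ≤ N := by exact_mod_cast hv
    have k1 := hN0 v hv0
    have k2 : (nrm v : ℝ) ^ β1 ≤ (N : ℝ) ^ β := by
      calc (nrm v : ℝ) ^ β1 ≤ (N : ℝ) ^ β1 := Real.rpow_le_rpow (by positivity) hvN (by linarith)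
        _ ≤ (N : ℝ) ^ β := Real.rpow_le_rpow_of_exponent_le hN1' h2.le
    have k3 : Real.exp (-(nrm v : ℝ) ^ c) ≤ Real.exp (-(N : ℝ) ^ c') := by
      have q1 : (N : ℝ) ^ (s * c) ≤ (nrm v : ℝ) ^ c := by
        rw [Real.rpow_mul hN0'.le]
        exact Real.rpow_le_rpow (by positivity) hcase hc.le
      have q2 : Real.exp (-(nrm v : ℝ) ^ c) ≤ Real.exp (-(1 * (N : ℝ) ^ (s * c))) :=
        Real.exp_le_exp.2 (by linarith)
      rw [Real.rpow_zero, mul_one, one_mul] at f1
      linarith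
    refine le_trans (measureReal_mono ?_ (measure_ne_top _ _)) (k1.trans k3)
    intro x hx hx2
    exact hx (hx2.mono le_rfl (by linarith))
  · -- small vectors
    push Not at hcase
    have hE := edges_gt 0 (nrm v) (y := (N : ℝ) ^ (β / 4)) (by positivity)
    have hvN : (nrm v : ℝ) ≤ N := by exact_mod_cast hv
    refine le_trans (measureReal_mono ?_ (measure_ne_top _ _)) (hE.trans ?_)
    · intro x hx
      by_contra hcon
      apply hx
      have h0 : nrm (v - 0) = nrm v := by rw [sub_zero]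
      have := fast_stair (x := x) (u := 0) (v := v) (y := (N : ℝ) ^ (β / 4))
        (c := at' μ v + (N : ℝ) ^ β)
        (by
          intro a b ha _ hab
          rw [h0] at ha
          by_contra hlt
          push Not at hlt
          exact hcon ⟨a, b, ha, hab, hlt⟩) (by
          rw [h0]
          have h3 := mu_nonneg hμ v
          have h4 : (nrm v : ℝ) * (N : ℝ) ^ (β / 4) ≤ (N : ℝ) ^ (β / 2 + β / 4) := by
            rw [Real.rpow_add hN0']
            apply mul_le_mul_of_nonneg_right _ (by positivity)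
            rw [hs] at hcase
            exact hcase.le
          have h5 : 0 < (N : ℝ) ^ (β / 2 + β / 4) := by positivity
          linarith)
      exact this.mono (Set.subset_univ _) le_rfl
    · have h3 : 4 * (2 * (nrm v : ℝ) + 1) ^ 2 ≤ 36 * (N : ℝ) ^ (2 : ℝ) := by
        rw [Real.rpow_two]
        have h0 : (0 : ℝ) ≤ nrm v := by positivity
        nlinarith
      have h4 := mul_le_mul_of_nonneg_right h3 (Real.exp_pos (-(N : ℝ) ^ (β / 4))).le
      rw [one_mul] at f2
      linarith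

end Pool.Agent.K4H17.FPP
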