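import Pool.Agent.K4H17.FPP.UpCore
import Pool.Agent.K4H17.FPP.Asym

/-!
First-passage percolation on `ℤ²`: the upper-tail multiscale step, asymptotic form.
-/

set_option autoImplicit false
open MeasureTheory ProbabilityTheory Filter
open scoped Pointwise

namespace Pool.Agent.K4H17.FPP

/-- integer division of a vector -/
theorem split_vec (v : V) (m : ℕ) (hm : 1 ≤ m) :
    ∃ u r : V, v = m • u + r ∧ nrm r ≤ 2 * m := by
  refine ⟨(v.1 / m, v.2 / m), (v.1 % m, v.2 % m), ?_, ?_⟩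
  · ext
    · simp only [Prod.fst_add, nsmul_eq_mul]
      have := Int.mul_ediv_add_emod v.1 m
      simpa using this.symm
    · simp only [Prod.snd_add, nsmul_eq_mul]
      have := Int.mul_ediv_add_emod v.2 m
      simpa using this.symm
  · have h1 := Int.emod_nonneg v.1 (show (m : ℤ) ≠ 0 by omega)
    have h2 := Int.emod_nonneg v.2 (show (m : ℤ) ≠ 0 by omega)
    have h3 := Int.emod_lt_of_pos v.1 (show (0 : ℤ) < m by omega)
    have h4 := Int.emod_lt_of_pos v.2 (show (0 : ℤ) < m by omega)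
    simp only [nrm]
    omega

theorem split_nrm {v u r : V} {m : ℕ} (hv : v = m • u + r) (hr : nrm r ≤ 2 * m) :
    m * nrm u ≤ nrm v + 2 * m ∧ nrm v ≤ m * nrm u + 2 * m := by
  have h1 := nrm_add_le (m • u) r
  rw [← hv, nrm_nsmul] at h1
  have h2 : m • u = v + (-r) := by rw [hv]; abel
  have h3 := nrm_add_le v (-r)
  rw [← h2, nrm_nsmul, nrm_neg] at h3
  omega

/-- the block length: real bounds -/
theorem block_bounds {η : ℝ} (hη : 0 < η) (hη1 : η < 1) :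
    ∀ᶠ n : ℕ in atTop, ∀ l : ℕ, (⌊(n : ℝ) ^ η⌋₊ * l ≤ n + 2 * ⌊(n : ℝ) ^ η⌋₊) →
      (n ≤ ⌊(n : ℝ) ^ η⌋₊ * l + 2 * ⌊(n : ℝ) ^ η⌋₊) →
      (l : ℝ) ≤ 3 * (n : ℝ) ^ (1 - η) ∧ (n : ℝ) ^ (1 - η) / 2 ≤ (l : ℝ) := by
  filter_upwards [floor_pow hη, ge_const (sub_pos.2 hη1) 4, eventually_gt_atTop 0]
    with n ⟨h1, h2, h3⟩ h4 hn l hl1 hl2
  set m := ⌊(n : ℝ) ^ η⌋₊ with hm
  have hn0 : (0 : ℝ) < n := by exact_mod_cast hn
  have hmul : (n : ℝ) ^ η * (n : ℝ) ^ (1 - η) = n := by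
    rw [← Real.rpow_add hn0]
    simp
  have hm0 : (0 : ℝ) < m := by exact_mod_cast h1
  have e1 : (m : ℝ) * l ≤ n + 2 * m := by exact_mod_cast hl1
  have e2 : (n : ℝ) ≤ m * l + 2 * m := by exact_mod_cast hl2
  have hp : 0 < (n : ℝ) ^ (1 - η) := by positivity
  constructor
  · -- `m l ≤ n + 2 m ≤ 2 m n^(1-η) + 2 m`
    have h5 : (n : ℝ) ≤ 2 * m * (n : ℝ) ^ (1 - η) := by
      calc (n : ℝ) = (n : ℝ) ^ η * (n : ℝ) ^ (1 - η) := hmul.symm
        _ ≤ (2 * m) * (n : ℝ) ^ (1 - η) := mul_le_mul_of_nonneg_right (by linarith) hp.le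
    have h6 : (m : ℝ) * l ≤ m * (2 * (n : ℝ) ^ (1 - η) + 2) := by nlinarith
    have h7 := le_of_mul_le_mul_left h6 hm0
    linarith
  · have h5 : (m : ℝ) * (n : ℝ) ^ (1 - η) ≤ n := by
      calc (m : ℝ) * (n : ℝ) ^ (1 - η) ≤ (n : ℝ) ^ η * (n : ℝ) ^ (1 - η) :=
            mul_le_mul_of_nonneg_right h2 hp.le
        _ = n := hmul
    have h6 : (m : ℝ) * (n : ℝ) ^ (1 - η) ≤ m * (l + 2) := by nlinarith
    have h7 := le_of_mul_le_mul_left h6 hm0
    linarith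

/-- the total error of the upper step is at most `n ^ β'` -/
theorem up_error {Cμ a' β β' η c' : ℝ} (hC : 0 ≤ Cμ) (K : ℕ) (ha : 0 < a') (hβ : 0 < β)
    (hη : 0 < η) (hc' : 0 < c')
    (h1 : η + (1 - η) * a' < β') (h2 : (1 - η) * β + c' < β') (h3 : η + c' < β') :
    ∀ᶠ n : ℕ in atTop, ∀ m l R J : ℝ, 0 ≤ m → m ≤ (n : ℝ) ^ η → 0 ≤ l →
      l ≤ 3 * (n : ℝ) ^ (1 - η) → 0 ≤ R → R ≤ 2 * m → 0 ≤ J → J ≤ 2 * (n : ℝ) ^ c' →
      Cμ * R + m * l ^ a' + (2 * K + 1) * J * l ^ β + R * (n : ℝ) ^ c' + 1 ≤ (n : ℝ) ^ β' := by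
  have e1 := pow_lt (show η < β' by linarith) (5 * (2 * Cμ))
  have e2 := pow_lt h1 (5 * 3 ^ a')
  have e3 := pow_lt h2 (5 * ((2 * K + 1) * 2 * 3 ^ β))
  have e4 := pow_lt h3 (5 * 2)
  have e5 := ge_const (show 0 < β' by linarith) 5
  filter_upwards [e1, e2, e3, e4, e5, eventually_gt_atTop 0] with n f1 f2 f3 f4 f5 hn
  intro m l R J hm0 hm hl0 hl hR0 hR hJ0 hJ
  have hn0 : (0 : ℝ) < n := by exact_mod_cast hn
  have p1 : Cμ * R ≤ 2 * Cμ * (n : ℝ) ^ η := by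
    have : R ≤ 2 * (n : ℝ) ^ η := by linarith
    nlinarith
  have pl : ∀ s : ℝ, 0 < s → l ^ s ≤ 3 ^ s * (n : ℝ) ^ ((1 - η) * s) := by
    intro s hs
    calc l ^ s ≤ (3 * (n : ℝ) ^ (1 - η)) ^ s := Real.rpow_le_rpow hl0 hl hs.le
      _ = 3 ^ s * (n : ℝ) ^ ((1 - η) * s) := by
        rw [Real.mul_rpow (by norm_num) (by positivity), ← Real.rpow_mul hn0.le]
  have p2 : m * l ^ a' ≤ 3 ^ a' * (n : ℝ) ^ (η + (1 - η) * a') := by
    calc m * l ^ a' ≤ (n : ℝ) ^ η * (3 ^ a' * (n : ℝ) ^ ((1 - η) * a')) :=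
          mul_le_mul hm (pl a' ha) (by positivity) (by positivity)
      _ = 3 ^ a' * (n : ℝ) ^ (η + (1 - η) * a') := by rw [Real.rpow_add hn0]; ring
  have p3 : (2 * K + 1) * J * l ^ β ≤ (2 * K + 1) * 2 * 3 ^ β * (n : ℝ) ^ ((1 - η) * β + c') := by
    have h0 : (2 * (K : ℝ) + 1) * J ≤ (2 * K + 1) * (2 * (n : ℝ) ^ c') :=
      mul_le_mul_of_nonneg_left hJ (by positivity)
    calc (2 * K + 1) * J * l ^ β
        ≤ ((2 * K + 1) * (2 * (n : ℝ) ^ c')) * (3 ^ β * (n : ℝ) ^ ((1 - η) * β)) :=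
          mul_le_mul h0 (pl β hβ) (by positivity) (by positivity)
      _ = (2 * K + 1) * 2 * 3 ^ β * (n : ℝ) ^ ((1 - η) * β + c') := by
        rw [Real.rpow_add hn0]; ring
  have p4 : R * (n : ℝ) ^ c' ≤ 2 * (n : ℝ) ^ (η + c') := by
    have : R ≤ 2 * (n : ℝ) ^ η := by linarith
    calc R * (n : ℝ) ^ c' ≤ (2 * (n : ℝ) ^ η) * (n : ℝ) ^ c' :=
          mul_le_mul_of_nonneg_right this (by positivity)
      _ = 2 * (n : ℝ) ^ (η + c') := by rw [Real.rpow_add hn0]; ring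
  linarith

/-- the failure probability of the upper step -/
theorem up_prob {C q c η c' c'' : ℝ} (hC : 0 ≤ C) (K : ℕ) (hK : 1 ≤ K) (hq : 0 < q) (hc : 0 < c)
    (hη : 0 < η) (hη1 : η < 1) (hc' : 0 < c') (hc'' : 0 < c'')
    (h4 : η < (1 - η) * q) (h5 : c'' < c') (h6 : c'' < (1 - η) * c) :
    ∀ᶠ n : ℕ in atTop, ∀ (m l R : ℝ) (k J : ℕ), 0 ≤ m → m ≤ (n : ℝ) ^ η →
      (n : ℝ) ^ (1 - η) / 2 ≤ l → l = k → 0 ≤ R → R ≤ 2 * m → (n : ℝ) ^ c' ≤ J →
      (2 * K + 1) * (m * (C * l ^ (-q) + (1 / 4 : ℝ) ^ (K * k))) ^ J + m * Real.exp (-l ^ c) +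
        4 * (2 * R + 1) ^ 2 * Real.exp (-(n : ℝ) ^ c') ≤ Real.exp (-(n : ℝ) ^ c'') := by
  have hη' : 0 < 1 - η := by linarith
  -- `m (C l^(-q) + 4^(-K l)) ≤ exp (-1)`
  have e1 := pow_lt (show η - (1 - η) * q < 0 by linarith) (2 * Real.exp 1 * (C * 2 ^ q))
  have e2 := exp_absorb (c := 1 - η) (c' := (1 - η) / 2) (by linarith) (by linarith) η (1 / 2)
    (2 * Real.exp 1) (by norm_num)
  have e3 := exp_absorb hc'' h5 0 1 (3 * (2 * K + 1)) one_pos
  have e4 := exp_absorb hc'' h6 η ((1 / 2) ^ c) 3 (by positivity)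
  have e5 := exp_absorb hc'' h5 2 1 (3 * 100) one_pos
  filter_upwards [e1, e2, e3, e4, e5, eventually_gt_atTop 0] with n f1 f2 f3 f4 f5 hn
  intro m l R k J hm0 hm hl hlk hR0 hR hJ
  have hn0 : (0 : ℝ) < n := by exact_mod_cast hn
  have hn1 : (1 : ℝ) ≤ n := by exact_mod_cast hn
  have hlpos : 0 < l := lt_of_lt_of_le (by positivity) hl
  have hbase : m * (C * l ^ (-q) + (1 / 4 : ℝ) ^ (K * k)) ≤ Real.exp (-1) := by
    have g1 : C * l ^ (-q) ≤ C * (2 ^ q * (n : ℝ) ^ (-((1 - η) * q))) := by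
      apply mul_le_mul_of_nonneg_left _ hC
      calc l ^ (-q) ≤ ((n : ℝ) ^ (1 - η) / 2) ^ (-q) :=
            Real.rpow_le_rpow_of_nonpos (by positivity) hl (by linarith)
        _ = 2 ^ q * (n : ℝ) ^ (-((1 - η) * q)) := by
            rw [Real.div_rpow (by positivity) (by norm_num), ← Real.rpow_mul hn0.le,
              Real.rpow_neg (by norm_num : (0 : ℝ) ≤ 2), div_inv_eq_mul, mul_comm]
            congr 2
            ring
    have g2 : (1 / 4 : ℝ) ^ (K * k) ≤ Real.exp (-(1 / 2 * (n : ℝ) ^ (1 - η))) := by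
      have k1 : (1 / 4 : ℝ) ^ (K * k) ≤ (1 / 4 : ℝ) ^ k :=
        pow_le_pow_of_le_one (by norm_num) (by norm_num) (by nlinarith)
      have k2 : (1 / 4 : ℝ) ≤ Real.exp (-1) := by
        rw [Real.exp_neg]
        have := Real.exp_one_lt_d9
        rw [le_inv_comm₀ (by norm_num) (Real.exp_pos _)]
        linarith
      have k3 : (1 / 4 : ℝ) ^ k ≤ Real.exp (-l) := by
        calc (1 / 4 : ℝ) ^ k ≤ (Real.exp (-1)) ^ k := pow_le_pow_left₀ (by norm_num) k2 k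
          _ = Real.exp (-l) := by rw [← Real.exp_nat_mul, hlk]; congr 1; ring
      exact (k1.trans k3).trans (Real.exp_le_exp.2 (by linarith))
    have g3 : m * (C * l ^ (-q)) ≤ Real.exp (-1) / 2 := by
      calc m * (C * l ^ (-q)) ≤ (n : ℝ) ^ η * (C * (2 ^ q * (n : ℝ) ^ (-((1 - η) * q)))) :=
            mul_le_mul hm g1 (by positivity) (by positivity)
        _ = C * 2 ^ q * (n : ℝ) ^ (η - (1 - η) * q) := by
            rw [show η - (1 - η) * q = η + -((1 - η) * q) by ring, Real.rpow_add hn0]; ring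
        _ ≤ Real.exp (-1) / 2 := by
            rw [Real.rpow_zero] at f1
            have he : Real.exp (-1) = (Real.exp 1)⁻¹ := Real.exp_neg 1
            rw [he]
            have hpos := Real.exp_pos 1
            rw [inv_eq_one_div, div_div, le_div_iff₀ (by positivity)]
            nlinarith
    have g4 : m * (1 / 4 : ℝ) ^ (K * k) ≤ Real.exp (-1) / 2 := by
      have k1 : m * (1 / 4 : ℝ) ^ (K * k) ≤
          (n : ℝ) ^ η * Real.exp (-(1 / 2 * (n : ℝ) ^ (1 - η))) :=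
        mul_le_mul hm g2 (by positivity) (by positivity)
      have k2 : Real.exp (-(n : ℝ) ^ ((1 - η) / 2)) ≤ 1 := by
        rw [Real.exp_le_one_iff]
        have : (0 : ℝ) ≤ (n : ℝ) ^ ((1 - η) / 2) := by positivity
        linarith
      have he : Real.exp (-1) = (Real.exp 1)⁻¹ := Real.exp_neg 1
      have hpos := Real.exp_pos 1
      rw [he, inv_eq_one_div, div_div, le_div_iff₀ (by positivity)]
      nlinarith
    linarith
  have hpow : (m * (C * l ^ (-q) + (1 / 4 : ℝ) ^ (K * k))) ^ J ≤ Real.exp (-(n : ℝ) ^ c') := by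
    calc (m * (C * l ^ (-q) + (1 / 4 : ℝ) ^ (K * k))) ^ J ≤ (Real.exp (-1)) ^ J :=
          pow_le_pow_left₀ (by positivity) hbase J
      _ = Real.exp (-(J : ℝ)) := by rw [← Real.exp_nat_mul]; congr 1; ring
      _ ≤ Real.exp (-(n : ℝ) ^ c') := Real.exp_le_exp.2 (by linarith)
  have t1 : (2 * K + 1) * (m * (C * l ^ (-q) + (1 / 4 : ℝ) ^ (K * k))) ^ J ≤
      Real.exp (-(n : ℝ) ^ c'') / 3 := by
    have := mul_le_mul_of_nonneg_left hpow (show (0 : ℝ) ≤ 2 * K + 1 by positivity)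
    rw [Real.rpow_zero, one_mul] at f3
    linarith
  have t2 : m * Real.exp (-l ^ c) ≤ Real.exp (-(n : ℝ) ^ c'') / 3 := by
    have k1 : (1 / 2) ^ c * (n : ℝ) ^ ((1 - η) * c) ≤ l ^ c := by
      have k0 : ((n : ℝ) ^ (1 - η) * (1 / 2)) ^ c = (n : ℝ) ^ ((1 - η) * c) * (1 / 2) ^ c := by
        rw [Real.mul_rpow (by positivity) (by norm_num), ← Real.rpow_mul hn0.le]
      calc (1 / 2) ^ c * (n : ℝ) ^ ((1 - η) * c) = ((n : ℝ) ^ (1 - η) / 2) ^ c := by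
            rw [div_eq_mul_one_div ((n : ℝ) ^ (1 - η)) 2, k0, mul_comm]
        _ ≤ l ^ c := Real.rpow_le_rpow (by positivity) hl hc.le
    have k2 : m * Real.exp (-l ^ c) ≤
        (n : ℝ) ^ η * Real.exp (-((1 / 2) ^ c * (n : ℝ) ^ ((1 - η) * c))) :=
      mul_le_mul hm (Real.exp_le_exp.2 (by linarith)) (Real.exp_pos _).le (by positivity)
    linarith
  have t3 : 4 * (2 * R + 1) ^ 2 * Real.exp (-(n : ℝ) ^ c') ≤
      Real.exp (-(n : ℝ) ^ c'') / 3 := by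
    have k0 : (n : ℝ) ^ η ≤ n := by
      calc (n : ℝ) ^ η ≤ (n : ℝ) ^ (1 : ℝ) := Real.rpow_le_rpow_of_exponent_le hn1 hη1.le
        _ = n := Real.rpow_one _
    have k1 : 4 * (2 * R + 1) ^ 2 ≤ 100 * (n : ℝ) ^ (2 : ℝ) := by
      rw [Real.rpow_two]
      have : 2 * R + 1 ≤ 5 * n := by linarith
      have h0 : 0 ≤ 2 * R + 1 := by linarith
      nlinarith
    have k2 := mul_le_mul_of_nonneg_right k1 (Real.exp_pos (-(n : ℝ) ^ c')).le
    rw [one_mul] at f5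
    linarith
  linarith

/-- the upper step: from errors `l ^ β` with stretched exponential bounds and errors `l ^ a'`
with polynomial bounds to errors `n ^ β'` with stretched exponential bounds -/
theorem up_step {μ : ℝ × ℝ → ℝ} {Cμ : ℝ} (hμ : MuOK μ Cμ) (hsaw : SawBound)
    {a' q β β' η c' : ℝ} (ha : 0 < a') (ha1 : a' < 1) (hq : 0 < q) (H : HUp μ a' q)
    (hβ : 0 < β) (hS : SUp μ β) (hη : 0 < η) (hη1 : η < 1) (hc' : 0 < c')
    (h1 : η + (1 - η) * a' < β') (h2 : (1 - η) * β + c' < β') (h3 : η + c' < β')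
    (h4 : η < (1 - η) * q) : SUp μ β' := by
  obtain ⟨C, hC⟩ := H
  obtain ⟨c, hc, N0, hN0⟩ := hS
  have hη' : 0 < 1 - η := by linarith
  have hCμ := hμ.one_le
  -- constants
  set K : ℕ := ⌈2048 * (Cμ + 1)⌉₊ with hK
  have hKge : 2048 * (Cμ + 1) ≤ K := Nat.le_ceil _
  have hK1 : 1 ≤ K := by
    have : (1 : ℝ) ≤ K := by linarith
    exact_mod_cast this
  set c'' : ℝ := min c' ((1 - η) * c) / 2 with hc''
  have hmin : 0 < min c' ((1 - η) * c) := lt_min hc' (mul_pos hη' hc)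
  have hc''0 : 0 < c'' := by rw [hc'']; linarith
  have h5 : c'' < c' := by rw [hc'']; linarith [min_le_left c' ((1 - η) * c)]
  have h6 : c'' < (1 - η) * c := by rw [hc'']; linarith [min_le_right c' ((1 - η) * c)]
  have E1 := floor_pow hη
  have E2 := block_bounds hη hη1
  have E3 := up_error (Cμ := Cμ) (by linarith) K ha hβ hη hc' h1 h2 h3
  have E4 := up_prob (C := |C|) (abs_nonneg C) K hK1 hq hc hη hη1 hc' hc''0 h4 h5 h6
  have E5 := ge_const hη' (2 * (N0 + 1))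
  have E6 := ge_const hc' 1
  obtain ⟨N1, hN1⟩ := eventually_atTop.1 (E1.and (E2.and (E3.and (E4.and (E5.and E6)))))
  refine ⟨c'', hc''0, max N1 1, fun v hv => ?_⟩
  obtain ⟨⟨f1, f2, f3⟩, f4, f5, f6, f7, f8⟩ := hN1 (nrm v) (le_trans (le_max_left _ _) hv)
  set n := nrm v with hn
  have hn1 : 1 ≤ n := le_trans (le_max_right _ _) hv
  set m := ⌊(n : ℝ) ^ η⌋₊ with hm
  obtain ⟨u, r, hvur, hr⟩ := split_vec v m f1
  obtain ⟨hs1, hs2⟩ := split_nrm hvur hr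
  obtain ⟨b1, b2⟩ := f4 (nrm u) hs1 hs2
  have hu : N0 + 1 ≤ nrm u := by
    have : ((N0 + 1 : ℕ) : ℝ) ≤ nrm u := by push_cast; linarith
    exact_mod_cast this
  have hu1 : 1 ≤ nrm u := by omega
  have hu0 : u ≠ 0 := by
    intro h
    rw [h, nrm_zero] at hu1
    omega
  have hl1 : (1 : ℝ) ≤ nrm u := by exact_mod_cast hu1
  set J := ⌈(n : ℝ) ^ c'⌉₊ with hJ
  have hJ1 : (n : ℝ) ^ c' ≤ J := Nat.le_ceil _
  have hJ2 : (J : ℝ) ≤ 2 * (n : ℝ) ^ c' := by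
    have := Nat.ceil_lt_add_one (show 0 ≤ (n : ℝ) ^ c' by positivity)
    linarith
  have hla : (nrm u : ℝ) ^ a' ≤ nrm u := by
    calc (nrm u : ℝ) ^ a' ≤ (nrm u : ℝ) ^ (1 : ℝ) := Real.rpow_le_rpow_of_exponent_le hl1 ha1.le
      _ = nrm u := Real.rpow_one _
  have hP1 : PP.real {x | ¬ Fast x Set.univ 0 u (at' μ u + (nrm u : ℝ) ^ a')} ≤
      |C| * (nrm u : ℝ) ^ (-q) :=
    (hC u hu0).trans (mul_le_mul_of_nonneg_right (le_abs_self C) (by positivity))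
  have hP2 := hN0 u (by omega)
  have hsK : at' μ u + (nrm u : ℝ) ^ a' ≤ ((K * nrm u : ℕ) : ℝ) / 2048 := by
    have := hμ.le u
    push_cast
    have h0 : (Cμ + 1) * nrm u ≤ (K : ℝ) * nrm u / 2048 := by
      rw [le_div_iff₀ (by norm_num)]
      nlinarith
    linarith
  have hrR : (nrm r : ℝ) ≤ 2 * m := by exact_mod_cast hr
  have core := up_core hμ hsaw K v u r m hvur hu1 ((nrm u : ℝ) ^ a') ((nrm u : ℝ) ^ β)
    ((n : ℝ) ^ c') 1 _ _ (by positivity) (by positivity) (by positivity) one_pos hsK hP1 hP2 J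
  have herr := f5 m (nrm u) (nrm r) J (by positivity) f2 (by positivity) b1 (by positivity) hrR
    (by positivity) hJ2
  have hprob := f6 m (nrm u) (nrm r) (nrm u) J (by positivity) f2 b2 rfl (by positivity) hrR hJ1
  refine le_trans (measureReal_mono ?_ (measure_ne_top _ _)) (core.trans hprob)
  intro x hx hx2
  apply hx
  exact hx2.mono le_rfl (by linarith)

end Pool.Agent.K4H17.FPP
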